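import Pool.Agent.Lib.MP_ef6aaf_al.EF.Wg

set_option autoImplicit false

/-!
# The adjugate of the Gram matrix at `1 - M`
-/

namespace Pool.Agent.EF

open Finset

section
variable {α : Type*} [Fintype α] [DecidableEq α]

/-- the map sending a point to its cycle -/
private def adj_F (σ : Equiv.Perm α) (a : α) : {c // c ∈ σ.cycleFactorsFinset} ⊕ {x // σ x = x} :=
  if h : σ a = a then Sum.inr ⟨a, h⟩
  else Sum.inl ⟨σ.cycleOf a,
    Equiv.Perm.cycleOf_mem_cycleFactorsFinset_iff.mpr (Equiv.Perm.mem_support.mpr h)⟩

private theorem adj_F_iff (σ : Equiv.Perm α) (a b : α) : adj_F σ a = adj_F σ b ↔ σ.SameCycle a b := by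
  by_cases ha : σ a = a
  · have h1 : σ.SameCycle a b ↔ a = b := by
      constructor
      · intro h
        exact (h.eq_of_left ha)
      · rintro rfl
        exact Equiv.Perm.SameCycle.refl _ _
    rw [h1]
    by_cases hb : σ b = b
    · simp [adj_F, ha, hb]
    · simp only [adj_F, dif_pos ha, dif_neg hb]
      constructor
      · intro h
        exact absurd h (by simp)
      · rintro rfl
        exact absurd ha hb
  · by_cases hb : σ b = b
    · simp only [adj_F, dif_neg ha, dif_pos hb]
      constructor
      · intro h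
        exact absurd h (by simp)
      · intro h
        have h2 := h.symm.eq_of_left hb
        rw [h2] at hb
        exact absurd hb ha
    · simp only [adj_F, dif_neg ha, dif_neg hb]
      rw [Sum.inl.injEq, Subtype.mk.injEq,
        Equiv.Perm.sameCycle_iff_cycleOf_eq_of_mem_support (Equiv.Perm.mem_support.mpr ha)
          (Equiv.Perm.mem_support.mpr hb)]

theorem ncyc_add (σ : Equiv.Perm α) :
    ncyc σ + σ.cycleType.sum = Multiset.card σ.cycleType + Fintype.card α := by
  let F : Quotient (Equiv.Perm.SameCycle.setoid σ) →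
      {c // c ∈ σ.cycleFactorsFinset} ⊕ {x // σ x = x} :=
    Quotient.lift (adj_F σ) (fun a b h => (adj_F_iff σ a b).mpr h)
  have hF : Function.Bijective F := by
    constructor
    · intro p q
      induction p using Quotient.inductionOn with
      | _ a =>
        induction q using Quotient.inductionOn with
        | _ b =>
          intro h
          exact Quotient.sound ((adj_F_iff σ a b).mp h)
    · rintro (⟨c, hc⟩ | ⟨x, hx⟩)
      · have hcyc := (Equiv.Perm.mem_cycleFactorsFinset_iff.mp hc).1
        obtain ⟨x, hx, -⟩ := hcyc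
        have hxs : x ∈ c.support := Equiv.Perm.mem_support.mpr hx
        have h1 := Equiv.Perm.cycle_is_cycleOf hxs hc
        have h2 : σ x ≠ x := by
          have := Equiv.Perm.mem_cycleFactorsFinset_support_le hc hxs
          exact Equiv.Perm.mem_support.mp this
        refine ⟨Quotient.mk _ x, ?_⟩
        change adj_F σ x = _
        simp only [adj_F, dif_neg h2]
        congr 1
        exact Subtype.ext h1.symm
      · refine ⟨Quotient.mk _ x, ?_⟩
        change adj_F σ x = _
        simp only [adj_F, dif_pos hx]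
  have h1 : ncyc σ = Nat.card ({c // c ∈ σ.cycleFactorsFinset} ⊕ {x // σ x = x}) :=
    Nat.card_congr (Equiv.ofBijective F hF)
  have h2 : Nat.card {c // c ∈ σ.cycleFactorsFinset} = Multiset.card σ.cycleType := by
    rw [Nat.card_eq_fintype_card, Fintype.card_coe, Equiv.Perm.cycleType_def, Multiset.card_map]
    rfl
  have h3 : Nat.card {x // σ x = x} + σ.cycleType.sum = Fintype.card α := by
    have h4 := Equiv.Perm.card_fixedPoints σ
    have h5 := σ.sum_cycleType_le
    have h6 : Nat.card {x // σ x = x} = Fintype.card (Function.fixedPoints σ) := by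
      rw [← Nat.card_eq_fintype_card]
      rfl
    omega
  rw [Nat.card_sum, h2] at h1
  omega

theorem neg_one_pow_ncyc (σ : Equiv.Perm α) :
    (-1 : ℚ) ^ ncyc σ = (-1) ^ Fintype.card α * ((Equiv.Perm.sign σ : ℤ) : ℚ) := by
  have h1 := ncyc_add σ
  have h2 : ((Equiv.Perm.sign σ : ℤ) : ℚ) = (-1) ^ (σ.cycleType.sum + Multiset.card σ.cycleType) := by
    rw [Equiv.Perm.sign_of_cycleType]
    push_cast
    rfl
  rw [h2, ← pow_add]
  have h3 : Fintype.card α + (σ.cycleType.sum + Multiset.card σ.cycleType) =
      ncyc σ + 2 * σ.cycleType.sum := by omega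
  rw [h3, pow_add, pow_mul]
  norm_num

theorem card_fixQ (σ : Equiv.Perm α) (n : ℕ) :
    (∑ i : α → Fin n, if i ∘ σ = i then (1 : ℚ) else 0) = (n : ℚ) ^ ncyc σ := by
  classical
  rw [Finset.sum_boole]
  have h1 : ((univ.filter (fun i : α → Fin n => i ∘ σ = i)).card) =
      Nat.card {i : α → Fin n // i ∘ σ = i} := by
    rw [Nat.card_eq_fintype_card, Fintype.card_subtype]
  rw [h1, Nat.card_congr (fixEquiv σ), Nat.card_fun, Nat.card_eq_fintype_card (α := Fin n),
    Fintype.card_fin, Nat.cast_pow]
  rfl

theorem gm_neg (N : ℕ) (σ τ : Equiv.Perm α) : Gm α (-(N : ℚ)) τ σ =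
    (-1) ^ Fintype.card α * ((Equiv.Perm.sign σ : ℤ) : ℚ) * ((Equiv.Perm.sign τ : ℤ) : ℚ) *
      ∑ i : α → Fin N, if i ∘ σ = i ∘ τ then (1 : ℚ) else 0 := by
  have h1 : (∑ i : α → Fin N, if i ∘ σ = i ∘ τ then (1 : ℚ) else 0) =
      (N : ℚ) ^ ncyc (σ * τ⁻¹) := by
    rw [← card_fixQ]
    apply sum_congr rfl
    intro k _
    have h3 : (k ∘ (σ * τ⁻¹ : Equiv.Perm α) = k) ↔ (k ∘ σ = k ∘ τ) := by
      constructor
      · intro h
        funext a
        have := congrFun h (τ a)
        simpa using this
      · intro h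
        funext a
        have := congrFun h (τ⁻¹ a)
        simpa using this
    by_cases h4 : k ∘ σ = k ∘ τ
    · rw [if_pos h4, if_pos (h3.mpr h4)]
    · rw [if_neg h4, if_neg (fun h => h4 (h3.mp h))]
  rw [h1]
  change (-(N : ℚ)) ^ ncyc (σ * τ⁻¹) = _
  rw [neg_pow, neg_one_pow_ncyc, map_mul, map_inv, Int.units_inv_eq_self]
  push_cast
  ring

private theorem sq_sign (σ : Equiv.Perm α) :
    ((Equiv.Perm.sign σ : ℤ) : ℚ) * ((Equiv.Perm.sign σ : ℤ) : ℚ) = 1 := by
  rcases Int.units_eq_one_or (Equiv.Perm.sign σ) with h | h <;> rw [h] <;> norm_num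

theorem gm_mulVec_one (N : ℕ) (hN : N < Fintype.card α) :
    (Gm α (-(N : ℚ))).mulVec (fun _ => 1) = 0 := by
  funext τ
  simp only [Matrix.mulVec, dotProduct, mul_one, gm_neg, Pi.zero_apply]
  simp_rw [Finset.mul_sum]
  rw [Finset.sum_comm]
  apply Finset.sum_eq_zero
  intro i _
  obtain ⟨a, b, hab, hi⟩ := Fintype.exists_ne_map_eq_of_card_lt i (by simpa using hN)
  have hsw : i ∘ (Equiv.swap a b) = i := by
    funext x
    by_cases hxa : x = a
    · subst hxa
      simp [hi]
    · by_cases hxb : x = b
      · subst hxb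
        simp [hi]
      · simp [Equiv.swap_apply_of_ne_of_ne hxa hxb]
  set f : Equiv.Perm α → ℚ := fun σ => (-1) ^ Fintype.card α * ((Equiv.Perm.sign σ : ℤ) : ℚ) *
    ((Equiv.Perm.sign τ : ℤ) : ℚ) * (if i ∘ σ = i ∘ τ then (1 : ℚ) else 0) with hf
  have h1 : ∀ σ, f (Equiv.swap a b * σ) = - f σ := by
    intro σ
    have h2 : i ∘ (Equiv.swap a b * σ : Equiv.Perm α) = i ∘ σ := by
      rw [Equiv.Perm.coe_mul, ← Function.comp_assoc, hsw]
    simp only [hf, h2, map_mul, Equiv.Perm.sign_swap hab]
    push_cast
    ring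
  have h3 : ∑ σ, f σ = ∑ σ, f (Equiv.swap a b * σ) :=
    (Equiv.sum_comp (Equiv.mulLeft (Equiv.swap a b)) f).symm
  simp only [h1, Finset.sum_neg_distrib] at h3
  have h4 : ∑ σ, f σ = 0 := by linarith
  exact h4

theorem gm_ker (N : ℕ) (hN : N + 1 = Fintype.card α) (v : Equiv.Perm α → ℚ)
    (hv : (Gm α (-(N : ℚ))).mulVec v = 0) (σ τ : Equiv.Perm α) : v σ = v τ := by
  set u : Equiv.Perm α → ℚ := fun σ => ((Equiv.Perm.sign σ : ℤ) : ℚ) * v σ with hu
  -- the sum of squares
  have h1 : ∑ i : α → Fin N, ∑ j : α → Fin N, (∑ σ : Equiv.Perm α, if i ∘ σ = j then u σ else 0) ^ 2 =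
      0 := by
    have h2 : ∀ i : α → Fin N, ∑ j : α → Fin N,
        (∑ σ : Equiv.Perm α, if i ∘ σ = j then u σ else 0) ^ 2 =
        ∑ τ : Equiv.Perm α, ∑ σ : Equiv.Perm α, u τ * (u σ * if i ∘ σ = i ∘ τ then 1 else 0) := by
      intro i
      have h3 : ∀ j : α → Fin N, (∑ σ : Equiv.Perm α, if i ∘ σ = j then u σ else 0) ^ 2 =
          ∑ τ : Equiv.Perm α, if i ∘ τ = j then
            u τ * (∑ σ : Equiv.Perm α, if i ∘ σ = j then u σ else 0) else 0 := by
        intro j
        rw [sq, Finset.sum_mul]
        apply sum_congr rfl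
        intro τ _
        split_ifs <;> ring
      simp only [h3]
      rw [Finset.sum_comm]
      apply sum_congr rfl
      intro τ _
      rw [Finset.sum_ite_eq]
      rw [if_pos (mem_univ _), Finset.mul_sum]
      apply sum_congr rfl
      intro σ _
      split_ifs <;> ring
    simp only [h2]
    rw [Finset.sum_comm]
    apply Finset.sum_eq_zero
    intro τ _
    have h4 := congrFun hv τ
    simp only [Matrix.mulVec, dotProduct, gm_neg, Pi.zero_apply] at h4
    have h5 : ∑ i : α → Fin N, ∑ σ : Equiv.Perm α,
        u τ * (u σ * if i ∘ σ = i ∘ τ then (1 : ℚ) else 0) =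
        (-1) ^ Fintype.card α * v τ * ∑ σ : Equiv.Perm α, (-1) ^ Fintype.card α *
          ((Equiv.Perm.sign σ : ℤ) : ℚ) * ((Equiv.Perm.sign τ : ℤ) : ℚ) *
          (∑ i : α → Fin N, if i ∘ σ = i ∘ τ then (1 : ℚ) else 0) * v σ := by
      rw [Finset.sum_comm, Finset.mul_sum]
      apply sum_congr rfl
      intro σ _
      simp_rw [Finset.mul_sum, Finset.sum_mul, Finset.mul_sum]
      apply sum_congr rfl
      intro i _
      have h6 : ((-1 : ℚ) ^ Fintype.card α) * (-1) ^ Fintype.card α = 1 := by
        rw [← mul_pow]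
        norm_num
      simp only [hu]
      linear_combination (-((Equiv.Perm.sign τ : ℤ) : ℚ) * v τ * (((Equiv.Perm.sign σ : ℤ) : ℚ) * v σ *
        (if i ∘ σ = i ∘ τ then (1 : ℚ) else 0))) * h6
    rw [h5, h4, mul_zero]
  have h7 : ∀ (i j : α → Fin N), (∑ σ : Equiv.Perm α, if i ∘ σ = j then u σ else 0) = 0 := by
    intro i j
    have h8 := (Finset.sum_eq_zero_iff_of_nonneg (fun i _ => Finset.sum_nonneg
      (fun j _ => sq_nonneg _))).mp h1 i (mem_univ i)
    have h9 := (Finset.sum_eq_zero_iff_of_nonneg (fun j _ => sq_nonneg _)).mp h8 j (mem_univ j)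
    exact pow_eq_zero_iff (two_ne_zero) |>.mp h9
  -- one coincidence
  have hsw : ∀ (a b : α), a ≠ b → ∀ ρ : Equiv.Perm α, v (Equiv.swap a b * ρ) = v ρ := by
    intro a b hab ρ
    have hcard : Fintype.card {x // x ≠ b} = N := by
      rw [Fintype.card_subtype_compl, Fintype.card_subtype_eq]
      omega
    let e : {x // x ≠ b} ≃ Fin N := Fintype.equivFinOfCardEq hcard
    let i : α → Fin N := fun x => if h : x = b then e ⟨a, hab⟩ else e ⟨x, h⟩
    have hi1 : i b = e ⟨a, hab⟩ := by simp [i]
    have hi2 : ∀ x (h : x ≠ b), i x = e ⟨x, h⟩ := by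
      intro x h
      simp [i, h]
    have hi3 : i a = i b := by rw [hi1, hi2 a hab]
    have hi4 : ∀ x y, x ≠ b → y ≠ b → i x = i y → x = y := by
      intro x y hx hy hxy
      rw [hi2 x hx, hi2 y hy] at hxy
      have := e.injective hxy
      exact congrArg Subtype.val this
    have hi5 : ∀ x, x ≠ b → i x = i b → x = a := by
      intro x hx hxb
      rw [hi1, hi2 x hx] at hxb
      exact congrArg Subtype.val (e.injective hxb)
    have hfix : ∀ π : Equiv.Perm α, i ∘ π = i ↔ π = 1 ∨ π = Equiv.swap a b := by
      intro π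
      constructor
      · intro h
        have h0 : ∀ x, i (π x) = i x := fun x => congrFun h x
        have hx : ∀ x, x ≠ a → x ≠ b → π x = x := by
          intro x hxa hxb
          by_contra hne
          by_cases hpb : π x = b
          · exact hxa (hi5 x hxb (by rw [← h0 x, hpb]))
          · exact hne (hi4 _ _ hpb hxb (h0 x))
        have hb : π b = b ∨ π b = a := by
          by_cases hpb : π b = b
          · exact Or.inl hpb
          · exact Or.inr (hi5 _ hpb (h0 b))
        have ha : π a = a ∨ π a = b := by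
          by_cases hpa : π a = b
          · exact Or.inr hpa
          · refine Or.inl (hi5 _ hpa ?_)
            rw [h0 a, hi3]
        rcases hb with hb | hb
        · left
          have ha' : π a = a := by
            rcases ha with ha | ha
            · exact ha
            · exact absurd (π.injective (ha.trans hb.symm)) hab
          ext x
          by_cases hxa : x = a
          · rw [hxa, ha', Equiv.Perm.one_apply]
          · by_cases hxb : x = b
            · rw [hxb, hb, Equiv.Perm.one_apply]
            · rw [hx x hxa hxb, Equiv.Perm.one_apply]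
        · right
          have ha' : π a = b := by
            rcases ha with ha | ha
            · exact absurd (π.injective (ha.trans hb.symm)) hab
            · exact ha
          ext x
          by_cases hxa : x = a
          · rw [hxa, ha', Equiv.swap_apply_left]
          · by_cases hxb : x = b
            · rw [hxb, hb, Equiv.swap_apply_right]
            · rw [hx x hxa hxb, Equiv.swap_apply_of_ne_of_ne hxa hxb]
      · rintro (rfl | rfl)
        · rfl
        · funext x
          by_cases hxa : x = a
          · subst hxa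
            simp [hi3]
          · by_cases hxb : x = b
            · subst hxb
              simp [hi3]
            · simp [Equiv.swap_apply_of_ne_of_ne hxa hxb]
    have h10 := h7 i (i ∘ ρ)
    have h11 : ∀ σ : Equiv.Perm α, i ∘ σ = i ∘ ρ ↔ σ = ρ ∨ σ = Equiv.swap a b * ρ := by
      intro σ
      have h12 : (i ∘ (σ * ρ⁻¹ : Equiv.Perm α) = i) ↔ (i ∘ σ = i ∘ ρ) := by
        constructor
        · intro h
          funext x
          have := congrFun h (ρ x)
          simpa using this
        · intro h
          funext x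
          have := congrFun h (ρ⁻¹ x)
          simpa using this
      rw [← h12, hfix, mul_inv_eq_one, mul_inv_eq_iff_eq_mul]
    have hne : ρ ≠ Equiv.swap a b * ρ := by
      intro h
      have h13 := congrArg Equiv.Perm.sign h
      rw [map_mul, Equiv.Perm.sign_swap hab] at h13
      rcases Int.units_eq_one_or (Equiv.Perm.sign ρ) with h | h <;> rw [h] at h13 <;>
        exact absurd h13 (by decide)
    simp only [h11] at h10
    rw [← Finset.sum_filter] at h10
    have h14 : (univ.filter (fun σ : Equiv.Perm α => σ = ρ ∨ σ = Equiv.swap a b * ρ)) =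
        {ρ, Equiv.swap a b * ρ} := by
      ext σ
      simp
    rw [h14, Finset.sum_pair hne] at h10
    simp only [hu, map_mul, Equiv.Perm.sign_swap hab] at h10
    push_cast at h10
    have h15 := sq_sign ρ
    have h16 : ((Equiv.Perm.sign ρ : ℤ) : ℚ) * (v ρ - v (Equiv.swap a b * ρ)) = 0 := by
      linear_combination h10
    have h17 : ((Equiv.Perm.sign ρ : ℤ) : ℚ) ≠ 0 := by
      intro h
      rw [h] at h15
      norm_num at h15
    have h18 := (mul_eq_zero.mp h16).resolve_left h17
    linarith
  have hall : ∀ (π ρ : Equiv.Perm α), v (π * ρ) = v ρ := by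
    intro π ρ
    induction π using Equiv.Perm.swap_induction_on generalizing ρ with
    | one => rw [one_mul]
    | swap_mul f a b hab ih => rw [mul_assoc, hsw a b hab, ih]
  have h19 := hall (σ * τ⁻¹) τ
  rw [inv_mul_cancel_right] at h19
  exact h19

theorem ncyc_inv (σ : Equiv.Perm α) : ncyc σ⁻¹ = ncyc σ := by
  have h1 := ncyc_add σ
  have h2 := ncyc_add σ⁻¹
  rw [Equiv.Perm.cycleType_inv] at h2
  omega

theorem gm_symm {R : Type*} [CommRing R] (z : R) : (Gm α z).transpose = Gm α z := by
  ext σ τ
  change z ^ ncyc (σ * τ⁻¹) = z ^ ncyc (τ * σ⁻¹)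
  rw [← ncyc_inv, mul_inv_rev, inv_inv]

end

/-- a symmetric matrix with kernel spanned by the all-ones vector -/
theorem adj_of_ker {ι : Type*} [Fintype ι] [DecidableEq ι] [Nonempty ι] (A : Matrix ι ι ℚ)
    (hs : A.transpose = A) (h1 : A.mulVec (fun _ => 1) = 0)
    (hk : ∀ v, A.mulVec v = 0 → ∀ i j, v i = v j) :
    A.det = 0 ∧ ∃ c : ℚ, c ≠ 0 ∧ ∀ i j, A.adjugate i j = c := by
  have hdet : A.det = 0 := by
    apply Matrix.exists_mulVec_eq_zero_iff.mp
    refine ⟨fun _ => 1, ?_, h1⟩
    intro h
    obtain ⟨i⟩ := ‹Nonempty ι›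
    exact absurd (congrFun h i) (by simp)
  refine ⟨hdet, ?_⟩
  have hsym : ∀ i j, A.adjugate i j = A.adjugate j i := by
    intro i j
    have := congrFun (congrFun (Matrix.adjugate_transpose A) j) i
    rw [hs, Matrix.transpose_apply] at this
    exact this
  have hcol : ∀ i j k, A.adjugate i k = A.adjugate j k := by
    intro i j k
    have h2 : A.mulVec (fun i => A.adjugate i k) = 0 := by
      have h3 := Matrix.mul_adjugate A
      rw [hdet, zero_smul] at h3
      funext l
      have h4 := congrFun (congrFun h3 l) k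
      rw [Matrix.mul_apply] at h4
      exact h4
    exact hk _ h2 i j
  obtain ⟨o⟩ := ‹Nonempty ι›
  refine ⟨A.adjugate o o, ?_, fun i j => ?_⟩
  · -- not zero
    intro h0
    have hz : ∀ i j, A.adjugate i j = 0 := by
      intro i j
      rw [hcol i o j, hsym o j, hcol j o o, h0]
    have h2 : (A.updateCol o (fun _ => 1)).det = 0 := by
      rw [← Matrix.cramer_apply, Matrix.cramer_eq_adjugate_mulVec]
      simp only [Matrix.mulVec, dotProduct, hz, zero_mul, Finset.sum_const_zero]
    obtain ⟨v, hv0, hv⟩ := Matrix.exists_mulVec_eq_zero_iff.mpr h2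
    have h3 : ∀ k, (A.updateCol o (fun _ => 1)).mulVec v k = A.mulVec v k + v o * (1 - A k o) := by
      intro k
      simp only [Matrix.mulVec, dotProduct, Matrix.updateCol_apply]
      have h4 : ∀ j, (if j = o then (1 : ℚ) else A k j) * v j =
          A k j * v j + (if j = o then (1 - A k j) * v j else 0) := by
        intro j
        split_ifs <;> ring
      simp only [h4, Finset.sum_add_distrib, Finset.sum_ite_eq', mem_univ, if_true]
      ring
    -- sum over all the coordinates
    have h5 : ∀ j, ∑ k, A k j = 0 := by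
      intro j
      have h6 := congrFun h1 j
      simp only [Matrix.mulVec, dotProduct, mul_one, Pi.zero_apply] at h6
      rw [← h6]
      apply sum_congr rfl
      intro k _
      exact congrFun (congrFun hs j) k
    have h7 : ∑ k, A.mulVec v k = 0 := by
      simp only [Matrix.mulVec, dotProduct]
      rw [Finset.sum_comm]
      apply Finset.sum_eq_zero
      intro j _
      rw [← Finset.sum_mul, h5, zero_mul]
    have h8 : ∑ k, ((A.updateCol o (fun _ => 1)).mulVec v k) = 0 := by
      rw [hv]
      simp
    simp only [h3, Finset.sum_add_distrib, h7, zero_add] at h8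
    rw [← Finset.mul_sum, Finset.sum_sub_distrib, h5, sub_zero] at h8
    have h9 : (∑ _k : ι, (1 : ℚ)) ≠ 0 := by
      simp only [Finset.sum_const, Finset.card_univ, nsmul_eq_mul, mul_one]
      have : Nonempty ι := ⟨o⟩
      exact_mod_cast Fintype.card_ne_zero (α := ι)
    have h10 : v o = 0 := (mul_eq_zero.mp h8).resolve_right h9
    have h11 : A.mulVec v = 0 := by
      funext k
      have := h3 k
      rw [hv, h10, zero_mul, add_zero] at this
      exact this.symm
    apply hv0
    funext k
    rw [hk v h11 k o, h10]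
    rfl
  · rw [hcol i o j, hsym o j, hcol j o o]

/-- The determinant of the Gram matrix vanishes at `1 - M`, and all entries of the adjugate are equal to a
nonzero constant. -/
theorem adj_gm {α : Type*} [Fintype α] [DecidableEq α] (N : ℕ) (hN : N + 1 = Fintype.card α) :
    (Gm α (-(N : ℚ))).det = 0 ∧ ∃ c : ℚ, c ≠ 0 ∧ ∀ σ τ, (Gm α (-(N : ℚ))).adjugate σ τ = c :=
  adj_of_ker _ (gm_symm _) (gm_mulVec_one N (by omega)) (fun v hv i j => gm_ker N hN v hv i j)

end Pool.Agent.EF
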