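import Mathlib

/-!
The block lemma (helper41's positivity side of MP_ef6aaf_al): first and last passages.
For a square matrix `C` over a commutative ring and a state `o`, with `W` the matrix `C`
with the state `o` removed,
`m (C^m)_oo = ∑_{j=1}^m (Tr C^j - Tr W^j) (C^(m-j))_oo`.
-/

namespace Pool.Agent.EF

open Matrix Finset PowerSeries

variable {R : Type*} [CommRing R] {n : Type*} [Fintype n] [DecidableEq n]

/-- The matrix `C` with row and column `o` replaced by `0`. -/
def kill (C : Matrix n n R) (o : n) : Matrix n n R :=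
  fun i j => if i = o ∨ j = o then 0 else C i j

theorem kill_pow_row (C : Matrix n n R) (o i : n) (hi : i ≠ o) (m : ℕ) :
    ((kill C o) ^ m) o i = 0 := by
  cases m with
  | zero => simp [hi.symm]
  | succ m =>
    rw [pow_succ', Matrix.mul_apply]
    exact Finset.sum_eq_zero fun j _ => by simp [kill]

theorem kill_pow_oo (C : Matrix n n R) (o : n) (m : ℕ) :
    ((kill C o) ^ (m + 1)) o o = 0 := by
  rw [pow_succ', Matrix.mul_apply]
  exact Finset.sum_eq_zero fun j _ => by simp [kill]

/-- Last passage: a walk of length `m` from `j` to `i ≠ o` either never meets `o`, or splits at its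
last visit to `o`. -/
theorem last_passage (C : Matrix n n R) (o i : n) (hi : i ≠ o) (m : ℕ) (j : n) :
    (C ^ m) j i = ((kill C o) ^ m) j i
      + ∑ k ∈ Finset.range m, (C ^ (m - 1 - k)) j o * (C * (kill C o) ^ k) o i := by
  induction m generalizing j with
  | zero => simp
  | succ m ih =>
    rw [pow_succ', Matrix.mul_apply]
    have h1 : ∀ a, C j a * (C ^ m) a i = C j a * ((kill C o) ^ m) a i
        + ∑ k ∈ Finset.range m,
          C j a * (C ^ (m - 1 - k)) a o * (C * (kill C o) ^ k) o i := by
      intro a
      rw [ih a, mul_add, Finset.mul_sum]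
      congr 1
      exact Finset.sum_congr rfl fun k _ => by ring
    rw [Finset.sum_congr rfl fun a _ => h1 a, Finset.sum_add_distrib, Finset.sum_comm]
    have h2 : ∀ k ∈ Finset.range m, ∑ a, C j a * (C ^ (m - 1 - k)) a o
          * (C * (kill C o) ^ k) o i
        = (C ^ (m + 1 - 1 - k)) j o * (C * (kill C o) ^ k) o i := by
      intro k hk
      rw [← Finset.sum_mul, ← Matrix.mul_apply, ← pow_succ']
      have : m - 1 - k + 1 = m + 1 - 1 - k := by
        have := Finset.mem_range.1 hk
        omega
      rw [this]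
    rw [Finset.sum_congr rfl h2, Finset.sum_range_succ]
    have h3 : ∑ a, C j a * ((kill C o) ^ m) a i
        = ((kill C o) ^ (m + 1)) j i
          + (C ^ (m + 1 - 1 - m)) j o * (C * (kill C o) ^ m) o i := by
      have h0 : (m + 1 - 1 - m) = 0 := by omega
      rw [h0, pow_zero, pow_succ', Matrix.mul_apply]
      by_cases hj : j = o
      · subst hj
        have : ∑ a, kill C j j a * ((kill C j) ^ m) a i = 0 :=
          Finset.sum_eq_zero fun a _ => by simp [kill]
        rw [this, Matrix.one_apply_eq, one_mul, zero_add, Matrix.mul_apply]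
      · rw [Matrix.one_apply_ne hj, zero_mul, add_zero]
        refine Finset.sum_congr rfl fun a _ => ?_
        by_cases ha : a = o
        · subst ha
          rw [kill_pow_row C a i hi m, mul_zero, mul_zero]
        · simp [kill, hj, ha]
    rw [h3]
    ring

/-- Generating function of the `(i, j)` entries of the powers. -/
noncomputable def gf (C : Matrix n n R) (i j : n) : R⟦X⟧ := PowerSeries.mk fun m => (C ^ m) i j

theorem gf_col (C : Matrix n n R) (o i : n) (hi : i ≠ o) (j : n) :
    gf C j i = gf (kill C o) j i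
      + gf C j o * (X * PowerSeries.mk fun k => (C * (kill C o) ^ k) o i) := by
  ext m
  rw [map_add, mul_left_comm]
  cases m with
  | zero => simp [gf]
  | succ m =>
    rw [PowerSeries.coeff_succ_X_mul, PowerSeries.coeff_mul]
    simp only [gf, PowerSeries.coeff_mk]
    rw [last_passage C o i hi (m + 1) j]
    congr 1
    rw [Finset.Nat.sum_antidiagonal_eq_sum_range_succ_mk,
      ← Finset.sum_range_reflect]
    refine Finset.sum_congr rfl fun k hk => ?_
    have hk' := Finset.mem_range.1 hk
    have e2 : m + 1 - 1 - k = m - k := by omega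
    have e3 : m + 1 - 1 - (m - k) = k := by omega
    simp only [e2, e3]

theorem gf_kill_row (C : Matrix n n R) (o i : n) (hi : i ≠ o) :
    gf (kill C o) o i = 0 := by
  ext m
  simp [gf, kill_pow_row C o i hi m]

theorem gf_kill_oo (C : Matrix n n R) (o : n) :
    gf (kill C o) o o = 1 := by
  ext m
  cases m with
  | zero => simp [gf]
  | succ m => simp [gf, kill_pow_oo C o m, PowerSeries.coeff_one]

theorem gf_sq (C : Matrix n n R) (i : n) (m : ℕ) :
    PowerSeries.coeff m (∑ j, gf C i j * gf C j i) = (m + 1 : R) * (C ^ m) i i := by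
  rw [map_sum]
  simp only [PowerSeries.coeff_mul, gf, PowerSeries.coeff_mk]
  rw [Finset.sum_comm]
  have : ∀ p ∈ HasAntidiagonal.antidiagonal m, ∑ j, (C ^ p.1) i j * (C ^ p.2) j i = (C ^ m) i i := by
    intro p hp
    rw [← Matrix.mul_apply, ← pow_add, HasAntidiagonal.mem_antidiagonal.1 hp]
  rw [Finset.sum_congr rfl this, Finset.sum_const, Finset.Nat.card_antidiagonal, nsmul_eq_mul]
  push_cast
  ring

/-- The power series of `Tr C^m - Tr W^m` times that of `(C^m)_oo` is that of `m (C^m)_oo`. -/
theorem block_gf (C : Matrix n n R) (o : n) :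
    (∑ i, (gf C i i - gf (kill C o) i i)) * gf C o o = (∑ i, gf C o i * gf C i o) - gf C o o := by
  rw [← Finset.add_sum_erase _ _ (Finset.mem_univ o), ← Finset.add_sum_erase (Finset.univ)
    (fun i => gf C o i * gf C i o) (Finset.mem_univ o), gf_kill_oo, add_mul, Finset.sum_mul]
  have : ∀ i ∈ Finset.univ.erase o, (gf C i i - gf (kill C o) i i) * gf C o o
      = gf C o i * gf C i o := by
    intro i hi
    have hi' : i ≠ o := Finset.ne_of_mem_erase hi
    have h1 := gf_col C o i hi' i
    have h2 := gf_col C o i hi' o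
    rw [gf_kill_row C o i hi', zero_add] at h2
    rw [h2, h1]
    ring
  rw [Finset.sum_congr rfl this]
  ring

/-- **Block lemma**, antidiagonal form (the term `p.1 = 0` vanishes). -/
theorem block_antidiagonal (C : Matrix n n R) (o : n) (m : ℕ) :
    (m : R) * (C ^ m) o o = ∑ p ∈ HasAntidiagonal.antidiagonal m,
      ((C ^ p.1).trace - ((kill C o) ^ p.1).trace) * (C ^ p.2) o o := by
  have h := congrArg (PowerSeries.coeff m) (block_gf C o)
  rw [map_sub, gf_sq, PowerSeries.coeff_mul] at h
  have h2 : ∀ p ∈ HasAntidiagonal.antidiagonal m,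
      PowerSeries.coeff p.1 (∑ i, (gf C i i - gf (kill C o) i i)) *
        PowerSeries.coeff p.2 (gf C o o)
      = ((C ^ p.1).trace - ((kill C o) ^ p.1).trace) * (C ^ p.2) o o := by
    intro p _
    rw [map_sum]
    simp only [gf, map_sub, PowerSeries.coeff_mk, Matrix.trace, Matrix.diag_apply]
    rw [Finset.sum_sub_distrib]
  rw [Finset.sum_congr rfl h2] at h
  rw [h]
  simp only [gf, PowerSeries.coeff_mk]
  ring

/-- **Block lemma.** -/
theorem block (C : Matrix n n R) (o : n) (m : ℕ) :
    (m : R) * (C ^ m) o o = ∑ j ∈ Finset.range m,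
      ((C ^ (j + 1)).trace - ((kill C o) ^ (j + 1)).trace) * (C ^ (m - 1 - j)) o o := by
  rw [block_antidiagonal C o m, Finset.Nat.sum_antidiagonal_eq_sum_range_succ_mk,
    Finset.sum_range_succ']
  simp only [pow_zero, sub_self, zero_mul, add_zero]
  refine Finset.sum_congr rfl fun j _ => ?_
  have : m - (j + 1) = m - 1 - j := by omega
  rw [this]

theorem block_Icc (C : Matrix n n R) (o : n) (m : ℕ) :
    (m : R) * (C ^ m) o o = ∑ j ∈ Finset.Icc 1 m,
      ((C ^ j).trace - ((kill C o) ^ j).trace) * (C ^ (m - j)) o o := by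
  rw [block C o m]
  refine Finset.sum_bij (fun j _ => j + 1) ?_ ?_ ?_ ?_
  · intro j hj
    rw [Finset.mem_Icc]
    have := Finset.mem_range.1 hj
    omega
  · intro a _ b _ h
    exact Nat.succ_injective h
  · intro b hb
    have := Finset.mem_Icc.1 hb
    exact ⟨b - 1, Finset.mem_range.2 (by omega), by omega⟩
  · intro j _
    have : m - (j + 1) = m - 1 - j := by omega
    rw [this]

/-- The entries of the powers of the matrix with `o` removed. -/
theorem kill_pow_sub (C : Matrix n n R) (o : n) (m : ℕ) (i j : {i : n // i ≠ o}) :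
    ((kill C o) ^ m) i.1 j.1
      = ((C.submatrix (Subtype.val : {i : n // i ≠ o} → n) Subtype.val) ^ m) i j := by
  induction m generalizing i with
  | zero =>
    rw [pow_zero, pow_zero, Matrix.one_apply, Matrix.one_apply]
    simp [Subtype.ext_iff]
  | succ m ih =>
    rw [pow_succ', pow_succ', Matrix.mul_apply, Matrix.mul_apply,
      ← Finset.add_sum_erase _ _ (Finset.mem_univ o)]
    have h0 : kill C o i.1 o = 0 := by simp [kill]
    rw [h0, zero_mul, zero_add]
    rw [Finset.sum_subtype (Finset.univ.erase o) (p := fun i => i ≠ o) (by simp)]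
    refine Finset.sum_congr rfl fun a _ => ?_
    rw [ih a]
    congr 1
    simp [kill, i.2, a.2]

theorem kill_trace_sub (C : Matrix n n R) (o : n) (m : ℕ) :
    ((kill C o) ^ (m + 1)).trace
      = ((C.submatrix (Subtype.val : {i : n // i ≠ o} → n) Subtype.val) ^ (m + 1)).trace := by
  rw [Matrix.trace, Matrix.trace, ← Finset.add_sum_erase _ _ (Finset.mem_univ o),
    Matrix.diag_apply, kill_pow_oo, zero_add,
    Finset.sum_subtype (Finset.univ.erase o) (p := fun i => i ≠ o) (by simp)]
  exact Finset.sum_congr rfl fun a _ => kill_pow_sub C o (m + 1) a a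

end Pool.Agent.EF
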