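import Pool.Agent.Lib.MP_ef6aaf_al.EF.HaarA

/-!
# MP_ef6aaf_al, EF: sums over closed paths, the arcs of `k` copies of a word and of its inverse
-/

set_option autoImplicit false
set_option linter.unusedSectionVars false

namespace Pool.Agent.EF

open Finset MeasureTheory Matrix

section

variable {A : Type*} [Fintype A] [DecidableEq A] {n : ℕ}

/-- sum over the closed paths: the arc `a` carries the matrix `X a`, the letter between `a` and
`nx a` is `Y a` -/
noncomputable def Ph (nx : Equiv.Perm A) (X Y : A → Mn n) : ℂ :=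
  ∑ i : A → Fin n, ∑ j : A → Fin n, ∏ a, X a (i a) (j a) * Y a (j a) (i (nx a))

theorem Ph_eq (nx : Equiv.Perm A) (X Y : A → Mn n) :
    Ph nx X Y = ∑ i : A → Fin n, ∏ a, (X a * Y a) (i a) (i (nx a)) := by
  refine sum_congr rfl fun i _ => ?_
  simp only [Matrix.mul_apply]
  rw [Finset.prod_univ_sum, Fintype.piFinset_univ]

theorem star_Ph (nx : Equiv.Perm A) (X Y : A → Mn n) :
    star (Ph nx X Y) = Ph nx.symm (fun a => (X a)ᴴ) (fun a => (Y (nx.symm a))ᴴ) := by
  simp only [Ph, star_sum]
  rw [Finset.sum_comm]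
  refine sum_congr rfl fun j _ => sum_congr rfl fun i _ => ?_
  rw [star_prod, Finset.prod_mul_distrib]
  rw [← Equiv.prod_comp nx (fun a => (Y (nx.symm a))ᴴ (i a) (j (nx.symm a))),
    ← Finset.prod_mul_distrib]
  refine prod_congr rfl fun a _ => ?_
  rw [Equiv.symm_apply_apply, star_mul', Matrix.conjTranspose_apply, Matrix.conjTranspose_apply]

/-- the sum over a disjoint union of copies -/
theorem Ph_prod {Q T : Type*} [Fintype Q] [DecidableEq Q] [Fintype T] [DecidableEq T]
    (r : Q → Equiv.Perm T) (X Y : Q → T → Mn n) :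
    Ph (Equiv.sigmaEquivProd Q T |>.symm.trans (Equiv.sigmaCongrRight r) |>.trans
      (Equiv.sigmaEquivProd Q T)) (fun a => X a.1 a.2) (fun a => Y a.1 a.2) =
      ∏ q, Ph (r q) (X q) (Y q) := by
  simp only [Ph_eq]
  rw [Finset.prod_univ_sum, Fintype.piFinset_univ, ← Equiv.sum_comp (Equiv.curry Q T (Fin n)).symm]
  refine sum_congr rfl fun i _ => ?_
  rw [Fintype.prod_prod_type]
  rfl

/-- the next arc, `k` copies of a word and of its inverse -/
def nxA (k : ℕ) {T : Type*} (rot : Equiv.Perm T) : Equiv.Perm ((Bool × Fin k) × T) :=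
  (Equiv.sigmaEquivProd (Bool × Fin k) T).symm.trans
    ((Equiv.sigmaCongrRight fun q => if q.1 then rot else rot.symm).trans
      (Equiv.sigmaEquivProd (Bool × Fin k) T))

/-- the sign of the letter after an arc -/
def epsA (k : ℕ) {T : Type*} (rot : Equiv.Perm T) (eps : T → Bool) : (Bool × Fin k) × T → Bool :=
  fun a => if a.1.1 then eps a.2 else !eps (rot.symm a.2)

/-- the exponent of an arc -/
def cA (k : ℕ) {T : Type*} (c : T → ℤ) : (Bool × Fin k) × T → ℤ :=
  fun a => if a.1.1 then c a.2 else -c a.2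

/-- the colour of an arc -/
def colA (k : ℕ) {T : Type*} (col : T → Bool) : (Bool × Fin k) × T → Bool :=
  fun a => col a.2

theorem nxA_true (k : ℕ) {T : Type*} (rot : Equiv.Perm T) (q : Fin k) (t : T) :
    nxA k rot ((true, q), t) = ((true, q), rot t) := rfl

theorem nxA_false (k : ℕ) {T : Type*} (rot : Equiv.Perm T) (q : Fin k) (t : T) :
    nxA k rot ((false, q), t) = ((false, q), rot.symm t) := rfl

/-- The integrand: `∏ a, x_{col a}^{c a} y^{eps a}` along the cycles of `nx`. -/
noncomputable def Phi (nx : Equiv.Perm A) (eps : A → Bool) (c : A → ℤ) (col : A → Bool)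
    (x : Bool → Un n) (y : Un n) : ℂ :=
  Ph nx (fun a => ((x (col a) ^ c a : Un n) : Mn n))
    (fun a => ((if eps a then y else y⁻¹ : Un n) : Mn n))

theorem Phi_arcs (k : ℕ) {T : Type*} [Fintype T] [DecidableEq T] (rot : Equiv.Perm T)
    (eps : T → Bool) (c : T → ℤ) (col : T → Bool) (x : Bool → Un n) (y : Un n) :
    Phi (nxA k rot) (epsA k rot eps) (cA k c) (colA k col) x y =
      Phi rot eps c col x y ^ k * star (Phi rot eps c col x y) ^ k := by
  have h1 := Ph_prod (n := n) (fun q : Bool × Fin k => if q.1 then rot else rot.symm)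
    (fun q t => ((x (col t) ^ (if q.1 then c t else -c t) : Un n) : Mn n))
    (fun q t => ((if (if q.1 then eps t else !eps (rot.symm t)) then y else y⁻¹ : Un n) : Mn n))
  have h2 : Phi (nxA k rot) (epsA k rot eps) (cA k c) (colA k col) x y = _ := h1
  rw [h2, Fintype.prod_prod_type, Fintype.prod_bool]
  have h3 : ∀ u : Un n, ((u : Mn n))ᴴ = ((u⁻¹ : Un n) : Mn n) := fun u => rfl
  have h4 : star (Phi rot eps c col x y) = Ph rot.symm
      (fun t => ((x (col t) ^ (-c t) : Un n) : Mn n))
      (fun t => ((if !eps (rot.symm t) then y else y⁻¹ : Un n) : Mn n)) := by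
    rw [Phi, star_Ph]
    congr 1
    · funext t
      rw [h3, _root_.zpow_neg]
    · funext t
      rw [h3]
      cases eps (rot.symm t) <;> simp
  rw [h4]
  simp only [Finset.prod_const, Finset.card_univ, Fintype.card_fin, if_true, if_false,
    Bool.false_eq_true]
  rfl

end

section

variable {n R : Type*} [Fintype n] [DecidableEq n] [CommSemiring R]

/-- the trace of a product as a sum over closed paths, open form -/
theorem trace_ofFn_aux (k : ℕ) : ∀ Z : Fin (k + 1) → Matrix n n R,
    trace (List.ofFn Z).prod = ∑ i : Fin (k + 1) → n,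
      (∏ j : Fin k, Z j.castSucc (i j.castSucc) (i j.succ)) * Z (Fin.last k) (i (Fin.last k)) (i 0) := by
  induction k with
  | zero =>
    intro Z
    rw [trace, ← Equiv.sum_comp (Equiv.funUnique (Fin 1) n).symm]
    simp [Fin.last]
  | succ k ih =>
    intro Z
    let Z' : Fin (k + 1) → Matrix n n R := Fin.snoc (α := fun _ => Matrix n n R)
      (fun j : Fin k => Z j.castSucc.castSucc) (Z (Fin.last k).castSucc * Z (Fin.last (k + 1)))
    have h1 : ∀ j : Fin k, Z' j.castSucc = Z j.castSucc.castSucc := fun j => by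
      simp only [Z', Fin.snoc_castSucc]
    have h2 : Z' (Fin.last k) = Z (Fin.last k).castSucc * Z (Fin.last (k + 1)) := by
      simp only [Z', Fin.snoc_last]
    have h3 : (List.ofFn Z).prod = (List.ofFn Z').prod := by
      rw [List.ofFn_succ' Z, List.ofFn_succ' (fun i : Fin (k + 1) => Z i.castSucc),
        List.ofFn_succ' Z', List.prod_concat, List.prod_concat, List.prod_concat, h2, mul_assoc]
      simp only [h1]
    rw [h3, ih Z']
    symm
    rw [← Equiv.sum_comp (Fin.snocEquiv (fun _ : Fin (k + 1 + 1) => n)),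
      Fintype.sum_prod_type_right]
    refine Finset.sum_congr rfl fun i _ => ?_
    rw [h2, Matrix.mul_apply, Finset.mul_sum]
    refine Finset.sum_congr rfl fun r _ => ?_
    have e1 : ∀ j : Fin (k + 1), (Fin.snocEquiv (fun _ : Fin (k + 1 + 1) => n)) (r, i)
        j.castSucc = i j := fun j => Fin.snoc_castSucc (α := fun _ : Fin (k + 1 + 1) => n) _ _ _
    have e2 : (Fin.snocEquiv (fun _ : Fin (k + 1 + 1) => n)) (r, i) (Fin.last (k + 1)) = r :=
      Fin.snoc_last (α := fun _ : Fin (k + 1 + 1) => n) _ _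
    have e3 : (Fin.snocEquiv (fun _ : Fin (k + 1 + 1) => n)) (r, i) 0 = i 0 := e1 0
    have e4 : ∀ j : Fin k, (Fin.snocEquiv (fun _ : Fin (k + 1 + 1) => n)) (r, i)
        j.castSucc.succ = i j.succ := fun j => e1 j.succ
    have e5 : (Fin.snocEquiv (fun _ : Fin (k + 1 + 1) => n)) (r, i) (Fin.last k).succ = r := e2
    rw [Fin.prod_univ_castSucc, e2, e3, e5, e1]
    simp only [e1, e4, h1]
    ring

/-- The trace of a product as a sum over closed paths. -/
theorem trace_ofFn (l : ℕ) (hl : 0 < l) (Z : Fin l → Matrix n n R) :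
    trace (List.ofFn Z).prod = ∑ i : Fin l → n, ∏ j, Z j (i j) (i (finRotate l j)) := by
  obtain ⟨k, rfl⟩ : ∃ k, l = k + 1 := ⟨l - 1, by omega⟩
  rw [trace_ofFn_aux]
  refine Finset.sum_congr rfl fun i _ => ?_
  rw [Fin.prod_univ_castSucc]
  simp

end

section

variable {n : ℕ}

theorem Ph_fin (l : ℕ) (hl : 0 < l) (X Y : Fin l → Mn n) :
    Ph (finRotate l) X Y = trace (List.ofFn fun t => X t * Y t).prod := by
  rw [Ph_eq, trace_ofFn l hl]

/-- the cyclic order of the arcs `(0, false), (0, true), (1, false), (1, true), …` -/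
def rotS (s : ℕ) : Equiv.Perm (Fin s × Bool) where
  toFun a := if a.2 then (finRotate s a.1, false) else (a.1, true)
  invFun a := if a.2 then (a.1, false) else ((finRotate s).symm a.1, true)
  left_inv := by
    rintro ⟨t, b⟩
    cases b
    · rfl
    · exact Prod.ext (Equiv.symm_apply_apply _ _) rfl
  right_inv := by
    rintro ⟨t, b⟩
    cases b
    · exact Prod.ext (Equiv.apply_symm_apply _ _) rfl
    · rfl

/-- pairs of functions as functions on `Fin s × Bool` -/
def pairEquiv (s : ℕ) (N : Type*) : ((Fin s → N) × (Fin s → N)) ≃ (Fin s × Bool → N) where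
  toFun p a := if a.2 then p.2 a.1 else p.1 a.1
  invFun i := (fun t => i (t, false), fun t => i (t, true))
  left_inv _ := rfl
  right_inv i := by
    funext ⟨t, b⟩
    cases b <;> rfl

theorem Ph_rotS (s : ℕ) (hs : 0 < s) (X Y : Fin s × Bool → Mn n) :
    Ph (rotS s) X Y = trace (List.ofFn fun t =>
      (X (t, false) * Y (t, false)) * (X (t, true) * Y (t, true))).prod := by
  rw [← Ph_fin s hs, Ph_eq, Ph, ← Equiv.sum_comp (pairEquiv s (Fin n)), Fintype.sum_prod_type]
  refine sum_congr rfl fun i _ => sum_congr rfl fun j _ => ?_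
  rw [Fintype.prod_prod_type]
  refine prod_congr rfl fun t _ => ?_
  rw [Fintype.prod_bool, mul_comm]
  rfl

theorem coe_prod_ofFn (l : ℕ) (g : Fin l → Un n) :
    (((List.ofFn g).prod : Un n) : Mn n) = (List.ofFn fun t => (g t : Mn n)).prod := by
  have h := map_list_prod (Matrix.unitaryGroup (Fin n) ℂ).subtype (List.ofFn g)
  rw [List.map_ofFn] at h
  exact h

/-- the cyclic word `∏ x_{col t}^{c t} y^{± 1}` -/
theorem Phi_fin (l : ℕ) (hl : 0 < l) (eps : Fin l → Bool) (c : Fin l → ℤ) (col : Fin l → Bool)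
    (x : Bool → Un n) (y : Un n) :
    Phi (finRotate l) eps c col x y = trace (((List.ofFn fun t => x (col t) ^ c t *
      (if eps t then y else y⁻¹)).prod : Un n) : Mn n) := by
  rw [Phi, Ph_fin l hl, coe_prod_ofFn]
  rfl

/-- the cyclic word `∏ x_0^{a t} y x_1^{b t} y⁻¹` -/
theorem Phi_rotS (s : ℕ) (hs : 0 < s) (a b : Fin s → ℤ) (x : Bool → Un n) (y : Un n) :
    Phi (rotS s) (fun t => !t.2) (fun t => if t.2 then b t.1 else a t.1) (fun t => t.2) x y =
      trace (((List.ofFn fun t => x false ^ a t * (y * x true ^ b t * y⁻¹)).prod : Un n) :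
        Mn n) := by
  rw [Phi, Ph_rotS s hs, coe_prod_ofFn]
  congr 3
  funext t
  simp only [Bool.not_false, Bool.not_true, if_true, Bool.false_eq_true, if_false]
  change _ * _ * (_ * _) = _ * ((_ * _) * _)
  simp only [mul_assoc]

end

end Pool.Agent.EF
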