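import Pool.Agent.Lib.MP_ef6aaf_al.EF.DS
import Pool.Agent.Lib.MP_ef6aaf_al.EF.HaarB

set_option autoImplicit false
set_option linter.unusedSectionVars false

/-!
# Circuits: integration over `y`
-/

namespace Pool.Agent.EF

open Finset MeasureTheory Filter

section
variable {A : Type*} {eps : A → Bool}

/-- the exchange of the `+` and the `-` arcs -/
def kap (e : {a // eps a = true} ≃ {a // eps a = false}) (σ τ : Equiv.Perm {a // eps a = true}) :
    Equiv.Perm A where
  toFun a := if h : eps a = true then (e (σ.symm ⟨a, h⟩)).1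
    else (τ (e.symm ⟨a, by simpa using h⟩)).1
  invFun b := if h : eps b = true then (e (τ.symm ⟨b, h⟩)).1
    else (σ (e.symm ⟨b, by simpa using h⟩)).1
  left_inv a := by
    by_cases h : eps a = true
    · have h1 := (e (σ.symm ⟨a, h⟩)).2
      simp only [dif_pos h]
      rw [dif_neg (by rw [h1]; simp)]
      simp
    · have h1 := (τ (e.symm ⟨a, by simpa using h⟩)).2
      simp only [dif_neg h]
      rw [dif_pos h1]
      simp
  right_inv a := by
    by_cases h : eps a = true
    · have h1 := (e (τ.symm ⟨a, h⟩)).2
      simp only [dif_pos h]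
      rw [dif_neg (by rw [h1]; simp)]
      simp
    · have h1 := (σ (e.symm ⟨a, by simpa using h⟩)).2
      simp only [dif_neg h]
      rw [dif_pos h1]
      simp

theorem kap_true (e : {a // eps a = true} ≃ {a // eps a = false})
    (σ τ : Equiv.Perm {a // eps a = true}) (a : {a // eps a = true}) :
    kap e σ τ a.1 = (e (σ.symm a)).1 := by
  change (if h : eps a.1 = true then (e (σ.symm ⟨a.1, h⟩)).1
    else (τ (e.symm ⟨a.1, by simpa using h⟩)).1) = _
  rw [dif_pos a.2]

theorem kap_false (e : {a // eps a = true} ≃ {a // eps a = false})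
    (σ τ : Equiv.Perm {a // eps a = true}) (a : {a // eps a = true}) :
    kap e σ τ (e a).1 = (τ a).1 := by
  change (if h : eps (e a).1 = true then (e (σ.symm ⟨(e a).1, h⟩)).1
    else (τ (e.symm ⟨(e a).1, by simpa using h⟩)).1) = _
  rw [dif_neg (by rw [(e a).2]; simp)]
  simp

theorem eps_kap (e : {a // eps a = true} ≃ {a // eps a = false})
    (σ τ : Equiv.Perm {a // eps a = true}) (a : A) : eps (kap e σ τ a) = ! eps a := by
  by_cases h : eps a = true
  · rw [kap_true e σ τ ⟨a, h⟩, (e _).2, h]
    rfl
  · have h1 : eps a = false := by simpa using h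
    have h2 := kap_false e σ τ (e.symm ⟨a, h1⟩)
    rw [Equiv.apply_symm_apply] at h2
    rw [h2, (τ _).2, h1]
    rfl

/-- all the exchanges of the `+` and the `-` arcs -/
def kapEquiv (e : {a // eps a = true} ≃ {a // eps a = false}) :
    (Equiv.Perm {a // eps a = true} × Equiv.Perm {a // eps a = true}) ≃
      {κ : Equiv.Perm A // ∀ a, eps (κ a) = ! eps a} where
  toFun p := ⟨kap e p.1 p.2, eps_kap e p.1 p.2⟩
  invFun κ :=
    (⟨fun a => ⟨κ.1.symm (e a).1, by
        have h := κ.2 (κ.1.symm (e a).1)
        rw [Equiv.apply_symm_apply, (e a).2] at h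
        simpa using h.symm⟩,
      fun a => e.symm ⟨κ.1 a.1, by rw [κ.2, a.2]; rfl⟩,
      fun a => by simp, fun a => by simp⟩,
     ⟨fun a => ⟨κ.1 (e a).1, by rw [κ.2, (e a).2]; rfl⟩,
      fun a => e.symm ⟨κ.1.symm a.1, by
        have h := κ.2 (κ.1.symm a.1)
        rw [Equiv.apply_symm_apply, a.2] at h
        simpa using h.symm⟩,
      fun a => by simp, fun a => by simp⟩)
  left_inv := by
    rintro ⟨σ, τ⟩
    ext a
    · change ((kap e σ τ).symm (e a).1) = (σ a).1
      rw [Equiv.symm_apply_eq, kap_true, Equiv.symm_apply_apply]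
    · change (kap e σ τ (e a).1) = (τ a).1
      exact kap_false e σ τ a
  right_inv := by
    rintro ⟨κ, hκ⟩
    apply Subtype.ext
    ext a
    by_cases h : eps a = true
    · have h1 := kap_true e ⟨fun a => ⟨κ.symm (e a).1, by
        have h := hκ (κ.symm (e a).1)
        rw [Equiv.apply_symm_apply, (e a).2] at h
        simpa using h.symm⟩,
      fun a => e.symm ⟨κ a.1, by rw [hκ, a.2]; rfl⟩,
      fun a => by simp, fun a => by simp⟩ ⟨fun a => ⟨κ (e a).1, by rw [hκ, (e a).2]; rfl⟩,
      fun a => e.symm ⟨κ.symm a.1, by
        have h := hκ (κ.symm a.1)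
        rw [Equiv.apply_symm_apply, a.2] at h
        simpa using h.symm⟩,
      fun a => by simp, fun a => by simp⟩ ⟨a, h⟩
      refine h1.trans ?_
      change (e (e.symm ⟨κ a, _⟩)).1 = κ a
      rw [Equiv.apply_symm_apply]
    · have h0 : eps a = false := by simpa using h
      have h1 := kap_false e ⟨fun a => ⟨κ.symm (e a).1, by
        have h := hκ (κ.symm (e a).1)
        rw [Equiv.apply_symm_apply, (e a).2] at h
        simpa using h.symm⟩,
      fun a => e.symm ⟨κ a.1, by rw [hκ, a.2]; rfl⟩,
      fun a => by simp, fun a => by simp⟩ ⟨fun a => ⟨κ (e a).1, by rw [hκ, (e a).2]; rfl⟩,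
      fun a => e.symm ⟨κ.symm a.1, by
        have h := hκ (κ.symm a.1)
        rw [Equiv.apply_symm_apply, a.2] at h
        simpa using h.symm⟩,
      fun a => by simp, fun a => by simp⟩ (e.symm ⟨a, h0⟩)
      rw [Equiv.apply_symm_apply] at h1
      refine h1.trans ?_
      change κ (e (e.symm ⟨a, h0⟩)).1 = κ a
      rw [Equiv.apply_symm_apply]

end

section
variable {A : Type*} [Fintype A] [DecidableEq A] {eps : A → Bool}
  {n : ℕ} [MeasurableSpace (Un n)] [BorelSpace (Un n)] (μ : Measure (Un n))
  [IsProbabilityMeasure μ] [μ.IsMulLeftInvariant]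

/-- Integration over `y`. -/
theorem circ (nx : Equiv.Perm A) (e : {a // eps a = true} ≃ {a // eps a = false})
    (hn : Fintype.card {a // eps a = true} ≤ n) (X : A → Mn n) :
    (Gm {a // eps a = true} (n : ℂ)).det *
      ∫ y : Un n, Ph nx X (fun a => ((if eps a then y else y⁻¹ : Un n) : Mn n)) ∂μ =
    ∑ σ : Equiv.Perm {a // eps a = true}, ∑ τ : Equiv.Perm {a // eps a = true},
      (Gm {a // eps a = true} (n : ℂ)).adjugate σ τ *
        ∑ i : A → Fin n, ∏ a, X a (i a) (i (nx (kap e σ τ a))) := by
  have h1 : ∀ y : Un n, Ph nx X (fun a => ((if eps a then y else y⁻¹ : Un n) : Mn n)) =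
      ∑ i : A → Fin n, ∑ j : A → Fin n, (∏ a, X a (i a) (j a)) *
        (tp {a // eps a = true} (y : Mn n) (fun a => j a.1) (fun a => i (nx a.1)) *
          star (tp {a // eps a = true} (y : Mn n) (fun a => i (nx (e a).1)) (fun a => j (e a).1))) := by
    intro y
    rw [Ph]
    apply sum_congr rfl
    intro i _
    apply sum_congr rfl
    intro j _
    rw [Finset.prod_mul_distrib]
    congr 1
    have h2 : ∀ a, ((if eps a then y else y⁻¹ : Un n) : Mn n) (j a) (i (nx a)) =
        (if eps a = true then (y : Mn n) (j a) (i (nx a)) else 1) *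
          (if eps a = false then star ((y : Mn n) (i (nx a)) (j a)) else 1) := by
      intro a
      by_cases h : eps a = true
      · simp only [h, if_true]
        simp
      · have h0 : eps a = false := by simpa using h
        simp only [h0]
        simp only [Bool.false_eq_true, if_false, if_true, one_mul]
        rfl
    simp only [h2]
    rw [Finset.prod_mul_distrib]
    congr 1
    · rw [← Finset.prod_filter, ← Finset.prod_subtype_eq_prod_filter, Finset.subtype_univ]
      rfl
    · rw [← Finset.prod_filter, ← Finset.prod_subtype_eq_prod_filter, Finset.subtype_univ,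
        ← Equiv.prod_comp e]
      simp only [tp]
      rw [star_prod]
  simp only [h1]
  have hint : ∀ i j : A → Fin n, Integrable (fun y : Un n => (∏ a, X a (i a) (j a)) *
        (tp {a // eps a = true} (y : Mn n) (fun a => j a.1) (fun a => i (nx a.1)) *
          star (tp {a // eps a = true} (y : Mn n) (fun a => i (nx (e a).1))
            (fun a => j (e a).1)))) μ := fun i j =>
    integrable_of_cont μ (continuous_const.mul ((cont_tp _ _).mul (cont_tp _ _).star))
  rw [integral_finset_sum _ (fun i _ => integrable_finset_sum _ (fun j _ => hint i j))]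
  rw [Finset.mul_sum]
  have h3 : ∀ i : A → Fin n, (Gm {a // eps a = true} (n : ℂ)).det *
      ∫ y : Un n, ∑ j : A → Fin n, (∏ a, X a (i a) (j a)) *
        (tp {a // eps a = true} (y : Mn n) (fun a => j a.1) (fun a => i (nx a.1)) *
          star (tp {a // eps a = true} (y : Mn n) (fun a => i (nx (e a).1))
            (fun a => j (e a).1))) ∂μ =
      ∑ σ : Equiv.Perm {a // eps a = true}, ∑ τ : Equiv.Perm {a // eps a = true},
        (Gm {a // eps a = true} (n : ℂ)).adjugate σ τ *
          ∏ a, X a (i a) (i (nx (kap e σ τ a))) := by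
    intro i
    rw [integral_finset_sum _ (fun j _ => hint i j), Finset.mul_sum]
    have h4 : ∀ j : A → Fin n, (Gm {a // eps a = true} (n : ℂ)).det *
        ∫ y : Un n, (∏ a, X a (i a) (j a)) *
        (tp {a // eps a = true} (y : Mn n) (fun a => j a.1) (fun a => i (nx a.1)) *
          star (tp {a // eps a = true} (y : Mn n) (fun a => i (nx (e a).1))
            (fun a => j (e a).1))) ∂μ =
        ∑ σ : Equiv.Perm {a // eps a = true}, ∑ τ : Equiv.Perm {a // eps a = true},
          if j = (fun a => i (nx (kap e σ τ a))) then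
            (Gm {a // eps a = true} (n : ℂ)).adjugate σ τ * (∏ a, X a (i a) (j a)) else 0 := by
      intro j
      rw [integral_const_mul, mul_left_comm, wg μ hn, Finset.mul_sum]
      apply sum_congr rfl
      intro σ _
      rw [Finset.mul_sum]
      apply sum_congr rfl
      intro τ _
      have h5 : ((fun a : {a // eps a = true} => j a.1) ∘ σ = (fun a => i (nx (e a).1)) ∧
          (fun a : {a // eps a = true} => i (nx a.1)) ∘ τ = (fun a => j (e a).1)) ↔
          j = (fun a => i (nx (kap e σ τ a))) := by
        constructor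
        · rintro ⟨h6, h7⟩
          funext b
          by_cases hb : eps b = true
          · have h8 := congrFun h6 (σ.symm ⟨b, hb⟩)
            simp only [Function.comp, Equiv.apply_symm_apply] at h8
            rw [h8, kap_true e σ τ ⟨b, hb⟩]
          · have hb' : eps b = false := by simpa using hb
            have h8 := congrFun h7 (e.symm ⟨b, hb'⟩)
            simp only [Function.comp, Equiv.apply_symm_apply] at h8
            have h9 := kap_false e σ τ (e.symm ⟨b, hb'⟩)
            rw [Equiv.apply_symm_apply] at h9
            rw [← h8]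
            change _ = i (nx (kap e σ τ (⟨b, hb'⟩ : {a // eps a = false}).1))
            rw [h9]
        · intro h6
          constructor
          · funext a
            simp only [Function.comp, h6]
            rw [kap_true, Equiv.symm_apply_apply]
          · funext a
            simp only [Function.comp, h6]
            rw [kap_false]
      by_cases h6 : j = (fun a => i (nx (kap e σ τ a)))
      · rw [if_pos h6, if_pos (h5.mpr h6), mul_comm]
      · rw [if_neg h6, if_neg (fun h => h6 (h5.mp h)), mul_zero]
    simp only [h4]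
    rw [Finset.sum_comm]
    apply sum_congr rfl
    intro σ _
    rw [Finset.sum_comm]
    apply sum_congr rfl
    intro τ _
    rw [Finset.sum_ite_eq', if_pos (mem_univ _)]
  simp only [h3]
  rw [Finset.sum_comm]
  apply sum_congr rfl
  intro σ _
  rw [Finset.sum_comm]
  apply sum_congr rfl
  intro τ _
  rw [Finset.mul_sum]

end

end Pool.Agent.EF
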