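import Mathlib

/-!
# MP_ef6aaf_al, EF: traces along the orbits of a permutation

`cyc`: for a permutation `th` of the finite set `A`, matrices `X (c a)` with `X (a + b) = X a * X b`,
`∑_{i : A → n} ∏_a X (c a) (i a) (i (th a)) = ∏_{orbits o} trace (X (∑_{a ∈ o} c a))`.
-/

set_option autoImplicit false
set_option linter.unusedSectionVars false

namespace Pool.Agent.EF

open Matrix

section

variable {n R : Type*} [Fintype n] [DecidableEq n] [CommSemiring R]

/-- a closed path of length `k + 1` -/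
theorem cyc_fin (X : ℤ → Matrix n n R) (hX : ∀ a b, X (a + b) = X a * X b) (k : ℕ) :
    ∀ c : Fin (k + 1) → ℤ, (∑ i : Fin (k + 1) → n,
      (∏ j : Fin k, X (c j.castSucc) (i j.castSucc) (i j.succ)) *
        X (c (Fin.last k)) (i (Fin.last k)) (i 0)) = trace (X (∑ j, c j)) := by
  induction k with
  | zero =>
    intro c
    rw [trace, ← Equiv.sum_comp (Equiv.funUnique (Fin 1) n).symm]
    simp [Fin.last]
  | succ k ih =>
    intro c
    let c' : Fin (k + 1) → ℤ := Fin.snoc (α := fun _ => ℤ) (fun j : Fin k => c j.castSucc.castSucc)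
      (c (Fin.last k).castSucc + c (Fin.last (k + 1)))
    have h1 : ∀ j : Fin k, c' j.castSucc = c j.castSucc.castSucc := fun j => by
      simp only [c', Fin.snoc_castSucc]
    have h2 : c' (Fin.last k) = c (Fin.last k).castSucc + c (Fin.last (k + 1)) := by
      simp only [c', Fin.snoc_last]
    have h3 : ∑ j, c j = ∑ j, c' j := by
      rw [Fin.sum_univ_castSucc, Fin.sum_univ_castSucc, Fin.sum_univ_castSucc (f := c'), h2,
        add_assoc]
      simp only [h1]
    rw [h3, ← ih c', ← Equiv.sum_comp (Fin.snocEquiv (fun _ : Fin (k + 1 + 1) => n)),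
      Fintype.sum_prod_type_right]
    refine Finset.sum_congr rfl fun i _ => ?_
    rw [h2, hX, Matrix.mul_apply, Finset.mul_sum]
    refine Finset.sum_congr rfl fun r _ => ?_
    have e1 : ∀ j : Fin (k + 1), (Fin.snocEquiv (fun _ : Fin (k + 1 + 1) => n)) (r, i)
        j.castSucc = i j := fun j => Fin.snoc_castSucc (α := fun _ : Fin (k + 1 + 1) => n) _ _ _
    have e2 : (Fin.snocEquiv (fun _ : Fin (k + 1 + 1) => n)) (r, i) (Fin.last (k + 1)) = r :=
      Fin.snoc_last (α := fun _ : Fin (k + 1 + 1) => n) _ _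
    have e3 : (Fin.snocEquiv (fun _ : Fin (k + 1 + 1) => n)) (r, i) 0 = i 0 := e1 0
    have e4 : ∀ j : Fin k, (Fin.snocEquiv (fun _ : Fin (k + 1 + 1) => n)) (r, i)
        j.castSucc.succ = i j.succ := fun j => e1 j.succ
    have e5 : (Fin.snocEquiv (fun _ : Fin (k + 1 + 1) => n)) (r, i) (Fin.last k).succ = r := e2
    rw [Fin.prod_univ_castSucc, e2, e3, e5, e1]
    simp only [e1, e4, h1]
    ring

/-- a closed path along an enumeration -/
theorem cyc_one {C : Type*} [Fintype C] [DecidableEq C] (X : ℤ → Matrix n n R)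
    (hX : ∀ a b, X (a + b) = X a * X b) (th : C → C) (c : C → ℤ) (k : ℕ)
    (e : Fin (k + 1) ≃ C) (h1 : ∀ j : Fin k, e j.succ = th (e j.castSucc))
    (h2 : th (e (Fin.last k)) = e 0) :
    ∑ i : C → n, ∏ a, X (c a) (i a) (i (th a)) = trace (X (∑ a, c a)) := by
  rw [← Equiv.sum_comp e c, ← cyc_fin X hX k (fun j => c (e j)),
    ← Equiv.sum_comp (Equiv.arrowCongr e (Equiv.refl n))]
  refine Finset.sum_congr rfl fun i _ => ?_
  rw [← Equiv.prod_comp e, Fin.prod_univ_castSucc]
  have h3 : ∀ j, (Equiv.arrowCongr e (Equiv.refl n)) i (e j) = i j := fun j => by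
    simp [Equiv.arrowCongr]
  simp only [← h1, h2, h3]

end

section

variable {A : Type*} [Fintype A] [DecidableEq A]

/-- An enumeration of the orbit of `a`. -/
theorem exists_enum (th : Equiv.Perm A) (a : A) :
    ∃ (k : ℕ) (e : Fin (k + 1) ≃ {b : A // th.SameCycle a b}),
      (∀ j, (e j : A) = (th ^ (j : ℕ)) a) ∧ th (e (Fin.last k)) = e 0 := by
  have hp : a ∈ Function.periodicPts th := by
    refine ⟨orderOf th, orderOf_pos th, ?_⟩
    rw [Function.IsPeriodicPt, Function.IsFixedPt, ← Equiv.Perm.coe_pow, pow_orderOf_eq_one]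
    rfl
  obtain ⟨k, hk⟩ : ∃ k, Function.minimalPeriod th a = k + 1 :=
    Nat.exists_eq_succ_of_ne_zero (Function.minimalPeriod_pos_of_mem_periodicPts hp).ne'
  let E : Fin (k + 1) → {b : A // th.SameCycle a b} := fun j =>
    ⟨(th ^ (j : ℕ)) a, ⟨(j : ℕ), by rw [zpow_natCast]⟩⟩
  have hE : Function.Bijective E := by
    constructor
    · intro i j hij
      have h1 : th^[(i : ℕ)] a = th^[(j : ℕ)] a := by
        rw [← Equiv.Perm.coe_pow, ← Equiv.Perm.coe_pow]
        exact congrArg Subtype.val hij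
      have h2 := Function.iterate_injOn_Iio_minimalPeriod (f := th) (x := a)
        (Set.mem_Iio.2 (by rw [hk]; exact i.2)) (Set.mem_Iio.2 (by rw [hk]; exact j.2)) h1
      exact Fin.ext h2
    · rintro ⟨b, hb⟩
      obtain ⟨m, hm⟩ := hb.exists_nat_pow_eq
      refine ⟨⟨m % (k + 1), Nat.mod_lt _ (Nat.succ_pos k)⟩, Subtype.ext ?_⟩
      change (th ^ (m % (k + 1))) a = b
      rw [← hm, Equiv.Perm.coe_pow, Equiv.Perm.coe_pow, ← hk,
        Function.iterate_mod_minimalPeriod_eq]
  refine ⟨k, Equiv.ofBijective E hE, fun j => rfl, ?_⟩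
  change th ((th ^ k) a) = (th ^ 0) a
  rw [pow_zero, Equiv.Perm.one_apply, ← Equiv.Perm.mul_apply, ← pow_succ', ← hk,
    Equiv.Perm.coe_pow, Function.iterate_minimalPeriod]

end

section

variable {n R : Type*} [Fintype n] [DecidableEq n] [CommSemiring R]
  {A : Type*} [Fintype A] [DecidableEq A]

/-- the functions on `A` as families of functions on the fibres of `q` -/
def fibEquiv {Q : Type*} (q : A → Q) (n : Type*) : (A → n) ≃ ∀ o, {a // q a = o} → n where
  toFun i _ a := i a.1
  invFun g a := g (q a) ⟨a, rfl⟩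
  left_inv _ := rfl
  right_inv g := by
    funext o ⟨a, ha⟩
    subst ha
    rfl

theorem sum_fib {Q : Type*} [Fintype Q] [DecidableEq Q] (q : A → Q) (th : A → A)
    (h : ∀ a, q (th a) = q a) (f : A → n → n → R) :
    ∑ i : A → n, ∏ a, f a (i a) (i (th a)) =
      ∏ o : Q, ∑ i : {a // q a = o} → n,
        ∏ a : {a // q a = o}, f a (i a) (i ⟨th a, (h a).trans a.2⟩) := by
  rw [Finset.prod_univ_sum, Fintype.piFinset_univ, ← Equiv.sum_comp (fibEquiv q n).symm]
  refine Finset.sum_congr rfl fun g _ => ?_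
  rw [← Equiv.prod_comp (Equiv.sigmaFiberEquiv q), Fintype.prod_sigma]
  refine Finset.prod_congr rfl fun o _ => Finset.prod_congr rfl ?_
  rintro a -
  have key : ∀ (b : A) (o' : Q) (hb : q b = o'), (fibEquiv q n).symm g b = g o' ⟨b, hb⟩ := by
    rintro b _ rfl
    rfl
  change f a.1 ((fibEquiv q n).symm g a.1) ((fibEquiv q n).symm g (th a.1)) = _
  rw [key a.1 o a.2, key (th a.1) o ((h a).trans a.2)]

/-- Traces along the orbits of a permutation. -/
theorem cyc (X : ℤ → Matrix n n R) (hX : ∀ a b, X (a + b) = X a * X b) (th : Equiv.Perm A)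
    (c : A → ℤ) [Fintype (Quotient (Equiv.Perm.SameCycle.setoid th))]
    [DecidableEq (Quotient (Equiv.Perm.SameCycle.setoid th))] :
    ∑ i : A → n, ∏ a, X (c a) (i a) (i (th a)) =
      ∏ o : Quotient (Equiv.Perm.SameCycle.setoid th),
        trace (X (∑ a : {a : A // Quotient.mk (Equiv.Perm.SameCycle.setoid th) a = o}, c a)) := by
  have hq : ∀ a, Quotient.mk (Equiv.Perm.SameCycle.setoid th) (th a) =
      Quotient.mk (Equiv.Perm.SameCycle.setoid th) a := fun a =>
    Quotient.sound (show th.SameCycle (th a) a from ⟨-1, by simp⟩)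
  refine (sum_fib (fun a => Quotient.mk (Equiv.Perm.SameCycle.setoid th) a) th hq
    (fun a => X (c a))).trans (Finset.prod_congr rfl ?_)
  rintro o -
  obtain ⟨a, rfl⟩ := Quotient.exists_rep o
  obtain ⟨k, e, he, hl⟩ := exists_enum th a
  let φ : {b : A // th.SameCycle a b} ≃
      {b : A // Quotient.mk (Equiv.Perm.SameCycle.setoid th) b =
        Quotient.mk (Equiv.Perm.SameCycle.setoid th) a} :=
    Equiv.subtypeEquivRight fun b => by
      rw [Quotient.eq]
      exact ⟨fun h => h.symm, fun h => Equiv.Perm.SameCycle.symm h⟩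
  have hφ : ∀ b, ((φ b : {b : A // Quotient.mk (Equiv.Perm.SameCycle.setoid th) b =
        Quotient.mk (Equiv.Perm.SameCycle.setoid th) a}) : A) = b := fun b => rfl
  refine cyc_one (C := {b : A // Quotient.mk (Equiv.Perm.SameCycle.setoid th) b =
        Quotient.mk (Equiv.Perm.SameCycle.setoid th) a}) X hX
    (fun b => ⟨th b, (hq b).trans b.2⟩) (fun b => c b) k (e.trans φ)
    (fun j => Subtype.ext ?_) (Subtype.ext ?_)
  · rw [Equiv.trans_apply, hφ, he]
    change _ = th ((φ (e j.castSucc) : {b : A //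
      Quotient.mk (Equiv.Perm.SameCycle.setoid th) b =
        Quotient.mk (Equiv.Perm.SameCycle.setoid th) a}) : A)
    rw [hφ, he, ← Equiv.Perm.mul_apply, Fin.val_succ, Fin.val_castSucc, pow_succ']
  · exact hl

end

end Pool.Agent.EF
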