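import Mathlib

/-!
# MP_ef6aaf_al, EF: the number of equivariant bijections

`rot l` is the permutation of `Σ g, Fin (l g)` which rotates every `Fin (l g)`. `dsc`: the number of bijections `s` with
`s ∘ rot l = rot l' ∘ s` is `(∏ g, l g)` times the number of the bijections `be : G ≃ G'` with `l' (be g) = l g`.
-/

set_option autoImplicit false
set_option linter.unusedSectionVars false

namespace Pool.Agent.EF

/-- the rotation of every `Fin (l g)` -/
def rot {G : Type*} (l : G → ℕ) : Equiv.Perm (Σ g, Fin (l g)) :=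
  Equiv.sigmaCongrRight fun g => finRotate (l g)

theorem rot_apply {G : Type*} (l : G → ℕ) (g : G) (i : Fin (l g)) :
    rot l ⟨g, i⟩ = ⟨g, finRotate (l g) i⟩ := rfl

theorem rot_pow {G : Type*} (l : G → ℕ) (j : ℕ) (g : G) (i : Fin (l g)) :
    (rot l ^ j) ⟨g, i⟩ = ⟨g, (finRotate (l g) ^ j) i⟩ := by
  induction j with
  | zero => rfl
  | succ j ih => rw [pow_succ', Equiv.Perm.mul_apply, ih, rot_apply, pow_succ', Equiv.Perm.mul_apply]

theorem finRotate_val (n : ℕ) (i : Fin n) : (finRotate n i : ℕ) = (i + 1) % n := by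
  cases n with
  | zero => exact i.elim0
  | succ n =>
    rw [finRotate_apply, Fin.val_add]
    simp [Nat.add_mod]

theorem finRotate_pow_val (n : ℕ) (j : ℕ) (i : Fin n) :
    ((finRotate n ^ j) i : ℕ) = (i + j) % n := by
  induction j with
  | zero => rw [pow_zero, Equiv.Perm.one_apply, add_zero, Nat.mod_eq_of_lt i.2]
  | succ j ih =>
    rw [pow_succ', Equiv.Perm.mul_apply, finRotate_val, ih, Nat.mod_add_mod, add_assoc]

/-- the base point -/
def bp {G : Type*} (l : G → ℕ) (hl : ∀ g, 0 < l g) (g : G) : Σ g, Fin (l g) := ⟨g, ⟨0, hl g⟩⟩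

theorem sig_ext {G : Type*} {l : G → ℕ} {x y : Σ g, Fin (l g)} (h1 : x.1 = y.1)
    (h2 : (x.2 : ℕ) = y.2) : x = y := by
  obtain ⟨g, i⟩ := x
  obtain ⟨g', j⟩ := y
  change g = g' at h1
  subst h1
  change (i : ℕ) = j at h2
  rw [Fin.ext h2]

theorem rot_pow_fst {G : Type*} (l : G → ℕ) (j : ℕ) (x : Σ g, Fin (l g)) :
    ((rot l ^ j) x).1 = x.1 := by
  obtain ⟨g, i⟩ := x
  rw [rot_pow]

theorem rot_pow_snd {G : Type*} (l : G → ℕ) (j : ℕ) (x : Σ g, Fin (l g)) :
    (((rot l ^ j) x).2 : ℕ) = (x.2 + j) % l x.1 := by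
  obtain ⟨g, i⟩ := x
  rw [rot_pow]
  exact finRotate_pow_val _ _ _

theorem rot_pow_bp {G : Type*} (l : G → ℕ) (hl : ∀ g, 0 < l g) (x : Σ g, Fin (l g)) :
    (rot l ^ (x.2 : ℕ)) (bp l hl x.1) = x := by
  apply sig_ext
  · rw [rot_pow_fst]; rfl
  · rw [rot_pow_snd]
    change (0 + (x.2 : ℕ)) % l x.1 = x.2
    rw [zero_add, Nat.mod_eq_of_lt x.2.2]

/-- the period of a point -/
theorem rot_pow_eq_iff {G : Type*} (l : G → ℕ) (j : ℕ) (x : Σ g, Fin (l g)) :
    (rot l ^ j) x = x ↔ l x.1 ∣ j := by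
  constructor
  · intro h
    have h1 := congrArg (fun y : Σ g, Fin (l g) => (y.2 : ℕ)) h
    change (((rot l ^ j) x).2 : ℕ) = x.2 at h1
    rw [rot_pow_snd] at h1
    have h2 : (x.2 + j : ℕ) ≡ x.2 + 0 [MOD l x.1] := by
      rw [Nat.ModEq, h1, add_zero, Nat.mod_eq_of_lt x.2.2]
    exact (Nat.modEq_zero_iff_dvd).1 (Nat.ModEq.add_left_cancel' _ h2)
  · intro h
    apply sig_ext
    · rw [rot_pow_fst]
    · rw [rot_pow_snd, Nat.add_mod, Nat.mod_eq_zero_of_dvd h, add_zero, Nat.mod_mod,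
        Nat.mod_eq_of_lt x.2.2]

/-- two points of the same rotated set -/
theorem exists_rot_pow {G : Type*} (l : G → ℕ) (x y : Σ g, Fin (l g)) (h : x.1 = y.1) :
    ∃ j, (rot l ^ j) x = y := by
  refine ⟨(l x.1 - x.2) + y.2, sig_ext ?_ ?_⟩
  · rw [rot_pow_fst, h]
  · have h1 := x.2.2
    have h2 := y.2.2
    rw [rot_pow_snd, show (x.2 : ℕ) + (l x.1 - x.2 + y.2) = l x.1 + y.2 by omega, h,
      Nat.add_mod_left, Nat.mod_eq_of_lt h2]

section

variable {G G' : Type*} (l : G → ℕ) (l' : G' → ℕ)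

/-- equivariance for the powers -/
theorem equi_pow {s : (Σ g, Fin (l g)) → (Σ g, Fin (l' g))}
    (hs : ∀ x, s (rot l x) = rot l' (s x)) (j : ℕ) (x : Σ g, Fin (l g)) :
    s ((rot l ^ j) x) = (rot l' ^ j) (s x) := by
  induction j with
  | zero => rfl
  | succ j ih => rw [pow_succ', pow_succ', Equiv.Perm.mul_apply, Equiv.Perm.mul_apply, hs, ih]

variable (hl : ∀ g, 0 < l g)

/-- the induced bijection of the orbits -/
theorem be_bijective (s : (Σ g, Fin (l g)) ≃ (Σ g, Fin (l' g))) (hl' : ∀ g, 0 < l' g)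
    (hs : ∀ x, s (rot l x) = rot l' (s x)) :
    Function.Bijective fun g => (s (bp l hl g)).1 := by
  constructor
  · intro g g' h
    obtain ⟨j, hj⟩ := exists_rot_pow l' _ _ h
    rw [← equi_pow l l' hs] at hj
    have h1 := congrArg Sigma.fst (s.injective hj)
    rw [rot_pow_fst] at h1
    exact h1
  · intro g'
    refine ⟨(s.symm (bp l' hl' g')).1, ?_⟩
    have h1 := rot_pow_bp l hl (s.symm (bp l' hl' g'))
    have h2 := congrArg s h1
    rw [equi_pow l l' hs, Equiv.apply_symm_apply] at h2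
    have h3 := congrArg Sigma.fst h2
    rw [rot_pow_fst] at h3
    exact h3

theorem be_length (s : (Σ g, Fin (l g)) ≃ (Σ g, Fin (l' g)))
    (hs : ∀ x, s (rot l x) = rot l' (s x)) (g : G) : l' (s (bp l hl g)).1 = l g := by
  apply Nat.dvd_antisymm
  · rw [← rot_pow_eq_iff, ← equi_pow l l' hs, (rot_pow_eq_iff l (l g) (bp l hl g)).2 dvd_rfl]
  · have h1 : (rot l ^ l' (s (bp l hl g)).1) (bp l hl g) = bp l hl g := by
      apply s.injective
      rw [equi_pow l l' hs]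
      exact (rot_pow_eq_iff _ _ _).2 dvd_rfl
    exact (rot_pow_eq_iff l _ (bp l hl g)).1 h1

/-- the data of an equivariant bijection -/
noncomputable def dscFun (hl' : ∀ g, 0 < l' g)
    (s : {s : (Σ g, Fin (l g)) ≃ (Σ g, Fin (l' g)) // ∀ x, s (rot l x) = rot l' (s x)}) :
    {be : G ≃ G' // ∀ g, l' (be g) = l g} × (∀ g, Fin (l g)) :=
  (⟨Equiv.ofBijective _ (be_bijective l l' hl s.1 hl' s.2), be_length l l' hl s.1 s.2⟩,
    fun g => ⟨(s.1 (bp l hl g)).2, (be_length l l' hl s.1 s.2 g) ▸ (s.1 (bp l hl g)).2.2⟩)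

/-- the bijection with given data -/
theorem exists_equi (be : G ≃ G') (hbe : ∀ g, l' (be g) = l g) (k : ∀ g, Fin (l g)) :
    ∃ s : (Σ g, Fin (l g)) ≃ (Σ g, Fin (l' g)), (∀ x, s (rot l x) = rot l' (s x)) ∧
      ∀ g, s (bp l hl g) = ⟨be g, ⟨k g, by rw [hbe]; exact (k g).2⟩⟩ := by
  let b : G → (Σ g, Fin (l' g)) := fun g => ⟨be g, ⟨k g, by rw [hbe]; exact (k g).2⟩⟩
  let f : (Σ g, Fin (l g)) → (Σ g, Fin (l' g)) := fun x => (rot l' ^ (x.2 : ℕ)) (b x.1)
  have hper : ∀ (g : G) (j : ℕ), (rot l' ^ j) (b g) = b g ↔ l g ∣ j := by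
    intro g j
    rw [rot_pow_eq_iff]
    change l' (be g) ∣ j ↔ _
    rw [hbe]
  have hf1 : ∀ x, f (rot l x) = rot l' (f x) := by
    rintro ⟨g, i⟩
    change (rot l' ^ ((finRotate (l g) i : Fin (l g)) : ℕ)) (b g) =
      rot l' ((rot l' ^ (i : ℕ)) (b g))
    rw [finRotate_val, ← Equiv.Perm.mul_apply, ← pow_succ']
    rcases lt_or_eq_of_le (Nat.succ_le_of_lt i.2) with h | h
    · rw [Nat.mod_eq_of_lt h]
    · have h1 : (i : ℕ) + 1 = l g := h
      rw [h1, Nat.mod_self, pow_zero, Equiv.Perm.one_apply, (hper g (l g)).2 dvd_rfl]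
  have hfi : Function.Injective f := by
    rintro ⟨g, i⟩ ⟨g', i'⟩ h
    change (rot l' ^ (i : ℕ)) (b g) = (rot l' ^ (i' : ℕ)) (b g') at h
    have h1 := congrArg Sigma.fst h
    rw [rot_pow_fst, rot_pow_fst] at h1
    have h2 : g = g' := be.injective h1
    subst h2
    have h3 := congrArg (fun y : Σ g, Fin (l' g) => (y.2 : ℕ)) h
    change (((rot l' ^ (i : ℕ)) (b g)).2 : ℕ) = ((rot l' ^ (i' : ℕ)) (b g)).2 at h3
    rw [rot_pow_snd, rot_pow_snd] at h3
    change ((k g : ℕ) + i) % l' (be g) = ((k g : ℕ) + i') % l' (be g) at h3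
    rw [hbe] at h3
    have h4 : (i : ℕ) ≡ i' [MOD l g] := Nat.ModEq.add_left_cancel' _ h3
    have h5 : (i : ℕ) = i' := by
      rw [Nat.ModEq, Nat.mod_eq_of_lt i.2, Nat.mod_eq_of_lt i'.2] at h4
      exact h4
    rw [Fin.ext h5]
  have hfs : Function.Surjective f := by
    intro y
    obtain ⟨g, hg⟩ := be.surjective y.1
    obtain ⟨j, hj⟩ := exists_rot_pow l' (b g) y hg
    refine ⟨⟨g, ⟨j % l g, Nat.mod_lt _ (hl g)⟩⟩, ?_⟩
    change (rot l' ^ (j % l g)) (b g) = y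
    rw [← hj]
    conv_rhs => rw [← Nat.mod_add_div j (l g), pow_add, Equiv.Perm.mul_apply,
      (hper g (l g * (j / l g))).2 (Dvd.intro _ rfl)]
  exact ⟨Equiv.ofBijective f ⟨hfi, hfs⟩, hf1, fun g => rfl⟩

theorem dscFun_bijective (hl' : ∀ g, 0 < l' g) : Function.Bijective (dscFun l l' hl hl') := by
  constructor
  · rintro ⟨s, hs⟩ ⟨s', hs'⟩ h
    have h1 : ∀ g, s (bp l hl g) = s' (bp l hl g) := by
      intro g
      apply sig_ext
      · exact congrArg (fun d : {be : G ≃ G' // ∀ g, l' (be g) = l g} × (∀ g, Fin (l g)) =>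
          d.1.1 g) h
      · exact congrArg (fun d : {be : G ≃ G' // ∀ g, l' (be g) = l g} × (∀ g, Fin (l g)) =>
          ((d.2 g : Fin (l g)) : ℕ)) h
    apply Subtype.ext
    apply Equiv.ext
    intro x
    change s x = s' x
    rw [← rot_pow_bp l hl x, equi_pow l l' hs, equi_pow l l' hs', h1]
  · rintro ⟨⟨be, hbe⟩, k⟩
    obtain ⟨s, hs, hb⟩ := exists_equi l l' hl be hbe k
    refine ⟨⟨s, hs⟩, Prod.ext (Subtype.ext (Equiv.ext fun g => ?_)) (funext fun g => Fin.ext ?_)⟩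
    · change (s (bp l hl g)).1 = be g
      rw [hb]
    · change ((s (bp l hl g)).2 : ℕ) = k g
      rw [hb]

end

section

variable {G G' : Type*} (l : G → ℕ) (l' : G' → ℕ)

/-- The number of equivariant bijections. -/
theorem dsc [Fintype G] (hl : ∀ g, 0 < l g) (hl' : ∀ g, 0 < l' g) :
    Nat.card {s : (Σ g, Fin (l g)) ≃ (Σ g, Fin (l' g)) // ∀ x, s (rot l x) = rot l' (s x)} =
      (∏ g, l g) * Nat.card {be : G ≃ G' // ∀ g, l' (be g) = l g} := by
  rw [Nat.card_congr (Equiv.ofBijective _ (dscFun_bijective l l' hl hl')), Nat.card_prod,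
    mul_comm, Nat.card_pi]
  simp

end

end Pool.Agent.EF
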