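import Pool.Agent.Lib.MP_ef6aaf_al.EF.StmH
import Pool.Agent.Lib.MP_ef6aaf_al.EF.Cyc
import Pool.Agent.Lib.MP_ef6aaf_al.EF.Dsc

set_option autoImplicit false

/-!
# The formula of Diaconis and Shahshahani
-/

namespace Pool.Agent.EF

open Finset MeasureTheory

section
variable {α : Type*} [Fintype α] [DecidableEq α]

theorem gm_map {R S : Type*} [CommRing R] [CommRing S] (f : R →+* S) (z : R) :
    f.mapMatrix (Gm α z) = Gm α (f z) := by
  ext σ τ
  simp only [RingHom.mapMatrix_apply, Matrix.map_apply, Gm, map_pow]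

theorem comp_iff {n : ℕ} (k : α → Fin n) (σ τ : Equiv.Perm α) :
    (k ∘ (σ * τ⁻¹ : Equiv.Perm α) = k) ↔ (k ∘ σ = k ∘ τ) := by
  constructor
  · intro h
    funext a
    have := congrFun h (τ a)
    simpa using this
  · intro h
    funext a
    have := congrFun h (τ⁻¹ a)
    simpa using this

theorem gm_count (n : ℕ) (σ τ : Equiv.Perm α) :
    (∑ i : α → Fin n, if i ∘ σ = i ∘ τ then (1 : ℂ) else 0) = Gm α (n : ℂ) τ σ := by
  rw [Gm, ← card_fix]
  apply sum_congr rfl
  intro k _
  simp only [comp_iff]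

theorem gm_countQ (n : ℕ) (σ τ : Equiv.Perm α) :
    (∑ i : α → Fin n, if i ∘ σ = i ∘ τ then (1 : ℚ) else 0) = Gm α (n : ℚ) τ σ := by
  rw [Gm, ← card_fixQ]
  apply sum_congr rfl
  intro k _
  simp only [comp_iff]

theorem det_gm_ne_zeroQ {n : ℕ} (hn : Fintype.card α ≤ n) : (Gm α (n : ℚ)).det ≠ 0 := by
  intro h0
  obtain ⟨u, hu0, hu⟩ := Matrix.exists_mulVec_eq_zero_iff.mpr h0
  have h1 : ∑ i : α → Fin n, ∑ j : α → Fin n, (∑ σ : Equiv.Perm α, if i ∘ σ = j then u σ else 0) ^ 2 =
      0 := by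
    have h2 : ∀ i : α → Fin n, ∑ j : α → Fin n,
        (∑ σ : Equiv.Perm α, if i ∘ σ = j then u σ else 0) ^ 2 =
        ∑ τ : Equiv.Perm α, ∑ σ : Equiv.Perm α, u τ * (u σ * if i ∘ σ = i ∘ τ then 1 else 0) := by
      intro i
      have h3 : ∀ j : α → Fin n, (∑ σ : Equiv.Perm α, if i ∘ σ = j then u σ else 0) ^ 2 =
          ∑ τ : Equiv.Perm α, if i ∘ τ = j then
            u τ * (∑ σ : Equiv.Perm α, if i ∘ σ = j then u σ else 0) else 0 := by
        intro j
        rw [sq, Finset.sum_mul]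
        apply sum_congr rfl
        intro τ _
        split_ifs <;> ring
      simp only [h3]
      rw [Finset.sum_comm]
      apply sum_congr rfl
      intro τ _
      rw [Finset.sum_ite_eq]
      rw [if_pos (mem_univ _), Finset.mul_sum]
      apply sum_congr rfl
      intro σ _
      split_ifs <;> ring
    simp only [h2]
    rw [Finset.sum_comm]
    apply Finset.sum_eq_zero
    intro τ _
    rw [Finset.sum_comm]
    have h4 := congrFun hu τ
    simp only [Matrix.mulVec, dotProduct, Pi.zero_apply] at h4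
    have h5 : ∀ σ : Equiv.Perm α, ∑ i : α → Fin n,
        u τ * (u σ * if i ∘ σ = i ∘ τ then (1 : ℚ) else 0) = u τ * (Gm α (n : ℚ) τ σ * u σ) := by
      intro σ
      rw [← gm_countQ, Finset.sum_mul, Finset.mul_sum]
      apply sum_congr rfl
      intro i _
      ring
    simp only [h5]
    rw [← Finset.mul_sum, h4, mul_zero]
  have h7 : ∀ (i j : α → Fin n), (∑ σ : Equiv.Perm α, if i ∘ σ = j then u σ else 0) = 0 := by
    intro i j
    have h8 := (Finset.sum_eq_zero_iff_of_nonneg (fun i _ => Finset.sum_nonneg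
      (fun j _ => sq_nonneg _))).mp h1 i (mem_univ i)
    have h9 := (Finset.sum_eq_zero_iff_of_nonneg (fun j _ => sq_nonneg _)).mp h8 j (mem_univ j)
    exact pow_eq_zero_iff (two_ne_zero) |>.mp h9
  obtain ⟨ι, hι⟩ : ∃ ι : α → Fin n, Function.Injective ι :=
    ⟨fun a => Fin.castLE hn (Fintype.equivFin α a),
      fun a b h => (Fintype.equivFin α).injective (Fin.castLE_injective hn h)⟩
  apply hu0
  funext ρ
  have h10 := h7 ι (ι ∘ ρ)
  rw [Finset.sum_eq_single ρ] at h10
  · rw [if_pos rfl] at h10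
    exact h10
  · intro σ _ hσ
    rw [if_neg]
    intro h
    apply hσ
    ext a
    exact hι (congrFun h a)
  · intro h
    exact absurd (mem_univ ρ) h

theorem det_gm_ne_zero {n : ℕ} (hn : Fintype.card α ≤ n) : (Gm α (n : ℂ)).det ≠ 0 := by
  have h1 := gm_map (α := α) (algebraMap ℚ ℂ) (n : ℚ)
  rw [map_natCast] at h1
  rw [← h1, ← RingHom.map_det]
  rw [Ne, map_eq_zero]
  exact det_gm_ne_zeroQ hn

/-- the power sum of a permutation -/
def TT {n : ℕ} (π : Equiv.Perm α) (x : Mn n) : ℂ := ∑ i : α → Fin n, ∏ a, x (i a) (i (π a))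

variable {n : ℕ} [MeasurableSpace (Un n)] [BorelSpace (Un n)] (μ : Measure (Un n))
  [IsProbabilityMeasure μ] [μ.IsMulLeftInvariant]

theorem cont_TT (π : Equiv.Perm α) : Continuous (fun x : Un n => TT π (x : Mn n)) := by
  have h : Continuous (fun y : Un n => (y : Mn n)) := continuous_subtype_val
  exact continuous_finsetSum _ fun i _ => continuous_finsetProd _ fun a _ => h.matrix_elem _ _

theorem dst_sum (hn : Fintype.card α ≤ n) (π ρ : Equiv.Perm α) :
    ∫ x : Un n, TT π (x : Mn n) * star (TT ρ (x : Mn n)) ∂μ =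
      ∑ σ : Equiv.Perm α, if π * σ = σ * ρ then (1 : ℂ) else 0 := by
  have hdet := det_gm_ne_zero (α := α) hn
  apply mul_left_cancel₀ hdet
  have h1 : ∀ x : Un n, TT π (x : Mn n) * star (TT ρ (x : Mn n)) =
      ∑ i : α → Fin n, ∑ i' : α → Fin n,
        tp α (x : Mn n) i (i ∘ π) * star (tp α (x : Mn n) i' (i' ∘ ρ)) := by
    intro x
    rw [TT, TT, star_sum, Finset.sum_mul_sum]
    rfl
  have hint : ∀ i i' : α → Fin n, Integrable (fun x : Un n =>
      tp α (x : Mn n) i (i ∘ π) * star (tp α (x : Mn n) i' (i' ∘ ρ))) μ := fun i i' =>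
    integrable_of_cont μ ((cont_tp i (i ∘ π)).mul (cont_tp i' (i' ∘ ρ)).star)
  simp only [h1]
  rw [integral_finset_sum _ (fun i _ => integrable_finset_sum _ (fun i' _ => hint i i'))]
  rw [Finset.mul_sum]
  have h2 : ∀ i : α → Fin n, (Gm α (n : ℂ)).det * ∫ x : Un n, ∑ i' : α → Fin n,
      tp α (x : Mn n) i (i ∘ π) * star (tp α (x : Mn n) i' (i' ∘ ρ)) ∂μ =
      ∑ σ : Equiv.Perm α, ∑ τ : Equiv.Perm α, (Gm α (n : ℂ)).adjugate σ τ *
        (if i ∘ (π * τ : Equiv.Perm α) = i ∘ (σ * ρ : Equiv.Perm α) then 1 else 0) := by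
    intro i
    rw [integral_finset_sum _ (fun i' _ => hint i i')]
    rw [Finset.mul_sum]
    simp only [wg μ hn]
    rw [Finset.sum_comm]
    apply sum_congr rfl
    intro σ _
    rw [Finset.sum_comm]
    apply sum_congr rfl
    intro τ _
    rw [Finset.sum_eq_single (i ∘ σ)]
    · rw [Equiv.Perm.coe_mul, Equiv.Perm.coe_mul, ← Function.comp_assoc, ← Function.comp_assoc]
      by_cases h3 : (i ∘ π) ∘ τ = (i ∘ σ) ∘ ρ
      · rw [if_pos ⟨rfl, h3⟩, if_pos h3, mul_one]
      · rw [if_neg (fun h => h3 h.2), if_neg h3, mul_zero]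
    · intro i' _ hi'
      rw [if_neg (fun h => hi' h.1.symm)]
    · intro h
      exact absurd (mem_univ _) h
  simp only [h2]
  rw [Finset.sum_comm, Finset.mul_sum]
  apply sum_congr rfl
  intro σ _
  rw [Finset.sum_comm]
  have h4 : ∀ τ : Equiv.Perm α, ∑ i : α → Fin n, (Gm α (n : ℂ)).adjugate σ τ *
      (if i ∘ (π * τ : Equiv.Perm α) = i ∘ (σ * ρ : Equiv.Perm α) then (1 : ℂ) else 0) =
      (Gm α (n : ℂ)).adjugate σ τ * Gm α (n : ℂ) τ (π⁻¹ * σ * ρ) := by
    intro τ
    rw [← Finset.mul_sum, gm_count]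
    congr 1
    have h5 : Gm α (n : ℂ) τ (π⁻¹ * σ * ρ) = Gm α (n : ℂ) (π⁻¹ * σ * ρ) τ := by
      have := congrFun (congrFun (gm_symm (α := α) (n : ℂ)) (π⁻¹ * σ * ρ)) τ
      rw [Matrix.transpose_apply] at this
      exact this
    rw [h5]
    simp only [Gm]
    congr 1
    have h6 : (π * τ) * (σ * ρ)⁻¹ = π * (τ * (π⁻¹ * σ * ρ)⁻¹) * π⁻¹ := by group
    rw [h6]
    have h7 := ncyc_add (π * (τ * (π⁻¹ * σ * ρ)⁻¹) * π⁻¹)
    have h8 := ncyc_add (τ * (π⁻¹ * σ * ρ)⁻¹)
    rw [Equiv.Perm.cycleType_conj] at h7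
    omega
  simp only [h4]
  rw [← Matrix.mul_apply, Matrix.adjugate_mul, Matrix.smul_apply, Matrix.one_apply, smul_eq_mul]
  congr 1
  have h9 : (σ = π⁻¹ * σ * ρ) ↔ (π * σ = σ * ρ) := by
    rw [mul_assoc, eq_inv_mul_iff_mul_eq]
  simp only [h9]

end

section
variable {A B : Type*} [Fintype A] [DecidableEq A] [Fintype B] [DecidableEq B]
  {n : ℕ} [MeasurableSpace (Un n)] [BorelSpace (Un n)] (μ : Measure (Un n))
  [IsProbabilityMeasure μ] [μ.IsMulLeftInvariant]

theorem TT_conj (e : A ≃ B) (ρ : Equiv.Perm B) (x : Mn n) :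
    TT (e.permCongr.symm ρ) x = TT ρ x := by
  rw [TT, TT, ← Equiv.sum_comp (Equiv.arrowCongr e (Equiv.refl (Fin n)))]
  apply sum_congr rfl
  intro i _
  rw [← Equiv.prod_comp e]
  apply prod_congr rfl
  intro a _
  simp [Equiv.arrowCongr, Equiv.permCongr]

theorem dst2 (e : A ≃ B) (hn : Fintype.card A ≤ n) (π : Equiv.Perm A) (ρ : Equiv.Perm B) :
    ∫ x : Un n, TT π (x : Mn n) * star (TT ρ (x : Mn n)) ∂μ =
      Nat.card {s : A ≃ B // ∀ a, s (π a) = ρ (s a)} := by
  simp only [← TT_conj e ρ]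
  rw [dst_sum μ hn, Finset.sum_boole]
  congr 1
  rw [← Fintype.card_subtype, ← Nat.card_eq_fintype_card]
  apply Nat.card_congr
  refine ((Equiv.inv (Equiv.Perm A)).trans ((Equiv.refl A).equivCongr e)).subtypeEquiv ?_
  intro σ
  constructor
  · intro h a
    have h1 : σ⁻¹ * π = (e.permCongr.symm ρ) * σ⁻¹ := by
      rw [inv_mul_eq_iff_eq_mul, ← mul_assoc, ← h, mul_inv_cancel_right]
    have h2 := congrFun (congrArg (fun (p : Equiv.Perm A) => (p : A → A)) h1) a
    simp only [Equiv.Perm.coe_mul, Function.comp] at h2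
    change e (σ⁻¹ (π a)) = ρ (e (σ⁻¹ a))
    rw [h2]
    simp [Equiv.permCongr]
  · intro h
    have h1 : σ⁻¹ * π = (e.permCongr.symm ρ) * σ⁻¹ := by
      ext a
      have h2 : e (σ⁻¹ (π a)) = ρ (e (σ⁻¹ a)) := h a
      apply e.injective
      rw [Equiv.Perm.mul_apply, h2]
      simp [Equiv.permCongr]
    rw [inv_mul_eq_iff_eq_mul, ← mul_assoc] at h1
    rw [h1, inv_mul_cancel_right]

theorem TT_smul (π : Equiv.Perm A) (z : ℂ) (x : Mn n) : TT π (z • x) = z ^ Fintype.card A * TT π x := by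
  rw [TT, TT, Finset.mul_sum]
  apply sum_congr rfl
  intro i _
  simp only [Matrix.smul_apply, smul_eq_mul]
  rw [Finset.prod_mul_distrib, Finset.prod_const, Finset.card_univ]

theorem dst0 (hAB : Fintype.card A ≠ Fintype.card B) (π : Equiv.Perm A) (ρ : Equiv.Perm B) :
    ∫ x : Un n, TT π (x : Mn n) * star (TT ρ (x : Mn n)) ∂μ = 0 := by
  set N := Fintype.card A + Fintype.card B + 1 with hN
  have hN0 : N ≠ 0 := by omega
  have hprim := Complex.isPrimitiveRoot_exp N hN0
  set ζ := Complex.exp (2 * Real.pi * Complex.I / N) with hζ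
  have hnorm : ‖ζ‖ = 1 := hprim.norm'_eq_one hN0
  set g : Un n := ⟨Matrix.diagonal (fun _ => ζ), diag_mem _ (fun _ => hnorm)⟩ with hg
  have hgx : ∀ x : Un n, ((g * x : Un n) : Mn n) = ζ • (x : Mn n) := by
    intro x
    change Matrix.diagonal (fun _ => ζ) * (x : Mn n) = _
    ext i j
    rw [Matrix.diagonal_mul, Matrix.smul_apply, smul_eq_mul]
  set I := ∫ x : Un n, TT π (x : Mn n) * star (TT ρ (x : Mn n)) ∂μ with hI
  have h1 : I = (ζ ^ Fintype.card A * star (ζ ^ Fintype.card B)) * I := by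
    rw [hI, ← integral_const_mul]
    conv_lhs => rw [← integral_mul_left_eq_self (μ := μ) _ g]
    congr 1
    funext x
    rw [hgx, TT_smul, TT_smul, StarMul.star_mul]
    ring
  by_contra hne
  have h2 : ζ ^ Fintype.card A * star (ζ ^ Fintype.card B) = 1 := by
    have h3 : (ζ ^ Fintype.card A * star (ζ ^ Fintype.card B) - 1) * I = 0 := by
      linear_combination -h1
    have h4 := (mul_eq_zero.mp h3).resolve_right hne
    linear_combination h4
  have h5 : star (ζ ^ Fintype.card B) * ζ ^ Fintype.card B = 1 := by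
    change (starRingEnd ℂ) (ζ ^ Fintype.card B) * _ = 1
    rw [mul_comm, Complex.mul_conj, Complex.normSq_eq_norm_sq, norm_pow, hnorm]
    simp
  have h6 : ζ ^ Fintype.card A = ζ ^ Fintype.card B := by
    calc ζ ^ Fintype.card A = ζ ^ Fintype.card A * (star (ζ ^ Fintype.card B) *
          ζ ^ Fintype.card B) := by rw [h5, mul_one]
      _ = (ζ ^ Fintype.card A * star (ζ ^ Fintype.card B)) * ζ ^ Fintype.card B := by ring
      _ = ζ ^ Fintype.card B := by rw [h2, one_mul]
  exact hAB (hprim.pow_inj (by omega) (by omega) h6)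

/-- Diaconis-Shahshahani in terms of permutations. -/
theorem dst3 (hn : Fintype.card A ≤ n) (π : Equiv.Perm A) (ρ : Equiv.Perm B) :
    ∫ x : Un n, TT π (x : Mn n) * star (TT ρ (x : Mn n)) ∂μ =
      Nat.card {s : A ≃ B // ∀ a, s (π a) = ρ (s a)} := by
  by_cases h : Fintype.card A = Fintype.card B
  · exact dst2 μ (Fintype.equivOfCardEq h) hn π ρ
  · rw [dst0 μ h]
    have : IsEmpty {s : A ≃ B // ∀ a, s (π a) = ρ (s a)} :=
      ⟨fun s => h (Fintype.card_congr s.1)⟩
    rw [Nat.card_of_isEmpty, Nat.cast_zero]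

end

section
variable {n : ℕ}

/-- integer powers of a unitary matrix -/
def zp (x : Un n) (k : ℤ) : Mn n := ((x ^ k : Un n) : Mn n)

theorem zp_add (x : Un n) (a b : ℤ) : zp x (a + b) = zp x a * zp x b := by
  rw [zp, zpow_add]
  rfl

theorem zp_zero (x : Un n) : zp x 0 = 1 := by
  rw [zp, zpow_zero]
  rfl

theorem zp_neg (x : Un n) (a : ℤ) : zp x (-a) = star (zp x a) := by
  rw [zp, zpow_neg]
  rfl

theorem trace_zp_neg (x : Un n) (a : ℤ) : (zp x (-a)).trace = star (zp x a).trace := by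
  rw [zp_neg, Matrix.star_eq_conjTranspose, Matrix.trace_conjTranspose]

theorem cont_zp (a : ℤ) : Continuous (fun x : Un n => zp x a) :=
  continuous_subtype_val.comp (continuous_zpow a)

theorem TT_rot {G : Type*} [Fintype G] [DecidableEq G] (l : G → ℕ) (hl : ∀ g, 0 < l g) (x : Un n) :
    TT (rot l) (x : Mn n) = ∏ g, (zp x (l g)).trace := by
  have h1 := sum_fib (n := Fin n) (R := ℂ) (A := Σ g, Fin (l g)) (fun a => a.1) (rot l)
    (fun a => rfl) (fun _ => (x : Mn n))
  rw [TT]
  refine h1.trans (prod_congr rfl ?_)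
  intro g _
  obtain ⟨k, hk⟩ : ∃ k, l g = k + 1 := Nat.exists_eq_succ_of_ne_zero (hl g).ne'
  let e : Fin (k + 1) ≃ {a : Σ g, Fin (l g) // a.1 = g} :=
    { toFun := fun j => ⟨⟨g, Fin.cast hk.symm j⟩, rfl⟩
      invFun := fun a => Fin.cast (by rw [a.2, hk]) a.1.2
      left_inv := by
        intro j
        rfl
      right_inv := by
        rintro ⟨⟨g', j⟩, rfl⟩
        rfl }
  have h2 := cyc_one (R := ℂ) (fun k => zp x k) (zp_add x)
    (fun a : {a : Σ g, Fin (l g) // a.1 = g} => (⟨rot l a.1, a.2⟩ : {a : Σ g, Fin (l g) // a.1 = g}))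
    (fun _ => (1 : ℤ)) k e ?_ ?_
  · have h3 : ((∑ _a : {a : Σ g, Fin (l g) // a.1 = g}, (1 : ℤ)) : ℤ) = (l g : ℤ) := by
      rw [Finset.sum_const, Finset.card_univ, ← Fintype.card_congr e, Fintype.card_fin, hk]
      simp
    have h4 : zp x 1 = (x : Mn n) := by
      rw [zp, zpow_one]
    rw [h3] at h2
    simp only [h4] at h2
    exact h2
  · intro j
    apply Subtype.ext
    apply sig_ext
    · rfl
    · change ((Fin.cast hk.symm j.succ : Fin (l g)) : ℕ) =
        (finRotate (l g) (Fin.cast hk.symm j.castSucc) : ℕ)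
      rw [finRotate_val]
      simp only [Fin.val_cast, Fin.val_succ, Fin.val_castSucc]
      rw [Nat.mod_eq_of_lt]
      omega
  · apply Subtype.ext
    apply sig_ext
    · rfl
    · change (finRotate (l g) (Fin.cast hk.symm (Fin.last k)) : ℕ) =
        ((Fin.cast hk.symm 0 : Fin (l g)) : ℕ)
      rw [finRotate_val]
      simp only [Fin.val_cast, Fin.val_last, Fin.val_zero]
      rw [hk, Nat.mod_self]

variable [MeasurableSpace (Un n)] [BorelSpace (Un n)] (μ : Measure (Un n))
  [IsProbabilityMeasure μ] [μ.IsMulLeftInvariant]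

/-- Diaconis-Shahshahani. -/
theorem ds_int {Γ : Type*} [Fintype Γ] (c : Γ → ℤ) (hn : ∑ g, (c g).natAbs ≤ n) :
    ∫ x : Un n, ∏ g, (zp x (c g)).trace ∂μ = ds (n : ℂ) c := by
  classical
  let l : {g // 0 < c g} → ℕ := fun g => (c g).natAbs
  let l' : {g // c g < 0} → ℕ := fun g => (c g).natAbs
  have hl : ∀ g, 0 < l g := fun g => Int.natAbs_pos.mpr (ne_of_gt g.2)
  have hl' : ∀ g, 0 < l' g := fun g => Int.natAbs_pos.mpr (ne_of_lt g.2)
  have hsplit : ∀ x : Un n, ∏ g, (zp x (c g)).trace = (∏ g, if c g = 0 then (n : ℂ) else 1) *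
      (TT (rot l) (x : Mn n) * star (TT (rot l') (x : Mn n))) := by
    intro x
    rw [TT_rot l hl, TT_rot l' hl', star_prod]
    have h1 : ∏ g : {g // 0 < c g}, (zp x (l g)).trace =
        ∏ g, if 0 < c g then (zp x (c g)).trace else 1 := by
      rw [← Finset.prod_filter, ← Finset.prod_subtype_eq_prod_filter, Finset.subtype_univ]
      apply prod_congr rfl
      intro g _
      have h3 : ((l g : ℕ) : ℤ) = c g := by
        have := g.2
        simp only [l]
        omega
      rw [h3]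
    have h2 : ∏ g : {g // c g < 0}, star (zp x (l' g)).trace =
        ∏ g, if c g < 0 then (zp x (c g)).trace else 1 := by
      rw [← Finset.prod_filter, ← Finset.prod_subtype_eq_prod_filter, Finset.subtype_univ]
      apply prod_congr rfl
      intro g _
      have h3 : c g = -((l' g : ℕ) : ℤ) := by
        have := g.2
        simp only [l']
        omega
      rw [← trace_zp_neg, h3]
    rw [h1, h2, ← Finset.prod_mul_distrib, ← Finset.prod_mul_distrib]
    apply prod_congr rfl
    intro g _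
    rcases lt_trichotomy (c g) 0 with h | h | h
    · rw [if_neg (ne_of_lt h), if_neg (not_lt.mpr h.le), if_pos h]
      ring
    · rw [if_pos h, if_neg (by omega), if_neg (by omega), h, zp_zero, Matrix.trace_one,
        Fintype.card_fin]
      ring
    · rw [if_neg (ne_of_gt h), if_pos h, if_neg (not_lt.mpr h.le)]
      ring
  simp only [hsplit]
  rw [integral_const_mul, dst3 μ ?_ (rot l) (rot l')]
  · rw [dsc l l' hl hl', ds]
    have h1 : Nat.card {be : {g // 0 < c g} ≃ {g // c g < 0} // ∀ g, l' (be g) = l g} =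
        Nat.card {β : {g // 0 < c g} ≃ {g // c g < 0} // ∀ g, c (β g) = - c g} := by
      apply Nat.card_congr
      apply Equiv.subtypeEquivRight
      intro β
      apply forall_congr'
      intro g
      have h2 := g.2
      have h3 := (β g).2
      simp only [l, l']
      omega
    rw [h1, Nat.cast_mul, ← mul_assoc]
    congr 1
    have h2 : ((∏ g, l g : ℕ) : ℂ) = ∏ g, if 0 < c g then ((c g : ℤ) : ℂ) else 1 := by
      rw [← Finset.prod_filter, ← Finset.prod_subtype_eq_prod_filter, Finset.subtype_univ,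
        Nat.cast_prod]
      apply prod_congr rfl
      intro g _
      have h3 : ((l g : ℕ) : ℤ) = c g := by
        have := g.2
        simp only [l]
        omega
      rw [← h3, Int.cast_natCast]
    rw [h2, ← Finset.prod_mul_distrib]
    apply prod_congr rfl
    intro g _
    rcases lt_trichotomy (c g) 0 with h | h | h
    · rw [if_neg (ne_of_lt h), if_neg (ne_of_lt h), if_neg (not_lt.mpr h.le)]
      ring
    · rw [if_pos h, if_pos h, if_neg (by omega)]
      ring
    · rw [if_neg (ne_of_gt h), if_neg (ne_of_gt h), if_pos h, one_mul]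
  · rw [Fintype.card_sigma]
    simp only [Fintype.card_fin]
    refine le_trans ?_ hn
    have h1 : ∑ g : {g // 0 < c g}, l g = ∑ g, if 0 < c g then (c g).natAbs else 0 := by
      rw [← Finset.sum_filter, ← Finset.sum_subtype_eq_sum_filter, Finset.subtype_univ]
    rw [h1]
    apply sum_le_sum
    intro g _
    split_ifs
    · exact le_rfl
    · exact Nat.zero_le _

end

end Pool.Agent.EF
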