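import Mathlib

set_option autoImplicit false

/-!
# First fundamental theorem for `U(n)`, stable range

`tp g` is the tensor power of the matrix `g` on `(α → Fin n) → ℂ`. A matrix which commutes with `tp g` for
all unitary `g` is a linear combination of permutations of the factors, if `card α ≤ n`.
-/

namespace Pool.Agent.EF

open Finset

/-- Complex matrices. -/
abbrev Mn (n : ℕ) := Matrix (Fin n) (Fin n) ℂ

/-- Unitary matrices. -/
abbrev Un (n : ℕ) := Matrix.unitaryGroup (Fin n) ℂ

/-- Tensor power. -/
def tp (α : Type*) [Fintype α] {n : ℕ} (g : Mn n) : Matrix (α → Fin n) (α → Fin n) ℂ :=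
  fun i j => ∏ a, g (i a) (j a)

section
variable {α : Type*} [Fintype α] [DecidableEq α] {n : ℕ}

theorem tp_mul (g h : Mn n) : tp α (g * h) = tp α g * tp α h := by
  ext i j
  rw [Matrix.mul_apply]
  simp only [tp, Matrix.mul_apply]
  rw [Finset.prod_univ_sum]
  simp only [Finset.prod_mul_distrib, Fintype.piFinset_univ]

theorem tp_diagonal (z : Fin n → ℂ) :
    tp α (Matrix.diagonal z) = Matrix.diagonal (fun i : α → Fin n => ∏ a, z (i a)) := by
  ext i j
  rw [Matrix.diagonal_apply, tp]
  split_ifs with h
  · subst h
    simp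
  · obtain ⟨a, ha⟩ := Function.ne_iff.mp h
    exact prod_eq_zero (mem_univ a) (by rw [Matrix.diagonal_apply_ne _ ha])

/-- number of occurrences of `m` among the values of `i` -/
def cnt (i : α → Fin n) (m : Fin n) : ℕ := (univ.filter (fun a => i a = m)).card

theorem prod_cnt (i : α → Fin n) (z : Fin n → ℂ) : ∏ a, z (i a) = ∏ m, z m ^ cnt i m := by
  rw [← Finset.prod_fiberwise_of_maps_to (s := (univ : Finset α)) (t := univ) (g := i)
    (fun _ _ => mem_univ _)]
  apply prod_congr rfl
  intro m _
  rw [cnt, ← Finset.prod_const]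
  apply prod_congr rfl
  intro a ha
  rw [(mem_filter.mp ha).2]

/-- the torus -/
theorem diag_mem (z : Fin n → ℂ) (hz : ∀ m, ‖z m‖ = 1) :
    Matrix.diagonal z ∈ Matrix.unitaryGroup (Fin n) ℂ := by
  rw [Matrix.mem_unitaryGroup_iff, Matrix.star_eq_conjTranspose, Matrix.diagonal_conjTranspose,
    Matrix.diagonal_mul_diagonal, ← Matrix.diagonal_one]
  congr 1
  funext m
  have := Complex.mul_conj (z m)
  rw [Pi.star_apply]
  change z m * (starRingEnd ℂ) (z m) = 1
  rw [this, Complex.normSq_eq_norm_sq, hz m]
  simp

theorem cnt_eq {X : Matrix (α → Fin n) (α → Fin n) ℂ}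
    (hX : ∀ g : Un n, X * tp α (g : Mn n) = tp α (g : Mn n) * X) {i j : α → Fin n}
    (hij : X i j ≠ 0) : cnt i = cnt j := by
  funext m
  set N := Fintype.card α + 1 with hN
  have hN0 : N ≠ 0 := by omega
  have hprim := Complex.isPrimitiveRoot_exp N hN0
  set ζ := Complex.exp (2 * Real.pi * Complex.I / N) with hζ
  have hnorm : ‖ζ‖ = 1 := hprim.norm'_eq_one hN0
  let z : Fin n → ℂ := fun l => if l = m then ζ else 1
  have hz : ∀ l, ‖z l‖ = 1 := by
    intro l
    by_cases h : l = m
    · simp only [z, if_pos h, hnorm]
    · simp only [z, if_neg h, norm_one]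
  have h1 := congrFun (congrFun (hX ⟨Matrix.diagonal z, diag_mem z hz⟩) i) j
  simp only [tp_diagonal, Matrix.mul_diagonal, Matrix.diagonal_mul] at h1
  rw [mul_comm, mul_eq_mul_right_iff, or_iff_left hij] at h1
  have h2 : ∀ k : α → Fin n, ∏ a, z (k a) = ζ ^ cnt k m := by
    intro k
    rw [prod_cnt, Finset.prod_eq_single m]
    · simp only [z, if_true]
    · intro l _ hl
      simp only [z, if_neg hl, one_pow]
    · intro h
      exact absurd (mem_univ m) h
  rw [h2, h2] at h1
  have hlt : ∀ k : α → Fin n, cnt k m < N := by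
    intro k
    have : cnt k m ≤ Fintype.card α := by
      rw [cnt]
      exact card_le_univ _
    omega
  exact (hprim.pow_inj (hlt j) (hlt i) h1).symm

theorem comm_diagonal {X : Matrix (α → Fin n) (α → Fin n) ℂ}
    (hX : ∀ g : Un n, X * tp α (g : Mn n) = tp α (g : Mn n) * X) (z : Fin n → ℂ) :
    X * tp α (Matrix.diagonal z) = tp α (Matrix.diagonal z) * X := by
  ext i j
  simp only [tp_diagonal, Matrix.mul_diagonal, Matrix.diagonal_mul]
  by_cases h : X i j = 0
  · rw [h, zero_mul, mul_zero]
  · rw [prod_cnt, prod_cnt, cnt_eq hX h, mul_comm]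

open scoped ComplexOrder in
/-- The decomposition `g = k a k'` with `k`, `k'` unitary and `a` diagonal. -/
theorem kak (g : Mn n) (hg : g.det ≠ 0) :
    ∃ (k k' : Un n) (z : Fin n → ℂ), g = (k : Mn n) * Matrix.diagonal z * (k' : Mn n) := by
  have hpd : (g.conjTranspose * g).PosDef := by
    apply Matrix.PosDef.conjTranspose_mul_self
    have hu : IsUnit g := (Matrix.isUnit_iff_isUnit_det g).mpr (isUnit_iff_ne_zero.mpr hg)
    exact Matrix.mulVec_injective_of_isUnit hu
  set hA := hpd.1 with hAdef
  have hspec := hA.spectral_theorem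
  set U : Matrix (Fin n) (Fin n) ℂ := (hA.eigenvectorUnitary : Matrix (Fin n) (Fin n) ℂ) with hU
  have hUmem : U ∈ Matrix.unitaryGroup (Fin n) ℂ := hA.eigenvectorUnitary.2
  have hUU : U.conjTranspose * U = 1 := Matrix.mem_unitaryGroup_iff'.mp hUmem
  have hUU' : U * U.conjTranspose = 1 := Matrix.mem_unitaryGroup_iff.mp hUmem
  set ev := hA.eigenvalues with hev
  have hpos : ∀ i, 0 < ev i := fun i => hpd.eigenvalues_pos i
  have hspec' : g.conjTranspose * g = U * Matrix.diagonal (fun i => (ev i : ℂ)) * U.conjTranspose := by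
    rw [hspec]
    rfl
  set s : Fin n → ℝ := fun i => Real.sqrt (ev i) with hs
  have hs0 : ∀ i, s i ≠ 0 := fun i => (Real.sqrt_pos.mpr (hpos i)).ne'
  have hss : ∀ i, s i * s i = ev i := fun i => Real.mul_self_sqrt (hpos i).le
  set b : Mn n := Matrix.diagonal (fun i => (((s i)⁻¹ : ℝ) : ℂ)) with hb
  set a : Mn n := Matrix.diagonal (fun i => ((s i : ℝ) : ℂ)) with ha
  have hba : b * a = 1 := by
    rw [hb, ha, Matrix.diagonal_mul_diagonal, ← Matrix.diagonal_one]
    congr 1
    funext i
    rw [← Complex.ofReal_mul, inv_mul_cancel₀ (hs0 i), Complex.ofReal_one]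
  have hab : a * b = 1 := by
    rw [hb, ha, Matrix.diagonal_mul_diagonal, ← Matrix.diagonal_one]
    congr 1
    funext i
    rw [← Complex.ofReal_mul, mul_inv_cancel₀ (hs0 i), Complex.ofReal_one]
  have hbh : b.conjTranspose = b := by
    rw [hb, Matrix.diagonal_conjTranspose]
    congr 1
    funext i
    exact Complex.conj_ofReal _
  refine ⟨⟨g * U * b, ?_⟩, ⟨U.conjTranspose, ?_⟩, fun i => ((s i : ℝ) : ℂ), ?_⟩
  · rw [Matrix.mem_unitaryGroup_iff']
    change (g * U * b).conjTranspose * (g * U * b) = 1
    have h1 : (g * U * b).conjTranspose * (g * U * b) =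
        b * (U.conjTranspose * (g.conjTranspose * g) * U) * b := by
      rw [Matrix.conjTranspose_mul, Matrix.conjTranspose_mul, hbh]
      simp only [Matrix.mul_assoc]
    have h2 : U.conjTranspose * (g.conjTranspose * g) * U =
        Matrix.diagonal (fun i => (ev i : ℂ)) := by
      rw [hspec']
      have : U.conjTranspose * (U * Matrix.diagonal (fun i => (ev i : ℂ)) * U.conjTranspose) * U =
          (U.conjTranspose * U) * Matrix.diagonal (fun i => (ev i : ℂ)) * (U.conjTranspose * U) := by
        simp only [Matrix.mul_assoc]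
      rw [this, hUU, Matrix.one_mul, Matrix.mul_one]
    rw [h1, h2]
    have h3 : Matrix.diagonal (fun i => (ev i : ℂ)) = a * a := by
      rw [ha, Matrix.diagonal_mul_diagonal]
      congr 1
      funext i
      rw [← Complex.ofReal_mul, hss]
    rw [h3]
    have : b * (a * a) * b = (b * a) * (a * b) := by
      simp only [Matrix.mul_assoc]
    rw [this, hba, hab, Matrix.one_mul]
  · rw [Matrix.mem_unitaryGroup_iff']
    change (U.conjTranspose).conjTranspose * U.conjTranspose = 1
    rw [Matrix.conjTranspose_conjTranspose, hUU']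
  · change g = g * U * b * a * U.conjTranspose
    have : g * U * b * a * U.conjTranspose = g * (U * (b * a) * U.conjTranspose) := by
      simp only [Matrix.mul_assoc]
    rw [this, hba, Matrix.mul_one, hUU', Matrix.mul_one]

theorem comm_of_det {X : Matrix (α → Fin n) (α → Fin n) ℂ}
    (hX : ∀ g : Un n, X * tp α (g : Mn n) = tp α (g : Mn n) * X) (h : Mn n) (hh : h.det ≠ 0) :
    X * tp α h = tp α h * X := by
  obtain ⟨k, k', z, rfl⟩ := kak h hh
  rw [tp_mul, tp_mul]
  calc X * (tp α (k : Mn n) * tp α (Matrix.diagonal z) * tp α (k' : Mn n))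
      = X * tp α (k : Mn n) * tp α (Matrix.diagonal z) * tp α (k' : Mn n) := by
        simp only [Matrix.mul_assoc]
    _ = tp α (k : Mn n) * (X * tp α (Matrix.diagonal z)) * tp α (k' : Mn n) := by
        rw [hX k]
        simp only [Matrix.mul_assoc]
    _ = tp α (k : Mn n) * tp α (Matrix.diagonal z) * (X * tp α (k' : Mn n)) := by
        rw [comm_diagonal hX z]
        simp only [Matrix.mul_assoc]
    _ = _ := by
        rw [hX k']
        simp only [Matrix.mul_assoc]

theorem continuous_tp : Continuous (fun g : Mn n => tp α g) := by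
  refine continuous_matrix fun i j => ?_
  simp only [tp]
  exact continuous_finset_prod _ fun a _ => continuous_id.matrix_elem _ _

theorem comm_all {X : Matrix (α → Fin n) (α → Fin n) ℂ}
    (hX : ∀ g : Un n, X * tp α (g : Mn n) = tp α (g : Mn n) * X) (h : Mn n) :
    X * tp α h = tp α h * X := by
  have hcl : IsClosed {g : Mn n | X * tp α g = tp α g * X} :=
    isClosed_eq (continuous_const.matrix_mul continuous_tp) (continuous_tp.matrix_mul continuous_const)
  have hdense : h ∈ closure {g : Mn n | g.det ≠ 0} := by
    have hev : ∀ᶠ t : ℝ in nhdsWithin 0 {0}ᶜ, (h + (t : ℂ) • (1 : Mn n)).det ≠ 0 := by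
      have hfin : {t : ℂ | (h + t • (1 : Mn n)).det = 0}.Finite := by
        have h1 : ∀ t : ℂ, (h + t • (1 : Mn n)).det = (-h).charpoly.eval t := by
          intro t
          rw [Matrix.eval_charpoly]
          congr 1
          rw [sub_neg_eq_add, add_comm]
          congr 1
          rw [Matrix.smul_one_eq_diagonal, Matrix.scalar_apply]
        have h2 : {t : ℂ | (h + t • (1 : Mn n)).det = 0} ⊆ ((-h).charpoly.roots.toFinset : Set ℂ) := by
          intro t ht
          rw [Finset.mem_coe, Multiset.mem_toFinset, Polynomial.mem_roots (Matrix.charpoly_monic _).ne_zero,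
            Polynomial.IsRoot.def, ← h1]
          exact ht
        exact (Finset.finite_toSet _).subset h2
      have hfinR : {t : ℝ | (h + (t : ℂ) • (1 : Mn n)).det = 0}.Finite :=
        hfin.preimage Complex.ofReal_injective.injOn
      have hopen : IsOpen ({t : ℝ | (h + (t : ℂ) • (1 : Mn n)).det = 0} \ {0})ᶜ :=
        (hfinR.subset Set.sdiff_subset).isClosed.isOpen_compl
      have h0 : (0 : ℝ) ∈ ({t : ℝ | (h + (t : ℂ) • (1 : Mn n)).det = 0} \ {0})ᶜ := by simp
      filter_upwards [nhdsWithin_le_nhds (hopen.mem_nhds h0), self_mem_nhdsWithin] with t ht ht0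
      intro hd
      exact ht ⟨hd, ht0⟩
    have htend : Filter.Tendsto (fun t : ℝ => h + (t : ℂ) • (1 : Mn n)) (nhdsWithin 0 {0}ᶜ) (nhds h) := by
      have : Continuous (fun t : ℝ => h + (t : ℂ) • (1 : Mn n)) :=
        continuous_const.add (Complex.continuous_ofReal.smul continuous_const)
      have h3 := this.tendsto 0
      simp only [Complex.ofReal_zero, zero_smul, add_zero] at h3
      exact h3.mono_left nhdsWithin_le_nhds
    exact mem_closure_of_tendsto htend hev
  have hsub : closure {g : Mn n | g.det ≠ 0} ⊆ {g : Mn n | X * tp α g = tp α g * X} :=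
    closure_minimal (fun g hg => comm_of_det hX g hg) hcl
  exact hsub hdense

/-- First fundamental theorem, stable range. -/
theorem fft (hn : Fintype.card α ≤ n) (X : Matrix (α → Fin n) (α → Fin n) ℂ)
    (hX : ∀ g : Un n, X * tp α (g : Mn n) = tp α (g : Mn n) * X) :
    ∃ c : Equiv.Perm α → ℂ, ∀ i j, X i j = ∑ σ : Equiv.Perm α, if i ∘ σ = j then c σ else 0 := by
  classical
  obtain ⟨ι, hι⟩ : ∃ ι : α → Fin n, Function.Injective ι :=
    ⟨fun a => Fin.castLE hn (Fintype.equivFin α a),
      fun a b h => (Fintype.equivFin α).injective (Fin.castLE_injective hn h)⟩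
  -- the value of `X` at the vector `ι`
  let c : Equiv.Perm α → ℂ := fun σ => X (ι ∘ σ.symm) ι
  refine ⟨c, ?_⟩
  have hcol : ∀ i, X i ι = ∑ σ : Equiv.Perm α, if i ∘ σ = ι then c σ else 0 := by
    intro i
    by_cases h : ∃ σ : Equiv.Perm α, i ∘ σ = ι
    · obtain ⟨σ, hσ⟩ := h
      have huniq : ∀ τ : Equiv.Perm α, i ∘ τ = ι → τ = σ := by
        intro τ hτ
        have hi : Function.Injective i := by
          have : i = ι ∘ σ.symm := by
            rw [← hσ, Function.comp_assoc, Equiv.self_comp_symm, Function.comp_id]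
          rw [this]
          exact hι.comp σ.symm.injective
        ext a
        apply hi
        exact (congrFun hτ a).trans (congrFun hσ a).symm
      rw [Finset.sum_eq_single σ]
      · rw [if_pos hσ]
        change X i ι = X (ι ∘ σ.symm) ι
        congr 1
        rw [← hσ, Function.comp_assoc, Equiv.self_comp_symm, Function.comp_id]
      · intro τ _ hτ
        rw [if_neg (fun h => hτ (huniq τ h))]
      · intro h
        exact absurd (mem_univ σ) h
    · rw [Finset.sum_eq_zero]
      · by_contra hne
        have hcnt := cnt_eq hX hne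
        apply h
        -- `i` is injective with the same range
        have hone : ∀ m, cnt i m ≤ 1 := by
          intro m
          rw [hcnt, cnt, Finset.card_le_one]
          intro a ha b hb
          exact hι ((mem_filter.mp ha).2.trans (mem_filter.mp hb).2.symm)
        have hinj : Function.Injective i := by
          intro a b hab
          have := hone (i a)
          rw [cnt, Finset.card_le_one] at this
          exact this a (by simp) b (by simp [hab])
        have hex : ∀ a, ∃ b, i b = ι a := by
          intro a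
          have h1 : 0 < cnt i (ι a) := by
            rw [hcnt, cnt, Finset.card_pos]
            exact ⟨a, by simp⟩
          rw [cnt, Finset.card_pos] at h1
          obtain ⟨b, hb⟩ := h1
          exact ⟨b, (mem_filter.mp hb).2⟩
        choose f hf using hex
        have hfinj : Function.Injective f := by
          intro a b hab
          apply hι
          rw [← hf a, ← hf b, hab]
        refine ⟨Equiv.ofBijective f (Finite.injective_iff_bijective.mp hfinj), ?_⟩
        funext a
        exact hf a
      · intro σ _
        rw [if_neg (fun h' => h ⟨σ, h'⟩)]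
  intro i k
  -- a matrix which maps `ι` to `k`
  let h : Mn n := fun p q => if ∃ a, ι a = q ∧ k a = p then 1 else 0
  have hι' : ∀ a b, ι a = ι b ↔ a = b := fun a b => hι.eq_iff
  have hh : ∀ (a : α) (p : Fin n), h p (ι a) = if k a = p then 1 else 0 := by
    intro a p
    simp only [h]
    congr 1
    apply propext
    constructor
    · rintro ⟨b, hb, hb'⟩
      rw [hι' b a] at hb
      rw [← hb, hb']
    · intro hb
      exact ⟨a, rfl, hb⟩
  have htp : ∀ j, tp α h j ι = if k = j then 1 else 0 := by
    intro j
    simp only [tp, hh]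
    rw [Finset.prod_ite_zero]
    simp only [Finset.prod_const_one, mem_univ, forall_true_left, funext_iff]
  have hcomm := congrFun (congrFun (comm_all hX h) i) ι
  rw [Matrix.mul_apply, Matrix.mul_apply] at hcomm
  simp only [htp, mul_ite, mul_one, mul_zero, Finset.sum_ite_eq, mem_univ, if_true] at hcomm
  rw [hcomm]
  simp only [hcol, Finset.mul_sum]
  rw [Finset.sum_comm]
  apply sum_congr rfl
  intro σ _
  rw [Finset.sum_eq_single (ι ∘ σ.symm)]
  · rw [if_pos (by rw [Function.comp_assoc, Equiv.symm_comp_self, Function.comp_id])]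
    have h4 : tp α h i (ι ∘ σ.symm) = if i ∘ σ = k then 1 else 0 := by
      simp only [tp, Function.comp, hh]
      rw [Finset.prod_ite_zero]
      simp only [Finset.prod_const_one, mem_univ, forall_true_left]
      congr 1
      apply propext
      constructor
      · intro h5
        funext a
        have := h5 (σ a)
        rw [Equiv.symm_apply_apply] at this
        exact this.symm
      · intro h5 a
        rw [← h5]
        simp
    rw [h4]
    split_ifs <;> simp
  · intro j _ hj
    rw [if_neg, mul_zero]
    intro h5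
    apply hj
    rw [← h5, Function.comp_assoc, Equiv.self_comp_symm, Function.comp_id]
  · intro h5
    exact absurd (mem_univ _) h5

end

end Pool.Agent.EF
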