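import Pool.Agent.Lib.MP_ef6aaf_al.EF.HaarD

set_option autoImplicit false
set_option linter.unusedSectionVars false

/-!
# The two interfaces
-/

namespace Pool.Agent.EF

open Finset MeasureTheory Filter
open Pool.Agent.Lib.MP_ef6aaf_al (HaarOn)

theorem lift_wordA {n l : ℕ} (c : Fin l → ℤ) (ε : Fin l → Bool) (x y : Un n) :
    FreeGroup.lift ![x, y] (wordA c ε) =
      (List.ofFn fun t => x ^ c t * (if ε t then y else y⁻¹)).prod := by
  rw [wordA, map_list_prod, List.map_ofFn]
  congr 2
  funext t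
  simp only [Function.comp, map_mul, map_zpow, FreeGroup.lift_apply_of]
  by_cases h : ε t
  · simp [h]
  · simp [h]

theorem lift_wordS {n s : ℕ} (a b : Fin s → ℤ) (x y : Un n) :
    FreeGroup.lift ![x, y] (wordS a b) = (List.ofFn fun t => x ^ a t * y ^ b t).prod := by
  rw [wordS, map_list_prod, List.map_ofFn]
  congr 2
  funext t
  simp [Function.comp, map_mul, map_zpow, FreeGroup.lift_apply_of]

theorem p_resA : S_resA := by
  intro l k hl hk c ε w hw hH
  apply resA_of_mean l k hl hk c ε (Nat.factorial k : ℂ)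
  refine (hH.and_eventually (eventually_ge_atTop k)).mono ?_
  rintro n ⟨hn, hkn⟩
  apply ex_haar n
  intro m1 m2 μ m3 m4
  refine ⟨m1, m2, μ, m3, m4, ?_⟩
  rw [← haarA μ hn k hkn]
  congr 1
  funext x
  congr 1
  funext y
  have h1 := Phi_arcs (n := n) k (finRotate l) ε c (fun _ => false) x y
  refine h1.trans ?_
  rw [Phi_fin l (by omega), F2, ← GG_lift k hw, GG]
  simp only [lift_wordA]

theorem p_resS : S_resS := by
  intro s hs a b w hw hH
  apply resS_of_mean s hs a b (Nat.factorial 1 : ℂ)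
  refine (hH.and_eventually (eventually_ge_atTop 1)).mono ?_
  rintro n ⟨hn, hkn⟩
  apply ex_haar n
  intro m1 m2 μ m3 m4
  refine ⟨m1, m2, μ, m3, m4, ?_⟩
  rw [← haarS μ hn 1 hkn]
  congr 1
  funext x
  congr 1
  funext y
  have h1 := Phi_arcs (n := n) 1 (rotS s) (fun t => ! t.2) (fun t => if t.2 then b t.1 else a t.1)
    (fun t => t.2) x y
  refine h1.trans ?_
  rw [Phi_rotS s (by omega), F2, ← GG_lift 1 hw, GG]
  simp only [lift_wordS, conj_zpow]

end Pool.Agent.EF
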