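import Pool.Agent.Lib.MP_ef6aaf_al.EF.QCalc

/-!
Charges in the squarefree algebra: the operators `wt w` (multiply the component of charge `k` by `w k`), the
charge-0 subalgebra, the pairing `pr`, the scaling endomorphism `sc`.
-/

set_option autoImplicit false
set_option linter.unusedSectionVars false
set_option linter.unusedVariables false

namespace Pool.MP_ef6aaf_al.EF

open Finset

namespace Sq

variable {A : Type} [DecidableEq A]

/-! ### order facts for log -/

theorem dg_nn {x : Sq A} (Y : Finset A) (hx : 0 ≤ x) : 0 ≤ dg Y x :=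
  fun S => mul_nonneg (by positivity) (hx S)

theorem dg_le {x y : Sq A} (Y : Finset A) (h : x ≤ y) : dg Y x ≤ dg Y y :=
  fun S => mul_le_mul_of_nonneg_left (h S) (by positivity)

theorem le_of_dg_le [Fintype A] {x y : Sq A} (h0 : x.co ∅ ≤ y.co ∅) (h : dg univ x ≤ dg univ y) :
    x ≤ y := fun S => by
  by_cases hS : S = ∅
  · subst hS; exact h0
  · have h1 := h S
    simp only [dg, inter_univ] at h1
    have h2 : (0 : ℚ) < S.card := by
      rw [Nat.cast_pos]; exact Finset.card_pos.2 (Finset.nonempty_iff_ne_empty.2 hS)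
    exact le_of_mul_le_mul_left h1 h2

/-- `dg log 1/(1-x) = 1/(1-x) dg x` -/
theorem dg_lg_iv_one_sub [Fintype A] {x : Sq A} (hx : x.co ∅ = 0) (Y : Finset A) :
    dg Y (lg (iv (1 - x))) = iv (1 - x) * dg Y x := by
  rw [lg_iv (by simp [hx]), dg_neg, dg_lg Y (by simp [hx]), dg_sub, dg_one]
  ring

/-- `log 1/(1-x) >= 0` -/
theorem lg_iv_one_sub_nn [Fintype A] {x : Sq A} (h0 : x.co ∅ = 0) (hx : 0 ≤ x) :
    0 ≤ lg (iv (1 - x)) := by
  apply le_of_dg_le (by simp)
  rw [dg_zero, dg_lg_iv_one_sub h0]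
  exact mul_nn (iv_one_sub_nn hx) (dg_nn _ hx)

theorem lg_iv_one_sub_le [Fintype A] {x y : Sq A} (h0 : x.co ∅ = 0) (h0' : y.co ∅ = 0)
    (hx : 0 ≤ x) (h : x ≤ y) : lg (iv (1 - x)) ≤ lg (iv (1 - y)) := by
  apply le_of_dg_le (by simp)
  rw [dg_lg_iv_one_sub h0, dg_lg_iv_one_sub h0']
  exact mul_le (iv_one_sub_nn hx) (iv_one_sub_le hx h) (dg_nn _ hx) (dg_le _ h)

/-- `log 1/(1-x) >= x` for `x >= 0` -/
theorem le_lg_iv_one_sub [Fintype A] {x : Sq A} (h0 : x.co ∅ = 0) (hx : 0 ≤ x) :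
    x ≤ lg (iv (1 - x)) := by
  apply le_of_dg_le (by simp [h0])
  rw [dg_lg_iv_one_sub h0]
  have h1 : (1 : Sq A) ≤ iv (1 - x) := by
    have := iv_one_sub_le (x := 0) (y := x) (le_refl _) hx
    rwa [sub_zero, iv_one] at this
  calc dg univ x = 1 * dg univ x := (one_mul _).symm
    _ ≤ iv (1 - x) * dg univ x := mul_le one_nn h1 (dg_nn _ hx) (le_refl _)

theorem one_le_iv_one_sub [Fintype A] {x : Sq A} (hx : 0 ≤ x) : (1 : Sq A) ≤ iv (1 - x) := by
  have := iv_one_sub_le (x := 0) (y := x) (le_refl _) hx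
  rwa [sub_zero, iv_one] at this

/-! ### monomials -/

theorem mo_co (S T : Finset A) (r : ℚ) : (mo S r).co T = if T = S then r else 0 := rfl

theorem eq_sum_mo [Fintype A] (x : Sq A) : x = ∑ S : Finset A, mo S (x.co S) := by
  ext T
  rw [co_sum]
  simp [mo_co]

theorem ind [Fintype A] {p : Sq A → Prop} (h0 : p 0) (ha : ∀ x y, p x → p y → p (x + y))
    (hm : ∀ S r, p (mo S r)) (x : Sq A) : p x := by
  rw [eq_sum_mo x]
  exact Finset.sum_induction _ p ha h0 fun S _ => hm S _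

theorem mo_mul_co (S : Finset A) (r : ℚ) (x : Sq A) (T : Finset A) :
    (mo S r * x).co T = if S ⊆ T then r * x.co (T \ S) else 0 := by
  rw [co_mul]
  split_ifs with h
  · rw [Finset.sum_eq_single S]
    · simp [mo_co]
    · intro b _ hb; simp [mo_co, hb]
    · intro h'; exact absurd (mem_powerset.2 h) h'
  · refine Finset.sum_eq_zero fun R hR => ?_
    have : R ≠ S := fun e => h (e ▸ mem_powerset.1 hR)
    simp [mo_co, this]

theorem mo_mul_mo (S T : Finset A) (r s : ℚ) :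
    mo S r * mo T s = if Disjoint S T then mo (S ∪ T) (r * s) else 0 := by
  ext R
  rw [mo_mul_co]
  by_cases h : Disjoint S T
  · rw [if_pos h]
    simp only [mo_co]
    by_cases h1 : S ⊆ R
    · rw [if_pos h1]
      by_cases h2 : R \ S = T
      · have : R = S ∪ T := by rw [← h2, Finset.union_sdiff_of_subset h1]
        rw [if_pos h2, if_pos this]
      · have : R ≠ S ∪ T := by
          intro e; apply h2; rw [e, Finset.union_sdiff_cancel_left h]
        rw [if_neg h2, if_neg this, mul_zero]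
    · rw [if_neg h1]
      have : R ≠ S ∪ T := by
        intro e; apply h1; rw [e]; exact Finset.subset_union_left
      rw [if_neg this]
  · rw [if_neg h]
    by_cases h1 : S ⊆ R
    · rw [if_pos h1]
      have : R \ S ≠ T := by
        intro e; apply h; rw [← e]; exact Finset.disjoint_sdiff
      simp [mo_co, this]
    · rw [if_neg h1]; rfl

theorem mo_zero (S : Finset A) : mo S 0 = 0 := by
  ext T; simp [mo_co]

/-! ### charges -/

theorem ch_empty (c : A → ℤ) : ch c ∅ = 0 := rfl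

theorem ch_union (c : A → ℤ) {S T : Finset A} (h : Disjoint S T) :
    ch c (S ∪ T) = ch c S + ch c T := Finset.sum_union h

theorem ch_sdiff (c : A → ℤ) {S T : Finset A} (h : T ⊆ S) : ch c T + ch c (S \ T) = ch c S := by
  rw [ch, ch, ch, add_comm]; exact Finset.sum_sdiff h

/-- multiply the component of charge `k` by `w k` -/
def wt (w : ℤ → ℚ) (c : A → ℤ) (x : Sq A) : Sq A := ⟨fun S => w (ch c S) * x.co S⟩

omit [DecidableEq A] in
theorem wt_co (w : ℤ → ℚ) (c : A → ℤ) (x : Sq A) (S : Finset A) :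
    (wt w c x).co S = w (ch c S) * x.co S := rfl

theorem wt_add (w : ℤ → ℚ) (c : A → ℤ) (x y : Sq A) : wt w c (x + y) = wt w c x + wt w c y := by
  ext S; simp [wt_co, mul_add]

theorem wt_sub (w : ℤ → ℚ) (c : A → ℤ) (x y : Sq A) : wt w c (x - y) = wt w c x - wt w c y := by
  ext S; simp [wt_co, mul_sub]

theorem wt_neg (w : ℤ → ℚ) (c : A → ℤ) (x : Sq A) : wt w c (-x) = - wt w c x := by
  ext S; simp [wt_co]

theorem wt_smul (w : ℤ → ℚ) (c : A → ℤ) (r : ℚ) (x : Sq A) : wt w c (r • x) = r • wt w c x := by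
  ext S; simp [wt_co, mul_left_comm]

@[simp] theorem wt_zero (w : ℤ → ℚ) (c : A → ℤ) : wt w c (0 : Sq A) = 0 := by
  ext S; simp [wt_co]

theorem wt_mo (w : ℤ → ℚ) (c : A → ℤ) (S : Finset A) (r : ℚ) :
    wt w c (mo S r) = mo S (w (ch c S) * r) := by
  ext T
  simp only [wt_co, mo_co]
  split_ifs with h
  · rw [h]
  · simp

theorem wt_wt (w w' : ℤ → ℚ) (c : A → ℤ) (x : Sq A) :
    wt w c (wt w' c x) = wt (fun k => w k * w' k) c x := by
  ext S; simp [wt_co, mul_assoc]

theorem wt_dg (w : ℤ → ℚ) (c : A → ℤ) (Y : Finset A) (x : Sq A) :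
    wt w c (dg Y x) = dg Y (wt w c x) := by
  ext S; simp [wt_co, dg, mul_left_comm]

/-- `pp`, `nn`, `zz`, `cm` as `wt` -/
theorem pp_eq (c : A → ℤ) (x : Sq A) : pp c x = wt (fun k => if 0 < k then 1 else 0) c x := by
  ext S; simp [wt_co, pp]
theorem nn_eq (c : A → ℤ) (x : Sq A) : nn c x = wt (fun k => if k < 0 then 1 else 0) c x := by
  ext S; simp [wt_co, nn]
theorem zz_eq (c : A → ℤ) (x : Sq A) : zz c x = wt (fun k => if k = 0 then 1 else 0) c x := by
  ext S; simp [wt_co, zz]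
theorem cm_eq (c : A → ℤ) (j : ℤ) (x : Sq A) :
    cm c j x = wt (fun k => if k = j then 1 else 0) c x := by
  ext S; simp [wt_co, cm]

/-- `x` is supported on charges satisfying `φ` -/
def Su (φ : ℤ → Prop) (c : A → ℤ) (x : Sq A) : Prop := ∀ S, x.co S ≠ 0 → φ (ch c S)

theorem Su.mono {φ ψ : ℤ → Prop} {c : A → ℤ} {x : Sq A} (h : Su φ c x) (hi : ∀ k, φ k → ψ k) :
    Su ψ c x := fun S hS => hi _ (h S hS)

theorem Su.wt {φ : ℤ → Prop} {c : A → ℤ} {x : Sq A} (h : Su φ c x) (w : ℤ → ℚ) :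
    Su φ c (wt w c x) := fun S hS => h S fun e => hS (by rw [wt_co, e, mul_zero])

theorem Su.add {φ : ℤ → Prop} {c : A → ℤ} {x y : Sq A} (hx : Su φ c x) (hy : Su φ c y) :
    Su φ c (x + y) := fun S hS => by
  by_cases h : x.co S = 0
  · exact hy S fun e => hS (by rw [co_add, h, e, add_zero])
  · exact hx S h

theorem Su.neg {φ : ℤ → Prop} {c : A → ℤ} {x : Sq A} (hx : Su φ c x) : Su φ c (-x) :=
  fun S hS => hx S fun e => hS (by rw [co_neg, e, neg_zero])

theorem Su.sub {φ : ℤ → Prop} {c : A → ℤ} {x y : Sq A} (hx : Su φ c x) (hy : Su φ c y) :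
    Su φ c (x - y) := by
  rw [sub_eq_add_neg]; exact hx.add hy.neg

theorem Su.smul {φ : ℤ → Prop} {c : A → ℤ} {x : Sq A} (hx : Su φ c x) (r : ℚ) :
    Su φ c (r • x) := fun S hS => hx S fun e => hS (by rw [co_smul, e, mul_zero])

theorem Su.zero (φ : ℤ → Prop) (c : A → ℤ) : Su φ c (0 : Sq A) := fun S hS => absurd rfl hS

theorem Su.mul {φ ψ χ : ℤ → Prop} {c : A → ℤ} {x y : Sq A} (hx : Su φ c x) (hy : Su ψ c y)
    (h : ∀ i j, φ i → ψ j → χ (i + j)) : Su χ c (x * y) := fun S hS => by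
  rw [co_mul] at hS
  obtain ⟨T, hT, hT'⟩ := Finset.exists_ne_zero_of_sum_ne_zero hS
  have h1 := hx T (left_ne_zero_of_mul hT')
  have h2 := hy (S \ T) (right_ne_zero_of_mul hT')
  have := h _ _ h1 h2
  rwa [ch_sdiff c (mem_powerset.1 hT)] at this

theorem Su.sum {φ : ℤ → Prop} {c : A → ℤ} {ι : Type*} (s : Finset ι) (f : ι → Sq A)
    (h : ∀ i ∈ s, Su φ c (f i)) : Su φ c (∑ i ∈ s, f i) :=
  Finset.sum_induction f (Su φ c) (fun _ _ => Su.add) (Su.zero φ c) h

theorem Su.wt_eq {φ : ℤ → Prop} {c : A → ℤ} {x : Sq A} (hx : Su φ c x) {w w' : ℤ → ℚ}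
    (h : ∀ k, φ k → w k = w' k) : Sq.wt w c x = Sq.wt w' c x := by
  ext S
  rw [wt_co, wt_co]
  by_cases h0 : x.co S = 0
  · rw [h0, mul_zero, mul_zero]
  · rw [h _ (hx S h0)]

theorem wt_one_fun (c : A → ℤ) (x : Sq A) : wt (fun _ => 1) c x = x := by
  ext S; simp [wt_co]

theorem wt_zero_fun (c : A → ℤ) (x : Sq A) : wt (fun _ => 0) c x = 0 := by
  ext S; simp [wt_co]

/-- charge zero -/
abbrev Z0 (c : A → ℤ) (x : Sq A) : Prop := Su (fun k => k = 0) c x
/-- positive charges -/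
abbrev Pos (c : A → ℤ) (x : Sq A) : Prop := Su (fun k => 0 < k) c x
/-- negative charges -/
abbrev Neg (c : A → ℤ) (x : Sq A) : Prop := Su (fun k => k < 0) c x

theorem Z0.one (c : A → ℤ) : Z0 c (1 : Sq A) := fun S hS => by
  rw [co_one] at hS
  by_cases h : S = ∅
  · rw [h]; rfl
  · rw [if_neg h] at hS; exact absurd rfl hS

theorem Z0.mul {c : A → ℤ} {x y : Sq A} (hx : Z0 c x) (hy : Z0 c y) : Z0 c (x * y) :=
  Su.mul hx hy (by intro i j hi hj; omega)

theorem Z0.pow {c : A → ℤ} {x : Sq A} (hx : Z0 c x) (k : ℕ) : Z0 c (x ^ k) := by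
  induction k with
  | zero => rw [pow_zero]; exact Z0.one c
  | succ k ih => rw [pow_succ]; exact Z0.mul ih hx

theorem Z0.ex [Fintype A] {c : A → ℤ} {x : Sq A} (hx : Z0 c x) : Z0 c (ex x) :=
  Su.sum _ _ fun k _ => Su.smul (Z0.pow hx k) _

theorem Z0.iv [Fintype A] {c : A → ℤ} {x : Sq A} (hx : Z0 c x) : Z0 c (iv x) :=
  Su.sum _ _ fun k _ => Z0.pow (Su.sub (Z0.one c) hx) k

theorem pp_Pos (c : A → ℤ) (x : Sq A) : Pos c (pp c x) := fun S hS => by
  by_contra h
  exact hS (if_neg h)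
theorem nn_Neg (c : A → ℤ) (x : Sq A) : Neg c (nn c x) := fun S hS => by
  by_contra h
  exact hS (if_neg h)
theorem zz_Z0 (c : A → ℤ) (x : Sq A) : Z0 c (zz c x) := fun S hS => by
  by_contra h
  exact hS (if_neg h)

theorem Pos.pp {c : A → ℤ} {x : Sq A} (h : Pos c x) : pp c x = x := by
  rw [pp_eq]
  conv_rhs => rw [← wt_one_fun c x]
  exact Su.wt_eq h fun k hk => if_pos hk
theorem Neg.nn {c : A → ℤ} {x : Sq A} (h : Neg c x) : nn c x = x := by
  rw [nn_eq]
  conv_rhs => rw [← wt_one_fun c x]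
  exact Su.wt_eq h fun k hk => if_pos hk
theorem Z0.zz {c : A → ℤ} {x : Sq A} (h : Z0 c x) : zz c x = x := by
  rw [zz_eq]
  conv_rhs => rw [← wt_one_fun c x]
  exact Su.wt_eq h fun k hk => if_pos hk

theorem Pos.nn {c : A → ℤ} {x : Sq A} (h : Pos c x) : nn c x = 0 := by
  rw [nn_eq, ← wt_zero_fun c x]
  exact Su.wt_eq h fun k hk => if_neg (by omega)
theorem Pos.zz {c : A → ℤ} {x : Sq A} (h : Pos c x) : zz c x = 0 := by
  rw [zz_eq, ← wt_zero_fun c x]
  exact Su.wt_eq h fun k hk => if_neg (by omega)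
theorem Neg.pp {c : A → ℤ} {x : Sq A} (h : Neg c x) : pp c x = 0 := by
  rw [pp_eq, ← wt_zero_fun c x]
  exact Su.wt_eq h fun k hk => if_neg (by omega)
theorem Neg.zz {c : A → ℤ} {x : Sq A} (h : Neg c x) : zz c x = 0 := by
  rw [zz_eq, ← wt_zero_fun c x]
  exact Su.wt_eq h fun k hk => if_neg (by omega)
theorem Z0.pp {c : A → ℤ} {x : Sq A} (h : Z0 c x) : pp c x = 0 := by
  rw [pp_eq, ← wt_zero_fun c x]
  exact Su.wt_eq h fun k hk => if_neg (by omega)
theorem Z0.nn {c : A → ℤ} {x : Sq A} (h : Z0 c x) : nn c x = 0 := by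
  rw [nn_eq, ← wt_zero_fun c x]
  exact Su.wt_eq h fun k hk => if_neg (by omega)

theorem Pos.co_empty {c : A → ℤ} {x : Sq A} (h : Pos c x) : x.co ∅ = 0 := by
  by_contra h0
  exact absurd (h ∅ h0) (by simp [ch_empty])
theorem Neg.co_empty {c : A → ℤ} {x : Sq A} (h : Neg c x) : x.co ∅ = 0 := by
  by_contra h0
  exact absurd (h ∅ h0) (by simp [ch_empty])

/-- `x = x_+ + x_0 + x_-` -/
theorem split3 (c : A → ℤ) (x : Sq A) : x = pp c x + zz c x + nn c x := by
  ext S
  simp only [co_add, pp, zz, nn]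
  rcases lt_trichotomy (ch c S) 0 with h | h | h
  · rw [if_neg (by omega), if_neg (by omega), if_pos h]; ring
  · rw [if_neg (by omega), if_pos h, if_neg (by omega)]; ring
  · rw [if_pos h, if_neg (by omega), if_neg (by omega)]; ring

@[simp] theorem pp_co_empty (c : A → ℤ) (x : Sq A) : (pp c x).co ∅ = 0 := (pp_Pos c x).co_empty
@[simp] theorem nn_co_empty (c : A → ℤ) (x : Sq A) : (nn c x).co ∅ = 0 := (nn_Neg c x).co_empty
@[simp] theorem zz_co_empty (c : A → ℤ) (x : Sq A) : (zz c x).co ∅ = x.co ∅ := by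
  simp [zz, ch_empty]
theorem pr_co_empty (c : A → ℤ) (x y : Sq A) : (pr c x y).co ∅ = 0 := by
  simp [pr, ch_empty]

/-- elements of charge 0 are scalars for `wt` -/
theorem wt_Z0_mul (w : ℤ → ℚ) {c : A → ℤ} {z : Sq A} (hz : Z0 c z) (x : Sq A) :
    wt w c (z * x) = z * wt w c x := by
  ext S
  rw [wt_co, co_mul, co_mul, Finset.mul_sum]
  refine Finset.sum_congr rfl fun T hT => ?_
  rw [wt_co]
  by_cases h : z.co T = 0
  · rw [h]; ring
  · have h1 : ch c S = ch c (S \ T) := by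
      have h2 := ch_sdiff c (mem_powerset.1 hT)
      have h3 := hz T h
      simp only at h3
      omega
    rw [h1]; ring

/-! ### the pairing -/

/-- weight of the pairing -/
def mxw : ℤ → ℚ := fun k => ((max k 0 : ℤ) : ℚ)

theorem pr_eq (c : A → ℤ) (x y : Sq A) : pr c x y = zz c (wt mxw c x * y) := by
  ext S
  simp only [pr, zz, co_mul, wt_co, mxw]

theorem pr_add_left (c : A → ℤ) (x x' y : Sq A) : pr c (x + x') y = pr c x y + pr c x' y := by
  rw [pr_eq, pr_eq, pr_eq, wt_add, add_mul, zz_eq, zz_eq, zz_eq, wt_add]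
theorem pr_add_right (c : A → ℤ) (x y y' : Sq A) : pr c x (y + y') = pr c x y + pr c x y' := by
  rw [pr_eq, pr_eq, pr_eq, mul_add, zz_eq, zz_eq, zz_eq, wt_add]

theorem pr_Z0 (c : A → ℤ) (x y : Sq A) : Z0 c (pr c x y) := by
  rw [pr_eq]; exact zz_Z0 _ _

theorem wt_mxw_pp (c : A → ℤ) (x : Sq A) : wt mxw c (pp c x) = wt mxw c x := by
  rw [pp_eq, wt_wt]
  congr 1
  funext k
  by_cases h : 0 < k
  · rw [if_pos h, mul_one]
  · rw [if_neg h, mul_zero, mxw, max_eq_right (by omega)]; simp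

/-- the pairing only sees the positive part of the first factor -/
theorem pr_pp (c : A → ℤ) (x y : Sq A) : pr c (pp c x) y = pr c x y := by
  rw [pr_eq, pr_eq, wt_mxw_pp]

theorem zz_add (c : A → ℤ) (x y : Sq A) : zz c (x + y) = zz c x + zz c y := by
  rw [zz_eq, zz_eq, zz_eq, wt_add]
theorem pp_add (c : A → ℤ) (x y : Sq A) : pp c (x + y) = pp c x + pp c y := by
  rw [pp_eq, pp_eq, pp_eq, wt_add]
theorem nn_add (c : A → ℤ) (x y : Sq A) : nn c (x + y) = nn c x + nn c y := by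
  rw [nn_eq, nn_eq, nn_eq, wt_add]
theorem zz_sub (c : A → ℤ) (x y : Sq A) : zz c (x - y) = zz c x - zz c y := by
  rw [zz_eq, zz_eq, zz_eq, wt_sub]
theorem pp_sub (c : A → ℤ) (x y : Sq A) : pp c (x - y) = pp c x - pp c y := by
  rw [pp_eq, pp_eq, pp_eq, wt_sub]
theorem nn_sub (c : A → ℤ) (x y : Sq A) : nn c (x - y) = nn c x - nn c y := by
  rw [nn_eq, nn_eq, nn_eq, wt_sub]
theorem zz_dg (c : A → ℤ) (Y : Finset A) (x : Sq A) : zz c (dg Y x) = dg Y (zz c x) := by
  rw [zz_eq, zz_eq, wt_dg]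
theorem zz_Z0_mul {c : A → ℤ} {z : Sq A} (hz : Z0 c z) (x : Sq A) :
    zz c (z * x) = z * zz c x := by
  rw [zz_eq, zz_eq, wt_Z0_mul _ hz]

/-- the pairing only sees the negative part of the second factor -/
theorem pr_nn (c : A → ℤ) (x y : Sq A) : pr c x (nn c y) = pr c x y := by
  have h1 : Pos c (wt mxw c x) := by
    intro S hS
    by_contra h
    apply hS
    rw [wt_co, mxw, max_eq_right (by omega)]
    simp
  have h2 : zz c (wt mxw c x * pp c y) = 0 :=
    Pos.zz (Su.mul h1 (pp_Pos c y) (by intro i j hi hj; omega))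
  have h3 : zz c (wt mxw c x * zz c y) = 0 :=
    Pos.zz (Su.mul h1 (zz_Z0 c y) (by intro i j hi hj; omega))
  rw [pr_eq, pr_eq]
  conv_rhs => rw [split3 c y, mul_add, mul_add, zz_add, zz_add, h2, h3, zero_add, zero_add]

theorem pr_zero_left (c : A → ℤ) (y : Sq A) : pr c 0 y = 0 := by
  rw [pr_eq, wt_zero, zero_mul, zz_eq, wt_zero]
theorem pr_zero_right (c : A → ℤ) (x : Sq A) : pr c x 0 = 0 := by
  rw [pr_eq, mul_zero, zz_eq, wt_zero]

theorem pr_nn_left (c : A → ℤ) (x y : Sq A) : pr c (nn c x) y = 0 := by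
  rw [← pr_pp, Neg.pp (nn_Neg c x), pr_zero_left]
theorem pr_pp_right (c : A → ℤ) (x y : Sq A) : pr c x (pp c y) = 0 := by
  rw [← pr_nn, Pos.nn (pp_Pos c y), pr_zero_right]

/-- pairing of `x_+ + x_-` with `y` -/
theorem pr_left (c : A → ℤ) (x y : Sq A) : pr c (pp c x + nn c x) y = pr c x y := by
  rw [pr_add_left, pr_pp, pr_nn_left, add_zero]
theorem pr_right (c : A → ℤ) (x y : Sq A) : pr c x (pp c y + nn c y) = pr c x y := by
  rw [pr_add_right, pr_nn, pr_pp_right, zero_add]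

theorem pr_nn0 (c : A → ℤ) {x y : Sq A} (hx : 0 ≤ x) (hy : 0 ≤ y) : 0 ≤ pr c x y := fun S => by
  simp only [pr, co_zero]
  split_ifs
  · refine Finset.sum_nonneg fun T _ => mul_nonneg (mul_nonneg ?_ (hx T)) (hy _)
    exact_mod_cast le_max_right _ _
  · exact le_refl _

theorem pr_le (c : A → ℤ) {x x' y y' : Sq A} (hx : 0 ≤ x) (hx' : x ≤ x') (hy : 0 ≤ y)
    (hy' : y ≤ y') : pr c x y ≤ pr c x' y' := fun S => by
  simp only [pr]
  split_ifs
  · refine Finset.sum_le_sum fun T _ => ?_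
    have h0 : (0 : ℚ) ≤ ((max (ch c T) 0 : ℤ) : ℚ) := by exact_mod_cast le_max_right _ _
    exact mul_le_mul (mul_le_mul_of_nonneg_left (hx' T) h0) (hy' _) (hy _)
      (mul_nonneg h0 ((hx T).trans (hx' T)))
  · exact le_refl _

/-! ### the scaling endomorphism -/

theorem sc_co (Y : Finset A) (d x : Sq A) (S : Finset A) :
    (sc Y d x).co S = ∑ T ∈ S.powerset, x.co T * (d ^ (T ∩ Y).card).co (S \ T) := rfl

theorem sc_add (Y : Finset A) (d x y : Sq A) : sc Y d (x + y) = sc Y d x + sc Y d y := by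
  ext S
  simp only [sc_co, co_add, add_mul, Finset.sum_add_distrib]

theorem sc_sub (Y : Finset A) (d x y : Sq A) : sc Y d (x - y) = sc Y d x - sc Y d y := by
  ext S
  simp only [sc_co, co_sub, sub_mul, Finset.sum_sub_distrib]

theorem sc_neg (Y : Finset A) (d x : Sq A) : sc Y d (-x) = - sc Y d x := by
  ext S
  simp only [sc_co, co_neg, neg_mul, Finset.sum_neg_distrib]

theorem sc_smul (Y : Finset A) (d : Sq A) (r : ℚ) (x : Sq A) :
    sc Y d (r • x) = r • sc Y d x := by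
  ext S
  simp only [sc_co, co_smul, mul_assoc, Finset.mul_sum]

@[simp] theorem sc_zero (Y : Finset A) (d : Sq A) : sc Y d 0 = 0 := by
  ext S; simp [sc_co]

theorem sc_mo (Y : Finset A) (d : Sq A) (T : Finset A) (r : ℚ) :
    sc Y d (mo T r) = mo T r * d ^ (T ∩ Y).card := by
  ext S
  rw [sc_co, co_mul]
  refine Finset.sum_congr rfl fun R _ => ?_
  by_cases h : R = T
  · rw [h]
  · simp [mo_co, h]

theorem sc_mul [Fintype A] (Y : Finset A) (d x y : Sq A) :
    sc Y d (x * y) = sc Y d x * sc Y d y := by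
  induction x using ind with
  | h0 => simp
  | ha x x' hx hx' => rw [add_mul, sc_add, sc_add, add_mul, hx, hx']
  | hm S r =>
    induction y using ind with
    | h0 => simp
    | ha y y' hy hy' => rw [mul_add, sc_add, sc_add, mul_add, hy, hy']
    | hm T s =>
      rw [sc_mo, sc_mo, mo_mul_mo]
      have e : mo S r * d ^ (S ∩ Y).card * (mo T s * d ^ (T ∩ Y).card)
          = (mo S r * mo T s) * d ^ ((S ∩ Y).card + (T ∩ Y).card) := by ring
      rw [e, mo_mul_mo]
      by_cases h : Disjoint S T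
      · rw [if_pos h, sc_mo]
        congr 2
        rw [Finset.union_inter_distrib_right]
        apply Finset.card_union_of_disjoint
        exact h.mono Finset.inter_subset_left Finset.inter_subset_left
      · rw [if_neg h, sc_zero, zero_mul]

theorem sc_one (Y : Finset A) (d : Sq A) : sc Y d 1 = 1 := by
  have h : (1 : Sq A) = mo ∅ 1 := rfl
  rw [h, sc_mo]; simp

theorem sc_co_empty (Y : Finset A) (d x : Sq A) : (sc Y d x).co ∅ = x.co ∅ := by
  simp [sc_co]

/-- the scaling map as a ring homomorphism -/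
def scH [Fintype A] (Y : Finset A) (d : Sq A) : Sq A →+* Sq A where
  toFun := sc Y d
  map_one' := sc_one Y d
  map_mul' := sc_mul Y d
  map_zero' := sc_zero Y d
  map_add' := sc_add Y d

theorem sc_pow [Fintype A] (Y : Finset A) (d x : Sq A) (k : ℕ) :
    sc Y d (x ^ k) = (sc Y d x) ^ k := map_pow (scH Y d) x k

theorem sc_sum [Fintype A] {ι : Type*} (Y : Finset A) (d : Sq A) (s : Finset ι) (f : ι → Sq A) :
    sc Y d (∑ i ∈ s, f i) = ∑ i ∈ s, sc Y d (f i) := map_sum (scH Y d) f s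

theorem sc_ex [Fintype A] (Y : Finset A) (d x : Sq A) : sc Y d (ex x) = ex (sc Y d x) := by
  rw [ex, ex, sc_sum]
  refine Finset.sum_congr rfl fun k _ => ?_
  rw [sc_smul, sc_pow]

theorem sc_iv [Fintype A] (Y : Finset A) (d x : Sq A) : sc Y d (iv x) = iv (sc Y d x) := by
  rw [iv, iv, sc_sum]
  refine Finset.sum_congr rfl fun k _ => ?_
  rw [sc_pow, sc_sub, sc_one]

theorem sc_lg [Fintype A] (Y : Finset A) (d : Sq A) {x : Sq A} (hx : x.co ∅ = 1) :
    sc Y d (lg x) = lg (sc Y d x) := by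
  refine ex_inj (by rw [sc_co_empty]; simp) (by simp) ?_
  rw [ex_lg (by rw [sc_co_empty, hx]), ← sc_ex, ex_lg hx]

/-- scaling by an element of charge 0 commutes with the weights -/
theorem sc_wt [Fintype A] (Y : Finset A) {c : A → ℤ} {d : Sq A} (hd : Z0 c d) (w : ℤ → ℚ)
    (x : Sq A) : sc Y d (wt w c x) = wt w c (sc Y d x) := by
  induction x using ind with
  | h0 => simp
  | ha x x' hx hx' => rw [wt_add, sc_add, sc_add, wt_add, hx, hx']
  | hm S r =>
    rw [wt_mo, sc_mo, sc_mo, mul_comm (mo S r), wt_Z0_mul _ (Z0.pow hd _), wt_mo, mul_comm]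

theorem sc_pp [Fintype A] (Y : Finset A) {c : A → ℤ} {d : Sq A} (hd : Z0 c d) (x : Sq A) :
    sc Y d (pp c x) = pp c (sc Y d x) := by rw [pp_eq, pp_eq, sc_wt Y hd]
theorem sc_nn [Fintype A] (Y : Finset A) {c : A → ℤ} {d : Sq A} (hd : Z0 c d) (x : Sq A) :
    sc Y d (nn c x) = nn c (sc Y d x) := by rw [nn_eq, nn_eq, sc_wt Y hd]
theorem sc_zz [Fintype A] (Y : Finset A) {c : A → ℤ} {d : Sq A} (hd : Z0 c d) (x : Sq A) :
    sc Y d (zz c x) = zz c (sc Y d x) := by rw [zz_eq, zz_eq, sc_wt Y hd]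
theorem sc_pr [Fintype A] (Y : Finset A) {c : A → ℤ} {d : Sq A} (hd : Z0 c d) (x y : Sq A) :
    sc Y d (pr c x y) = pr c (sc Y d x) (sc Y d y) := by
  rw [pr_eq, pr_eq, sc_zz Y hd, sc_mul, sc_wt Y hd]

theorem sc_wh [Fintype A] (Y : Finset A) {c : A → ℤ} {d : Sq A} (hd : Z0 c d) (T : Sq A) :
    wh c (sc Y d T) = (sc Y d (wh c T).1, sc Y d (wh c T).2) := by
  rw [wh, wh]
  induction Fintype.card A + 1 with
  | zero => simp
  | succ n ih =>
    rw [Function.iterate_succ', Function.comp_apply, ih, Function.iterate_succ',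
      Function.comp_apply]
    rw [whs, whs]
    simp only [sc_pp Y hd, sc_nn Y hd, sc_add, sc_mul]

theorem sc_fh [Fintype A] (Y : Finset A) {c : A → ℤ} {d : Sq A} (hd : Z0 c d) (T : Sq A) :
    fh c (sc Y d T) = sc Y d (fh c T) := by rw [fh, fh, sc_wh Y hd]
theorem sc_gh [Fintype A] (Y : Finset A) {c : A → ℤ} {d : Sq A} (hd : Z0 c d) (T : Sq A) :
    gh c (sc Y d T) = sc Y d (gh c T) := by rw [gh, gh, sc_wh Y hd]

theorem fh_Pos [Fintype A] (c : A → ℤ) (T : Sq A) : Pos c (fh c T) := by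
  rw [fh, wh, Function.iterate_succ', Function.comp_apply]; exact pp_Pos _ _
theorem gh_Neg [Fintype A] (c : A → ℤ) (T : Sq A) : Neg c (gh c T) := by
  rw [gh, wh, Function.iterate_succ', Function.comp_apply]; exact nn_Neg _ _
@[simp] theorem fh_co_empty [Fintype A] (c : A → ℤ) (T : Sq A) : (fh c T).co ∅ = 0 :=
  (fh_Pos c T).co_empty
@[simp] theorem gh_co_empty [Fintype A] (c : A → ℤ) (T : Sq A) : (gh c T).co ∅ = 0 :=
  (gh_Neg c T).co_empty
@[simp] theorem Fh_co_empty [Fintype A] (c : A → ℤ) (T : Sq A) : (Fh c T).co ∅ = 1 := by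
  rw [Fh]; exact iv_co_empty (by simp)
@[simp] theorem Gh_co_empty [Fintype A] (c : A → ℤ) (T : Sq A) : (Gh c T).co ∅ = 1 := by
  rw [Gh]; exact iv_co_empty (by simp)
@[simp] theorem lh_co_empty [Fintype A] (c : A → ℤ) (T : Sq A) : (lh c T).co ∅ = 0 := by
  rw [lh]; simp

theorem sc_Fh [Fintype A] (Y : Finset A) {c : A → ℤ} {d : Sq A} (hd : Z0 c d) (T : Sq A) :
    Fh c (sc Y d T) = sc Y d (Fh c T) := by
  rw [Fh, Fh, sc_fh Y hd, sc_iv, sc_sub, sc_one]
theorem sc_Gh [Fintype A] (Y : Finset A) {c : A → ℤ} {d : Sq A} (hd : Z0 c d) (T : Sq A) :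
    Gh c (sc Y d T) = sc Y d (Gh c T) := by
  rw [Gh, Gh, sc_gh Y hd, sc_iv, sc_sub, sc_one]
theorem sc_lh [Fintype A] (Y : Finset A) {c : A → ℤ} {d : Sq A} (hd : Z0 c d) (T : Sq A) :
    lh c (sc Y d T) = sc Y d (lh c T) := by
  rw [lh, lh, sc_Fh Y hd, sc_Gh Y hd, sc_add, sc_lg _ _ (by simp), sc_lg _ _ (by simp)]
theorem sc_Jh [Fintype A] (Y : Finset A) {c : A → ℤ} {d : Sq A} (hd : Z0 c d) (T : Sq A) :
    Jh c (sc Y d T) = sc Y d (Jh c T) := by
  rw [Jh, Jh, sc_lh Y hd, sc_Fh Y hd, sc_Gh Y hd, sc_mul, sc_ex, sc_pr Y hd, sc_iv, sc_zz Y hd,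
    sc_mul]

/-! ### free and linear elements -/

/-- `x` does not contain the variables of `Y` -/
def Free (Y : Finset A) (x : Sq A) : Prop := ∀ S, x.co S ≠ 0 → (S ∩ Y).card = 0
/-- `x` is linear in the variables of `Y` -/
def Lin (Y : Finset A) (x : Sq A) : Prop := ∀ S, x.co S ≠ 0 → (S ∩ Y).card = 1

theorem Free.sc {Y : Finset A} {x : Sq A} (h : Free Y x) (d : Sq A) : sc Y d x = x := by
  ext S
  rw [sc_co, Finset.sum_eq_single S]
  · by_cases h0 : x.co S = 0
    · rw [h0, zero_mul]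
    · rw [h S h0]; simp
  · intro T hT hTS
    by_cases h0 : x.co T = 0
    · rw [h0, zero_mul]
    · rw [h T h0, pow_zero, co_one, if_neg, mul_zero]
      intro e
      apply hTS
      exact Finset.Subset.antisymm (mem_powerset.1 hT) (Finset.sdiff_eq_empty_iff_subset.1 e)
  · intro h'; simp at h'

theorem Lin.sc {Y : Finset A} {x : Sq A} (h : Lin Y x) (d : Sq A) : sc Y d x = x * d := by
  ext S
  rw [sc_co, co_mul]
  refine Finset.sum_congr rfl fun T _ => ?_
  by_cases h0 : x.co T = 0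
  · rw [h0, zero_mul, zero_mul]
  · rw [h T h0, pow_one]

theorem Lin.dg {Y : Finset A} {x : Sq A} (h : Lin Y x) : dg Y x = x := by
  ext S
  by_cases h0 : x.co S = 0
  · simp [Sq.dg, h0]
  · simp [Sq.dg, h S h0]

theorem card_inter_split {S T : Finset A} (Y : Finset A) (h : T ⊆ S) :
    (T ∩ Y).card + ((S \ T) ∩ Y).card = (S ∩ Y).card := by
  rw [← Finset.card_union_of_disjoint]
  · congr 1
    rw [← Finset.union_inter_distrib_right, Finset.union_sdiff_of_subset h]
  · exact Finset.disjoint_sdiff.mono Finset.inter_subset_left Finset.inter_subset_left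

theorem Free.mul {Y : Finset A} {x y : Sq A} (hx : Free Y x) (hy : Free Y y) : Free Y (x * y) := by
  intro S hS
  rw [co_mul] at hS
  obtain ⟨T, hT, hT'⟩ := Finset.exists_ne_zero_of_sum_ne_zero hS
  have h1 := hx T (left_ne_zero_of_mul hT')
  have h2 := hy (S \ T) (right_ne_zero_of_mul hT')
  have := card_inter_split Y (mem_powerset.1 hT)
  omega

theorem Lin.mul {Y : Finset A} {x y : Sq A} (hx : Lin Y x) (hy : Free Y y) : Lin Y (x * y) := by
  intro S hS
  rw [co_mul] at hS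
  obtain ⟨T, hT, hT'⟩ := Finset.exists_ne_zero_of_sum_ne_zero hS
  have h1 := hx T (left_ne_zero_of_mul hT')
  have h2 := hy (S \ T) (right_ne_zero_of_mul hT')
  have := card_inter_split Y (mem_powerset.1 hT)
  omega

theorem Free.one (Y : Finset A) : Free Y (1 : Sq A) := by
  intro S hS
  rw [co_one] at hS
  by_cases h : S = ∅
  · rw [h]; simp
  · rw [if_neg h] at hS; exact absurd rfl hS

theorem Free.add {Y : Finset A} {x y : Sq A} (hx : Free Y x) (hy : Free Y y) : Free Y (x + y) := by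
  intro S hS
  by_cases h : x.co S = 0
  · exact hy S fun e => hS (by rw [co_add, h, e, add_zero])
  · exact hx S h
theorem Lin.add {Y : Finset A} {x y : Sq A} (hx : Lin Y x) (hy : Lin Y y) : Lin Y (x + y) := by
  intro S hS
  by_cases h : x.co S = 0
  · exact hy S fun e => hS (by rw [co_add, h, e, add_zero])
  · exact hx S h
theorem Free.neg {Y : Finset A} {x : Sq A} (hx : Free Y x) : Free Y (-x) :=
  fun S hS => hx S fun e => hS (by rw [co_neg, e, neg_zero])
theorem Free.sub {Y : Finset A} {x y : Sq A} (hx : Free Y x) (hy : Free Y y) : Free Y (x - y) := by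
  rw [sub_eq_add_neg]; exact hx.add hy.neg
theorem Free.pow {Y : Finset A} {x : Sq A} (hx : Free Y x) (k : ℕ) : Free Y (x ^ k) := by
  induction k with
  | zero => rw [pow_zero]; exact Free.one Y
  | succ k ih => rw [pow_succ]; exact Free.mul ih hx
theorem Free.zero (Y : Finset A) : Free Y (0 : Sq A) := fun S hS => absurd rfl hS
theorem Free.iv [Fintype A] {Y : Finset A} {x : Sq A} (hx : Free Y x) : Free Y (iv x) :=
  Finset.sum_induction _ (Free Y) (fun _ _ => Free.add) (Free.zero Y)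
    fun k _ => ((Free.one Y).sub hx).pow k
theorem Free.dg {Y : Finset A} {x : Sq A} (hx : Free Y x) (X : Finset A) : Free Y (dg X x) :=
  fun S hS => hx S fun e => hS (by
    show ((S ∩ X).card : ℚ) * x.co S = 0
    rw [e, mul_zero])
theorem Free.lg [Fintype A] {Y : Finset A} {x : Sq A} (hx : Free Y x) : Free Y (lg x) := by
  have h : Free Y (Sq.iv x * Sq.dg univ x) := hx.iv.mul (hx.dg univ)
  exact fun S hS => h S fun e => hS (by
    show ((S.card : ℚ))⁻¹ * (Sq.iv x * Sq.dg univ x).co S = 0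
    rw [e, mul_zero])
theorem Free.wt {Y : Finset A} {x : Sq A} (hx : Free Y x) (w : ℤ → ℚ) (c : A → ℤ) :
    Free Y (wt w c x) := fun S hS => hx S fun e => hS (by rw [wt_co, e, mul_zero])

theorem va_co (P S : Finset A) : (va P).co S = if ∃ a ∈ P, S = {a} then 1 else 0 := rfl
@[simp] theorem va_co_empty (P : Finset A) : (va P).co ∅ = 0 := by simp [va_co]

theorem Lin.va {Y P : Finset A} (h : P ⊆ Y) : Lin Y (va P) := by
  intro S hS
  rw [va_co] at hS
  by_cases h0 : ∃ a ∈ P, S = {a}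
  · obtain ⟨a, ha, rfl⟩ := h0
    rw [Finset.singleton_inter_of_mem (h ha), Finset.card_singleton]
  · rw [if_neg h0] at hS; exact absurd rfl hS
theorem Free.va {Y P : Finset A} (h : Disjoint P Y) : Free Y (va P) := by
  intro S hS
  rw [va_co] at hS
  by_cases h0 : ∃ a ∈ P, S = {a}
  · obtain ⟨a, ha, rfl⟩ := h0
    rw [Finset.singleton_inter_of_notMem (Finset.disjoint_left.1 h ha), Finset.card_empty]
  · rw [if_neg h0] at hS; exact absurd rfl hS

theorem va_nn (P : Finset A) : 0 ≤ va P := fun S => by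
  rw [va_co, co_zero]; split_ifs <;> norm_num

end Sq

end Pool.MP_ef6aaf_al.EF
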