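import Pool.Agent.Lib.MP_ef6aaf_al.EF.StmH

set_option autoImplicit false

/-!
# MP_ef6aaf_al, normal form of words in two letters and assembly (helper57): statements of the pieces

Each piece `X` is a `def S_X : Prop`; prove `theorem p_X : S_X` in `EF/N/X.lean` (namespace `Pool.Agent.EF`), hypotheses of the
form `(h : S_Y)` are allowed where indicated.
-/

namespace Pool.Agent.EF

open Finset Filter
open Pool.Agent.Lib.MP_ef6aaf_al (HaarOn)

/-- `w` is primitive -/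
def Prim (w : FreeGroup (Fin 2)) : Prop := ∃ φ : FreeGroup (Fin 2) ≃* FreeGroup (Fin 2), φ (FreeGroup.of 0) = w

/-- Haar for infinitely many `n` -/
def HF (w : FreeGroup (Fin 2)) : Prop := ∃ᶠ n in atTop, HaarOn w n

/-- The theorem. -/
def Main : Prop := ∀ w : FreeGroup (Fin 2), HF w → Prim w

/-- the cyclic predecessor -/
def pv {l : ℕ} (i : Fin l) : Fin l := (finRotate l).symm i

/-- number of letters `i` in a list of letters -/
def nl (i : Fin 2) (u : List (Fin 2 × Bool)) : ℕ := (u.filter fun p => p.1 = i).length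

/-- the elementary automorphisms: swap of the letters, `y ↦ x⁻¹ y`, `y ↦ x y` -/
def swH : FreeGroup (Fin 2) →* FreeGroup (Fin 2) := FreeGroup.lift ![FreeGroup.of 1, FreeGroup.of 0]
/-- see `swH` -/
def shH (m : ℤ) : FreeGroup (Fin 2) →* FreeGroup (Fin 2) :=
  FreeGroup.lift ![FreeGroup.of 0, FreeGroup.of 0 ^ (-m) * FreeGroup.of 1]

/-- [mov] The elementary automorphisms preserve `HF` and primitivity (both directions for primitivity).
Proof: copy `p_move_Nls` and `p_move` of `MP_ef6aaf_al/P/move.lean` (private there): `swH ∘ swH = id`, `shH m ∘ shH (-m) = id`, so both are automorphisms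
(`MonoidHom.toMulEquiv`). `lift q (φ w) = lift (i ↦ lift q (φ (of i))) w`, and the map on pairs is `(q 1, q 0)` resp. `(q 0, (q 0)^(-m) q 1)`, measure
preserving (`Measure.measurePreserving_swap`; for `m = 1`, `-1`: `measurePreserving_prod_inv_mul`, `measurePreserving_prod_mul`; only left invariance).
`Frequently` by `Filter.Frequently.mono`. -/
def S_mov : Prop := ∀ w : FreeGroup (Fin 2),
  (HF w → HF (swH w)) ∧ (HF w → HF (shH 1 w)) ∧ (HF w → HF (shH (-1) w)) ∧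
  (Prim (swH w) → Prim w) ∧ (Prim (shH 1 w) → Prim w) ∧ (Prim (shH (-1) w) → Prim w)

/-- [prm] Conjugates of primitive words are primitive (`MulAut.conj`), `x ^ (± 1)` is primitive (automorphism `x ↦ x⁻¹, y ↦ y`), and
`x^c y^{± 1}` (`wordA` with `l = 1`) is primitive: `φ(x) = x^c y^ε`, `φ(y) = x`, inverse `ψ(x) = y`, `ψ(y) = (y^{-c} x)^ε`. -/
def S_prm : Prop := (∀ w w' : FreeGroup (Fin 2), IsConj w w' → Prim w' → Prim w) ∧
  Prim (FreeGroup.of 0 ^ (1 : ℤ)) ∧ Prim (FreeGroup.of 0 ^ (-1 : ℤ)) ∧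
  ∀ (c : Fin 1 → ℤ) (ε : Fin 1 → Bool), Prim (wordA c ε)

/-- [par] Parsing a list of letters into `x`-runs. `nl 0 u`, `nl 1 u` = numbers of letters `x`, `y`.
Proof: by induction on `u` from the right (`List.reverseRecOn`): there are `L : List (ℤ × Bool)` and `t : ℤ` with
`FreeGroup.mk u = (L.map fun p => x^p.1 * y^{±}).prod * x^t`, `L.length = nl 1 u`, `∑ |p.1| + |t| ≤ nl 0 u`: appending a letter `x^{±1}` changes `t` by `±1`, appending
`y^{±1}` appends `(t, ±)` to `L` and puts `t = 0`. If `L` is not empty, conjugation by `x^t` adds `t` to the first exponent; `wordA` with `c i = (L.get i).1`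
etc. If `L = []` the word is `x^t`. -/
def S_par : Prop := ∀ u : List (Fin 2 × Bool),
  (nl 1 u = 0 → ∃ t : ℤ, FreeGroup.mk u = FreeGroup.of 0 ^ t) ∧
  (1 ≤ nl 1 u → ∃ (c : Fin (nl 1 u) → ℤ) (ε : Fin (nl 1 u) → Bool), IsConj (FreeGroup.mk u) (wordA c ε) ∧
    ∑ i, |c i| ≤ (nl 0 u : ℤ))

/-- [lst] Every `wordA c ε` is given by a list with `∑ |c i|` letters `x` and `l` letters `y`. Proof: concatenate `|c i|` letters `x^{± 1}` (`List.replicate`) and one
letter `y^{±1}` (`FreeGroup.mk` is multiplicative: `FreeGroup.mul_mk`). -/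
def S_lst : Prop := ∀ (l : ℕ) (c : Fin l → ℤ) (ε : Fin l → Bool), ∃ u : List (Fin 2 × Bool),
  FreeGroup.mk u = wordA c ε ∧ (nl 0 u : ℤ) = ∑ i, |c i| ∧ nl 1 u = l ∧ u.length = nl 0 u + nl 1 u

/-- [red] If `y^{± 1}` meets `y^{∓ 1}` in the cyclic word, it can be shortened. Proof: (lists of pairs `(c i, ε i)`, `List.ofFn`) rotate the cyclic word (a conjugation:
`(L₁ ++ L₂).prod` is conjugate to `(L₂ ++ L₁).prod`) so that the letters `pv i` and `i` are the last and the first one: the word is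
`x^0 y^{ε i} W x^{c (pv i)} y^{ε (pv i)}`, conjugate to `W x^{c (pv i)} y^{ε (pv i)} y^{ε i} = W x^{c (pv i)}`, and this has a list of `∑ |c| + (l - 2)` letters
(as in `[lst]`). Note `l ≥ 2` because `ε (pv i) ≠ ε i`. -/
def S_red : Prop := ∀ (l : ℕ) (c : Fin l → ℤ) (ε : Fin l → Bool) (i : Fin l), ε (pv i) ≠ ε i → c i = 0 →
  ∃ u : List (Fin 2 × Bool), IsConj (wordA c ε) (FreeGroup.mk u) ∧ (u.length : ℤ) + 2 ≤ ∑ i, |c i| + l

/-- [shf] The shift. Proof: `shH m` maps `x^c y` to `x^(c-m) y` and `x^c y⁻¹` to `x^c y⁻¹ x^m`. So the image of the word is `∏ x^(a i) z i x^(d i)` with `z i = y^{± 1}`,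
`a i = c i - m [ε i]`, `d i = m [¬ ε i]`. In general `x^(d last) (∏ x^(a i) z i x^(d i)) x^(-d last) = ∏ x^(d (pv i) + a i) z i` (prove for partial products:
`x^(d') ∏_{i<k} x^(a i) z i x^(d i) = (∏_{i<k} x^(d_{i-1} + a i) z i) x^(d_{k-1})`, `d_{-1} = d'`). -/
def S_shf : Prop := ∀ (l : ℕ) (c : Fin l → ℤ) (ε : Fin l → Bool) (m : ℤ),
  IsConj (shH m (wordA c ε)) (wordA (fun i => c i + (if ε (pv i) then 0 else m) - (if ε i then m else 0)) ε)

/-- [syl] Syllable form. Proof: rotate (as in `[red]`) so that `c 0 ≠ 0`; then induction on the list of pairs `(c i, ε i)`: collect an entry with `c ≠ 0` and the following entries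
with `c = 0` (they have the same `ε`) into one syllable pair `x^c y^{± (number of entries)}`. -/
def S_syl : Prop := ∀ (l : ℕ) (c : Fin l → ℤ) (ε : Fin l → Bool), (∀ i, ε (pv i) ≠ ε i → c i ≠ 0) → (∃ i, c i ≠ 0) →
  ∃ (a b : Fin (univ.filter fun i => c i ≠ 0).card → ℤ), (∀ j, a j ≠ 0) ∧ (∀ j, b j ≠ 0) ∧
    IsConj (wordA c ε) (wordS a b) ∧ ∑ j, |a j| = ∑ i, |c i| ∧ ∑ j, |b j| = (l : ℤ)

/-- [swl] Swapping the letters of a list. Proof: `List.map`; `FreeGroup.lift` on `mk`. -/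
def S_swl : Prop := ∀ u : List (Fin 2 × Bool), ∃ u' : List (Fin 2 × Bool), FreeGroup.mk u' = swH (FreeGroup.mk u) ∧
  nl 0 u' = nl 1 u ∧ nl 1 u' = nl 0 u ∧ u'.length = u.length ∧ u.length = nl 0 u + nl 1 u

/-- The normal form delivered by a minimal counterexample. -/
def NF (w : FreeGroup (Fin 2)) : Prop :=
  (∃ p : ℤ, IsConj w (FreeGroup.of 0 ^ p) ∧ p ≠ 1 ∧ p ≠ -1) ∨
  (∃ (l : ℕ) (c : Fin l → ℤ) (ε : Fin l → Bool), 2 ≤ l ∧ IsConj w (wordA c ε) ∧
    (∀ i, ε (pv i) ≠ ε i → c i ≠ 0) ∧ ((l : ℤ) ≤ ∑ i, |c i|) ∧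
    2 * (univ.filter fun i => ε (pv i) = ε i ∧ 0 < (if ε i then c i else - c i)).card ≤ (univ.filter fun i => ε (pv i) = ε i).card ∧
    2 * (univ.filter fun i => ε (pv i) = ε i ∧ (if ε i then c i else - c i) < 0).card ≤ (univ.filter fun i => ε (pv i) = ε i).card ∧
    2 * (univ.filter fun i => c i = 0).card < l) ∨
  (∃ (s : ℕ) (a b : Fin s → ℤ), 1 ≤ s ∧ IsConj w (wordS a b) ∧ (∀ j, a j ≠ 0) ∧ (∀ j, b j ≠ 0) ∧
    2 * (s : ℤ) ≤ ∑ j, |a j| ∧ 2 * (s : ℤ) ≤ ∑ j, |b j|)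

/-- [min] (take all the previous pieces as hypotheses.) Proof: among all pairs `(w', u)` with `HF w'`, not `Prim w'`, `IsConj w' (mk u)` take one with `u.length` minimal
(it exists: `w` and `w.toWord`); by `[swl]`, `[mov]` we may assume `nl 1 u ≤ nl 0 u` (swapping keeps everything). `nl 1 u = 0`: `[par]`, and `p ≠ ± 1` by `[prm]`: first case. Otherwise
`[par]`: `c, ε` with `l = nl 1 u`, `∑ |c| ≤ nl 0 u`; by `[lst]` there is a list with `∑ |c| + l` letters, so by minimality `∑ |c| = nl 0 u ≥ l`. `l = 1` is impossible by `[prm]`.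
`[red]` contradicts minimality unless `c i ≠ 0` whenever `ε (pv i) ≠ ε i`. `[shf]`, `[mov]`, `[lst]` with `m = ± 1`: minimality gives `∑ |c i| ≤ ∑ |c' i|`, `c' i = c i - m` if
`ε (pv i) = ε i = true`, `c i + m` if both are `false`, `c i` otherwise; in terms of `e i = ± c i`: `0 ≤ ∑_{cross} (|e i - m| - |e i|)`, for `m = 1` this is `#cross - 2 #{e > 0}`, for
`m = -1` it is `#cross - 2 #{e < 0}`. If `2 #{c i = 0} < l` second case; otherwise `[syl]` (some `c i ≠ 0` as `∑ |c| ≥ l ≥ 2`), `s = l - #{c i = 0}`, `2 s ≤ l ≤ ∑ |c|`: third case. -/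
def S_min : Prop := ∀ w : FreeGroup (Fin 2), HF w → ¬ Prim w → ∃ w', HF w' ∧ NF w'

/-- positivity, case (A) -/
def S_posA : Prop := ∀ (l : ℕ) (c : Fin l → ℤ) (ε : Fin l → Bool), 2 ≤ l →
  (∀ i, ε (pv i) ≠ ε i → c i ≠ 0) → ((l : ℤ) ≤ ∑ i, |c i|) →
  2 * (univ.filter fun i => ε (pv i) = ε i ∧ 0 < (if ε i then c i else - c i)).card ≤ (univ.filter fun i => ε (pv i) = ε i).card →
  2 * (univ.filter fun i => ε (pv i) = ε i ∧ (if ε i then c i else - c i) < 0).card ≤ (univ.filter fun i => ε (pv i) = ε i).card →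
  2 * (univ.filter fun i => c i = 0).card < l →
  ∃ k : ℕ, 1 ≤ k ∧ ∑ θ : Equiv.Perm (Arc k l), (if ∀ a, tl ε (θ a) = hd ε a then
    ds (1 - ((k * l : ℕ) : ℚ)) (csum θ (lab c)) else 0) ≠ 0

/-- positivity, case (S) -/
def S_posS : Prop := ∀ (s : ℕ) (a : Fin s → ℤ), 1 ≤ s → (∀ j, a j ≠ 0) → 2 * (s : ℤ) ≤ ∑ j, |a j| →
  ∑ θ : Equiv.Perm (Bool × Fin s), ds (1 - ((2 * s : ℕ) : ℚ))
      (csum θ (fun a' => if a'.1 then a a'.2 else - a a'.2)) ≠ 0

/-- assembly -/
theorem main_of (h1 : S_min) (h2 : S_resA) (h3 : S_resS) (h4 : S_pow) (h5 : S_posA) (h6 : S_posS) : Main := by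
  intro w hw
  by_contra hp
  obtain ⟨w', hw', hn⟩ := h1 w hw hp
  rcases hn with ⟨p, hc, hp1, hp2⟩ | ⟨l, c, ε, hl, hc, ha, hb, hd1, hd2, hz⟩ | ⟨s, a, b, hs, hc, ha, hb, hsa, hsb⟩
  · rcases h4 p w' hc hw' with h | h
    · exact hp1 h
    · exact hp2 h
  · obtain ⟨k, hk, hne⟩ := h5 l c ε hl ha hb hd1 hd2 hz
    exact hne (h2 l k (by omega) hk c ε w' hc hw')
  · rcases mul_eq_zero.1 (h3 s hs a b w' hc hw') with h | h
    · exact h6 s a hs ha hsa h
    · exact h6 s b hs hb hsb h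

end Pool.Agent.EF
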