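import Pool.Agent.Lib.MP_ef6aaf_al.EF.Circ

set_option autoImplicit false
set_option linter.unusedSectionVars false

/-!
# The residue at `1 - M`
-/

namespace Pool.Agent.EF

open Finset MeasureTheory Filter

/-! ### Invariance of `ds` and `csum` -/

theorem ds_congr {R : Type*} [CommRing R] {Γ Γ' : Type*} [Fintype Γ] [Fintype Γ'] (e : Γ ≃ Γ')
    (n : R) (c : Γ → ℤ) (c' : Γ' → ℤ) (h : ∀ g, c' (e g) = c g) : ds n c = ds n c' := by
  rw [ds, ds]
  congr 1
  · rw [← Equiv.prod_comp e]
    simp only [h]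
  · congr 1
    apply Nat.card_congr
    refine (Equiv.equivCongr (e.subtypeEquiv (p := fun g => 0 < c g) (q := fun g => 0 < c' g)
      (fun g => by rw [h])) (e.subtypeEquiv (p := fun g => c g < 0) (q := fun g => c' g < 0)
      (fun g => by rw [h]))).subtypeEquiv ?_
    intro β
    constructor
    · rintro h1 ⟨g, hg⟩
      have h2 := h1 ⟨e.symm g, by rw [← h, Equiv.apply_symm_apply]; exact hg⟩
      change c' (e (β ⟨e.symm g, _⟩).1) = - c' g
      rw [h, h2, ← h, Equiv.apply_symm_apply]
    · rintro h1 ⟨g, hg⟩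
      have h2 := h1 ⟨e g, by rw [h]; exact hg⟩
      have h3 : (⟨e.symm (e g), by rw [Equiv.symm_apply_apply]; exact hg⟩ : {g // 0 < c g}) =
          ⟨g, hg⟩ := Subtype.ext (Equiv.symm_apply_apply e g)
      have h5 : c' (e (β ⟨g, hg⟩).1) = - c' (e g) := by
        rw [← h3]
        exact h2
      rw [h, h] at h5
      exact h5

theorem ds_map {R S : Type*} [CommRing R] [CommRing S] (f : R →+* S) {Γ : Type*} [Fintype Γ]
    (n : R) (c : Γ → ℤ) : f (ds n c) = ds (f n) c := by
  rw [ds, ds, map_mul, map_prod, map_natCast]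
  congr 1
  apply prod_congr rfl
  intro g _
  split_ifs <;> simp

theorem ds_empty {R : Type*} [CommRing R] {Γ : Type*} [Fintype Γ] [IsEmpty Γ]
    (n : R) (c : Γ → ℤ) : ds n c = 1 := by
  rw [ds, Finset.univ_eq_empty, Finset.prod_empty, one_mul]
  have : Nat.card {β : {g // 0 < c g} ≃ {g // c g < 0} // ∀ g, c (β g) = - c g} = 1 := by
    rw [Nat.card_eq_one_iff_unique]
    exact ⟨⟨fun a b => Subtype.ext (Equiv.ext fun g => isEmptyElim g.1)⟩,
      ⟨⟨⟨fun g => isEmptyElim g.1, fun g => isEmptyElim g.1, fun g => isEmptyElim g.1,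
        fun g => isEmptyElim g.1⟩, fun g => isEmptyElim g.1⟩⟩⟩
  rw [this, Nat.cast_one]

theorem sameCycle_congr {A B : Type*} (e : A ≃ B) (θ : Equiv.Perm A) (a b : A) :
    (e.permCongr θ).SameCycle (e a) (e b) ↔ θ.SameCycle a b := by
  have h1 : ∀ (k : ℤ) (a : A), ((e.permCongr θ) ^ k) (e a) = e ((θ ^ k) a) := by
    intro k a
    have h2 : (e.permCongr θ) ^ k = e.permCongr (θ ^ k) :=
      (map_zpow e.permCongrHom θ k).symm
    rw [h2, Equiv.permCongr_apply, Equiv.symm_apply_apply]
  constructor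
  · rintro ⟨k, hk⟩
    rw [h1] at hk
    exact ⟨k, e.injective hk⟩
  · rintro ⟨k, hk⟩
    exact ⟨k, by rw [h1, hk]⟩

/-- the cycles of a conjugate -/
def orbE {A B : Type*} (e : A ≃ B) (θ : Equiv.Perm A) : Orb θ ≃ Orb (e.permCongr θ) :=
  Quotient.congr e (fun a b => (sameCycle_congr e θ a b).symm)

theorem csum_congr {A B : Type*} [Fintype A] [Fintype B] (e : A ≃ B) (θ : Equiv.Perm A)
    (c : A → ℤ) (c' : B → ℤ) (h : ∀ a, c' (e a) = c a) (o : Orb θ) :
    csum (e.permCongr θ) c' (orbE e θ o) = csum θ c o := by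
  classical
  rw [csum, csum, ← Equiv.sum_comp e]
  apply sum_congr rfl
  intro a _
  have h1 : (Quotient.mk _ (e a) : Orb (e.permCongr θ)) = orbE e θ (Quotient.mk _ a) := rfl
  rw [h1, h]
  simp only [(orbE e θ).injective.eq_iff]

theorem ds_csum_congr {R : Type*} [CommRing R] {A B : Type*} [Fintype A] [Fintype B] (e : A ≃ B)
    (n : R) (θ : Equiv.Perm A) (c : A → ℤ) (c' : B → ℤ) (h : ∀ a, c' (e a) = c a) :
    ds n (csum θ c) = ds n (csum (e.permCongr θ) c') :=
  ds_congr (orbE e θ) n _ _ (csum_congr e θ c c' h)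

theorem sum_ds_congr {R : Type*} [CommRing R] {A B : Type*} [Fintype A] [Fintype B]
    [DecidableEq A] [DecidableEq B] (e : A ≃ B)
    (n : R) (c : A → ℤ) (c' : B → ℤ) (h : ∀ a, c' (e a) = c a) :
    ∑ θ : Equiv.Perm A, ds n (csum θ c) = ∑ θ : Equiv.Perm B, ds n (csum θ c') := by
  rw [← Equiv.sum_comp e.permCongr]
  exact sum_congr rfl fun θ _ => ds_csum_congr e n θ c c' h

theorem csum_natAbs {A : Type*} [Fintype A] (θ : Equiv.Perm A) (c : A → ℤ) :
    ∑ o, (csum θ c o).natAbs ≤ ∑ a, (c a).natAbs := by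
  classical
  have h1 : ∀ o : Orb θ, (csum θ c o).natAbs ≤
      ∑ a, if (Quotient.mk _ a : Orb θ) = o then (c a).natAbs else 0 := by
    intro o
    rw [csum]
    refine (Int.natAbs_sum_le _ _).trans ?_
    apply sum_le_sum
    intro a _
    split_ifs <;> simp
  refine (sum_le_sum fun o _ => h1 o).trans ?_
  rw [Finset.sum_comm]
  apply le_of_eq
  apply sum_congr rfl
  intro a _
  rw [Finset.sum_ite_eq, if_pos (mem_univ _)]

/-! ### Colours -/

section
variable {A : Type*}

/-- the restriction of a permutation which preserves the colours -/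
def cper (θ : Equiv.Perm A) (col : A → Bool) (h : ∀ a, col (θ a) = col a) (b : Bool) :
    Equiv.Perm {a // col a = b} :=
  θ.subtypePerm (fun a => by rw [h])

variable [Fintype A] [DecidableEq A]

theorem circ_col {n : ℕ} (θ : Equiv.Perm A) (col : A → Bool) (h : ∀ a, col (θ a) = col a)
    (c : A → ℤ) (x : Bool → Un n) :
    ∑ i : A → Fin n, ∏ a, ((x (col a) ^ c a : Un n) : Mn n) (i a) (i (θ a)) =
      ∏ b, ∏ o, (zp (x b) (csum (cper θ col h b) (fun a => c a.1) o)).trace := by
  classical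
  rw [sum_fib (n := Fin n) (R := ℂ) col θ h (fun a => ((x (col a) ^ c a : Un n) : Mn n))]
  apply prod_congr rfl
  intro b _
  have h1 := cyc (n := Fin n) (R := ℂ) (fun k => zp (x b) k) (zp_add (x b)) (cper θ col h b)
    (fun a => c a.1)
  refine Eq.trans ?_ (h1.trans ?_)
  · apply sum_congr rfl
    intro i _
    apply prod_congr rfl
    intro a _
    have h2 : x (col a.1) = x b := by rw [a.2]
    rw [h2]
    rfl
  · apply prod_congr rfl
    intro o _
    congr 2
    rw [csum, ← Finset.sum_filter, ← Finset.sum_subtype_eq_sum_filter, Finset.subtype_univ]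

end

section
variable {A : Type*} [Fintype A] [DecidableEq A]

/-- `K` is the mean value for `n`. -/
def MeanIs (nx : Equiv.Perm A) (eps : A → Bool) (c : A → ℤ) (col : A → Bool) (K : ℂ) (n : ℕ) : Prop :=
  ∃ (_ : MeasurableSpace (Un n)) (_ : BorelSpace (Un n)) (μ : Measure (Un n))
    (_ : IsProbabilityMeasure μ) (_ : μ.IsMulLeftInvariant),
    ∫ x : Bool → Un n, ∫ y : Un n, Phi nx eps c col x y ∂μ ∂(Measure.pi fun _ => μ) = K

theorem mean_formula (nx : Equiv.Perm A) (eps : A → Bool) (c : A → ℤ) (col : A → Bool)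
    (e : {a // eps a = true} ≃ {a // eps a = false})
    (hcol : ∀ σ τ a, col ((nx * kap e σ τ : Equiv.Perm A) a) = col a) {K : ℂ} {n : ℕ}
    (hn : Fintype.card {a // eps a = true} ≤ n) (hn2 : ∑ a, (c a).natAbs ≤ n)
    (hK : MeanIs nx eps c col K n) :
    (Gm {a // eps a = true} (n : ℂ)).det * K =
      ∑ σ : Equiv.Perm {a // eps a = true}, ∑ τ : Equiv.Perm {a // eps a = true},
      (Gm {a // eps a = true} (n : ℂ)).adjugate σ τ *
        ∏ b, ds (n : ℂ) (csum (cper (nx * kap e σ τ) col (hcol σ τ) b) (fun a => c a.1)) := by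
  obtain ⟨_, _, μ, _, _, hK⟩ := hK
  rw [← hK, ← integral_const_mul]
  have h1 : ∀ x : Bool → Un n, (Gm {a // eps a = true} (n : ℂ)).det *
      ∫ y : Un n, Phi nx eps c col x y ∂μ =
      ∑ σ : Equiv.Perm {a // eps a = true}, ∑ τ : Equiv.Perm {a // eps a = true},
      (Gm {a // eps a = true} (n : ℂ)).adjugate σ τ *
        ∏ b, ∏ o, (zp (x b) (csum (cper (nx * kap e σ τ) col (hcol σ τ) b)
          (fun a => c a.1) o)).trace := by
    intro x
    have h2 := circ μ nx e hn (fun a => ((x (col a) ^ c a : Un n) : Mn n))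
    refine h2.trans ?_
    apply sum_congr rfl
    intro σ _
    apply sum_congr rfl
    intro τ _
    congr 1
    exact circ_col (nx * kap e σ τ) col (hcol σ τ) c x
  simp only [h1]
  have hcont : ∀ (θ : Equiv.Perm A) (hθ : ∀ a, col (θ a) = col a) (b : Bool),
      Integrable (fun x : Un n => ∏ o, (zp x (csum (cper θ col hθ b) (fun a => c a.1) o)).trace) μ := by
    intro θ hθ b
    apply integrable_of_cont
    exact continuous_finsetProd _ fun o _ => (cont_zp _).matrix_trace
  have hint : ∀ (σ τ : Equiv.Perm {a // eps a = true}), Integrable (fun x : Bool → Un n =>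
      (Gm {a // eps a = true} (n : ℂ)).adjugate σ τ *
        ∏ b, ∏ o, (zp (x b) (csum (cper (nx * kap e σ τ) col (hcol σ τ) b)
          (fun a => c a.1) o)).trace) (Measure.pi fun _ => μ) := by
    intro σ τ
    exact (Integrable.fintype_prod (fun b => hcont (nx * kap e σ τ) (hcol σ τ) b)).const_mul _
  rw [integral_finset_sum _ (fun σ _ => integrable_finset_sum _ (fun τ _ => hint σ τ))]
  apply sum_congr rfl
  intro σ _
  rw [integral_finset_sum _ (fun τ _ => hint σ τ)]
  apply sum_congr rfl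
  intro τ _
  rw [integral_const_mul]
  congr 1
  rw [integral_fintype_prod_eq_prod (fun (b : Bool) (x : Un n) =>
    ∏ o, (zp x (csum (cper (nx * kap e σ τ) col (hcol σ τ) b) (fun a => c a.1) o)).trace)]
  apply prod_congr rfl
  intro b _
  apply ds_int
  refine (csum_natAbs _ _).trans (le_trans ?_ hn2)
  have h3 : ∑ a : {a // col a = b}, (c a.1).natAbs = ∑ a, if col a = b then (c a).natAbs else 0 := by
    rw [← Finset.sum_filter, ← Finset.sum_subtype_eq_sum_filter, Finset.subtype_univ]
  rw [h3]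
  apply sum_le_sum
  intro a _
  split_ifs
  · exact le_rfl
  · exact Nat.zero_le _

theorem res_gen (nx : Equiv.Perm A) (eps : A → Bool) (c : A → ℤ) (col : A → Bool)
    (e : {a // eps a = true} ≃ {a // eps a = false})
    (hcol : ∀ σ τ a, col ((nx * kap e σ τ : Equiv.Perm A) a) = col a) (K : ℂ) (N : ℕ)
    (hN : N + 1 = Fintype.card {a // eps a = true})
    (hK : ∃ᶠ n in atTop, MeanIs nx eps c col K n) :
    ∑ σ : Equiv.Perm {a // eps a = true}, ∑ τ : Equiv.Perm {a // eps a = true},
      ∏ b, ds (-(N : ℚ)) (csum (cper (nx * kap e σ τ) col (hcol σ τ) b) (fun a => c a.1)) = 0 := by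
  classical
  let P : Polynomial ℂ := (Gm {a // eps a = true} (Polynomial.X : Polynomial ℂ)).det * Polynomial.C K -
    ∑ σ : Equiv.Perm {a // eps a = true}, ∑ τ : Equiv.Perm {a // eps a = true},
      (Gm {a // eps a = true} (Polynomial.X : Polynomial ℂ)).adjugate σ τ *
        ∏ b, ds (Polynomial.X : Polynomial ℂ)
          (csum (cper (nx * kap e σ τ) col (hcol σ τ) b) (fun a => c a.1))
  have heval : ∀ z : ℂ, P.eval z = (Gm {a // eps a = true} z).det * K -
      ∑ σ : Equiv.Perm {a // eps a = true}, ∑ τ : Equiv.Perm {a // eps a = true},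
      (Gm {a // eps a = true} z).adjugate σ τ *
        ∏ b, ds z (csum (cper (nx * kap e σ τ) col (hcol σ τ) b) (fun a => c a.1)) := by
    intro z
    have hz : Polynomial.evalRingHom z Polynomial.X = z := Polynomial.eval_X
    have hg : (Polynomial.evalRingHom z).mapMatrix (Gm {a // eps a = true} (Polynomial.X : Polynomial ℂ)) =
        Gm {a // eps a = true} z := by
      rw [gm_map, hz]
    have h1 : P.eval z = Polynomial.evalRingHom z P := rfl
    rw [h1]
    simp only [P, map_sub, map_mul, map_sum, map_prod, RingHom.map_det, ds_map, hz, hg]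
    congr 1
    · congr 1
      exact Polynomial.eval_C
    · apply sum_congr rfl
      intro σ _
      apply sum_congr rfl
      intro τ _
      congr 1
      rw [← hg, ← RingHom.map_adjugate]
      rfl
  have hP : P = 0 := by
    apply Polynomial.eq_zero_of_infinite_isRoot
    have hfreq : ∃ᶠ n : ℕ in atTop, P.IsRoot (n : ℂ) := by
      have h2 := hK.and_eventually ((eventually_ge_atTop (Fintype.card {a // eps a = true})).and
        (eventually_ge_atTop (∑ a, (c a).natAbs)))
      refine h2.mono ?_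
      rintro n ⟨h3, h4, h5⟩
      rw [Polynomial.IsRoot.def, heval, mean_formula nx eps c col e hcol h4 h5 h3, sub_self]
    have hinf : Set.Infinite {n : ℕ | P.IsRoot (n : ℂ)} := Nat.frequently_atTop_iff_infinite.mp hfreq
    have h6 : ((fun n : ℕ => (n : ℂ)) '' {n : ℕ | P.IsRoot (n : ℂ)}) ⊆ {z | P.IsRoot z} := by
      rintro _ ⟨n, hn, rfl⟩
      exact hn
    exact (hinf.image Nat.cast_injective.injOn).mono h6
  have h7 := heval (-(N : ℂ))
  rw [hP, Polynomial.eval_zero] at h7
  obtain ⟨hdet, k, hk0, hk⟩ := adj_gm (α := {a // eps a = true}) N hN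
  have hgC : (algebraMap ℚ ℂ).mapMatrix (Gm {a // eps a = true} (-(N : ℚ))) =
      Gm {a // eps a = true} (-(N : ℂ)) := by
    rw [gm_map]
    simp
  have h8 : (Gm {a // eps a = true} (-(N : ℂ))).det = 0 := by
    rw [← hgC, ← RingHom.map_det, hdet, map_zero]
  have h9 : ∀ σ τ, (Gm {a // eps a = true} (-(N : ℂ))).adjugate σ τ = algebraMap ℚ ℂ k := by
    intro σ τ
    rw [← hgC, ← RingHom.map_adjugate, ← hk σ τ]
    rfl
  rw [h8, zero_mul, zero_sub] at h7
  simp only [h9] at h7
  have h10 : algebraMap ℚ ℂ (k * ∑ σ : Equiv.Perm {a // eps a = true},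
      ∑ τ : Equiv.Perm {a // eps a = true},
      ∏ b, ds (-(N : ℚ)) (csum (cper (nx * kap e σ τ) col (hcol σ τ) b) (fun a => c a.1))) = 0 := by
    simp only [map_mul, map_sum, map_prod, ds_map]
    simp only [map_neg, map_natCast]
    simp_rw [Finset.mul_sum]
    exact (neg_eq_zero.mp h7.symm)
  rw [map_eq_zero] at h10
  exact (mul_eq_zero.mp h10).resolve_left hk0

end

end Pool.Agent.EF
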