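import Pool.Agent.Lib.MP_ef6aaf_al.EF.QV
import Pool.Agent.Lib.MP_ef6aaf_al.EF.NStm
import Pool.Agent.Lib.MP_ef6aaf_al.EF.Res

/-!
Positivity: from the pieces to helper57's interface `S_posS`, `S_posA`.
-/

set_option autoImplicit false

namespace Pool.MP_ef6aaf_al.EF

open Finset Sq Pool.Agent.EF

theorem va_empty {A : Type} [DecidableEq A] : va (∅ : Finset A) = 0 := by
  ext S; simp [va_co]

theorem p_posS (hexp : ExpS) (hh : HatS) (hf : FpS) : S_posS := by
  intro s a hs ha hsum
  set c' : Bool × Fin s → ℤ := fun a' => if a'.1 then a a'.2 else - a a'.2 with hc'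
  have : Nonempty (Bool × Fin s) := ⟨(true, ⟨0, by omega⟩)⟩
  have hcard : Fintype.card (Bool × Fin s) = 2 * s := by simp
  have h1 := hexp (Bool × Fin s) (fun _ => true) (fun _ => true) c' (1 - ((2 * s : ℕ) : ℚ))
  simp only [implies_true, if_true] at h1
  have h2 := v1 hh (Bool × Fin s) c'
  have hLL : LL (A := Bool × Fin s) (fun _ => true) (fun _ => true) =
      - lg (1 - va (univ : Finset (Bool × Fin s))) := by
    have e1 : ty (A := Bool × Fin s) (fun _ => true) (fun _ => true) true true = univ := by
      ext x; simp [ty]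
    have e2 : ty (A := Bool × Fin s) (fun _ => true) (fun _ => true) false false = ∅ := by
      ext x; simp [ty]
    have e3 : ty (A := Bool × Fin s) (fun _ => true) (fun _ => true) false true = ∅ := by
      ext x; simp [ty]
    have e4 : ty (A := Bool × Fin s) (fun _ => true) (fun _ => true) true false = ∅ := by
      ext x; simp [ty]
    rw [LL, e1, e2, e3, e4, va_empty]
    congr 2
    ring
  rw [hLL] at h1
  rw [hcard] at h2
  rw [h1, h2]
  have h3 : ∀ x : Bool × Fin s, c' x ≠ 0 := by
    rintro ⟨b, i⟩
    cases b
    · simpa [hc'] using ha i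
    · simpa [hc'] using ha i
  have h4 : ∑ x, c' x = 0 := by
    rw [Fintype.sum_prod_type]
    simp [hc']
  have h5 : ∑ x, max (c' x) 0 = ∑ j, |a j| := by
    rw [Fintype.sum_prod_type]
    simp only [hc', Fintype.sum_bool, if_true, Bool.false_eq_true, if_false]
    rw [← Finset.sum_add_distrib]
    refine Finset.sum_congr rfl fun j _ => ?_
    rcases le_total (a j) 0 with h | h
    · rw [max_eq_right h, max_eq_left (by omega), abs_of_nonpos h, zero_add]
    · rw [max_eq_left h, max_eq_right (by omega), abs_of_nonneg h, add_zero]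
  have h6 := hf (Bool × Fin s) c' (va univ) (by simp) (va_nn _) (Bool × Fin s)
    (fun x => {x}) (fun i j hij => by simpa using hij)
    (fun i => by
      rw [va_co, if_pos ⟨i, mem_univ _, rfl⟩]; norm_num)
    (fun i => by simpa [ch] using h3 i)
    (by simpa [ch] using h4)
    (by
      simp only [ch, sum_singleton]
      rw [h5, hcard]; push_cast; exact hsum)
  have h7 : (univ : Finset (Bool × Fin s)).biUnion (fun x => {x}) = univ := by
    ext x; simp
  rw [h7] at h6
  exact h6.ne'

/-! ### case (A) -/

section caseA

variable {l : ℕ} (c : Fin l → ℤ) (ε : Fin l → Bool)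

/-- kind of a position -/
def kdA (i : Fin l) : Fin 3 := if ε (pv i) = ε i then 2 else if ε i then 1 else 0

/-- charge of a position -/
def eA (i : Fin l) : ℤ := if ε (pv i) = ε i ∧ ε i = true then - c i else c i

theorem hd_eq (k : ℕ) (a : Arc k l) : hd ε a = if a.1 then ! ε a.2.2 else ε (pv a.2.2) := rfl
theorem tl_eq (k : ℕ) (a : Arc k l) : tl ε a = if a.1 then ε (pv a.2.2) else ! ε a.2.2 := rfl

/-- relabelling of the arcs -/
def sgA (k : ℕ) : Fin l × Bool × Fin k ≃ Arc k l where
  toFun x := (xor x.2.1 (decide (ε (pv x.1) = ε x.1 ∧ ε x.1 = true)), x.2.2, x.1)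
  invFun y := (y.2.2, xor y.1 (decide (ε (pv y.2.2) = ε y.2.2 ∧ ε y.2.2 = true)), y.2.1)
  left_inv x := by
    obtain ⟨i, b, q⟩ := x
    simp
  right_inv y := by
    obtain ⟨b, q, i⟩ := y
    simp

theorem lab_sg (k : ℕ) (x : Fin l × Bool × Fin k) : lab c (sgA ε k x) = cc (eA c ε) k x := by
  obtain ⟨i, b, q⟩ := x
  by_cases h : ε (pv i) = ε i ∧ ε i = true
  · cases b <;> simp [lab, sgA, cc, eA, h]
  · cases b <;> simp [lab, sgA, cc, eA, h]

theorem tl_sg (k : ℕ) (i : Fin l) (b : Bool) (q : Fin k) : tl ε (sgA ε k (i, b, q)) =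
    if kdA ε i = 0 then true else if kdA ε i = 1 then false else !b := by
  cases h2 : ε (pv i) <;> cases h3 : ε i <;> cases b <;>
    simp [tl_eq, sgA, kdA, h2, h3]

theorem hd_sg (k : ℕ) (i : Fin l) (b : Bool) (q : Fin k) : hd ε (sgA ε k (i, b, q)) =
    if kdA ε i = 0 then true else if kdA ε i = 1 then false else b := by
  cases h2 : ε (pv i) <;> cases h3 : ε i <;> cases b <;>
    simp [hd_eq, sgA, kdA, h2, h3]

theorem card_pv (b : Bool) : (univ.filter fun i => ε (pv i) = b).card =
    (univ.filter fun i => ε i = b).card := by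
  refine Finset.card_bij (fun i _ => pv i) ?_ ?_ ?_
  · intro i hi; simpa using hi
  · intro i _ j _ h; exact (finRotate l).symm.injective h
  · intro j hj
    have h1 : pv (finRotate l j) = j := (finRotate l).symm_apply_apply j
    refine ⟨finRotate l j, ?_, h1⟩
    rw [mem_filter] at hj ⊢
    rw [h1]
    exact ⟨mem_univ _, hj.2⟩

theorem card_kd : (univ.filter fun i => kdA ε i = 0).card =
    (univ.filter fun i => kdA ε i = 1).card := by
  have e0 : (univ.filter fun i => kdA ε i = 0) =
      univ.filter (fun i => ε (pv i) = true ∧ ε i = false) := by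
    ext i
    simp only [mem_filter, mem_univ, true_and]
    cases h2 : ε (pv i) <;> cases h3 : ε i <;> simp [kdA, h2, h3]
  have e1 : (univ.filter fun i => kdA ε i = 1) =
      univ.filter (fun i => ε (pv i) = false ∧ ε i = true) := by
    ext i
    simp only [mem_filter, mem_univ, true_and]
    cases h2 : ε (pv i) <;> cases h3 : ε i <;> simp [kdA, h2, h3]
  have f1 : (univ.filter (fun i => ε (pv i) = true)).card =
      (univ.filter (fun i => ε (pv i) = true ∧ ε i = true)).card +
      (univ.filter (fun i => ε (pv i) = true ∧ ε i = false)).card := by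
    rw [← Finset.card_union_of_disjoint]
    · congr 1; ext i; simp only [mem_filter, mem_univ, true_and, mem_union]
      cases h3 : ε i <;> simp
    · rw [Finset.disjoint_filter]; intro i _ h; simp [h.2]
  have f2 : (univ.filter (fun i => ε i = true)).card =
      (univ.filter (fun i => ε (pv i) = true ∧ ε i = true)).card +
      (univ.filter (fun i => ε (pv i) = false ∧ ε i = true)).card := by
    rw [← Finset.card_union_of_disjoint]
    · congr 1; ext i; simp only [mem_filter, mem_univ, true_and, mem_union]
      cases h3 : ε (pv i) <;> simp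
    · rw [Finset.disjoint_filter]; intro i _ h; simp [h.1]
  have f3 := card_pv ε true
  rw [e0, e1]
  omega

theorem card_hd (k : ℕ) : (univ.filter fun a : Fin l × Bool × Fin k =>
    hd ε (sgA ε k a) = true).card = k * l := by
  have h1 : (univ.filter fun a : Fin l × Bool × Fin k => hd ε (sgA ε k a) = true).card =
      (univ.filter fun a : Arc k l => hd ε a = true).card := by
    refine Finset.card_bij (fun a _ => sgA ε k a) ?_ ?_ ?_
    · intro a ha; simpa using ha
    · intro a _ b _ h; exact (sgA ε k).injective h
    · intro b hb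
      exact ⟨(sgA ε k).symm b, by simpa using hb, by simp⟩
  have h2 : (univ.filter fun a : Arc k l => hd ε a = true) =
      (({true} : Finset Bool) ×ˢ ((univ : Finset (Fin k)) ×ˢ (univ.filter fun i => ε i = false))) ∪
      (({false} : Finset Bool) ×ˢ ((univ : Finset (Fin k)) ×ˢ
        (univ.filter fun i => ε (pv i) = true))) := by
    ext ⟨b, q, i⟩
    cases b <;> simp [hd_eq]
  rw [h1, h2, Finset.card_union_of_disjoint]
  · rw [card_product, card_product, card_product, card_product, card_pv ε true]
    have h3 : (univ.filter fun i => ε i = false).card + (univ.filter fun i => ε i = true).card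
        = l := by
      rw [← Finset.card_union_of_disjoint]
      · have : (univ.filter fun i => ε i = false) ∪ (univ.filter fun i => ε i = true)
            = (univ : Finset (Fin l)) := by
          ext i; cases h : ε i <;> simp [h]
        rw [this]; simp
      · rw [Finset.disjoint_filter]; intro i _ h; simp [h]
    simp only [card_singleton, one_mul, card_univ, Fintype.card_fin]
    rw [← mul_add, h3]
  · rw [Finset.disjoint_left]
    rintro ⟨b, q, i⟩ h h'
    simp only [mem_product, mem_singleton] at h h'
    rw [h.1] at h'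
    exact absurd h'.1 (by decide)

theorem card_tl (k : ℕ) : (univ.filter fun a : Fin l × Bool × Fin k =>
    tl ε (sgA ε k a) = false).card = k * l := by
  have h1 : (univ.filter fun a : Fin l × Bool × Fin k => tl ε (sgA ε k a) = false).card =
      (univ.filter fun a : Arc k l => tl ε a = false).card := by
    refine Finset.card_bij (fun a _ => sgA ε k a) ?_ ?_ ?_
    · intro a ha; simpa using ha
    · intro a _ b _ h; exact (sgA ε k).injective h
    · intro b hb
      exact ⟨(sgA ε k).symm b, by simpa using hb, by simp⟩
  have h2 : (univ.filter fun a : Arc k l => tl ε a = false) =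
      (({true} : Finset Bool) ×ˢ ((univ : Finset (Fin k)) ×ˢ
        (univ.filter fun i => ε (pv i) = false))) ∪
      (({false} : Finset Bool) ×ˢ ((univ : Finset (Fin k)) ×ˢ
        (univ.filter fun i => ε i = true))) := by
    ext ⟨b, q, i⟩
    cases b <;> simp [tl_eq]
  rw [h1, h2, Finset.card_union_of_disjoint]
  · rw [card_product, card_product, card_product, card_product, card_pv ε false]
    have h3 : (univ.filter fun i => ε i = false).card + (univ.filter fun i => ε i = true).card
        = l := by
      rw [← Finset.card_union_of_disjoint]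
      · have : (univ.filter fun i => ε i = false) ∪ (univ.filter fun i => ε i = true)
            = (univ : Finset (Fin l)) := by
          ext i; cases h : ε i <;> simp [h]
        rw [this]; simp
      · rw [Finset.disjoint_filter]; intro i _ h; simp [h]
    simp only [card_singleton, one_mul, card_univ, Fintype.card_fin]
    rw [← mul_add, h3]
  · rw [Finset.disjoint_left]
    rintro ⟨b, q, i⟩ h h'
    simp only [mem_product, mem_singleton] at h h'
    rw [h.1] at h'
    exact absurd h'.1 (by decide)

/-- the sum over the permutations as a coefficient of the positive element -/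
theorem sumA_eq (hexp : ExpS) (hh : HatS) (k : ℕ) (hk : 1 ≤ k) (hl : 1 ≤ l) :
    ∑ θ : Equiv.Perm (Arc k l), (if ∀ a, tl ε (θ a) = hd ε a then
      ds (1 - ((k * l : ℕ) : ℚ)) (csum θ (lab c)) else 0) =
    (XX (cc (eA c ε) k) (aU (kdA ε) k) (aV (kdA ε) k) (aP (kdA ε) k) (aQ (kdA ε) k)).co univ := by
  set t : Fin l × Bool × Fin k → Bool := fun a => tl ε (sgA ε k a) with ht
  set h : Fin l × Bool × Fin k → Bool := fun a => hd ε (sgA ε k a) with hh'
  have e1 := hexp (Fin l × Bool × Fin k) t h (cc (eA c ε) k) (1 - ((k * l : ℕ) : ℚ))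
  have e2 := v2 hh (Fin l × Bool × Fin k) t h (cc (eA c ε) k) (k * l)
    (Nat.mul_pos hk hl) (card_hd ε k) (card_tl ε k)
  have eU : ty t h true true = aU (kdA ε) k := by
    ext ⟨i, b, q⟩
    simp only [ty, aU, mem_filter, mem_univ, true_and, ht, hh', tl_sg, hd_sg]
    generalize kdA ε i = z
    fin_cases z <;> cases b <;> simp
  have eV : ty t h false false = aV (kdA ε) k := by
    ext ⟨i, b, q⟩
    simp only [ty, aV, mem_filter, mem_univ, true_and, ht, hh', tl_sg, hd_sg]
    generalize kdA ε i = z
    fin_cases z <;> cases b <;> simp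
  have eP : ty t h false true = aP (kdA ε) k := by
    ext ⟨i, b, q⟩
    simp only [ty, aP, mem_filter, mem_univ, true_and, ht, hh', tl_sg, hd_sg]
    generalize kdA ε i = z
    fin_cases z <;> cases b <;> simp
  have eQ : ty t h true false = aQ (kdA ε) k := by
    ext ⟨i, b, q⟩
    simp only [ty, aQ, mem_filter, mem_univ, true_and, ht, hh', tl_sg, hd_sg]
    generalize kdA ε i = z
    fin_cases z <;> cases b <;> simp
  rw [eU, eV, eP, eQ] at e2
  rw [← e2, ← e1, ← Equiv.sum_comp (sgA ε k).permCongr]
  refine Finset.sum_congr rfl fun θ _ => ?_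
  have e3 : (∀ a, tl ε ((sgA ε k).permCongr θ a) = hd ε a) ↔ ∀ a, t (θ a) = h a := by
    constructor
    · intro H a
      have := H (sgA ε k a)
      simpa [Equiv.permCongr_apply] using this
    · intro H a
      have := H ((sgA ε k).symm a)
      simpa [Equiv.permCongr_apply, ht, hh'] using this
  by_cases H : ∀ a, t (θ a) = h a
  · rw [if_pos (e3.2 H), if_pos H]
    exact (ds_csum_congr (sgA ε k) _ θ (cc (eA c ε) k) (lab c) (lab_sg c ε k)).symm
  · rw [if_neg (fun H' => H (e3.1 H')), if_neg H]

end caseA

theorem p_posA (hexp : ExpS) (hh : HatS) (h1 : A1S) (h0 : A0S) : S_posA := by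
  intro l c ε hl hc hlc hm1 hm2 hz
  have hkd : (univ.filter fun i => kdA ε i = 0).card = (univ.filter fun i => kdA ε i = 1).card :=
    card_kd ε
  have k2 : ∀ i, kdA ε i = 2 ↔ ε (pv i) = ε i := by
    intro i
    cases h2 : ε (pv i) <;> cases h3 : ε i <;> simp [kdA, h2, h3]
  have habs : ∀ i, |eA c ε i| = |c i| := by
    intro i; rw [eA]; split_ifs <;> simp
  have hne : ∀ i, kdA ε i ≠ 2 → eA c ε i ≠ 0 := by
    intro i hi
    have := hc i (fun e => hi ((k2 i).2 e))
    rw [← abs_pos, habs, abs_pos]; exact this
  by_cases hx : ∃ i, kdA ε i = 2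
  · refine ⟨2, by norm_num, ?_⟩
    rw [sumA_eq c ε hexp hh 2 (by norm_num) (by omega)]
    apply ne_of_gt
    apply h1 (Fin l) (kdA ε) (eA c ε) hne hkd
    · have e1 : (univ.filter fun i => kdA ε i = 2 ∧ 0 < eA c ε i) =
          univ.filter (fun i => ε (pv i) = ε i ∧ (if ε i then c i else - c i) < 0) := by
        ext i
        simp only [mem_filter, mem_univ, true_and, k2]
        constructor
        · rintro ⟨h, h'⟩
          refine ⟨h, ?_⟩
          cases h3 : ε i
          · simp [eA, h3] at h'; simpa [h3] using h'
          · simp [eA, h3, h] at h'; simpa [h3] using h'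
        · rintro ⟨h, h'⟩
          refine ⟨h, ?_⟩
          cases h3 : ε i
          · simp [h3] at h'; simpa [eA, h3] using h'
          · simp [h3] at h'; simpa [eA, h3, h] using h'
      have e2 : (univ.filter fun i => kdA ε i = 2) = univ.filter (fun i => ε (pv i) = ε i) := by
        ext i; simp [k2]
      rw [e1, e2]; exact hm2
    · have e1 : (univ.filter fun i => kdA ε i = 2 ∧ eA c ε i < 0) =
          univ.filter (fun i => ε (pv i) = ε i ∧ 0 < (if ε i then c i else - c i)) := by
        ext i
        simp only [mem_filter, mem_univ, true_and, k2]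
        constructor
        · rintro ⟨h, h'⟩
          refine ⟨h, ?_⟩
          cases h3 : ε i
          · simp [eA, h3] at h'; simpa [h3] using h'
          · simp [eA, h3, h] at h'; simpa [h3] using h'
        · rintro ⟨h, h'⟩
          refine ⟨h, ?_⟩
          cases h3 : ε i
          · simp [h3] at h'; simpa [eA, h3] using h'
          · simp [h3] at h'; simpa [eA, h3, h] using h'
      have e2 : (univ.filter fun i => kdA ε i = 2) = univ.filter (fun i => ε (pv i) = ε i) := by
        ext i; simp [k2]
      rw [e1, e2]; exact hm1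
    · have e1 : (univ.filter fun i => kdA ε i = 2 ∧ eA c ε i = 0).card ≤
          (univ.filter fun i => c i = 0).card := by
        apply Finset.card_le_card
        intro i hi
        simp only [mem_filter, mem_univ, true_and] at hi ⊢
        have := habs i
        rw [hi.2, abs_zero] at this
        exact abs_eq_zero.1 this.symm
      rw [Fintype.card_fin]
      omega
    · rw [Fintype.card_fin, Finset.sum_congr rfl fun i _ => habs i]; exact hlc
    · exact hx
  · push Not at hx
    obtain ⟨k, hk, hpos⟩ := h0 (Fin l) (kdA ε) (eA c ε) hx (fun i => hne i (hx i)) hkd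
    refine ⟨k, hk, ?_⟩
    rw [sumA_eq c ε hexp hh k hk (by omega)]
    exact hpos.ne'

end Pool.MP_ef6aaf_al.EF
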