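import Pool.Agent.Lib.MP_ef6aaf_al.EF.N.mov
import Pool.Agent.Lib.MP_ef6aaf_al.EF.N.prm
import Pool.Agent.Lib.MP_ef6aaf_al.EF.N.par
import Pool.Agent.Lib.MP_ef6aaf_al.EF.N.lst
import Pool.Agent.Lib.MP_ef6aaf_al.EF.N.red
import Pool.Agent.Lib.MP_ef6aaf_al.EF.N.shf
import Pool.Agent.Lib.MP_ef6aaf_al.EF.N.syl
import Pool.Agent.Lib.MP_ef6aaf_al.EF.N.swl
import Pool.Agent.Lib.MP_ef6aaf_al.EF.N.min
import Pool.Agent.Lib.MP_ef6aaf_al.EF.Fin
import Pool.Agent.Lib.MP_ef6aaf_al.EF.Pow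
import Pool.Agent.Lib.MP_ef6aaf_al.EF.QPos
import Pool.Agent.Lib.MP_ef6aaf_al.EF.P.a0
import Pool.Agent.Lib.MP_ef6aaf_al.EF.P.a1
import Pool.Agent.Lib.MP_ef6aaf_al.EF.P.a1i
import Pool.Agent.Lib.MP_ef6aaf_al.EF.P.a1m
import Pool.Agent.Lib.MP_ef6aaf_al.EF.P.cpn
import Pool.Agent.Lib.MP_ef6aaf_al.EF.P.exa
import Pool.Agent.Lib.MP_ef6aaf_al.EF.P.exb
import Pool.Agent.Lib.MP_ef6aaf_al.EF.P.exc
import Pool.Agent.Lib.MP_ef6aaf_al.EF.P.fp
import Pool.Agent.Lib.MP_ef6aaf_al.EF.P.hat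
import Pool.Agent.Lib.MP_ef6aaf_al.EF.P.kj

set_option autoImplicit false

/-!
# Words in two letters: the theorem
-/

namespace Pool.Agent.EF

open Pool.MP_ef6aaf_al.EF

/-- A word in two letters that induces Haar measure on `U(n)` for infinitely many `n` is primitive. -/
theorem p_main : Main :=
  main_of (p_min p_mov p_prm p_par p_lst p_red p_shf p_syl p_swl) p_resA p_resS p_pow
    (p_posA (exp_of exa exb exc) hat (a1 a1m a1i (fp hat (kj cpn)) hat (kj cpn)) (a0 hat (kj cpn)))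
    (p_posS (exp_of exa exb exc) hat (fp hat (kj cpn)))

end Pool.Agent.EF
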