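import Pool.Agent.Lib.MP_ef6aaf_al.EF.Wg

/-!
# MP_ef6aaf_al, EF: the Gram matrix is invertible for `card α ≤ n`, the moments of the trace of a Haar unitary

`det_Gm_ne_zero`; `moment`: `∫ (tr z)^k * star (tr z)^k = k!` for `k ≤ n`.
-/

set_option autoImplicit false
set_option linter.unusedSectionVars false

namespace Pool.Agent.EF

open Finset MeasureTheory Matrix

section

variable {α : Type*} [Fintype α] [DecidableEq α] {n : ℕ}

/-- the matrix whose Gram matrix is `Gm` -/
noncomputable def Bm (α : Type*) [Fintype α] [DecidableEq α] (n : ℕ) :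
    Matrix ((α → Fin n) × (α → Fin n)) (Equiv.Perm α) ℂ :=
  fun km σ => if km.1 ∘ σ = km.2 then 1 else 0

theorem Gm_eq (n : ℕ) : Gm α (n : ℂ) = (Bm α n)ᴴ * Bm α n := by
  ext τ σ
  rw [Matrix.mul_apply, Gm, ← card_fix, Fintype.sum_prod_type]
  refine sum_congr rfl fun k _ => ?_
  simp only [Matrix.conjTranspose_apply, Bm]
  rw [Finset.sum_eq_single (k ∘ τ)]
  · rw [if_pos rfl, star_one, one_mul]
    have h3 : (k ∘ (σ * τ⁻¹ : Equiv.Perm α) = k) ↔ (k ∘ σ = k ∘ τ) := by
      constructor
      · intro h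
        funext a
        have := congrFun h (τ a)
        simpa using this
      · intro h
        funext a
        have := congrFun h (τ⁻¹ a)
        simpa using this
    by_cases h4 : k ∘ σ = k ∘ τ
    · rw [if_pos h4, if_pos (h3.mpr h4)]
    · rw [if_neg h4, if_neg (fun h => h4 (h3.mp h))]
  · intro m _ hm
    rw [if_neg (Ne.symm hm), star_zero, zero_mul]
  · intro h
    exact absurd (mem_univ _) h

open scoped ComplexOrder in
theorem det_Gm_ne_zero (hn : Fintype.card α ≤ n) : (Gm α (n : ℂ)).det ≠ 0 := by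
  intro h
  obtain ⟨v, hv, hGv⟩ := Matrix.exists_mulVec_eq_zero_iff.2 h
  apply hv
  rw [Gm_eq, Matrix.conjTranspose_mul_self_mulVec_eq_zero] at hGv
  obtain ⟨k⟩ : Nonempty (α ↪ Fin n) := by
    rw [Function.Embedding.nonempty_iff_card_le, Fintype.card_fin]
    exact hn
  funext σ
  have h1 := congrFun hGv (k, k ∘ σ)
  simp only [Matrix.mulVec, dotProduct, Bm] at h1
  rw [Finset.sum_eq_single σ] at h1
  · simpa using h1
  · intro τ _ hτ
    rw [if_neg, zero_mul]
    intro h2
    exact hτ (Equiv.ext fun a => k.injective (congrFun h2 a))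
  · intro h2
    exact absurd (mem_univ _) h2

end

section

variable {n : ℕ} [MeasurableSpace (Un n)] [BorelSpace (Un n)] (μ : Measure (Un n))
  [IsProbabilityMeasure μ] [μ.IsMulLeftInvariant]

theorem trace_pow (k : ℕ) (z : Mn n) : trace z ^ k = ∑ i : Fin k → Fin n, tp (Fin k) z i i := by
  simp only [tp, trace, Matrix.diag]
  rw [← Fintype.piFinset_univ, ← Finset.prod_univ_sum (fun _ : Fin k => (univ : Finset (Fin n)))
    (fun _ m => z m m)]
  simp

/-- The moments of the trace of a Haar unitary. -/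
theorem moment (k : ℕ) (hn : k ≤ n) :
    ∫ z : Un n, trace (z : Mn n) ^ k * star (trace (z : Mn n)) ^ k ∂μ = (k.factorial : ℂ) := by
  have hk : Fintype.card (Fin k) ≤ n := by rw [Fintype.card_fin]; exact hn
  have hd := det_Gm_ne_zero (α := Fin k) hk
  apply mul_left_cancel₀ hd
  have h1 : ∀ z : Un n, trace (z : Mn n) ^ k * star (trace (z : Mn n)) ^ k =
      ∑ i : Fin k → Fin n, ∑ i' : Fin k → Fin n,
        tp (Fin k) (z : Mn n) i i * star (tp (Fin k) (z : Mn n) i' i') := by
    intro z
    rw [← star_pow, trace_pow, star_sum, Finset.sum_mul_sum]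
  simp only [h1]
  rw [integral_finsetSum, Finset.mul_sum]
  · have h2 : ∀ i : Fin k → Fin n, ∫ z : Un n, ∑ i' : Fin k → Fin n,
        tp (Fin k) (z : Mn n) i i * star (tp (Fin k) (z : Mn n) i' i') ∂μ = ∑ i' : Fin k → Fin n,
          ∫ z : Un n, tp (Fin k) (z : Mn n) i i * star (tp (Fin k) (z : Mn n) i' i') ∂μ := by
      intro i
      rw [integral_finsetSum]
      intro i' _
      exact integrable_of_cont μ ((cont_tp i i).mul (cont_tp i' i').star)
    have h3 : ∀ i : Fin k → Fin n, (Gm (Fin k) (n : ℂ)).det * ∫ z : Un n, ∑ i' : Fin k → Fin n,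
        tp (Fin k) (z : Mn n) i i * star (tp (Fin k) (z : Mn n) i' i') ∂μ =
        ∑ σ : Equiv.Perm (Fin k), ∑ τ : Equiv.Perm (Fin k),
          (Gm (Fin k) (n : ℂ)).adjugate σ τ * if i ∘ (σ * τ⁻¹ : Equiv.Perm (Fin k)) = i then 1
            else 0 := by
      intro i
      rw [h2, Finset.mul_sum]
      simp only [wg μ hk]
      rw [Finset.sum_comm]
      refine sum_congr rfl fun σ _ => ?_
      rw [Finset.sum_comm]
      refine sum_congr rfl fun τ _ => ?_
      rw [Finset.sum_eq_single (i ∘ σ)]
      · have h4 : (i ∘ σ = i ∘ σ ∧ i ∘ τ = i ∘ σ) ↔ i ∘ (σ * τ⁻¹ : Equiv.Perm (Fin k)) = i := by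
          constructor
          · rintro ⟨-, h⟩
            funext a
            have := congrFun h (τ⁻¹ a)
            simpa using this.symm
          · intro h
            refine ⟨rfl, ?_⟩
            funext a
            have := congrFun h (τ a)
            simpa using this.symm
        by_cases h5 : i ∘ (σ * τ⁻¹ : Equiv.Perm (Fin k)) = i
        · rw [if_pos h5, if_pos (h4.2 h5), mul_one]
        · rw [if_neg h5, if_neg (fun h => h5 (h4.1 h)), mul_zero]
      · intro m _ hm
        rw [if_neg (fun h => hm h.1.symm)]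
      · intro h
        exact absurd (mem_univ _) h
    rw [Finset.sum_congr rfl fun i _ => h3 i, Finset.sum_comm]
    have h6 : ∀ σ : Equiv.Perm (Fin k), ∑ i : Fin k → Fin n, ∑ τ : Equiv.Perm (Fin k),
        (Gm (Fin k) (n : ℂ)).adjugate σ τ * (if i ∘ (σ * τ⁻¹ : Equiv.Perm (Fin k)) = i then 1
          else 0) = (Gm (Fin k) (n : ℂ)).det := by
      intro σ
      rw [Finset.sum_comm]
      have h7 := congrFun (congrFun (Matrix.adjugate_mul (Gm (Fin k) (n : ℂ))) σ) σ
      rw [Matrix.mul_apply, Matrix.smul_apply, Matrix.one_apply_eq, smul_eq_mul, mul_one] at h7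
      rw [← h7]
      refine sum_congr rfl fun τ _ => ?_
      rw [← Finset.mul_sum, card_fix]
      rfl
    rw [Finset.sum_congr rfl fun σ _ => h6 σ, Finset.sum_const, Finset.card_univ,
      Fintype.card_perm, Fintype.card_fin, nsmul_eq_mul, mul_comm]
  · intro i _
    exact integrable_of_cont μ (continuous_finsetSum _ fun i' _ =>
      (cont_tp i i).mul (cont_tp i' i').star)

end

end Pool.Agent.EF
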