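import Pool.Agent.Lib.MP_ef6aaf_al.EF.Adj
import Pool.Agent.Lib.MP_ef6aaf_al.Defs

set_option autoImplicit false

/-!
# Interface between Haar measure and combinatorics (two letters)

Types of ends of arcs: `true` is `v`, `false` is `u` (a letter `y` is `u v^*`).
-/

namespace Pool.Agent.EF

open Finset Filter
open Pool.Agent.Lib.MP_ef6aaf_al (HaarOn)

/-- the cycles of a permutation (fixed points included) -/
abbrev Orb {A : Type*} (θ : Equiv.Perm A) := Quotient (Equiv.Perm.SameCycle.setoid θ)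

noncomputable instance instFintypeOrb {A : Type*} [Finite A] (θ : Equiv.Perm A) : Fintype (Orb θ) :=
  Fintype.ofFinite _

open Classical in
/-- the sum of `c` over a cycle -/
noncomputable def csum {A : Type*} [Fintype A] (θ : Equiv.Perm A) (c : A → ℤ) (o : Orb θ) : ℤ :=
  ∑ a, if (Quotient.mk _ a : Orb θ) = o then c a else 0

/-- `n^z E ∏ p_c`: `n` to the number of zeros of `c` times the product of the positive values of `c` times the
number of bijections between the positive and the negative members with opposite values. -/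
noncomputable def ds {R : Type*} [CommRing R] {Γ : Type*} [Fintype Γ] (n : R) (c : Γ → ℤ) : R :=
  (∏ g, if c g = 0 then n else if 0 < c g then ((c g : ℤ) : R) else 1) *
    (Nat.card {β : {g // 0 < c g} ≃ {g // c g < 0} // ∀ g, c (β g) = - c g} : R)

/-- `∏_i x^{c_i} y^{± 1}` -/
def wordA {l : ℕ} (c : Fin l → ℤ) (ε : Fin l → Bool) : FreeGroup (Fin 2) :=
  (List.ofFn fun i => FreeGroup.of 0 ^ c i * (if ε i then FreeGroup.of 1 else (FreeGroup.of 1)⁻¹)).prod

/-- `∏_i x^{a_i} y^{b_i}` -/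
def wordS {s : ℕ} (a b : Fin s → ℤ) : FreeGroup (Fin 2) :=
  (List.ofFn fun i => FreeGroup.of 0 ^ a i * FreeGroup.of 1 ^ b i).prod

/-- arcs of `k` copies of `wordA c ε` (`true`) and of its inverse (`false`) -/
abbrev Arc (k l : ℕ) := Bool × Fin k × Fin l

/-- the exponent of an arc -/
def lab {k l : ℕ} (c : Fin l → ℤ) (a : Arc k l) : ℤ := if a.1 then c a.2.2 else - c a.2.2

/-- the type of the tail: the arc comes after `y^{ε (i - 1)}`, resp. after `y^{-ε i}` -/
def tl {k l : ℕ} (ε : Fin l → Bool) (a : Arc k l) : Bool :=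
  if a.1 then ε ((finRotate l).symm a.2.2) else ! ε a.2.2

/-- the type of the head: the arc comes before `y^{ε i}`, resp. before `y^{-ε (i - 1)}` -/
def hd {k l : ℕ} (ε : Fin l → Bool) (a : Arc k l) : Bool :=
  if a.1 then ! ε a.2.2 else ε ((finRotate l).symm a.2.2)

/-- Interface, case (A). -/
def S_resA : Prop := ∀ (l k : ℕ), 1 ≤ l → 1 ≤ k → ∀ (c : Fin l → ℤ) (ε : Fin l → Bool)
  (w : FreeGroup (Fin 2)), IsConj w (wordA c ε) → (∃ᶠ n in atTop, HaarOn w n) →
  ∑ θ : Equiv.Perm (Arc k l), (if ∀ a, tl ε (θ a) = hd ε a then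
    ds (1 - ((k * l : ℕ) : ℚ)) (csum θ (lab c)) else 0) = 0

/-- Interface, case (S). -/
def S_resS : Prop := ∀ s : ℕ, 1 ≤ s → ∀ (a b : Fin s → ℤ)
  (w : FreeGroup (Fin 2)), IsConj w (wordS a b) → (∃ᶠ n in atTop, HaarOn w n) →
  (∑ θ : Equiv.Perm (Bool × Fin s), ds (1 - ((2 * s : ℕ) : ℚ))
      (csum θ (fun a' => if a'.1 then a a'.2 else - a a'.2))) *
    (∑ θ : Equiv.Perm (Bool × Fin s), ds (1 - ((2 * s : ℕ) : ℚ))
      (csum θ (fun a' => if a'.1 then b a'.2 else - b a'.2))) = 0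

/-- The words `x^p`, `|p| ≠ 1`, are not Haar. -/
def S_pow : Prop := ∀ (p : ℤ) (w : FreeGroup (Fin 2)), IsConj w (FreeGroup.of 0 ^ p) →
  (∃ᶠ n in atTop, HaarOn w n) → p = 1 ∨ p = -1

end Pool.Agent.EF
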