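import Pool.Agent.Lib.MP_ef6aaf_al.EF.HaarB
import Pool.Agent.Lib.MP_ef6aaf_al.EF.StmH

/-!
# MP_ef6aaf_al, EF: the integral of the integrand of `RES` for a word which induces Haar measure
-/

set_option autoImplicit false
set_option linter.unusedSectionVars false

namespace Pool.Agent.EF

open Finset MeasureTheory Matrix
open Pool.Agent.Lib.MP_ef6aaf_al (HaarOn)

section

variable {n : ℕ}

instance instSCMn (n : ℕ) : SecondCountableTopology (Mn n) :=
  inferInstanceAs (SecondCountableTopology (Fin n → Fin n → ℂ))

instance instSCUn (n : ℕ) : SecondCountableTopology (Un n) :=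
  TopologicalSpace.Subtype.secondCountableTopology _

variable [MeasurableSpace (Un n)] [BorelSpace (Un n)] (μ : Measure (Un n))
  [IsProbabilityMeasure μ] [μ.IsMulLeftInvariant]

theorem isHaar : μ.IsHaarMeasure :=
  Measure.isHaarMeasure_of_isCompact_nonempty_interior μ Set.univ isCompact_univ
    (by rw [interior_univ]; exact Set.univ_nonempty) (by simp) (by simp)

/-- a left invariant probability measure on `U(n)` is right invariant -/
theorem rightInv : μ.IsMulRightInvariant := by
  constructor
  intro g
  have : IsProbabilityMeasure (Measure.map (fun x => x * g) μ) :=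
    Measure.isProbabilityMeasure_map (continuous_mul_const g).measurable.aemeasurable
  have := isHaar μ
  have : (Measure.map (fun x => x * g) μ).IsMulLeftInvariant := by
    infer_instance
  have := isHaar (Measure.map (fun x => x * g) μ)
  exact Measure.isHaarMeasure_eq_of_isProbabilityMeasure _ _

theorem conjInv (g : Un n) : MeasurePreserving (fun x => g * x * g⁻¹) μ μ := by
  have := rightInv μ
  have h1 := measurePreserving_mul_left μ g
  have h2 := measurePreserving_mul_right μ g⁻¹
  exact h2.comp h1

/-- continuous functions on a compact space are integrable for a finite measure -/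
theorem integ {X : Type*} [TopologicalSpace X] [CompactSpace X] [MeasurableSpace X]
    [OpensMeasurableSpace X] (ν : Measure X) [IsFiniteMeasure ν] {f : X → ℂ} (hf : Continuous f) :
    Integrable f ν :=
  hf.integrable_of_hasCompactSupport (HasCompactSupport.of_compactSpace f)

theorem int_lift (w : FreeGroup (Fin 2)) (hw : HaarOn w n) (g : Un n → ℂ) (hg : Continuous g) :
    ∫ f : Fin 2 → Un n, g (FreeGroup.lift f w) ∂(Measure.pi fun _ => μ) = ∫ z, g z ∂μ := by
  have h1 := hw μ
  have h2 : AEMeasurable (fun f : Fin 2 → Un n => FreeGroup.lift f w)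
      (Measure.pi fun _ => μ) := aemeasurable_of_map_neZero (by rw [h1]; infer_instance)
  conv_rhs => rw [← h1]
  rw [integral_map h2 hg.aestronglyMeasurable]

/-- a function on pairs -/
theorem int_pair (G : Un n → Un n → ℂ) (hG : Continuous fun p : Un n × Un n => G p.1 p.2) :
    ∫ f : Fin 2 → Un n, G (f 0) (f 1) ∂(Measure.pi fun _ => μ) =
      ∫ a, ∫ b, G a b ∂μ ∂μ := by
  have h1 := measurePreserving_piFinTwo (fun _ : Fin 2 => μ)
  have h2 := h1.integral_comp' (fun p : Un n × Un n => G p.1 p.2)
  rw [← integral_prod _ (integ (μ.prod μ) hG), ← h2]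
  rfl

/-- a function of one of the two colours -/
theorem int_col (b : Bool) (G : Un n → ℂ) (hG : AEStronglyMeasurable G μ) :
    ∫ x : Bool → Un n, G (x b) ∂(Measure.pi fun _ => μ) = ∫ a, G a ∂μ := by
  have h1 := measurePreserving_eval (fun _ : Bool => μ) b
  conv_rhs => rw [← h1.map_eq]
  rw [integral_map h1.measurable.aemeasurable (by rw [h1.map_eq]; exact hG)]

/-- the two index sets of two elements -/
theorem int_bool (G : Un n → Un n → ℂ) :
    ∫ x : Bool → Un n, G (x false) (x true) ∂(Measure.pi fun _ => μ) =
      ∫ f : Fin 2 → Un n, G (f 0) (f 1) ∂(Measure.pi fun _ => μ) := by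
  have h1 := measurePreserving_piCongrLeft (α := fun _ : Bool => Un n) (fun _ => μ) finTwoEquiv
  have h2 := h1.integral_comp' (fun x : Bool → Un n => G (x false) (x true))
  rw [← h2]
  have e : ∀ (f : Fin 2 → Un n) (b : Bool),
      (MeasurableEquiv.piCongrLeft (fun _ : Bool => Un n) finTwoEquiv) f b = f (finTwoEquiv.symm b) := by
    intro f b
    obtain ⟨i, rfl⟩ := finTwoEquiv.surjective b
    rw [Equiv.symm_apply_apply]
    exact Equiv.piCongrLeft_apply_apply (fun _ : Bool => Un n) finTwoEquiv f i
  simp only [e]
  rfl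

/-- conjugation of one of the colours -/
theorem int_conj (y : Un n) (G : Un n → Un n → ℂ)
    (hG : Continuous fun p : Un n × Un n => G p.1 p.2) :
    ∫ x : Bool → Un n, G (x false) (y * x true * y⁻¹) ∂(Measure.pi fun _ => μ) =
      ∫ x : Bool → Un n, G (x false) (x true) ∂(Measure.pi fun _ => μ) := by
  have h1 : MeasurePreserving (fun (x : Bool → Un n) (b : Bool) =>
      (if b then (fun z : Un n => y * z * y⁻¹) else id) (x b))
      (Measure.pi fun _ => μ) (Measure.pi fun _ => μ) := by
    refine measurePreserving_pi (fun _ : Bool => μ) (fun _ : Bool => μ)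
      (f := fun b : Bool => (if b then (fun z : Un n => y * z * y⁻¹) else id)) ?_
    intro b
    cases b
    · exact MeasurePreserving.id μ
    · exact conjInv μ y
  have hc : Continuous fun x : Bool → Un n => G (x false) (x true) :=
    Continuous.comp (g := fun p : Un n × Un n => G p.1 p.2)
      (f := fun x : Bool → Un n => (x false, x true)) hG
      ((continuous_apply false).prodMk (continuous_apply true))
  conv_rhs => rw [← h1.map_eq]
  rw [integral_map h1.measurable.aemeasurable hc.aestronglyMeasurable]
  rfl

/-- the test function -/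
noncomputable def gk (k : ℕ) (z : Un n) : ℂ := trace (z : Mn n) ^ k * star (trace (z : Mn n)) ^ k

theorem continuous_gk (k : ℕ) : Continuous (gk (n := n) k) := by
  have h : Continuous fun z : Un n => trace (z : Mn n) :=
    continuous_subtype_val.matrix_trace
  exact (h.pow k).mul (h.star.pow k)

theorem gk_conj (k : ℕ) (u z : Un n) : gk k (u * z * u⁻¹) = gk k z := by
  have h : trace ((u * z * u⁻¹ : Un n) : Mn n) = trace (z : Mn n) := by
    change trace ((u : Mn n) * (z : Mn n) * ((u⁻¹ : Un n) : Mn n)) = _
    rw [Matrix.trace_mul_comm, ← mul_assoc]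
    have h1 : ((u⁻¹ : Un n) : Mn n) * (u : Mn n) = 1 := by
      have h2 : (u⁻¹ * u : Un n) = 1 := inv_mul_cancel u
      exact congrArg Subtype.val h2
    rw [h1, one_mul]
  rw [gk, gk, h]

theorem gk_isConj (k : ℕ) {w w' : FreeGroup (Fin 2)} (h : IsConj w w') (f : Fin 2 → Un n) :
    gk k (FreeGroup.lift f w) = gk k (FreeGroup.lift f w') := by
  obtain ⟨c, hc⟩ := isConj_iff.1 h
  rw [← hc, map_mul, map_mul, map_inv, gk_conj]

theorem continuous_lift (w : FreeGroup (Fin 2)) :
    Continuous fun f : Fin 2 → Un n => FreeGroup.lift f w := by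
  induction w using FreeGroup.induction_on with
  | C1 => simp only [map_one]; exact continuous_const
  | of i => simp only [FreeGroup.lift_apply_of]; exact continuous_apply i
  | inv_of i ih => simp only [map_inv, FreeGroup.lift_apply_of]; exact (continuous_apply i).inv
  | mul x y hx hy => simp only [map_mul]; exact hx.mul hy

theorem continuous_pair (k : ℕ) (w : FreeGroup (Fin 2)) :
    Continuous fun p : Un n × Un n => gk k (FreeGroup.lift ![p.1, p.2] w) := by
  refine (continuous_gk k).comp ((continuous_lift w).comp ?_)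
  refine continuous_pi fun i => ?_
  fin_cases i
  · exact continuous_fst
  · exact continuous_snd

theorem int_gk (k : ℕ) (hn : k ≤ n) (w w' : FreeGroup (Fin 2)) (h : IsConj w w')
    (hw : HaarOn w n) :
    ∫ f : Fin 2 → Un n, gk k (FreeGroup.lift ![f 0, f 1] w') ∂(Measure.pi fun _ => μ) =
      (k.factorial : ℂ) := by
  rw [← moment μ k hn]
  have h1 := int_lift μ w hw (gk k) (continuous_gk k)
  refine Eq.trans ?_ h1
  congr 1
  funext f
  have hf : ![f 0, f 1] = f := by
    funext i
    fin_cases i <;> rfl
  rw [gk_isConj k h f, hf]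

theorem lift_wordA {l : ℕ} (c : Fin l → ℤ) (ε : Fin l → Bool) (f : Fin 2 → Un n) :
    FreeGroup.lift f (wordA c ε) =
      (List.ofFn fun t => f 0 ^ c t * (if ε t then f 1 else (f 1)⁻¹)).prod := by
  rw [wordA, map_list_prod, List.map_ofFn]
  congr 2
  funext t
  simp only [Function.comp, map_mul, map_zpow, FreeGroup.lift_apply_of]
  congr 1
  split_ifs
  · rw [FreeGroup.lift_apply_of]
  · rw [map_inv, FreeGroup.lift_apply_of]

theorem lift_wordS {s : ℕ} (a b : Fin s → ℤ) (f : Fin 2 → Un n) :
    FreeGroup.lift f (wordS a b) = (List.ofFn fun t => f 0 ^ a t * f 1 ^ b t).prod := by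
  rw [wordS, map_list_prod, List.map_ofFn]
  congr 2
  funext t
  simp only [Function.comp, map_mul, map_zpow, FreeGroup.lift_apply_of]

/-- **The integral in case (A).** -/
theorem haarA (l k : ℕ) (hl : 1 ≤ l) (hn : k ≤ n) (c : Fin l → ℤ) (ε : Fin l → Bool)
    (w : FreeGroup (Fin 2)) (h : IsConj w (wordA c ε)) (hw : HaarOn w n) (b : Bool) :
    ∫ x : Bool → Un n, ∫ y : Un n, Phi (nxA k (finRotate l)) (epsA k (finRotate l) ε) (cA k c)
      (colA k fun _ => b) x y ∂μ ∂(Measure.pi fun _ => μ) = (k.factorial : ℂ) := by
  rw [← int_gk μ k hn w (wordA c ε) h hw,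
    int_pair μ (fun a b => gk k (FreeGroup.lift ![a, b] (wordA c ε)))
      (continuous_pair k (wordA c ε)), ← int_col μ b]
  · congr 1
    funext x
    congr 1
    funext y
    rw [Phi_arcs, Phi_fin l hl, lift_wordA]
    rfl
  · exact AEStronglyMeasurable.integral_prod_right'
      (f := fun p : Un n × Un n => gk k (FreeGroup.lift ![p.1, p.2] (wordA c ε)))
      (continuous_pair k (wordA c ε)).aestronglyMeasurable

/-- **The integral in case (S).** -/
theorem haarS (s k : ℕ) (hs : 1 ≤ s) (hn : k ≤ n) (a b : Fin s → ℤ)
    (w : FreeGroup (Fin 2)) (h : IsConj w (wordS a b)) (hw : HaarOn w n) :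
    ∫ x : Bool → Un n, ∫ y : Un n, Phi (nxA k (rotS s)) (epsA k (rotS s) fun t => !t.2)
      (cA k fun t => if t.2 then b t.1 else a t.1) (colA k fun t => t.2) x y
        ∂μ ∂(Measure.pi fun _ => μ) = (k.factorial : ℂ) := by
  rw [← int_gk μ k hn w (wordS a b) h hw]
  have h1 : ∀ (x : Bool → Un n) (y : Un n), Phi (nxA k (rotS s)) (epsA k (rotS s) fun t => !t.2)
      (cA k fun t => if t.2 then b t.1 else a t.1) (colA k fun t => t.2) x y =
      gk k (FreeGroup.lift ![x false, y * x true * y⁻¹] (wordS a b)) := by
    intro x y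
    rw [Phi_arcs, Phi_rotS s hs, lift_wordS, gk]
    have h2 : ∀ m : ℤ, y * x true ^ m * y⁻¹ = (y * x true * y⁻¹) ^ m := fun m =>
      (conj_zpow).symm
    simp only [h2]
    rfl
  simp only [h1]
  rw [integral_integral_swap]
  · have h3 : ∀ y : Un n, ∫ x : Bool → Un n,
        gk k (FreeGroup.lift ![x false, y * x true * y⁻¹] (wordS a b)) ∂(Measure.pi fun _ => μ) =
          ∫ f : Fin 2 → Un n, gk k (FreeGroup.lift ![f 0, f 1] (wordS a b))
            ∂(Measure.pi fun _ => μ) := by
      intro y
      rw [int_conj μ y (fun u v => gk k (FreeGroup.lift ![u, v] (wordS a b)))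
        (continuous_pair k (wordS a b)),
        int_bool μ (fun u v => gk k (FreeGroup.lift ![u, v] (wordS a b)))]
    simp only [h3]
    rw [integral_const]
    simp
  · refine integ _ (f := fun q : (Bool → Un n) × Un n =>
      gk k (FreeGroup.lift ![q.1 false, q.2 * q.1 true * q.2⁻¹] (wordS a b))) ?_
    have h5 : Continuous fun q : (Bool → Un n) × Un n => q.1 false :=
      Continuous.comp (continuous_apply false) continuous_fst
    have h6 : Continuous fun q : (Bool → Un n) × Un n => q.1 true :=
      Continuous.comp (continuous_apply true) continuous_fst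
    have h7 : Continuous fun q : (Bool → Un n) × Un n => q.2 := continuous_snd
    have h8 : Continuous fun q : (Bool → Un n) × Un n => q.2 * q.1 true * q.2⁻¹ :=
      Continuous.mul (Continuous.mul h7 h6) (Continuous.inv h7)
    have h4 : Continuous fun q : (Bool → Un n) × Un n => (q.1 false, q.2 * q.1 true * q.2⁻¹) :=
      Continuous.prodMk h5 h8
    exact Continuous.comp (g := fun p : Un n × Un n =>
      gk k (FreeGroup.lift ![p.1, p.2] (wordS a b)))
      (f := fun q : (Bool → Un n) × Un n => (q.1 false, q.2 * q.1 true * q.2⁻¹))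
      (continuous_pair k (wordS a b)) h4

end

end Pool.Agent.EF
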