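import Pool.Agent.Lib.MP_ef6aaf_al.EF.Pow
import Pool.Agent.Lib.MP_ef6aaf_al.EF.HaarA

set_option autoImplicit false
set_option linter.unusedSectionVars false

/-!
# From the Haar property to the mean values
-/

namespace Pool.Agent.EF

open Finset MeasureTheory Filter
open Pool.Agent.Lib.MP_ef6aaf_al (HaarOn)

instance instSecondCountableMn (n : ℕ) : SecondCountableTopology (Mn n) :=
  inferInstanceAs (SecondCountableTopology (Fin n → Fin n → ℂ))

instance instSecondCountableUn (n : ℕ) : SecondCountableTopology (Un n) :=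
  TopologicalSpace.Subtype.secondCountableTopology _

instance instT2Un (n : ℕ) : T2Space (Mn n) := inferInstanceAs (T2Space (Fin n → Fin n → ℂ))

section
variable {n : ℕ} [MeasurableSpace (Un n)] [BorelSpace (Un n)] (μ : Measure (Un n))
  [IsProbabilityMeasure μ] [μ.IsMulLeftInvariant]

/-- left invariant probability measures are Haar measures -/
theorem isHaar : μ.IsHaarMeasure := by
  have h1 := Measure.isHaarMeasure_of_isCompact_nonempty_interior μ Set.univ isCompact_univ
    (by rw [interior_univ]; exact Set.univ_nonempty) (by simp) (by simp)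
  exact h1

/-- conjugation preserves the measure -/
theorem mp_conj (g : Un n) : MeasurePreserving (fun x : Un n => g * x * g⁻¹) μ μ := by
  have hc : Continuous (fun x : Un n => g * x * g⁻¹) := by fun_prop
  have hm : Measurable (fun x : Un n => g * x * g⁻¹) := hc.measurable
  refine ⟨hm, ?_⟩
  have hH := isHaar μ
  have hP : IsProbabilityMeasure (Measure.map (fun x : Un n => g * x * g⁻¹) μ) :=
    Measure.isProbabilityMeasure_map hm.aemeasurable
  have hL : (Measure.map (fun x : Un n => g * x * g⁻¹) μ).IsMulLeftInvariant := by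
    constructor
    intro h
    rw [Measure.map_map (measurable_const_mul h) hm]
    have h1 : (fun x => h * x) ∘ (fun x : Un n => g * x * g⁻¹) =
        (fun x : Un n => g * x * g⁻¹) ∘ (fun x => (g⁻¹ * h * g) * x) := by
      funext x
      simp only [Function.comp]
      group
    rw [h1, ← Measure.map_map hm (measurable_const_mul _), map_mul_left_eq_self]
  have hH2 := isHaar (Measure.map (fun x : Un n => g * x * g⁻¹) μ)
  exact Measure.isHaarMeasure_eq_of_isProbabilityMeasure _ _

/-- the function -/
noncomputable def GG (k : ℕ) (g : Un n) : ℂ :=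
  (g : Mn n).trace ^ k * star ((g : Mn n).trace) ^ k

theorem cont_GG (k : ℕ) : Continuous (GG k : Un n → ℂ) := by
  have h : Continuous (fun g : Un n => (g : Mn n).trace) :=
    (continuous_subtype_val (p := fun g : Mn n => g ∈ Matrix.unitaryGroup (Fin n) ℂ)).matrix_trace
  exact (h.pow k).mul (h.star.pow k)

theorem GG_le (k : ℕ) : ∃ C : ℝ, ∀ g : Un n, ‖(GG k g : ℂ)‖ ≤ C := by
  obtain ⟨C, hC⟩ := (isCompact_univ (X := Un n)).exists_bound_of_continuousOn (cont_GG k).continuousOn
  exact ⟨C, fun g => hC g (Set.mem_univ g)⟩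

theorem cont_lift (w : FreeGroup (Fin 2)) : Continuous (fun p : Un n × Un n =>
    FreeGroup.lift ![p.1, p.2] w) := by
  refine FreeGroup.induction_on w ?_ ?_ ?_ ?_
  · simp only [map_one]
    exact continuous_const
  · intro i
    change Continuous (fun p : Un n × Un n => FreeGroup.lift ![p.1, p.2] (FreeGroup.of i))
    simp only [FreeGroup.lift_apply_of]
    fin_cases i
    · exact continuous_fst
    · exact continuous_snd
  · intro i h
    simp only [map_inv]
    exact h.inv
  · intro a b ha hb
    simp only [map_mul]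
    exact ha.mul hb

theorem GG_conj (k : ℕ) (g h : Un n) : (GG k (g * h * g⁻¹) : ℂ) = GG k h := by
  have h1 : ((g * h * g⁻¹ : Un n) : Mn n).trace = (h : Mn n).trace := by
    have h2 : ((g * h * g⁻¹ : Un n) : Mn n) = (g : Mn n) * (h : Mn n) * ((g⁻¹ : Un n) : Mn n) := rfl
    have h3 : ((g⁻¹ : Un n) : Mn n) * (g : Mn n) = 1 := by
      have h4 : g⁻¹ * g = 1 := inv_mul_cancel _
      exact congrArg Subtype.val h4
    rw [h2, Matrix.trace_mul_comm, ← Matrix.mul_assoc, h3, Matrix.one_mul]
  rw [GG, GG, h1]

theorem GG_lift (k : ℕ) {w v : FreeGroup (Fin 2)} (h : IsConj w v) (f : Fin 2 → Un n) :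
    (GG k (FreeGroup.lift f v) : ℂ) = GG k (FreeGroup.lift f w) := by
  obtain ⟨u, hu⟩ := isConj_iff.mp h
  rw [← hu, map_mul, map_mul, map_inv, GG_conj]

theorem haar_pi {w : FreeGroup (Fin 2)} (hw : HaarOn w n) (k : ℕ) (hk : k ≤ n) :
    ∫ f : Fin 2 → Un n, (GG k (FreeGroup.lift f w) : ℂ) ∂(Measure.pi fun _ => μ) =
      (Nat.factorial k : ℂ) := by
  have hmap := hw μ
  have hae : AEMeasurable (fun f : Fin 2 → Un n => FreeGroup.lift f w) (Measure.pi fun _ => μ) := by
    by_contra h
    rw [Measure.map_of_not_aemeasurable h] at hmap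
    exact (IsProbabilityMeasure.ne_zero μ) hmap.symm
  have h1 := moment μ k hk
  rw [← h1]
  change _ = ∫ z : Un n, GG k z ∂μ
  conv_rhs => rw [← hmap]
  rw [integral_map hae]
  exact (cont_GG k).aestronglyMeasurable

/-- the function of two variables -/
noncomputable def F2 (k : ℕ) (w : FreeGroup (Fin 2)) (p : Un n × Un n) : ℂ :=
  GG k (FreeGroup.lift ![p.1, p.2] w)

theorem cont_F2 (k : ℕ) (w : FreeGroup (Fin 2)) : Continuous (F2 k w : Un n × Un n → ℂ) :=
  (cont_GG k).comp (cont_lift w)

theorem int_F2 (k : ℕ) (w : FreeGroup (Fin 2)) : Integrable (F2 k w) (μ.prod μ) :=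
  (cont_F2 k w).integrable_of_hasCompactSupport (HasCompactSupport.of_compactSpace _)

theorem haar_prod {w : FreeGroup (Fin 2)} (hw : HaarOn w n) (k : ℕ) (hk : k ≤ n) :
    ∫ p : Un n × Un n, F2 k w p ∂(μ.prod μ) = (Nat.factorial k : ℂ) := by
  rw [← haar_pi μ hw k hk]
  rw [← (measurePreserving_finTwoArrow μ).integral_comp' (F2 k w)]
  congr 1
  funext f
  have h1 : ![(MeasurableEquiv.finTwoArrow f).1, (MeasurableEquiv.finTwoArrow f).2] = f := by
    funext i
    fin_cases i <;> rfl
  rw [F2, h1]

theorem haar_iter {w : FreeGroup (Fin 2)} (hw : HaarOn w n) (k : ℕ) (hk : k ≤ n) :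
    ∫ x : Un n, ∫ y : Un n, F2 k w (x, y) ∂μ ∂μ = (Nat.factorial k : ℂ) := by
  rw [← integral_prod _ (int_F2 μ k w), haar_prod μ hw k hk]

/-- case (A) -/
theorem haarA {w : FreeGroup (Fin 2)} (hw : HaarOn w n) (k : ℕ) (hk : k ≤ n) :
    ∫ x : Bool → Un n, ∫ y : Un n, F2 k w (x false, y) ∂μ ∂(Measure.pi fun _ => μ) =
      (Nat.factorial k : ℂ) := by
  rw [← haar_iter μ hw k hk]
  have hev := (measurePreserving_eval (fun _ : Bool => μ) false).map_eq
  have h1 := integral_map (μ := Measure.pi fun _ : Bool => μ) (φ := Function.eval false)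
    (f := fun x : Un n => ∫ y : Un n, F2 k w (x, y) ∂μ)
    (measurable_pi_apply _).aemeasurable (by
      rw [hev]
      exact (int_F2 μ k w).integral_prod_left.aestronglyMeasurable)
  rw [hev] at h1
  exact h1.symm

/-- case (S) -/
theorem haarS {w : FreeGroup (Fin 2)} (hw : HaarOn w n) (k : ℕ) (hk : k ≤ n) :
    ∫ x : Bool → Un n, ∫ y : Un n, F2 k w (x false, y * x true * y⁻¹) ∂μ ∂(Measure.pi fun _ => μ) =
      (Nat.factorial k : ℂ) := by
  have hc : Continuous (fun p : (Bool → Un n) × Un n => F2 k w (p.1 false, p.2 * p.1 true * p.2⁻¹)) := by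
    apply (cont_F2 k w).comp
    fun_prop
  have hint : Integrable (Function.uncurry (fun (x : Bool → Un n) (y : Un n) =>
      F2 k w (x false, y * x true * y⁻¹))) ((Measure.pi fun _ => μ).prod μ) :=
    hc.integrable_of_hasCompactSupport (HasCompactSupport.of_compactSpace _)
  rw [integral_integral_swap hint]
  have h1 : ∀ y : Un n, ∫ x : Bool → Un n, F2 k w (x false, y * x true * y⁻¹)
      ∂(Measure.pi fun _ => μ) = (Nat.factorial k : ℂ) := by
    intro y
    have hmp : MeasurePreserving (fun (x : Bool → Un n) (b : Bool) =>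
        if b then y * x b * y⁻¹ else x b) (Measure.pi fun _ => μ) (Measure.pi fun _ => μ) :=
      measurePreserving_pi (fun _ => μ) (fun _ => μ)
        (f := fun (b : Bool) (x : Un n) => if b then y * x * y⁻¹ else x) (fun b => by
          cases b
          · exact MeasurePreserving.id μ
          · exact mp_conj μ y)
    have hc2 : Continuous (fun x : Bool → Un n => F2 k w (x false, x true)) := by
      apply (cont_F2 k w).comp
      fun_prop
    have h2 : ∫ x : Bool → Un n, F2 k w (x false, y * x true * y⁻¹) ∂(Measure.pi fun _ => μ) =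
        ∫ x : Bool → Un n, F2 k w (x false, x true) ∂(Measure.pi fun _ => μ) := by
      conv_rhs => rw [← hmp.map_eq]
      rw [integral_map hmp.measurable.aemeasurable]
      · rfl
      · exact hc2.aestronglyMeasurable
    rw [h2, ← haar_prod μ hw k hk]
    have h3 := (measurePreserving_piCongrLeft (fun _ : Bool => μ) finTwoEquiv)
    have h4 := h3.integral_comp' (fun x : Bool → Un n => F2 k w (x false, x true))
    rw [← h4]
    rw [← (measurePreserving_finTwoArrow μ).integral_comp' (F2 k w)]
    rfl
  simp only [h1]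
  rw [integral_const]
  simp

end

end Pool.Agent.EF
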