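import Pool.Agent.Lib.MP_ef6aaf_al.EF.ResA

set_option autoImplicit false
set_option linter.unusedSectionVars false

/-!
# Powers of a letter are not Haar
-/

namespace Pool.Agent.EF

open Finset MeasureTheory Filter
open Pool.Agent.Lib.MP_ef6aaf_al (HaarOn)

theorem ds_pair {R : Type*} [CommRing R] (n : R) (p : ℤ) (hp : p ≠ 0) :
    ds n (fun b : Bool => if b then p else -p) = ((p.natAbs : ℕ) : R) := by
  have hun : ∀ b0 : Bool, (∀ b : Bool, 0 < (if b then p else -p) ↔ b = b0) →
      (∀ b : Bool, (if b then p else -p) < 0 ↔ b = !b0) → (if b0 then p else -p) = (p.natAbs : ℤ) →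
      ds n (fun b : Bool => if b then p else -p) = ((p.natAbs : ℕ) : R) := by
    intro b0 h1 h2 h3
    rw [ds]
    have h4 : Nat.card {β : {g : Bool // 0 < (if g then p else -p)} ≃
        {g : Bool // (if g then p else -p) < 0} //
          ∀ g, (if (β g).1 then p else -p) = - (if g.1 then p else -p)} = 1 := by
      rw [Nat.card_eq_one_iff_unique]
      refine ⟨⟨?_⟩, ?_⟩
      · rintro ⟨β, hβ⟩ ⟨γ, hγ⟩
        apply Subtype.ext
        apply Equiv.ext
        intro g
        apply Subtype.ext
        exact ((h2 _).mp (β g).2).trans ((h2 _).mp (γ g).2).symm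
      · refine ⟨⟨⟨fun g => ⟨! g.1, (h2 _).mpr (by rw [(h1 _).mp g.2])⟩,
          fun g => ⟨! g.1, (h1 _).mpr (by rw [(h2 _).mp g.2, Bool.not_not])⟩, ?_, ?_⟩, ?_⟩⟩
        · intro g
          apply Subtype.ext
          simp
        · intro g
          apply Subtype.ext
          simp
        · intro g
          change (if ! g.1 then p else -p) = - (if g.1 then p else -p)
          cases g.1 <;> simp
    have h5 : (∏ g : Bool, if (if g then p else -p) = 0 then n else
        if 0 < (if g then p else -p) then (((if g then p else -p : ℤ) : ℤ) : R) else 1) =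
        ((p.natAbs : ℕ) : R) := by
      have h6 : ∀ g : Bool, (if (if g then p else -p) = 0 then n else
        if 0 < (if g then p else -p) then (((if g then p else -p : ℤ) : ℤ) : R) else 1) =
        if g = b0 then ((p.natAbs : ℕ) : R) else 1 := by
        intro g
        rw [if_neg (by cases g <;> simp [hp])]
        by_cases h7 : g = b0
        · subst h7
          rw [if_pos ((h1 g).mpr rfl), if_pos rfl, h3, Int.cast_natCast]
        · rw [if_neg (fun h => h7 ((h1 g).mp h)), if_neg h7]
      simp only [h6]
      rw [Finset.prod_ite_eq', if_pos (mem_univ _)]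
    refine (congrArg₂ (· * ·) h5 (congrArg (Nat.cast : ℕ → R) h4)).trans ?_
    rw [Nat.cast_one, mul_one]
  rcases lt_or_gt_of_ne hp with h | h
  · apply hun false
    · intro b
      cases b
      · simp [h]
      · simp [h.le]
    · intro b
      cases b
      · simp [h.le]
      · simp [h]
    · simp only [Bool.false_eq_true, if_false]
      omega
  · apply hun true
    · intro b
      cases b
      · simp [h.le]
      · simp [h]
    · intro b
      cases b
      · simp [h]
      · simp [h.le]
    · simp only [if_true]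
      omega

/-- existence of Haar probability measure -/
theorem ex_haar (n : ℕ) (P : Prop) (h : ∀ [MeasurableSpace (Un n)] [BorelSpace (Un n)]
    (μ : Measure (Un n)) [IsProbabilityMeasure μ] [μ.IsMulLeftInvariant], P) : P := by
  let _ : MeasurableSpace (Un n) := borel (Un n)
  have : BorelSpace (Un n) := ⟨rfl⟩
  let K : TopologicalSpace.PositiveCompacts (Un n) := ⊤
  have h1 : Measure.haarMeasure K Set.univ = 1 := Measure.haarMeasure_self
  have : IsProbabilityMeasure (Measure.haarMeasure K) := ⟨h1⟩
  exact h (Measure.haarMeasure K)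

theorem mean_pow {n : ℕ} [MeasurableSpace (Un n)] [BorelSpace (Un n)] (μ : Measure (Un n))
    [IsProbabilityMeasure μ] [μ.IsMulLeftInvariant] (p : ℤ) (hp : p ≠ 0) (hn : 2 * p.natAbs ≤ n) :
    ∫ x : Un n, (zp x p).trace * star (zp x p).trace ∂μ = ((p.natAbs : ℕ) : ℂ) := by
  have h1 := ds_int μ (fun b : Bool => if b then p else -p) (by
    rw [Fintype.sum_bool]
    simp only [if_true, Bool.false_eq_true, if_false, Int.natAbs_neg]
    omega)
  rw [ds_pair (n : ℂ) p hp] at h1
  rw [← h1]
  congr 1
  funext x
  rw [Fintype.prod_bool]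
  simp only [if_true, Bool.false_eq_true, if_false]
  rw [trace_zp_neg]

theorem p_pow : S_pow := by
  intro p w hw hH
  obtain ⟨n, hHn, hn⟩ := (hH.and_eventually (eventually_ge_atTop (2 * p.natAbs + 2))).exists
  apply ex_haar n
  intro _ _ μ _ _
  have hmap := hHn μ
  let G : Mn n → ℂ := fun g => g.trace * star g.trace
  have hGc : Continuous G := continuous_id.matrix_trace.mul continuous_id.matrix_trace.star
  have hG1 : ∫ g : Un n, G g ∂μ = 1 := by
    have h1 := mean_pow μ 1 one_ne_zero (by simp; omega)
    simp only [Int.natAbs_one, Nat.cast_one] at h1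
    rw [← h1]
    congr 1
    funext x
    simp only [G, zp, zpow_one]
  have hae : AEMeasurable (fun f : Fin 2 → Un n => FreeGroup.lift f w) (Measure.pi fun _ => μ) := by
    by_contra h
    rw [Measure.map_of_not_aemeasurable h] at hmap
    exact (IsProbabilityMeasure.ne_zero μ) hmap.symm
  have hG2 : ∫ f : Fin 2 → Un n, G ((FreeGroup.lift f w : Un n) : Mn n) ∂(Measure.pi fun _ => μ) = 1 := by
    rw [← hG1]
    conv_rhs => rw [← hmap]
    rw [integral_map hae]
    exact (hGc.comp continuous_subtype_val).aestronglyMeasurable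
  have hconj : ∀ f : Fin 2 → Un n, ((FreeGroup.lift f w : Un n) : Mn n).trace = (zp (f 0) p).trace := by
    intro f
    obtain ⟨u, hu⟩ := isConj_iff.mp hw
    have h1 : FreeGroup.lift f u * FreeGroup.lift f w * (FreeGroup.lift f u)⁻¹ = (f 0) ^ p := by
      rw [← map_inv, ← map_mul, ← map_mul, hu, map_zpow, FreeGroup.lift_apply_of]
    have h2 : zp (f 0) p = ((FreeGroup.lift f u : Un n) : Mn n) * ((FreeGroup.lift f w : Un n) : Mn n) *
        (((FreeGroup.lift f u)⁻¹ : Un n) : Mn n) := by
      rw [zp, ← h1]
      rfl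
    have h3 : (((FreeGroup.lift f u)⁻¹ : Un n) : Mn n) * ((FreeGroup.lift f u : Un n) : Mn n) = 1 := by
      have h4 : (FreeGroup.lift f u)⁻¹ * FreeGroup.lift f u = 1 := inv_mul_cancel _
      exact congrArg Subtype.val h4
    rw [h2, Matrix.trace_mul_comm, ← Matrix.mul_assoc, h3, Matrix.one_mul]
  have hG3 : ∫ f : Fin 2 → Un n, G (zp (f 0) p) ∂(Measure.pi fun _ => μ) = 1 := by
    rw [← hG2]
    congr 1
    funext f
    simp only [G, hconj]
  have hev := (measurePreserving_eval (fun _ : Fin 2 => μ) 0).map_eq
  have hG4 : ∫ x : Un n, G (zp x p) ∂μ = 1 := by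
    rw [← hG3]
    conv_lhs => rw [← hev]
    rw [integral_map (measurable_pi_apply _).aemeasurable]
    · exact (hGc.comp (cont_zp p)).aestronglyMeasurable
  by_cases hp : p = 0
  · exfalso
    subst hp
    simp only [G, zp_zero, Matrix.trace_one, Fintype.card_fin, star_natCast] at hG4
    rw [integral_const] at hG4
    simp only [probReal_univ, one_smul] at hG4
    have h5 : n * n = 1 := by exact_mod_cast hG4
    have h6 : n = 1 := Nat.eq_one_of_mul_eq_one_left h5
    omega
  · have h5 := mean_pow μ p hp (by omega)
    have h6 : ((p.natAbs : ℕ) : ℂ) = 1 := by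
      rw [← h5]
      exact hG4
    have h7 : p.natAbs = 1 := by exact_mod_cast h6
    omega

end Pool.Agent.EF
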