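import Pool.Agent.Lib.MP_ef6aaf_al.EF.QDefs

/-!
Calculus in the squarefree algebra: nilpotency, exp, inverse, derivations, log.
-/

set_option autoImplicit false

namespace Pool.MP_ef6aaf_al.EF

open Finset

namespace Sq

variable {A : Type} [DecidableEq A]

@[simp] theorem co_pow_empty (x : Sq A) (k : ℕ) : (x ^ k).co ∅ = x.co ∅ ^ k :=
  map_pow c0 x k

/-- a product of `k` elements without constant term has no coefficients below degree `k` -/
theorem co_pow_eq_zero {x : Sq A} (hx : x.co ∅ = 0) (k : ℕ) (S : Finset A)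
    (h : S.card < k) : (x ^ k).co S = 0 := by
  induction k generalizing S with
  | zero => exact absurd h (Nat.not_lt_zero _)
  | succ k ih =>
    rw [pow_succ, co_mul]
    refine Finset.sum_eq_zero fun T hT => ?_
    have hT' := mem_powerset.1 hT
    by_cases h1 : T.card < k
    · rw [ih T h1, zero_mul]
    · have h2 : S \ T = ∅ := by
        rw [← Finset.card_eq_zero, Finset.card_sdiff_of_subset hT']
        have := Finset.card_le_card hT'
        omega
      rw [h2, hx, mul_zero]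

theorem pow_card_eq_zero [Fintype A] {x : Sq A} (hx : x.co ∅ = 0) :
    x ^ (Fintype.card A + 1) = 0 := by
  ext S
  rw [co_pow_eq_zero hx _ _ (Nat.lt_succ_of_le (Finset.card_le_univ S))]
  rfl

theorem isNil [Fintype A] {x : Sq A} (hx : x.co ∅ = 0) : IsNilpotent x :=
  ⟨_, pow_card_eq_zero hx⟩

theorem ex_eq_exp [Fintype A] {x : Sq A} (hx : x.co ∅ = 0) : ex x = IsNilpotent.exp x := by
  rw [IsNilpotent.exp_eq_sum (pow_card_eq_zero hx)]
  rfl

theorem ex_add [Fintype A] {x y : Sq A} (hx : x.co ∅ = 0) (hy : y.co ∅ = 0) :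
    ex (x + y) = ex x * ex y := by
  rw [ex_eq_exp hx, ex_eq_exp hy, ex_eq_exp (by simp [hx, hy]),
    IsNilpotent.exp_add_of_commute (Commute.all _ _) (isNil hx) (isNil hy)]

@[simp] theorem ex_zero [Fintype A] : ex (0 : Sq A) = 1 := by
  rw [ex_eq_exp rfl]
  exact IsNilpotent.exp_zero

theorem ex_mul_ex_neg [Fintype A] {x : Sq A} (hx : x.co ∅ = 0) : ex x * ex (-x) = 1 := by
  rw [← ex_add hx (by simp [hx]), add_neg_cancel, ex_zero]

theorem ex_co_empty [Fintype A] {x : Sq A} (hx : x.co ∅ = 0) : (ex x).co ∅ = 1 := by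
  rw [ex, co_sum, Finset.sum_eq_single 0]
  · simp
  · intro k _ hk
    simp [hx, hk]
  · simp

theorem mul_iv [Fintype A] {x : Sq A} (hx : x.co ∅ = 1) : x * iv x = 1 := by
  have h : (1 - (1 - x)) * iv x = 1 - (1 - x) ^ (Fintype.card A + 1) := by
    rw [iv, mul_neg_geom_sum]
  rw [sub_sub_cancel] at h
  rw [h, pow_card_eq_zero (by simp [hx]), sub_zero]

theorem iv_mul [Fintype A] {x : Sq A} (hx : x.co ∅ = 1) : iv x * x = 1 := by
  rw [mul_comm, mul_iv hx]

theorem iv_co_empty [Fintype A] {x : Sq A} (hx : x.co ∅ = 1) : (iv x).co ∅ = 1 := by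
  have := congrArg (fun z => co z ∅) (mul_iv hx)
  simpa [hx] using this

theorem eq_iv_of_mul_eq_one [Fintype A] {x y : Sq A} (h : x * y = 1) (hx : x.co ∅ = 1) :
    y = iv x := by
  calc y = (iv x * x) * y := by rw [iv_mul hx, one_mul]
    _ = iv x * (x * y) := by ring
    _ = iv x := by rw [h, mul_one]

theorem iv_iv [Fintype A] {x : Sq A} (hx : x.co ∅ = 1) : iv (iv x) = x :=
  (eq_iv_of_mul_eq_one (iv_mul hx) (iv_co_empty hx)).symm

theorem iv_mul_rev [Fintype A] {x y : Sq A} (hx : x.co ∅ = 1) (hy : y.co ∅ = 1) :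
    iv (x * y) = iv x * iv y := by
  refine (eq_iv_of_mul_eq_one ?_ (by simp [hx, hy])).symm
  calc x * y * (iv x * iv y) = (x * iv x) * (y * iv y) := by ring
    _ = 1 := by rw [mul_iv hx, mul_iv hy, one_mul]

@[simp] theorem iv_one [Fintype A] : iv (1 : Sq A) = 1 :=
  (eq_iv_of_mul_eq_one (one_mul 1) (by simp)).symm

theorem iv_ex [Fintype A] {x : Sq A} (hx : x.co ∅ = 0) : iv (ex x) = ex (-x) :=
  (eq_iv_of_mul_eq_one (ex_mul_ex_neg hx) (ex_co_empty hx)).symm

/-! ### derivations -/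

theorem dg_add (Y : Finset A) (x y : Sq A) : dg Y (x + y) = dg Y x + dg Y y := by
  ext S; simp [dg, mul_add]

theorem dg_sub (Y : Finset A) (x y : Sq A) : dg Y (x - y) = dg Y x - dg Y y := by
  ext S; simp [dg, mul_sub]

theorem dg_neg (Y : Finset A) (x : Sq A) : dg Y (-x) = - dg Y x := by
  ext S; simp [dg]

theorem dg_smul (Y : Finset A) (r : ℚ) (x : Sq A) : dg Y (r • x) = r • dg Y x := by
  ext S; simp only [dg, co_smul]; ring

@[simp] theorem dg_co_empty (Y : Finset A) (x : Sq A) : (dg Y x).co ∅ = 0 := by simp [dg]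

theorem dg_mul (Y : Finset A) (x y : Sq A) : dg Y (x * y) = dg Y x * y + x * dg Y y := by
  ext S
  simp only [dg, co_add, co_mul, Finset.mul_sum, ← Finset.sum_add_distrib]
  refine Finset.sum_congr rfl fun T hT => ?_
  have hT' := mem_powerset.1 hT
  have h : (S ∩ Y).card = (T ∩ Y).card + ((S \ T) ∩ Y).card := by
    rw [← Finset.card_union_of_disjoint]
    · congr 1
      ext a; simp only [mem_inter, mem_union, mem_sdiff]
      constructor
      · rintro ⟨h1, h2⟩
        by_cases h3 : a ∈ T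
        · exact Or.inl ⟨h3, h2⟩
        · exact Or.inr ⟨⟨h1, h3⟩, h2⟩
      · rintro (⟨h1, h2⟩ | ⟨⟨h1, _⟩, h2⟩)
        · exact ⟨hT' h1, h2⟩
        · exact ⟨h1, h2⟩
    · rw [Finset.disjoint_left]
      intro a ha hb
      simp only [mem_inter, mem_sdiff] at ha hb
      exact hb.1.2 ha.1
  rw [h]; push_cast; ring

@[simp] theorem dg_one (Y : Finset A) : dg Y (1 : Sq A) = 0 := by
  ext S
  simp only [dg, co_one, co_zero]
  split_ifs with h
  · simp [h]
  · simp

@[simp] theorem dg_zero (Y : Finset A) : dg Y (0 : Sq A) = 0 := by ext S; simp [dg]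

theorem dg_sum {ι : Type*} (Y : Finset A) (s : Finset ι) (f : ι → Sq A) :
    dg Y (∑ i ∈ s, f i) = ∑ i ∈ s, dg Y (f i) := by
  ext S; simp [dg, Finset.mul_sum]

theorem dg_pow (Y : Finset A) (x : Sq A) (k : ℕ) :
    dg Y (x ^ (k + 1)) = ((k : ℚ) + 1) • (x ^ k * dg Y x) := by
  induction k with
  | zero => simp
  | succ k ih =>
    rw [pow_succ, dg_mul, ih, smul_mul_assoc]
    have : x ^ k * dg Y x * x = x ^ (k + 1) * dg Y x := by ring
    rw [this]
    push_cast
    rw [show ((k : ℚ) + 1 + 1) • (x ^ (k + 1) * dg Y x)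
      = ((k : ℚ) + 1) • (x ^ (k + 1) * dg Y x) + x ^ (k + 1) * dg Y x by
        rw [add_smul _ (1 : ℚ), one_smul]]

/-- products of `k` elements of the maximal ideal with one more -/
theorem pow_card_mul_eq_zero [Fintype A] {x y : Sq A} (hx : x.co ∅ = 0) (hy : y.co ∅ = 0) :
    x ^ (Fintype.card A) * y = 0 := by
  ext S
  rw [co_mul]
  refine Finset.sum_eq_zero fun T hT => ?_
  by_cases h1 : T.card < Fintype.card A
  · rw [co_pow_eq_zero hx _ _ h1, zero_mul]
  · have h2 : T = univ := by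
      rw [← Finset.card_eq_iff_eq_univ]
      exact le_antisymm (Finset.card_le_univ T) (not_lt.1 h1)
    have h3 : S \ T = ∅ := by simp [h2]
    rw [h3, hy, mul_zero]

theorem dg_ex [Fintype A] (Y : Finset A) {x : Sq A} (hx : x.co ∅ = 0) :
    dg Y (ex x) = ex x * dg Y x := by
  have h1 : dg Y (ex x) = (∑ k ∈ range (Fintype.card A), ((k.factorial : ℚ)⁻¹) • x ^ k)
      * dg Y x := by
    rw [ex, dg_sum, Finset.sum_range_succ']
    simp only [dg_smul, dg_pow, pow_zero, dg_one, smul_zero, add_zero, Finset.sum_mul]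
    refine Finset.sum_congr rfl fun k _ => ?_
    rw [smul_smul, smul_mul_assoc]
    congr 1
    rw [Nat.factorial_succ]
    push_cast
    field_simp
  rw [h1, ex, Finset.sum_range_succ, add_mul, smul_mul_assoc,
    pow_card_mul_eq_zero hx (dg_co_empty Y x), smul_zero, add_zero]

/-- an element killed by the degree derivation is constant -/
theorem eq_one_of_dg_eq_zero {x : Sq A} [Fintype A] (h : dg univ x = 0) (h0 : x.co ∅ = 1) :
    x = 1 := by
  ext S
  by_cases hS : S = ∅
  · subst hS; simp [h0]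
  · have := congrArg (fun z => co z S) h
    simp only [dg, co_zero, inter_univ, mul_eq_zero, Nat.cast_eq_zero, Finset.card_eq_zero] at this
    rw [co_one, if_neg hS]
    exact this.resolve_left hS

theorem eq_zero_of_dg_eq_zero {x : Sq A} [Fintype A] (h : dg univ x = 0) (h0 : x.co ∅ = 0) :
    x = 0 := by
  ext S
  by_cases hS : S = ∅
  · subst hS; simp [h0]
  · have := congrArg (fun z => co z S) h
    simp only [dg, co_zero, inter_univ, mul_eq_zero, Nat.cast_eq_zero, Finset.card_eq_zero] at this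
    exact this.resolve_left hS

theorem dg_iv [Fintype A] (Y : Finset A) {x : Sq A} (hx : x.co ∅ = 1) :
    dg Y (iv x) = - (iv x * iv x * dg Y x) := by
  have h := congrArg (dg Y) (mul_iv hx)
  rw [dg_mul, dg_one] at h
  have h2 : iv x * (dg Y x * iv x + x * dg Y (iv x)) = 0 := by rw [h, mul_zero]
  have h3 : iv x * (dg Y x * iv x + x * dg Y (iv x))
      = iv x * iv x * dg Y x + (iv x * x) * dg Y (iv x) := by ring
  rw [h3, iv_mul hx, one_mul] at h2
  exact eq_neg_of_add_eq_zero_right h2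

/-! ### log -/

@[simp] theorem lg_co_empty [Fintype A] (x : Sq A) : (lg x).co ∅ = 0 := by simp [lg]

theorem dg_lg_univ [Fintype A] (x : Sq A) : dg univ (lg x) = iv x * dg univ x := by
  ext S
  simp only [dg, lg, inter_univ]
  by_cases hS : S = ∅
  · subst hS
    rw [co_mul_empty]; simp
  · have : (S.card : ℚ) ≠ 0 := by
      rw [Nat.cast_ne_zero]
      exact Finset.card_ne_zero.2 (Finset.nonempty_iff_ne_empty.2 hS)
    field_simp

theorem ex_lg [Fintype A] {x : Sq A} (hx : x.co ∅ = 1) : ex (lg x) = x := by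
  have h : ex (-(lg x)) * x = 1 := by
    apply eq_one_of_dg_eq_zero
    · rw [dg_mul, dg_ex _ (by simp), dg_neg, dg_lg_univ]
      have : ex (-lg x) * -(iv x * dg univ x) * x + ex (-lg x) * dg univ x
          = ex (-lg x) * dg univ x * (1 - x * iv x) := by ring
      rw [this, mul_iv hx, sub_self, mul_zero]
    · rw [co_mul_empty, ex_co_empty (by simp), hx, one_mul]
  have h2 : ex (lg x) * (ex (-(lg x)) * x) = ex (lg x) := by rw [h, mul_one]
  rw [← mul_assoc, ex_mul_ex_neg (lg_co_empty x), one_mul] at h2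
  exact h2.symm

theorem ex_inj [Fintype A] {x y : Sq A} (hx : x.co ∅ = 0) (hy : y.co ∅ = 0)
    (h : ex x = ex y) : x = y := by
  have h1 : ex (x - y) = 1 := by
    rw [sub_eq_add_neg, ex_add hx (by simp [hy]), h, ex_mul_ex_neg hy]
  have h2 : dg univ (x - y) = 0 := by
    have := dg_ex univ (x := x - y) (by simp [hx, hy])
    rw [h1, dg_one, one_mul] at this
    exact this.symm
  have h3 := eq_zero_of_dg_eq_zero h2 (by simp [hx, hy])
  exact sub_eq_zero.1 h3

theorem lg_ex [Fintype A] {x : Sq A} (hx : x.co ∅ = 0) : lg (ex x) = x :=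
  ex_inj (lg_co_empty _) hx (ex_lg (ex_co_empty hx))

theorem lg_mul [Fintype A] {x y : Sq A} (hx : x.co ∅ = 1) (hy : y.co ∅ = 1) :
    lg (x * y) = lg x + lg y := by
  refine ex_inj (lg_co_empty _) (by simp) ?_
  rw [ex_lg (by simp [hx, hy]), ex_add (by simp) (by simp), ex_lg hx, ex_lg hy]

theorem lg_iv [Fintype A] {x : Sq A} (hx : x.co ∅ = 1) : lg (iv x) = - lg x := by
  refine ex_inj (lg_co_empty _) (by simp) ?_
  rw [ex_lg (iv_co_empty hx), ← iv_ex (lg_co_empty x), ex_lg hx]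

@[simp] theorem lg_one [Fintype A] : lg (1 : Sq A) = 0 := by
  have := lg_ex (A := A) (x := 0) rfl
  rwa [ex_zero] at this

theorem dg_lg [Fintype A] (Y : Finset A) {x : Sq A} (hx : x.co ∅ = 1) :
    dg Y (lg x) = iv x * dg Y x := by
  have h := dg_ex Y (lg_co_empty x)
  rw [ex_lg hx] at h
  rw [h, ← mul_assoc, iv_mul hx, one_mul]

/-! ### order -/

theorem nonneg_def (x : Sq A) : 0 ≤ x ↔ ∀ S, 0 ≤ x.co S := Iff.rfl

instance : PartialOrder (Sq A) where
  le_refl x S := le_refl _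
  le_trans x y z h1 h2 S := (h1 S).trans (h2 S)
  le_antisymm x y h1 h2 := by ext S; exact le_antisymm (h1 S) (h2 S)

theorem add_nn {x y : Sq A} (hx : 0 ≤ x) (hy : 0 ≤ y) : 0 ≤ x + y :=
  fun S => add_nonneg (hx S) (hy S)

theorem mul_nn {x y : Sq A} (hx : 0 ≤ x) (hy : 0 ≤ y) : 0 ≤ x * y :=
  fun _ => Finset.sum_nonneg fun T _ => mul_nonneg (hx T) (hy _)

theorem one_nn : (0 : Sq A) ≤ 1 := fun S => by
  simp only [co_zero, co_one]; split_ifs <;> norm_num

theorem smul_nn {r : ℚ} (hr : 0 ≤ r) {x : Sq A} (hx : 0 ≤ x) : 0 ≤ r • x :=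
  fun S => mul_nonneg hr (hx S)

theorem pow_nn {x : Sq A} (hx : 0 ≤ x) (k : ℕ) : 0 ≤ x ^ k := by
  induction k with
  | zero => simpa using one_nn
  | succ k ih => rw [pow_succ]; exact mul_nn ih hx

theorem sum_nn {ι : Type*} (s : Finset ι) (f : ι → Sq A) (h : ∀ i ∈ s, 0 ≤ f i) :
    0 ≤ ∑ i ∈ s, f i := fun S => by
  rw [co_sum]; exact Finset.sum_nonneg fun i hi => h i hi S

theorem ex_nn [Fintype A] {x : Sq A} (hx : 0 ≤ x) : 0 ≤ ex x :=
  sum_nn _ _ fun k _ => smul_nn (by positivity) (pow_nn hx k)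

theorem sub_nn {x y : Sq A} : 0 ≤ y - x ↔ x ≤ y := by
  constructor
  · intro h S; have := h S; simp only [co_zero, co_sub] at this; linarith
  · intro h S; have := h S; simp only [co_zero, co_sub]; linarith

theorem mul_le {x x' y y' : Sq A} (hx : 0 ≤ x) (hx' : x ≤ x') (hy : 0 ≤ y) (hy' : y ≤ y') :
    x * y ≤ x' * y' := fun S => by
  rw [co_mul, co_mul]
  refine Finset.sum_le_sum fun T _ => ?_
  exact mul_le_mul (hx' T) (hy' _) (hy _) ((hx T).trans (hx' T))

theorem add_le {x x' y y' : Sq A} (hx' : x ≤ x') (hy' : y ≤ y') : x + y ≤ x' + y' :=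
  fun S => add_le_add (hx' S) (hy' S)

theorem pow_le {x y : Sq A} (hx : 0 ≤ x) (h : x ≤ y) (k : ℕ) : x ^ k ≤ y ^ k := by
  induction k with
  | zero => simp
  | succ k ih => rw [pow_succ, pow_succ]; exact mul_le (pow_nn hx k) ih hx h

theorem ex_le [Fintype A] {x y : Sq A} (hx : 0 ≤ x) (h : x ≤ y) : ex x ≤ ex y := fun S => by
  rw [ex, ex, co_sum, co_sum]
  refine Finset.sum_le_sum fun k _ => ?_
  exact mul_le_mul_of_nonneg_left (pow_le hx h k S) (by positivity)

/-- `exp x >= 1 + x` for nonnegative `x` -/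
theorem one_add_le_ex [Fintype A] {x : Sq A} (hx : 0 ≤ x) (h0 : x.co ∅ = 0) :
    1 + x ≤ ex x := fun S => by
  by_cases hA : Fintype.card A = 0
  · have hS : S = ∅ := by
      rw [← Finset.card_eq_zero]
      have := Finset.card_le_univ S; omega
    subst hS
    simp [h0, ex_co_empty h0]
  · obtain ⟨m, hm⟩ := Nat.exists_eq_succ_of_ne_zero hA
    rw [ex, co_sum, hm, Finset.sum_range_succ', Finset.sum_range_succ']
    have h1 : 0 ≤ ∑ k ∈ range m, (((k + 1 + 1).factorial : ℚ)⁻¹ • x ^ (k + 1 + 1)).co S :=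
      Finset.sum_nonneg fun k _ => smul_nn (by positivity) (pow_nn hx _) S
    simp only [zero_add, Nat.factorial_one, Nat.cast_one, inv_one, one_smul, pow_one,
      Nat.factorial_zero, pow_zero, co_add] at h1 ⊢
    linarith

theorem one_le_ex [Fintype A] {x : Sq A} (hx : 0 ≤ x) (h0 : x.co ∅ = 0) : 1 ≤ ex x :=
  fun S => by
    have h1 := one_add_le_ex hx h0 S
    have h2 := hx S
    simp only [co_add, co_zero] at h1 h2
    linarith

/-- `1/(1-x) >= 0` -/
theorem iv_one_sub_nn [Fintype A] {x : Sq A} (hx : 0 ≤ x) : 0 ≤ iv (1 - x) := by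
  rw [iv]
  refine sum_nn _ _ fun k _ => ?_
  rw [sub_sub_cancel]; exact pow_nn hx k

theorem iv_one_sub_le [Fintype A] {x y : Sq A} (hx : 0 ≤ x) (h : x ≤ y) :
    iv (1 - x) ≤ iv (1 - y) := fun S => by
  rw [iv, iv, co_sum, co_sum, sub_sub_cancel, sub_sub_cancel]
  exact Finset.sum_le_sum fun k _ => pow_le hx h k S

end Sq

end Pool.MP_ef6aaf_al.EF
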