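import Mathlib

/-!
MP_ef6aaf_al, positivity side of the F_2 theorem (helper41): the squarefree algebra
`Sq A = Q[s_a : a in A]/(s_a^2)`, realised as functions `Finset A -> Q` with the disjoint
union product, and all the objects of the positivity proof.
-/

set_option autoImplicit false

namespace Pool.MP_ef6aaf_al.EF

open Finset

/-- The squarefree algebra `Q[s_a]/(s_a^2)`; `x.co S` is the coefficient of `prod_{a in S} s_a`. -/
@[ext] structure Sq (A : Type) where
  /-- coefficients -/
  co : Finset A → ℚ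

namespace Sq

variable {A : Type} [DecidableEq A]

instance : Zero (Sq A) := ⟨⟨fun _ => 0⟩⟩
instance : One (Sq A) := ⟨⟨fun S => if S = ∅ then 1 else 0⟩⟩
instance : Add (Sq A) := ⟨fun x y => ⟨fun S => x.co S + y.co S⟩⟩
instance : Neg (Sq A) := ⟨fun x => ⟨fun S => - x.co S⟩⟩
instance : Sub (Sq A) := ⟨fun x y => ⟨fun S => x.co S - y.co S⟩⟩
instance : SMul ℚ (Sq A) := ⟨fun r x => ⟨fun S => r * x.co S⟩⟩
instance : Mul (Sq A) := ⟨fun x y => ⟨fun S => ∑ T ∈ S.powerset, x.co T * y.co (S \ T)⟩⟩

omit [DecidableEq A] in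
@[simp] theorem co_zero (S : Finset A) : (0 : Sq A).co S = 0 := rfl
theorem co_one (S : Finset A) : (1 : Sq A).co S = if S = ∅ then 1 else 0 := rfl
omit [DecidableEq A] in
@[simp] theorem co_add (x y : Sq A) (S : Finset A) : (x + y).co S = x.co S + y.co S := rfl
omit [DecidableEq A] in
@[simp] theorem co_neg (x : Sq A) (S : Finset A) : (-x).co S = - x.co S := rfl
omit [DecidableEq A] in
@[simp] theorem co_sub (x y : Sq A) (S : Finset A) : (x - y).co S = x.co S - y.co S := rfl
omit [DecidableEq A] in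
@[simp] theorem co_smul (r : ℚ) (x : Sq A) (S : Finset A) : (r • x).co S = r * x.co S := rfl
theorem co_mul (x y : Sq A) (S : Finset A) :
    (x * y).co S = ∑ T ∈ S.powerset, x.co T * y.co (S \ T) := rfl

@[simp] theorem co_one_empty : (1 : Sq A).co ∅ = 1 := by simp [co_one]
@[simp] theorem co_mul_empty (x y : Sq A) : (x * y).co ∅ = x.co ∅ * y.co ∅ := by
  simp [co_mul]

theorem mul_comm' (x y : Sq A) : x * y = y * x := by
  ext S
  rw [co_mul, co_mul]
  refine Finset.sum_bij' (fun T _ => S \ T) (fun T _ => S \ T) ?_ ?_ ?_ ?_ ?_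
  · intro T _; simp
  · intro T _; simp
  · intro T hT; simpa using hT
  · intro T hT; simpa using hT
  · intro T hT
    have h : S \ (S \ T) = T := by simpa using hT
    rw [h]; ring

theorem mul_assoc' (x y z : Sq A) : x * y * z = x * (y * z) := by
  ext S
  rw [co_mul, co_mul]
  simp only [co_mul, Finset.sum_mul, Finset.mul_sum]
  rw [Finset.sum_sigma', Finset.sum_sigma']
  refine Finset.sum_bij' (fun p _ => (⟨p.2, p.1 \ p.2⟩ : (_ : Finset A) × Finset A))
    (fun p _ => (⟨p.1 ∪ p.2, p.1⟩ : (_ : Finset A) × Finset A)) ?_ ?_ ?_ ?_ ?_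
  · rintro ⟨T, R⟩ h
    simp only [mem_sigma, mem_powerset] at h ⊢
    exact ⟨h.2.trans h.1, Finset.sdiff_subset_sdiff h.1 (le_refl _)⟩
  · rintro ⟨R, Q⟩ h
    simp only [mem_sigma, mem_powerset] at h ⊢
    exact ⟨Finset.union_subset h.1 (h.2.trans Finset.sdiff_subset), Finset.subset_union_left⟩
  · rintro ⟨T, R⟩ h
    simp only [mem_sigma, mem_powerset] at h ⊢
    rw [Finset.union_sdiff_of_subset h.2]
  · rintro ⟨R, Q⟩ h
    simp only [mem_sigma, mem_powerset] at h ⊢
    have hd : Disjoint R Q := by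
      rw [Finset.disjoint_left]; intro a ha hq
      exact (Finset.mem_sdiff.1 (h.2 hq)).2 ha
    rw [Finset.union_sdiff_cancel_left hd]
  · rintro ⟨T, R⟩ h
    simp only [mem_sigma, mem_powerset] at h ⊢
    have e : (S \ R) \ (T \ R) = S \ T := by
      ext a; simp only [mem_sdiff]
      constructor
      · rintro ⟨⟨h1, h2⟩, h3⟩; exact ⟨h1, fun h4 => h3 ⟨h4, h2⟩⟩
      · rintro ⟨h1, h2⟩; exact ⟨⟨h1, fun h3 => h2 (h.2 h3)⟩, fun h3 => h2 h3.1⟩
    rw [e]; ring

theorem one_mul' (x : Sq A) : 1 * x = x := by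
  ext S
  rw [co_mul, Finset.sum_eq_single ∅]
  · simp
  · intro T _ hT; simp [co_one, hT]
  · intro h; simp at h

theorem left_distrib' (x y z : Sq A) : x * (y + z) = x * y + x * z := by
  ext S
  simp [co_mul, mul_add, Finset.sum_add_distrib]

instance : AddCommGroup (Sq A) where
  add_assoc x y z := by ext S; simp [add_assoc]
  zero_add x := by ext S; simp
  add_zero x := by ext S; simp
  nsmul := nsmulRec
  zsmul := zsmulRec
  neg_add_cancel x := by ext S; simp
  add_comm x y := by ext S; simp [add_comm]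
  sub_eq_add_neg x y := by ext S; simp [sub_eq_add_neg]

instance : CommRing (Sq A) where
  left_distrib := left_distrib'
  right_distrib x y z := by rw [mul_comm', left_distrib', mul_comm' z x, mul_comm' z y]
  zero_mul x := by ext S; simp [co_mul]
  mul_zero x := by ext S; simp [co_mul]
  mul_assoc := mul_assoc'
  one_mul := one_mul'
  mul_one x := by rw [mul_comm', one_mul']
  mul_comm := mul_comm'
  zsmul := zsmulRec
  neg_add_cancel x := by ext S; simp
  sub_eq_add_neg x y := by ext S; simp [sub_eq_add_neg]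

instance : Module ℚ (Sq A) where
  one_smul x := by ext S; simp
  mul_smul r s x := by ext S; simp [mul_assoc]
  smul_zero r := by ext S; simp
  smul_add r x y := by ext S; simp [mul_add]
  add_smul r s x := by ext S; simp [add_mul]
  zero_smul x := by ext S; simp

instance : Algebra ℚ (Sq A) :=
  Algebra.ofModule (fun r x y => by ext S; simp [co_mul, Finset.mul_sum, mul_assoc])
    (fun r x y => by ext S; simp [co_mul, Finset.mul_sum, mul_left_comm])

/-- coefficient as a linear map -/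
def coL (S : Finset A) : Sq A →ₗ[ℚ] ℚ where
  toFun x := x.co S
  map_add' _ _ := rfl
  map_smul' _ _ := rfl

@[simp] theorem co_sum {ι : Type*} (s : Finset ι) (f : ι → Sq A) (S : Finset A) :
    (∑ i ∈ s, f i).co S = ∑ i ∈ s, (f i).co S := map_sum (coL S) f s

/-- the constant coefficient as a ring homomorphism -/
def c0 : Sq A →+* ℚ where
  toFun x := x.co ∅
  map_one' := by simp
  map_mul' x y := by simp
  map_zero' := rfl
  map_add' _ _ := rfl

@[simp] theorem c0_apply (x : Sq A) : c0 x = x.co ∅ := rfl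

/-- coefficientwise order -/
instance : LE (Sq A) := ⟨fun x y => ∀ S, x.co S ≤ y.co S⟩

omit [DecidableEq A] in
theorem le_def (x y : Sq A) : x ≤ y ↔ ∀ S, x.co S ≤ y.co S := Iff.rfl

/-! ### exp, inverse, degree derivations, log -/

/-- `exp x` for an element with constant coefficient 0 -/
def ex [Fintype A] (x : Sq A) : Sq A :=
  ∑ k ∈ range (Fintype.card A + 1), ((k.factorial : ℚ)⁻¹) • x ^ k

/-- inverse of an element with constant coefficient 1 -/
def iv [Fintype A] (x : Sq A) : Sq A :=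
  ∑ k ∈ range (Fintype.card A + 1), (1 - x) ^ k

/-- degree derivation with respect to the variables in `Y` -/
def dg (Y : Finset A) (x : Sq A) : Sq A := ⟨fun S => ((S ∩ Y).card : ℚ) * x.co S⟩

/-- `log x` for an element with constant coefficient 1: the element `L` without constant
coefficient with `dg univ L = dg univ x / x`. -/
def lg [Fintype A] (x : Sq A) : Sq A :=
  ⟨fun S => ((S.card : ℚ))⁻¹ * (iv x * dg univ x).co S⟩

/-- the sum of the variables `s_a`, `a in P` -/
def va (P : Finset A) : Sq A := ⟨fun S => if ∃ a ∈ P, S = {a} then 1 else 0⟩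

/-- the monomial `r * prod_{a in S} s_a` -/
def mo (S : Finset A) (r : ℚ) : Sq A := ⟨fun T => if T = S then r else 0⟩

/-! ### charges -/

/-- charge of a set of arcs -/
def ch (c : A → ℤ) (S : Finset A) : ℤ := ∑ a ∈ S, c a

/-- part of positive charge -/
def pp (c : A → ℤ) (x : Sq A) : Sq A := ⟨fun S => if 0 < ch c S then x.co S else 0⟩
/-- part of negative charge -/
def nn (c : A → ℤ) (x : Sq A) : Sq A := ⟨fun S => if ch c S < 0 then x.co S else 0⟩
/-- part of charge zero -/
def zz (c : A → ℤ) (x : Sq A) : Sq A := ⟨fun S => if ch c S = 0 then x.co S else 0⟩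
/-- component of charge `k` -/
def cm (c : A → ℤ) (k : ℤ) (x : Sq A) : Sq A := ⟨fun S => if ch c S = k then x.co S else 0⟩

/-- the pairing `sum_{k >= 1} k x_k y_{-k}` -/
def pr (c : A → ℤ) (x y : Sq A) : Sq A :=
  ⟨fun S => if ch c S = 0 then
    ∑ T ∈ S.powerset, ((max (ch c T) 0 : ℤ) : ℚ) * x.co T * y.co (S \ T) else 0⟩

/-- the pairing `sum_{k >= 1} (k - 1) x_k y_{-k}` -/
def pq (c : A → ℤ) (x y : Sq A) : Sq A :=
  ⟨fun S => if ch c S = 0 then
    ∑ T ∈ S.powerset, ((max (ch c T - 1) 0 : ℤ) : ℚ) * x.co T * y.co (S \ T) else 0⟩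

/-! ### the scaling endomorphism `s_a -> s_a d` (`a in Y`), `s_a -> s_a` (`a` not in `Y`) -/

/-- `x -> sum_T x_T s^T d^{|T inter Y|}` -/
def sc (Y : Finset A) (d : Sq A) (x : Sq A) : Sq A :=
  ⟨fun S => ∑ T ∈ S.powerset, x.co T * (d ^ (T ∩ Y).card).co (S \ T)⟩

/-! ### the positive (hatted) Wiener-Hopf factors -/

/-- one step of the recursion `f = (T + f g)_{>0}`, `g = (T + f g)_{<0}` -/
def whs (c : A → ℤ) (T : Sq A) (p : Sq A × Sq A) : Sq A × Sq A :=
  (pp c (T + p.1 * p.2), nn c (T + p.1 * p.2))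

/-- the solution of the recursion -/
def wh [Fintype A] (c : A → ℤ) (T : Sq A) : Sq A × Sq A :=
  (whs c T)^[Fintype.card A + 1] (0, 0)

/-- `f^`: ascending factor of `T` -/
def fh [Fintype A] (c : A → ℤ) (T : Sq A) : Sq A := (wh c T).1
/-- `g^`: descending factor of `T` -/
def gh [Fintype A] (c : A → ℤ) (T : Sq A) : Sq A := (wh c T).2
/-- `F^ = 1/(1 - f^)` -/
def Fh [Fintype A] (c : A → ℤ) (T : Sq A) : Sq A := iv (1 - fh c T)
/-- `G^ = 1/(1 - g^)` -/
def Gh [Fintype A] (c : A → ℤ) (T : Sq A) : Sq A := iv (1 - gh c T)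
/-- `log F^ + log G^` -/
def lh [Fintype A] (c : A → ℤ) (T : Sq A) : Sq A := lg (Fh c T) + lg (Gh c T)
/-- `J^ = E^/S^`, `E^ = exp sum_k k l_k l_{-k}`, `S^ = (F^ G^)_0` -/
def Jh [Fintype A] (c : A → ℤ) (T : Sq A) : Sq A :=
  ex (pr c (lh c T) (lh c T)) * iv (zz c (Fh c T * Gh c T))

end Sq

end Pool.MP_ef6aaf_al.EF
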