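import Pool.Agent.Lib.MP_ef6aaf_al.EF.QCalc
import Pool.Agent.Lib.MP_ef6aaf_al.EF.Block
import Pool.Agent.Lib.MP_ef6aaf_al.EF.StmH

/-!
# MP_ef6aaf_al, positivity side of the F_2 theorem: statements of the pieces (helper41)

REQUESTS: take one piece `X`, prove it in `EF/P/X.lean` as `theorem X : XS` (hypotheses of the form `(hk : KjS)` are allowed
where indicated).  Everything is about the squarefree algebra `Sq A = Q[s_a]/(s_a^2)` of `EF/QDefs.lean` (calculus:
`EF/QCalc.lean`).  Each piece `X` is a `def XS : Prop`; please prove `theorem X : XS` in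
`EF/P/X.lean` (namespace `Pool.MP_ef6aaf_al.EF`).  If a statement is inconvenient or wrong:
message helper41 at once.
-/

set_option autoImplicit false

namespace Pool.MP_ef6aaf_al.EF

open Finset Sq

/-! ## BLK: the block lemma

DONE by helper2: `Pool.Agent.EF.block_Icc` in `EF/Block.lean`, with `Pool.Agent.EF.kill C o` = the matrix `C` with row
and column `o` replaced by 0. -/

/-! ## KJ: J = E/S is an exponential of a nonnegative element -/

/-- companion matrix of `1 - f`: state = remaining length; from `i+1` to `i` with weight 1, from `0` to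
`j` with weight `f_{j+1}` (component of charge `j+1`). -/
def cmp {A : Type} [DecidableEq A] (c : A → ℤ) (K : ℕ) (f : Sq A) : Matrix (Fin K) (Fin K) (Sq A) :=
  fun i j => if (i : ℕ) = 0 then cm c ((j : ℕ) + 1) f else if (j : ℕ) + 1 = i then 1 else 0

/-- PIECE `cpn` (companion matrix; uses `Pool.Agent.EF.block_Icc`).  `f` has only positive charges, `K` is larger than
all charges; `F = 1/(1-f)`, `F_m` = component of charge m.  Then for all m:
(1) `(C^m)_{00} = F_m`;  (2) for m >= 1: `Tr C^m = m (log F)_m`.
PROOF.  (1): `C^{m+1}` row 0: `(C^{m+1})_{00} = sum_j f_{j+1} (C^m)_{j0}` and `(C^m)_{j0} = (C^{m-j})_{00}` for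
j <= m, `= 0` for j > m (the state j decreases by one in each step); so `h_m = (C^m)_{00}` satisfies
`h_m = sum_{i=1}^m f_i h_{m-i}`, `h_0 = 1`, and `F = 1 + f F` gives the same recursion for `F_m` (products
of components: charge k component of xy = sum over charges; f has no components of charge <= 0 or > K).
(2): the matrix `kill C 0` is strictly lower triangular, its powers have trace 0 (m >= 1), so `block_Icc` gives
`m h_m = sum_{j=1}^m Tr(C^j) h_{m-j}`.  On the other side the charge derivation `x -> (ch S x_S)_S` is a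
derivation of `Sq A`, so `kap F = F kap(log F)`, i.e. `m F_m = sum_{j=1}^m (j (log F)_j) F_{m-j}`; as
`F_0 = 1` (charge 0 component of F is 1) the two recursions give `Tr C^j = j (log F)_j` by induction. -/
def CpnS : Prop :=
  ∀ (A : Type) [DecidableEq A] [Fintype A] (c : A → ℤ) (f : Sq A) (K : ℕ), f = pp c f →
    (∀ S : Finset A, ch c S < K) → 0 < K →
    ∀ h0 : Fin K, (h0 : ℕ) = 0 → ∀ m : ℕ,
      ((cmp c K f) ^ m) h0 h0 = cm c m (iv (1 - f)) ∧
      (1 ≤ m → ((cmp c K f) ^ m).trace = (m : ℚ) • cm c m (lg (iv (1 - f))))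

/-- PIECE `kj` (uses `Pool.Agent.EF.block_Icc`; may take `CpnS` as a hypothesis: `theorem kj (hc : CpnS) : KjS`).  `f >= 0` has only positive charges, `g >= 0` only negative
charges, `F = 1/(1-f)`, `G = 1/(1-g)`, `l = log F + log G`.  Then
`exp(sum_k k l_k l_{-k}) / (F G)_0 = exp W` with `W >= 0`, and `W >= sum_k (k-1) f_k g_{-k}`.
PROOF.  Let K be larger than all |charges| and `C = cmp c K f (x) cmp (-c) K g` (Kronecker product, entries
>= 0), `o = (0,0)`, `W = sum_{j>=1} (1/j) Tr((kill C o)^j)`.  The entries of `kill C o` are >= 0, its power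
number j vanishes for large j: every entry of `(cmp f)^(K i)` lies in the i-th power of the maximal ideal
(each K steps at least one factor f_.); so W is a finite sum (e.g. j up to `K (card A + 1)`), W >= 0.
`Tr C^j = Tr(C_f^j) Tr(C_g^j) = j^2 l_j l_{-j}`, `(C^j)_oo = F_j G_{-j}`.  Put, in polynomials
`Sq A [q]` (or power series in q): `S(q) = sum q^j F_j G_{-j}`, `E(q) = exp(sum_j j q^j l_j l_{-j})`,
`W(q) = sum_j q^j Tr((kill C o)^j)/j`.  BLK says `q S' = (sum_j q^j (j^2 l_j l_{-j} - Tr (kill C o)^j)) S`, so
`S(q) exp(W(q)) E(q)^{-1}` has derivative 0 and value 1 at q = 0; take q = 1.  (If you prefer to avoid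
polynomials: `(Sq A)` with one more grading; or use: for a sequence `(x_m)` with `m x_m = sum_{j=1}^m y_j
x_{m-j}`, `x_0 = 1`, finitely supported with y finitely supported: `sum x_m = exp(sum y_j/j)`; this is a clean
general lemma about commutative Q-algebras with nilpotent y_j.)
LOWER BOUND: for a <> b in {0..j-1} the closed walk of length j of C starting in the state (a,b) with exactly one
renewal in each coordinate: it visits (0,0) never (the renewal times are different), its weight is
`f_j g_{-j}`.  So `Tr (kill C o)^j >= j (j-1) f_j g_{-j}` (sum over the starting states (a,b), a <> b), and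
`sum_j (1/j) j (j-1) f_j g_{-j} = pq c f g`. -/
def KjS : Prop :=
  ∀ (A : Type) [DecidableEq A] [Fintype A] (c : A → ℤ) (f g : Sq A), 0 ≤ f → 0 ≤ g →
    f = pp c f → g = nn c g →
    ∃ W : Sq A, 0 ≤ W ∧ W.co ∅ = 0 ∧
      ex (pr c (lg (iv (1 - f)) + lg (iv (1 - g))) (lg (iv (1 - f)) + lg (iv (1 - g)))) *
        iv (zz c (iv (1 - f) * iv (1 - g))) = ex W ∧
      pq c f g ≤ W

/-! ## HAT: the recursion -/

/-- PIECE `hat`.  `T` without constant term.
(1) `f^, g^` solve the recursion; (2) uniqueness; (3) `T >= 0 => f^, g^ >= 0`; (4) monotonicity.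
PROOF.  If two pairs `p, p'` (without constant terms) agree in all coefficients of degree < k then
`whs p` and `whs p'` agree in all coefficients of degree <= k (a product of two elements without constant
term in degree k only uses degrees < k).  So the iteration is stationary after `card A + 1` steps, and the
solution is unique. -/
def HatS : Prop :=
  ∀ (A : Type) [DecidableEq A] [Fintype A] (c : A → ℤ) (T : Sq A), T.co ∅ = 0 →
    (fh c T = pp c (T + fh c T * gh c T) ∧ gh c T = nn c (T + fh c T * gh c T)) ∧
    (∀ f g : Sq A, f = pp c (T + f * g) → g = nn c (T + f * g) → f = fh c T ∧ g = gh c T) ∧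
    (0 ≤ T → 0 ≤ fh c T ∧ 0 ≤ gh c T) ∧
    (∀ T' : Sq A, T'.co ∅ = 0 → 0 ≤ T → T ≤ T' → fh c T ≤ fh c T' ∧ gh c T ≤ gh c T')

/-! ## FP: strict positivity at one vertex -/

/-- PIECE `fp` (`theorem fp (hh : HatS) (hk : KjS) : FpS`).  Let `T >= 0` and let `B i` be disjoint sets with `T_{B i} > 0`,
charges `m_i = ch (B i) <> 0`, `sum m_i = 0`, and `#i <= sum of the positive m_i`.  Then the coefficient of
`J^(T)` at the union of the `B i` is > 0.
PROOF.  Call a set S f-good if `ch S > 0` and `f^_S > 0`, g-good if `ch S < 0` and `g^_S > 0`, J-good if `J^_S > 0`.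
 (a) `T_S > 0`, ch S > 0 (< 0) => f-good (g-good): `f^ = pp (T + f^ g^) >= pp T`.
 (b) S f-good, S' g-good, disjoint, ch(S u S') > 0 (< 0) => S u S' is f-good (g-good).
 (c) S f-good, S' g-good, disjoint, ch S = m = - ch S', m >= 2 => S u S' is J-good (`J^ = exp W`, `W >= pq f^ g^`).
 (d) S, S' J-good and disjoint => S u S' J-good (`exp W = exp(W/2)^2`, and `exp(W/2)_S > 0 <=> exp(W)_S > 0`).
 Claim by induction on the number n >= 1 of blocks: a family of disjoint blocks, each f-good or g-good, with sum of
 charges 0 and e := (sum of the positive charges) - n >= 0, has a J-good union.  Let mu = min |m_i|.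
 - mu = 1, say m_i = 1 (the case -1 is symmetric): some m_j <= -2 (otherwise all negative charges are -1, their number is
   the positive sum P, and n >= P + 1).  Merge i and j (b): n-1 blocks, P-1, e unchanged, new charge m_j + 1 < 0.
 - mu >= 2: P >= mu * #pos, P >= mu * #neg, so e >= P (1 - 2/mu), P >= mu, so e >= mu - 2.  Let |m_i| = mu.  If there is j with
   m_j = -m_i: take the pair away (c); the rest has n-2 blocks, P - mu, e' = e - (mu - 2) >= 0; if the rest is empty we are
   done, otherwise induction and (d).  If not, all charges of the sign opposite to m_i have absolute value >= mu + 1: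
   e >= P (1 - 1/mu - 1/(mu+1)) with P >= mu + 1, so e >= mu - 1 - 1/mu > mu - 2, i.e. e >= mu - 1.  Merge i with any such j:
   n-1, P - mu, e' = e - (mu - 1) >= 0. -/
def FpS : Prop :=
  ∀ (A : Type) [DecidableEq A] [Fintype A] (c : A → ℤ) (T : Sq A), T.co ∅ = 0 → 0 ≤ T →
    ∀ (ι : Type) [DecidableEq ι] [Fintype ι] [Nonempty ι] (B : ι → Finset A),
      (∀ i j, i ≠ j → Disjoint (B i) (B j)) → (∀ i, 0 < T.co (B i)) → (∀ i, ch c (B i) ≠ 0) →
      (∑ i, ch c (B i) = 0) → ((Fintype.card ι : ℤ) ≤ ∑ i, max (ch c (B i)) 0) →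
      0 < (Jh c T).co (univ.biUnion B)

/-! ## EXP: from permutations to the exponential -/

/-- arcs of given types: tail type `x`, head type `y` -/
def ty {A : Type} [Fintype A] (t h : A → Bool) (x y : Bool) : Finset A :=
  univ.filter (fun a => t a = x ∧ h a = y)

/-- `L = - log((1-u)(1-v) - alpha beta)` -/
noncomputable def LL {A : Type} [DecidableEq A] [Fintype A] (t h : A → Bool) : Sq A :=
  - lg ((1 - va (ty t h true true)) * (1 - va (ty t h false false)) -
    va (ty t h false true) * va (ty t h true false))

/-- `exp` (split below into `exa`, `exb`, `exc`; `ds`, `csum`, `Orb` are helper28's definitions in `EF/StmH.lean`).  `sum_theta ds_n(theta) = [full] exp(n L_0 + sum_{k>=1} k L_k L_{-k})`.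
PROOF.  (i) Let `N(S)` = number of permutations of S that are ONE cycle on S and compatible (`t (theta a) = h a`),
`G(S)` = number of all compatible permutations of S.  Marking an element and taking off its orbit:
`#S G(S) = sum_{T <= S, T <> {}} #T N(T) G(S\T)`, i.e. `dg G = dg N * G` in `Sq A`, so `G = exp N`, `N = log G`.
(ii) `G(S) = p! q!` if S has p tails and p heads of type true, q tails and q heads of type false, else 0, and
`G * ((1-u)(1-v) - alpha beta) = 1`: `(1 - u)^{-1}` has coefficients `#S!` on sets of u-arcs,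
`((1-u)(1-v) - alpha beta)^{-1} = sum_k (alpha beta)^k (1-u)^{-k-1} (1-v)^{-k-1}`; coefficient at a set with i u-arcs, j
v-arcs, k alpha- and k beta-arcs: `k! k! * (i+k)!/k! * (j+k)!/k!`.  Hence `N = LL t h`.
(iii) Let `Y(S)` = sum over compatible permutations of S of ds_n(orbit sums).  Mark an element a, its orbit `T1`; by the
expansion of the number of matchings at the member T1 of the family:
`#S Y(S) = sum_{T1, ch T1 = 0} #T1 N(T1) n Y(S\T1) + sum_{T1, T2 disjoint, ch T2 = - ch T1 <> 0} #T1 |ch T1| N(T1) N(T2)
Y(S\T1\T2)`, and the right side is `dg (n N_0 + sum_{k>=1} k N_k N_{-k}) * Y`.  So `Y = exp(n N_0 + pr N N)`. -/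
def ExpS : Prop :=
  ∀ (A : Type) [DecidableEq A] [Fintype A] (t h : A → Bool) (c : A → ℤ) (n : ℚ),
    (∑ θ : Equiv.Perm A, (if ∀ a, t (θ a) = h a then
      Pool.Agent.EF.ds n (Pool.Agent.EF.csum θ c) else 0)) =
    (ex (n • zz c (LL t h) + pr c (LL t h) (LL t h))).co univ

/-! ### EXP in three parts: `exp` follows from `exa`, `exb`, `exc` (helper41 does this step) -/

/-- the compatible permutations of `S` (identity outside `S`) -/
noncomputable def cps {A : Type} [DecidableEq A] [Fintype A] (t h : A → Bool) (S : Finset A) :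
    Finset (Equiv.Perm A) := by
  classical
  exact univ.filter (fun θ => (∀ a, a ∉ S → θ a = a) ∧ ∀ a ∈ S, t (θ a) = h a)

/-- those of them which are one cycle on the nonempty set `S` -/
noncomputable def cys {A : Type} [DecidableEq A] [Fintype A] (t h : A → Bool) (S : Finset A) :
    Finset (Equiv.Perm A) := by
  classical
  exact (cps t h S).filter (fun θ => S.Nonempty ∧ ∀ a ∈ S, ∀ b ∈ S, θ.SameCycle a b)

/-- number of compatible permutations -/
noncomputable def GG {A : Type} [DecidableEq A] [Fintype A] (t h : A → Bool) : Sq A :=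
  ⟨fun S => ((cps t h S).card : ℚ)⟩

/-- number of compatible cycles -/
noncomputable def NN {A : Type} [DecidableEq A] [Fintype A] (t h : A → Bool) : Sq A :=
  ⟨fun S => ((cys t h S).card : ℚ)⟩

/-- PIECE `exa`.  Exponential formula: `G = exp N`.
PROOF.  Count pairs (a, theta), a in S, theta in `cps S`: by the orbit T of a,
`#S G(S) = sum_{T <= S} #T N(T) G(S\T)` (theta = (part on T) * (part on S\T): a bijection of {theta in cps S, orbit of a = T} with
`cys T x cps (S\T)`), i.e. `dg univ G = dg univ N * G`, so `G * ex (-N)` has `dg univ = 0` and constant term 1, hence is 1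
(`eq_one_of_dg_eq_zero`, `dg_ex`, `dg_mul` in QCalc). -/
def ExaS : Prop :=
  ∀ (A : Type) [DecidableEq A] [Fintype A] (t h : A → Bool), GG t h = ex (NN t h)

/-- PIECE `exb`.  The number of compatible permutations of S is `p! q!` if S has p tails (`t a = true`) and p heads (`h a = true`) of
type true and q tails and q heads of type false, otherwise 0; and `G * ((1-u)(1-v) - alpha beta) = 1`.
PROOF of the second part.  Either by the formula: `(1 - u)^{-1}` has coefficients `#S!` on sets of u-arcs,
`((1-u)(1-v) - alpha beta)^{-1} = sum_k (alpha beta)^k (1-u)^{-k-1} (1-v)^{-k-1}`; coefficient at a set with i u-arcs, j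
v-arcs, k alpha- and k beta-arcs: `k! k! * (i+k)!/k! * (j+k)!/k!`.  Or directly: for S nonempty show
`G(S) - sum_{a in S u-arc} G(S\a) - sum_{v-arc} G(S\a) + sum_{a u-arc, b v-arc} G(S\{a,b}) - sum_{a alpha, b beta} G(S\{a,b}) = 0`:
with S balanced, i u-arcs, j v-arcs, k alpha's, k beta's, G(S) = (i+k)!(j+k)!, for i+k, j+k >= 1 divide by (i+k-1)!(j+k-1)!:
`(i+k)(j+k) - i (j+k) - j (i+k) + i j - k k = 0`; the cases i+k = 0 or j+k = 0 are similar. -/
def ExbS : Prop :=
  ∀ (A : Type) [DecidableEq A] [Fintype A] (t h : A → Bool),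
    GG t h * ((1 - va (ty t h true true)) * (1 - va (ty t h false false)) -
      va (ty t h false true) * va (ty t h true false)) = 1

/-- PIECE `exc`.  `Y(S) = sum over theta in cps S of ds_n(orbit sums of the orbits in S)`; then `Y = exp(n N_0 + sum_k k N_k N_{-k})`
(only `S = univ` is asked).
PROOF.  (DSREC) For a finite family of integers and a member g0: if c(g0) = 0, `ds n c = n * ds n (c without g0)`; if c(g0) <> 0,
`ds n c = sum over g1 with c(g1) = - c(g0) of |c(g0)| * ds n (c without g0, g1)` (expand the number of matchings at g0).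
Mark an element a of S; T1 = its orbit, (if ch T1 <> 0) T2 = the orbit matched with T1:
`#S Y(S) = sum_{T1 <= S, ch T1 = 0} #T1 N(T1) n Y(S\T1) + sum_{T1, T2 disjoint, ch T2 = - ch T1 <> 0} #T1 |ch T1| N(T1) N(T2)
Y(S\T1\T2)`; the right side is `(dg univ (n N_0 + pr N N) * Y)(S)` (`pr N N` = sum over ordered pairs T1, T2, ch T1 = k > 0, of
`k N(T1) N(T2)`; the terms with a in the positive and in the negative member together give `#T1 + #T2`).  So
`Y = exp(n N_0 + pr N N)` as in `exa`.  (It may be convenient to define Y(S) as a sum over `Equiv.Perm {a // a in S}` or over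
partitions of S.) -/
def ExcS : Prop :=
  ∀ (A : Type) [DecidableEq A] [Fintype A] (t h : A → Bool) (c : A → ℤ) (n : ℚ),
    (∑ θ : Equiv.Perm A, (if ∀ a, t (θ a) = h a then
      Pool.Agent.EF.ds n (Pool.Agent.EF.csum θ c) else 0)) =
    (ex (n • zz c (NN t h) + pr c (NN t h) (NN t h))).co univ

/-- `exp` from its parts -/
theorem exp_of (ha : ExaS) (hb : ExbS) (hc : ExcS) : ExpS := by
  intro A _ _ t h c n
  rw [hc A t h c n]
  have h0 : (NN t h).co ∅ = 0 := by
    have : cys t h (∅ : Finset A) = ∅ := by
      classical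
      unfold cys
      simp
    show ((cys t h (∅ : Finset A)).card : ℚ) = 0
    rw [this]; simp
  have h1 : NN t h = LL t h := by
    have e1 := ha A t h
    have e2 := hb A t h
    rw [e1] at e2
    set D := (1 - va (ty t h true true)) * (1 - va (ty t h false false)) -
      va (ty t h false true) * va (ty t h true false) with hD
    have hv : ∀ P : Finset A, (va P).co ∅ = 0 := by
      intro P
      simp [va]
    have hD0 : D.co ∅ = 1 := by
      rw [hD]; simp [hv]
    have e3 : iv D = ex (NN t h) := by
      have := eq_iv_of_mul_eq_one e2 (ex_co_empty h0)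
      rw [this, iv_iv (ex_co_empty h0)]
    have e4 : lg (iv D) = NN t h := by rw [e3, lg_ex h0]
    rw [← e4, lg_iv hD0]
    rfl
  rw [h1]

/-! ## Two vertices: statement of the main formula (helper41 proves V1, V2) -/

/-- `T^ = u + alpha beta F^(v) G^(v)` -/
noncomputable def Tht {A : Type} [DecidableEq A] [Fintype A] (c : A → ℤ) (U V P Q : Finset A) : Sq A :=
  va U + va P * va Q * (Fh c (va V) * Gh c (va V))

/-- the positive two vertex element -/
noncomputable def XX {A : Type} [DecidableEq A] [Fintype A] (c : A → ℤ) (U V P Q : Finset A) : Sq A :=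
  Jh c (va V) * Jh c (Tht c U V P Q) *
    ex (pr c (lh c (va V)) (lh c (Tht c U V P Q)) + pr c (lh c (Tht c U V P Q)) (lh c (va V)))

/-- V1 (helper41): one vertex. -/
def V1S : Prop :=
  ∀ (A : Type) [DecidableEq A] [Fintype A] [Nonempty A] (c : A → ℤ),
    (ex ((1 - (Fintype.card A : ℚ)) • zz c (- lg (1 - va (univ : Finset A))) +
      pr c (- lg (1 - va (univ : Finset A))) (- lg (1 - va (univ : Finset A))))).co univ =
    (Jh c (va (univ : Finset A))).co univ

/-- V2 (helper41): two vertices. -/
def V2S : Prop :=
  ∀ (A : Type) [DecidableEq A] [Fintype A] (t h : A → Bool) (c : A → ℤ) (M : ℕ), 1 ≤ M →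
    (univ.filter (fun a => h a = true)).card = M → (univ.filter (fun a => t a = false)).card = M →
    (ex ((1 - (M : ℚ)) • zz c (LL t h) + pr c (LL t h) (LL t h))).co univ =
    (XX c (ty t h true true) (ty t h false false) (ty t h false true) (ty t h true false)).co univ

/-! ## Strict positivity for the word data

Index set `I` (= positions of the word, `card I = l_y`), kind `kd i` = 0 (u-loop), 1 (v-loop), 2 (cross); arcs
`I x Bool x Fin k`, charge `+- e i`.  Types: kind 0: all u; kind 1: all v; kind 2: `true` = alpha, `false` = beta. -/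

/-- charge of an arc -/
def cc {I : Type} (e : I → ℤ) (k : ℕ) : I × Bool × Fin k → ℤ := fun a => if a.2.1 then e a.1 else - e a.1

/-- the u-loops -/
def aU {I : Type} [Fintype I] [DecidableEq I] (kd : I → Fin 3) (k : ℕ) : Finset (I × Bool × Fin k) :=
  univ.filter (fun a => kd a.1 = 0)
/-- the v-loops -/
def aV {I : Type} [Fintype I] [DecidableEq I] (kd : I → Fin 3) (k : ℕ) : Finset (I × Bool × Fin k) :=
  univ.filter (fun a => kd a.1 = 1)
/-- the alpha arcs -/
def aP {I : Type} [Fintype I] [DecidableEq I] (kd : I → Fin 3) (k : ℕ) : Finset (I × Bool × Fin k) :=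
  univ.filter (fun a => kd a.1 = 2 ∧ a.2.1 = true)
/-- the beta arcs -/
def aQ {I : Type} [Fintype I] [DecidableEq I] (kd : I → Fin 3) (k : ℕ) : Finset (I × Bool × Fin k) :=
  univ.filter (fun a => kd a.1 = 2 ∧ a.2.1 = false)

/-- PIECE `a1m` (pure combinatorics).  `e : J -> Z` (J finite) with `2 #{e > 0} <= #J`, `2 #{e < 0} <= #J` (0 is a median).
Then there is a permutation pi of `J x Fin 2` such that `e x` and `e (pi x)` never have the same strict sign and the number of
x with `e x = e (pi x) = 0` is at most `2 (2 #{e = 0} - #J)` (integers, or 0 if this is negative).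
PROOF: sort the 2 #J values (all e's doubled) increasingly, x_0 <= ... <= x_{2n-1}, n = #J; pi = shift by n.  The negatives are
among the first n, the positives among the last n, so x_i <= 0 <= x_{i+n}.  Zeros are at the places 2#neg..2n-2#pos-1; i and i+n both
zero (i < n) means 2#neg <= i and i + n < 2n - 2#pos: at most n - 2#pos - 2#neg values of i; and as many for the shift back. -/
def A1mS : Prop :=
  ∀ (J : Type) [DecidableEq J] [Fintype J] (e : J → ℤ),
    2 * (univ.filter (fun j => 0 < e j)).card ≤ Fintype.card J →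
    2 * (univ.filter (fun j => e j < 0)).card ≤ Fintype.card J →
    ∃ π : Equiv.Perm (J × Fin 2),
      (∀ x, ¬ (0 < e x.1 ∧ 0 < e (π x).1) ∧ ¬ (e x.1 < 0 ∧ e (π x).1 < 0)) ∧
      (((univ.filter (fun x : J × Fin 2 => e x.1 = 0 ∧ e (π x).1 = 0)).card : ℤ) ≤
        max 0 (2 * (2 * ((univ.filter (fun j => e j = 0)).card : ℤ) - Fintype.card J)))

/-- PIECE `a1i` (pure combinatorics).  Passes X (at least 2) with values q, sum 0; loops V with nonzero values b, m positive and m
negative ones, and #{q = 0} <= 2m (if V is empty there is nothing to insert and no pass has value 0).  Then the loops can be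
distributed over the passes such that every pass gets total value <> 0 and no absolute value is lost:
sum |q x + sum of the loops in x| = sum |q x| + sum |b v|.
PROOF: divide Z0 = {q = 0} into Z+ and Z- with sizes differing by at most one, each of size <= m, both nonempty if #Z0 >= 2.
P+ = {q > 0} u Z+, P- = {q < 0} u Z-.  P+ and P- are nonempty: if #Z0 >= 2 clear; if #Z0 <= 1 there is a pass with q <> 0 (at least two
passes) and the sum is 0, so both signs occur.  Map the positive loops to P+ such that every element of Z+ is hit (#Z+ <= m), the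
negative loops to P- hitting Z-. -/
def A1iS : Prop :=
  ∀ (X V : Type) [DecidableEq X] [Fintype X] [DecidableEq V] [Fintype V] (q : X → ℤ) (b : V → ℤ) (m : ℕ),
    2 ≤ Fintype.card X → ∑ x, q x = 0 → (∀ v, b v ≠ 0) →
    (univ.filter (fun v => 0 < b v)).card = m → (univ.filter (fun v => b v < 0)).card = m →
    (univ.filter (fun x => q x = 0)).card ≤ 2 * m →
    ∃ ins : V → X,
      (∀ x, q x + ∑ v ∈ univ.filter (fun v => ins v = x), b v ≠ 0) ∧
      ∑ x, |q x + ∑ v ∈ univ.filter (fun v => ins v = x), b v| = ∑ x, |q x| + ∑ v, |b v|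

/-- PIECE `a1` (`theorem a1 (h1 : A1mS) (h2 : A1iS) (h3 : FpS) (hh : HatS) (hk : KjS) : A1S`).  There is at least one cross index: k = 2 works.
PROOF.  `XX >= Jh (Tht)` coefficientwise (Jh (va V) >= 1, the exponential is >= 1, all factors are >= 0: `Jh = exp W`, W >= 0 by `KjS`,
`HatS`; `lh >= 0` because `log F = log 1/(1-f) >= 0` for f >= 0).  `Tht` is positive at every {a}, a in U, and at every
`{p, q} u V'`, p in P, q in Q, V' subset of V: `F^(v) >= 1/(1 - v_+)`, `G^(v) >= 1/(1 - v_-)`, so `(F^ G^)_{V'} >= #V'_+! #V'_-! > 0`.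
Blocks: the single u-loops, and for every x in J x Fin 2 (J = cross indices) the pass `{alpha arc x, beta arc pi x} u ins^{-1}(x)` with pi from
A1m (for e on J; the median hypothesis) and ins from A1i (X = J x Fin 2, q x = e x - e (pi x), V = the v-loops, m = 2 #{kd = 1}; number of
zero passes <= max 0 (2 (2z - #J)) <= 2m because 2z < card I = #J + m).  Number of blocks: 2 #{kd = 0} * 2 + 2 #J = 2 card I.
Sum of the positive charges = half of the sum of the absolute values (total 0) = 1/2 (4 sum_{kd=0}|e| + sum_x (|e x| + |e (pi x)|) + 4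
sum_{kd=1} |e|) = 2 sum |e i| >= 2 card I.  Then `FpS`. -/
def A1S : Prop :=
  ∀ (I : Type) [DecidableEq I] [Fintype I] (kd : I → Fin 3) (e : I → ℤ),
    (∀ i, kd i ≠ 2 → e i ≠ 0) →
    (univ.filter (fun i => kd i = 0)).card = (univ.filter (fun i => kd i = 1)).card →
    2 * (univ.filter (fun i => kd i = 2 ∧ 0 < e i)).card ≤ (univ.filter (fun i => kd i = 2)).card →
    2 * (univ.filter (fun i => kd i = 2 ∧ e i < 0)).card ≤ (univ.filter (fun i => kd i = 2)).card →
    2 * (univ.filter (fun i => kd i = 2 ∧ e i = 0)).card < Fintype.card I →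
    ((Fintype.card I : ℤ) ≤ ∑ i, |e i|) →
    (∃ i, kd i = 2) →
    0 < (XX (cc e 2) (aU kd 2) (aV kd 2) (aP kd 2) (aQ kd 2)).co univ

/-- PIECE `a0` (`theorem a0 (hh : HatS) (hk : KjS) : A0S`).  No cross arcs: some k >= 1 works (k = a common multiple of the |e i|).
PROOF.  P = {} so `Tht = va U`.  All factors of XX are exponentials of nonnegative elements, XX = exp Xi, so the sets S with
`XX_S > 0` are closed under disjoint unions (`exp Xi = exp(Xi/2)^2`).  Positive sets:
 (i) {a, a'} in U (or both in V), charges m, -m, m >= 2: from `J >= 1 + pq f^ g^`, f^_{a} >= 1, g^_{a'} >= 1, coefficient m - 1;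
 (ii) R u {y}, R = b >= 1 elements of U of charge 1, y in V of charge -b: `pr (lh u) (lh v)` at S >= b * (lh u)_R * (lh v)_y, and
 `(lh u)_R >= (log 1/(1 - u_1))_R = (b-1)!` (u_1 = sum of these arcs), `(lh v)_y >= 1`; (iii) the same with charges -1 and +b (`pr (lh v) (lh u)`);
 (iv) the same with U and V exchanged.
 Partition of all arcs: let u1 = {i : kd i = 0, |e i| = 1}, v1 = {i : kd i = 1, |e i| = 1}; by symmetry (treat both cases) #u1 >= #v1.  As
 #u1 <= #{kd = 0} = #{kd = 1} there is an injection Theta : u1 -> {kd = 1} whose image contains v1.  For i in u1, b = |e (Theta i)|: the k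
 arcs of charge +1 at i are cut into k/b groups of size b, each together with one arc of charge -b of the index Theta i (k/b of the k copies);
 the same with the opposite signs.  The remaining k - k/b copies of the pair {b,-b} at Theta i (none if b = 1): type (i).  All other indices (kd
 = 0 and |e| >= 2; kd = 1, not in the image, hence |e| >= 2): pairs of type (i), copy by copy. -/
def A0S : Prop :=
  ∀ (I : Type) [DecidableEq I] [Fintype I] (kd : I → Fin 3) (e : I → ℤ),
    (∀ i, kd i ≠ 2) → (∀ i, e i ≠ 0) →
    (univ.filter (fun i => kd i = 0)).card = (univ.filter (fun i => kd i = 1)).card →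
    ∃ k : ℕ, 1 ≤ k ∧ 0 < (XX (cc e k) (aU kd k) (aV kd k) (aP kd k) (aQ kd k)).co univ

end Pool.MP_ef6aaf_al.EF
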