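import Pool.Agent.Lib.MP_ef6aaf_al.EF.QCharge
import Pool.Agent.Lib.MP_ef6aaf_al.EF.QStm

/-!
Lagrange inversion in scaling form, the step lemma, and the formulas V1, V2.
-/

set_option autoImplicit false
set_option linter.unusedSectionVars false

namespace Pool.MP_ef6aaf_al.EF

open Finset

namespace Sq

variable {A : Type} [DecidableEq A] [Fintype A]

/-- Lagrange inversion, scaling form. -/
theorem lagrange (Y : Finset A) {D : Sq A} (hD : D.co ∅ = 1) (X : Sq A) :
    (sc Y (iv D) X * (D ^ Y.card * (1 - dg Y (lg D)))).co univ = X.co univ := by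
  induction X using ind with
  | h0 => simp
  | ha x y hx hy => rw [sc_add, add_mul, co_add, co_add, hx, hy]
  | hm T r =>
    rw [sc_mo]
    have hc : Y.card = (T ∩ Y).card + (Tᶜ ∩ Y).card := by
      rw [Finset.compl_eq_univ_sdiff, card_inter_split Y (Finset.subset_univ T),
        Finset.univ_inter]
    have e1 : mo T r * iv D ^ (T ∩ Y).card * (D ^ Y.card * (1 - dg Y (lg D)))
        = mo T r * (D ^ (Tᶜ ∩ Y).card * (1 - dg Y (lg D))) := by
      rw [hc, pow_add]
      have : mo T r * iv D ^ (T ∩ Y).card * (D ^ (T ∩ Y).card * D ^ (Tᶜ ∩ Y).card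
          * (1 - dg Y (lg D))) = mo T r * ((iv D * D) ^ (T ∩ Y).card * (D ^ (Tᶜ ∩ Y).card *
          (1 - dg Y (lg D)))) := by rw [mul_pow]; ring
      rw [this, iv_mul hD, one_pow, one_mul]
    rw [e1, mo_mul_co, if_pos (Finset.subset_univ T), ← Finset.compl_eq_univ_sdiff, mo_co]
    have e2 : D ^ (Tᶜ ∩ Y).card * (1 - dg Y (lg D)) = D ^ (Tᶜ ∩ Y).card
        - D ^ (Tᶜ ∩ Y).card * (iv D * dg Y D) := by rw [dg_lg Y hD]; ring
    rcases Nat.eq_zero_or_pos (Tᶜ ∩ Y).card with h | h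
    · rw [h, pow_zero, one_mul, co_sub]
      have e3 : (dg Y (lg D)).co Tᶜ = 0 := by
        show (((Tᶜ ∩ Y).card : ℕ) : ℚ) * _ = 0
        rw [h]; simp
      rw [e3, sub_zero, co_one]
      by_cases h2 : T = univ
      · subst h2; simp
      · have : Tᶜ ≠ ∅ := by
          intro h3; apply h2
          exact Finset.compl_eq_empty_iff T |>.1 h3
        rw [if_neg this, if_neg (fun h4 => h2 h4.symm), mul_zero]
    · obtain ⟨m, hm⟩ := Nat.exists_eq_succ_of_ne_zero h.ne'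
      have hT : T ≠ univ := by
        rintro rfl
        simp at h
      rw [if_neg (fun h4 => hT h4.symm), e2]
      have e4 : D ^ (Tᶜ ∩ Y).card * (iv D * dg Y D) = D ^ m * dg Y D := by
        rw [hm, pow_succ]
        have : D ^ m * D * (iv D * dg Y D) = D ^ m * dg Y D * (D * iv D) := by ring
        rw [this, mul_iv hD, mul_one]
      have e5 : dg Y (D ^ (m + 1)) = ((m + 1 : ℕ) : ℚ) • (D ^ m * dg Y D) := by
        rw [dg_pow]; push_cast; rfl
      have e6 := congrArg (fun z => co z Tᶜ) e5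
      simp only [co_smul] at e6
      have e7 : (dg Y (D ^ (m + 1))).co Tᶜ = ((m + 1 : ℕ) : ℚ) * (D ^ (m + 1)).co Tᶜ := by
        show (((Tᶜ ∩ Y).card : ℕ) : ℚ) * _ = _
        rw [hm]
      rw [e7] at e6
      have e8 : (((m + 1 : ℕ) : ℚ)) ≠ 0 := by positivity
      have e9 := mul_left_cancel₀ e8 e6
      rw [e4, hm, co_sub, e9, sub_self, mul_zero]

/-! ### one step -/

/-- `L = - log (1 - T)` -/
def LT (T : Sq A) : Sq A := - lg (1 - T)
/-- `D = exp(- L_0)` -/
def DT (c : A → ℤ) (T : Sq A) : Sq A := ex (-(zz c (LT T)))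
/-- `F = exp L_+` -/
def FT (c : A → ℤ) (T : Sq A) : Sq A := ex (pp c (LT T))
/-- `G = exp L_-` -/
def GT (c : A → ℤ) (T : Sq A) : Sq A := ex (nn c (LT T))

@[simp] theorem LT_co_empty (T : Sq A) : (LT T).co ∅ = 0 := by simp [LT]
@[simp] theorem DT_co_empty (c : A → ℤ) (T : Sq A) : (DT c T).co ∅ = 1 :=
  ex_co_empty (by simp)
@[simp] theorem FT_co_empty (c : A → ℤ) (T : Sq A) : (FT c T).co ∅ = 1 :=
  ex_co_empty (by simp)
@[simp] theorem GT_co_empty (c : A → ℤ) (T : Sq A) : (GT c T).co ∅ = 1 :=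
  ex_co_empty (by simp)

theorem DT_Z0 (c : A → ℤ) (T : Sq A) : Z0 c (DT c T) := Z0.ex (zz_Z0 c _).neg
theorem ivDT_Z0 (c : A → ℤ) (T : Sq A) : Z0 c (iv (DT c T)) := Z0.iv (DT_Z0 c T)

theorem ex_LT {T : Sq A} (h0 : T.co ∅ = 0) : ex (LT T) = iv (1 - T) := by
  rw [LT, ← iv_ex (by simp), ex_lg (by simp [h0])]

/-- `1/(1-T) = F G / D` -/
theorem iv_one_sub_eq (c : A → ℤ) {T : Sq A} (h0 : T.co ∅ = 0) :
    iv (1 - T) = FT c T * GT c T * iv (DT c T) := by
  rw [← ex_LT h0, split3 c (LT T), ex_add (by simp) (by simp), ex_add (by simp) (by simp),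
    DT, iv_ex (by simp), neg_neg, FT, GT]
  ring

/-- the Jacobian: `1 - dg log D = S / D` -/
theorem jac (Y : Finset A) (c : A → ℤ) {T : Sq A} (hT : Lin Y T) (h0 : T.co ∅ = 0) :
    1 - dg Y (lg (DT c T)) = iv (DT c T) * zz c (FT c T * GT c T) := by
  have h1 : dg Y (lg (DT c T)) = - zz c (dg Y (LT T)) := by
    rw [DT, lg_ex (by simp), dg_neg, zz_dg]
  have h2 : dg Y (LT T) = iv (1 - T) - 1 := by
    rw [LT, dg_neg, dg_lg Y (by simp [h0]), dg_sub, dg_one, hT.dg]
    have : iv (1 - T) * (1 - T) = 1 := iv_mul (by simp [h0])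
    linear_combination -this
  have h3 : zz c (1 : Sq A) = 1 := (Z0.one c).zz
  rw [h1, h2, zz_sub, h3, iv_one_sub_eq c h0, mul_comm _ (iv (DT c T)),
    zz_Z0_mul (ivDT_Z0 c T)]
  ring

theorem Pos.pow {c : A → ℤ} {x : Sq A} (hx : Pos c x) (k : ℕ) : Pos c (x ^ (k + 1)) := by
  induction k with
  | zero => simpa using hx
  | succ k ih => rw [pow_succ]; exact Su.mul ih hx (by intro i j hi hj; omega)
theorem Neg.pow {c : A → ℤ} {x : Sq A} (hx : Neg c x) (k : ℕ) : Neg c (x ^ (k + 1)) := by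
  induction k with
  | zero => simpa using hx
  | succ k ih => rw [pow_succ]; exact Su.mul ih hx (by intro i j hi hj; omega)

theorem Pos.one_sub_ex {c : A → ℤ} {x : Sq A} (hx : Pos c x) : Pos c (1 - ex x) := by
  have h : 1 - ex x = - ∑ k ∈ range (Fintype.card A),
      (((k + 1).factorial : ℚ)⁻¹) • x ^ (k + 1) := by
    rw [ex, Finset.sum_range_succ']; simp
  rw [h]
  exact Su.neg (Su.sum _ _ fun k _ => Su.smul (hx.pow k) _)
theorem Neg.one_sub_ex {c : A → ℤ} {x : Sq A} (hx : Neg c x) : Neg c (1 - ex x) := by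
  have h : 1 - ex x = - ∑ k ∈ range (Fintype.card A),
      (((k + 1).factorial : ℚ)⁻¹) • x ^ (k + 1) := by
    rw [ex, Finset.sum_range_succ']; simp
  rw [h]
  exact Su.neg (Su.sum _ _ fun k _ => Su.smul (hx.pow k) _)

/-- the hatted factors of `T / D` -/
theorem hat_eq (hh : HatS) (c : A → ℤ) {T : Sq A} (h0 : T.co ∅ = 0) :
    fh c (T * iv (DT c T)) = 1 - iv (FT c T) ∧ gh c (T * iv (DT c T)) = 1 - iv (GT c T) := by
  have hf : Pos c (1 - iv (FT c T)) := by
    rw [FT, iv_ex (by simp)]; exact Pos.one_sub_ex (Su.neg (pp_Pos c _))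
  have hg : Neg c (1 - iv (GT c T)) := by
    rw [GT, iv_ex (by simp)]; exact Neg.one_sub_ex (Su.neg (nn_Neg c _))
  have hd := ivDT_Z0 c T
  have hF : (FT c T).co ∅ = 1 := by simp
  have hG : (GT c T).co ∅ = 1 := by simp
  have key : T * iv (DT c T) + (1 - iv (FT c T)) * (1 - iv (GT c T))
      = iv (DT c T) - 1 + (1 - iv (FT c T)) + (1 - iv (GT c T)) := by
    have e1 := iv_one_sub_eq c h0
    have e2 : iv (1 - T) * (1 - T) = 1 := iv_mul (by simp [h0])
    rw [e1] at e2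
    have e3 : iv (FT c T) * FT c T = 1 := iv_mul hF
    have e4 : iv (GT c T) * GT c T = 1 := iv_mul hG
    have e5 : iv (DT c T) * (1 - T) = iv (FT c T) * iv (GT c T) := by
      calc iv (DT c T) * (1 - T)
          = (iv (FT c T) * FT c T) * (iv (GT c T) * GT c T) * (iv (DT c T) * (1 - T)) := by
            rw [e3, e4]; ring
        _ = iv (FT c T) * iv (GT c T) * (FT c T * GT c T * iv (DT c T) * (1 - T)) := by ring
        _ = _ := by rw [e2, mul_one]
    linear_combination -e5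
  have h1 : Z0 c (1 : Sq A) := Z0.one c
  have hu := (hh A c (T * iv (DT c T)) (by simp [h0])).2.1 (1 - iv (FT c T)) (1 - iv (GT c T))
    (by rw [key, pp_add, pp_add, pp_sub, hd.pp, h1.pp, hf.pp, hg.pp]; ring)
    (by rw [key, nn_add, nn_add, nn_sub, hd.nn, h1.nn, hf.nn, hg.nn]; ring)
  exact ⟨hu.1.symm, hu.2.symm⟩

variable (hh : HatS) (Y : Finset A) (c : A → ℤ) {T : Sq A} (hT : Lin Y T)
include hT

theorem Lin.co_empty : T.co ∅ = 0 := by
  by_contra h
  have := hT ∅ h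
  simp at this

include hh

theorem up_Fh : sc Y (iv (DT c T)) (Fh c T) = FT c T := by
  have h0 := hT.co_empty
  rw [← sc_Fh Y (ivDT_Z0 c T), hT.sc, Fh, (hat_eq hh c h0).1, sub_sub_cancel, iv_iv (by simp)]

theorem up_Gh : sc Y (iv (DT c T)) (Gh c T) = GT c T := by
  have h0 := hT.co_empty
  rw [← sc_Gh Y (ivDT_Z0 c T), hT.sc, Gh, (hat_eq hh c h0).2, sub_sub_cancel, iv_iv (by simp)]

theorem up_lh : sc Y (iv (DT c T)) (lh c T) = pp c (LT T) + nn c (LT T) := by
  rw [lh, sc_add, sc_lg _ _ (by simp), sc_lg _ _ (by simp), up_Fh hh Y c hT, up_Gh hh Y c hT,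
    FT, GT, lg_ex (by simp), lg_ex (by simp)]

theorem up_Jh : sc Y (iv (DT c T)) (Jh c T) =
    ex (pr c (LT T) (LT T)) * iv (zz c (FT c T * GT c T)) := by
  rw [Jh, sc_mul, sc_ex, sc_pr Y (ivDT_Z0 c T), up_lh hh Y c hT, pr_left, pr_right, sc_iv,
    sc_zz Y (ivDT_Z0 c T), sc_mul, up_Fh hh Y c hT, up_Gh hh Y c hT]

omit hh

/-- the step -/
theorem step (hY : 1 ≤ Y.card) (X : Sq A) :
    (DT c T ^ (Y.card - 1) * zz c (FT c T * GT c T) * sc Y (iv (DT c T)) X).co univ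
      = X.co univ := by
  have h0 := hT.co_empty
  rw [← lagrange Y (DT_co_empty c T) X, jac Y c hT h0]
  congr 1
  obtain ⟨m, hm⟩ := Nat.exists_eq_add_of_le' hY
  rw [hm, Nat.add_sub_cancel, pow_succ]
  have := iv_mul (DT_co_empty c T)
  linear_combination (-(DT c T ^ m * zz c (FT c T * GT c T) * sc Y (iv (DT c T)) X)) * this

end Sq

end Pool.MP_ef6aaf_al.EF
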