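import Pool.Agent.Lib.MP_ef6aaf_al.EF.QStep

/-!
The one vertex formula V1 and the two vertex formula V2.
-/

set_option autoImplicit false

namespace Pool.MP_ef6aaf_al.EF

open Finset Sq

namespace Sq

variable {A : Type} [DecidableEq A] [Fintype A]

theorem ex_nsmul {x : Sq A} (hx : x.co ∅ = 0) (k : ℕ) : ex ((k : ℚ) • x) = ex x ^ k := by
  induction k with
  | zero => simp
  | succ k ih =>
    rw [pow_succ, ← ih, ← ex_add (by simp [hx]) hx]
    congr 1
    push_cast
    rw [add_smul, one_smul]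

/-- `exp((1-M) L_0) = D^(M-1)` -/
theorem ex_zz_LT (c : A → ℤ) (T : Sq A) {M : ℕ} (hM : 1 ≤ M) :
    ex ((1 - (M : ℚ)) • zz c (LT T)) = DT c T ^ (M - 1) := by
  rw [DT, ← ex_nsmul (by simp)]
  congr 1
  rw [Nat.cast_sub hM, Nat.cast_one, smul_neg, ← neg_smul, neg_sub]

end Sq

theorem v1 (hh : HatS) : V1S := by
  intro A _ _ _ c
  have hl : Lin (univ : Finset A) (va univ) := Lin.va (Finset.Subset.refl _)
  have hM : 1 ≤ Fintype.card A := Fintype.card_pos
  have hs := step univ c hl (by rw [Finset.card_univ]; exact hM) (Jh c (va univ))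
  rw [up_Jh hh univ c hl, Finset.card_univ] at hs
  rw [← hs]
  congr 1
  have e1 : (- lg (1 - va (univ : Finset A))) = LT (va univ) := rfl
  rw [e1, ex_add (by simp) (by rw [pr_co_empty]), ex_zz_LT c _ hM]
  have hS : (zz c (FT c (va univ) * GT c (va univ))).co ∅ = 1 := by simp
  have := mul_iv hS
  linear_combination (-(DT c (va univ) ^ (Fintype.card A - 1)) *
    ex (pr c (LT (va univ)) (LT (va univ)))) * this

theorem v2 (hh : HatS) : V2S := by
  intro A _ _ t h c M hM hY1 hY2
  set U := ty t h true true with hU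
  set V := ty t h false false with hV
  set P := ty t h false true with hP
  set Q := ty t h true false with hQ
  set Y1 := univ.filter (fun a => h a = true) with hY1d
  set Y2 := univ.filter (fun a => t a = false) with hY2d
  have hUY1 : U ⊆ Y1 := fun a ha => by
    simp only [hU, ty, mem_filter] at ha; simp [hY1d, ha.2.2]
  have hPY1 : P ⊆ Y1 := fun a ha => by
    simp only [hP, ty, mem_filter] at ha; simp [hY1d, ha.2.2]
  have hQY1 : Disjoint Q Y1 := Finset.disjoint_left.2 fun a ha hb => by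
    simp only [hQ, ty, mem_filter] at ha
    simp only [hY1d, mem_filter] at hb
    simp [ha.2.2] at hb
  have hVY1 : Disjoint V Y1 := Finset.disjoint_left.2 fun a ha hb => by
    simp only [hV, ty, mem_filter] at ha
    simp only [hY1d, mem_filter] at hb
    simp [ha.2.2] at hb
  have hVY2 : V ⊆ Y2 := fun a ha => by
    simp only [hV, ty, mem_filter] at ha; simp [hY2d, ha.2.1]
  have hPY2 : P ⊆ Y2 := fun a ha => by
    simp only [hP, ty, mem_filter] at ha; simp [hY2d, ha.2.1]
  have hUY2 : Disjoint U Y2 := Finset.disjoint_left.2 fun a ha hb => by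
    simp only [hU, ty, mem_filter] at ha
    simp only [hY2d, mem_filter] at hb
    simp [ha.2.1] at hb
  have hQY2 : Disjoint Q Y2 := Finset.disjoint_left.2 fun a ha hb => by
    simp only [hQ, ty, mem_filter] at ha
    simp only [hY2d, mem_filter] at hb
    simp [ha.2.1] at hb
  -- the two elements
  set T1 : Sq A := va U + va P * va Q * iv (1 - va V) with hT1
  set K : Sq A := LT (va V) with hK
  set L1 : Sq A := LT T1 with hL1
  have hv0 : (1 - va V).co ∅ = 1 := by simp
  have hLL : LL t h = K + L1 := by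
    have e : (1 - va U) * (1 - va V) - va P * va Q = (1 - va V) * (1 - T1) := by
      have := mul_iv hv0
      rw [hT1]
      linear_combination (va P * va Q) * this
    rw [LL, ← hU, ← hV, ← hP, ← hQ, e, lg_mul hv0 (by simp [hT1]), hK, hL1, Sq.LT, Sq.LT]
    ring
  have hlin1 : Lin Y1 T1 :=
    (Lin.va hUY1).add (((Lin.va hPY1).mul (Free.va hQY1)).mul
      (((Free.one _).sub (Free.va hVY1)).iv))
  have hfree1 : Free Y1 K := (((Free.one _).sub (Free.va hVY1)).lg).neg
  have hlin2 : Lin Y2 (va V) := Lin.va hVY2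
  have hz1 := ivDT_Z0 c T1
  have hz2 := ivDT_Z0 c (va V)
  -- first step
  set X1 : Sq A := Jh c T1 * ex ((1 - (M : ℚ)) • zz c K + pr c K K +
    (pr c K (lh c T1) + pr c (lh c T1) K)) with hX1
  have hK0 : K.co ∅ = 0 := by simp [hK]
  have hL10 : L1.co ∅ = 0 := by simp [hL1]
  have hS1 : (zz c (FT c T1 * GT c T1)).co ∅ = 1 := by simp
  have hS2 : (zz c (FT c (va V) * GT c (va V))).co ∅ = 1 := by simp
  have hscK : sc Y1 (iv (DT c T1)) K = K := hfree1.sc _
  have s1 := step Y1 c hlin1 (by rw [hY1]; exact hM) X1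
  have e1 : sc Y1 (iv (DT c T1)) X1 = ex (pr c L1 L1) * iv (zz c (FT c T1 * GT c T1)) *
      ex ((1 - (M : ℚ)) • zz c K + pr c K K + (pr c K L1 + pr c L1 K)) := by
    rw [hX1, sc_mul, up_Jh hh Y1 c hlin1, sc_ex, sc_add, sc_add, sc_add, sc_smul, sc_zz Y1 hz1,
      sc_pr Y1 hz1, sc_pr Y1 hz1, sc_pr Y1 hz1, hscK, up_lh hh Y1 c hlin1, pr_left, pr_right]
  have c1 : (ex ((1 - (M : ℚ)) • zz c (LL t h) + pr c (LL t h) (LL t h))).co univ = X1.co univ := by
    rw [← s1, e1, hY1]
    congr 1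
    have e2 : (1 - (M : ℚ)) • zz c (LL t h) + pr c (LL t h) (LL t h) =
        (1 - (M : ℚ)) • zz c L1 + (pr c L1 L1 + ((1 - (M : ℚ)) • zz c K + pr c K K +
          (pr c K L1 + pr c L1 K))) := by
      rw [hLL, zz_add, pr_add_left, pr_add_right, pr_add_right, smul_add]
      ring
    rw [e2, ex_add (by simp [hL10]) (by simp [pr_co_empty, hK0]),
      ex_add (by simp [pr_co_empty]) (by simp [pr_co_empty, hK0]), ex_zz_LT c T1 hM]
    have := mul_iv hS1
    linear_combination (-(DT c T1 ^ (M - 1)) * ex (pr c L1 L1) *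
      ex ((1 - (M : ℚ)) • zz c K + pr c K K + (pr c K L1 + pr c L1 K))) * this
  -- second step
  have s2 := step Y2 c hlin2 (by rw [hY2]; exact hM) (XX c U V P Q)
  have hsT : sc Y2 (iv (DT c (va V))) (Tht c U V P Q) = T1 := by
    have := iv_one_sub_eq c (T := va V) (by simp)
    rw [Tht, sc_add, sc_mul, sc_mul, sc_mul, (Free.va hUY2).sc, (Lin.va hPY2).sc,
      (Free.va hQY2).sc, up_Fh hh Y2 c hlin2, up_Gh hh Y2 c hlin2, hT1, this]
    ring
  have e3 : sc Y2 (iv (DT c (va V))) (XX c U V P Q) =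
      ex (pr c K K) * iv (zz c (FT c (va V) * GT c (va V))) * Jh c T1 *
        ex (pr c K (lh c T1) + pr c (lh c T1) K) := by
    rw [XX, sc_mul, sc_mul, up_Jh hh Y2 c hlin2, ← sc_Jh Y2 hz2, hsT, sc_ex, sc_add,
      sc_pr Y2 hz2, sc_pr Y2 hz2, ← sc_lh Y2 hz2, ← sc_lh Y2 hz2, hsT, sc_lh Y2 hz2,
      up_lh hh Y2 c hlin2, pr_left, pr_right]
  rw [c1, ← s2, e3, hY2]
  congr 1
  rw [hX1, ex_add (by simp [pr_co_empty, hK0]) (by simp [pr_co_empty]),
    ex_add (by simp [hK0]) (by simp [pr_co_empty]), ex_zz_LT c (va V) hM]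
  have := mul_iv hS2
  linear_combination (-(DT c (va V) ^ (M - 1)) * ex (pr c K K) * Jh c T1 *
      ex (pr c K (lh c T1) + pr c (lh c T1) K)) * this

end Pool.MP_ef6aaf_al.EF
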