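import Pool.Agent.Lib.MP_ef6aaf_al.EF.Res

set_option autoImplicit false
set_option linter.unusedSectionVars false

/-!
# The two final forms of the residue
-/

namespace Pool.Agent.EF

open Finset MeasureTheory Filter

theorem sum_if_ds_congr {R : Type*} [CommRing R] {A B : Type*} [Fintype A] [Fintype B]
    [DecidableEq A] [DecidableEq B] (e : A ≃ B) (n : R) (c : A → ℤ) (c' : B → ℤ)
    (h : ∀ a, c' (e a) = c a) (P : Equiv.Perm A → Prop) (P' : Equiv.Perm B → Prop)
    [DecidablePred P] [DecidablePred P'] (hP : ∀ θ, P' (e.permCongr θ) ↔ P θ) :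
    ∑ θ : Equiv.Perm A, (if P θ then ds n (csum θ c) else 0) =
      ∑ θ : Equiv.Perm B, (if P' θ then ds n (csum θ c') else 0) := by
  rw [← Equiv.sum_comp e.permCongr]
  refine sum_congr rfl fun θ _ => ?_
  rw [ds_csum_congr e n θ c c' h]
  simp only [hP]

section
variable {A : Type*} [Fintype A] [DecidableEq A]

/-- The residue with only one colour. -/
theorem res_one (nx : Equiv.Perm A) (eps : A → Bool) (c : A → ℤ)
    (e : {a // eps a = true} ≃ {a // eps a = false}) (K : ℂ) (N : ℕ)
    (hN : N + 1 = Fintype.card {a // eps a = true})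
    (hK : ∃ᶠ n in atTop, MeanIs nx eps c (fun _ => false) K n) :
    ∑ θ : Equiv.Perm A, (if ∀ a, eps (nx.symm (θ a)) = ! eps a then
      ds (-(N : ℚ)) (csum θ c) else 0) = 0 := by
  have h1 := res_gen nx eps c (fun _ => false) e (fun σ τ a => rfl) K N hN hK
  refine Eq.trans ?_ h1
  have h2 : ∀ σ τ : Equiv.Perm {a // eps a = true},
      ∏ b, ds (-(N : ℚ)) (csum (cper (nx * kap e σ τ) (fun _ => false) (fun a => rfl) b)
        (fun a => c a.1)) = ds (-(N : ℚ)) (csum (nx * kap e σ τ) c) := by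
    intro σ τ
    rw [Fintype.prod_bool]
    have h3 : IsEmpty {a : A // (fun _ : A => false) a = true} := ⟨fun a => by simpa using a.2⟩
    have h4 : IsEmpty (Orb (cper (nx * kap e σ τ) (fun _ => false) (fun a => rfl) true)) :=
      ⟨fun o => by
        induction o using Quotient.inductionOn with
        | _ a => exact h3.false a⟩
    rw [ds_empty, one_mul]
    have e2 : {a : A // (fun _ : A => false) a = false} ≃ A := Equiv.subtypeUnivEquiv (fun a => rfl)
    rw [ds_csum_congr (Equiv.subtypeUnivEquiv (p := fun a : A => (fun _ : A => false) a = false)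
      (fun a => rfl)) (-(N : ℚ)) (cper (nx * kap e σ τ) (fun _ => false) (fun a => rfl) false)
      (fun a => c a.1) c (fun a => rfl)]
    have hθ : (Equiv.subtypeUnivEquiv (p := fun a : A => (fun _ : A => false) a = false)
        (fun a => rfl)).permCongr (cper (nx * kap e σ τ) (fun _ => false) (fun a => rfl) false) =
        nx * kap e σ τ := by
      ext a
      rfl
    rw [hθ]
  simp only [h2]
  rw [← Fintype.sum_prod_type' (f := fun σ τ => ds (-(N : ℚ)) (csum (nx * kap e σ τ) c))]
  rw [← Finset.sum_filter]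
  have h5 : ∑ p : Equiv.Perm {a // eps a = true} × Equiv.Perm {a // eps a = true},
      ds (-(N : ℚ)) (csum (nx * kap e p.1 p.2) c) =
      ∑ κ : {κ : Equiv.Perm A // ∀ a, eps (κ a) = ! eps a}, ds (-(N : ℚ)) (csum (nx * κ.1) c) := by
    rw [← Equiv.sum_comp (kapEquiv e)]
    rfl
  rw [h5]
  have h6 : ∑ κ : {κ : Equiv.Perm A // ∀ a, eps (κ a) = ! eps a},
      ds (-(N : ℚ)) (csum (nx * κ.1) c) =
      ∑ κ : Equiv.Perm A, if ∀ a, eps (κ a) = ! eps a then ds (-(N : ℚ)) (csum (nx * κ) c) else 0 := by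
    rw [← Finset.sum_filter, ← Finset.sum_subtype_eq_sum_filter, Finset.subtype_univ]
  rw [h6, ← Finset.sum_filter]
  rw [Finset.sum_filter, Finset.sum_filter, ← Equiv.sum_comp (Equiv.mulLeft nx)]
  apply sum_congr rfl
  intro κ _
  simp only [Equiv.coe_mulLeft, Equiv.Perm.mul_apply, Equiv.symm_apply_apply]
  by_cases h : ∀ a, eps (κ a) = ! eps a
  · rw [if_pos h, if_pos h]
    rfl
  · rw [if_neg h, if_neg h]

end

/-- the exchange of the copies of the word and of its inverse -/
def exA (k : ℕ) {T : Type*} (rot : Equiv.Perm T) : Equiv.Perm ((Bool × Fin k) × T) where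
  toFun a := if a.1.1 then ((false, a.1.2), rot a.2) else ((true, a.1.2), rot.symm a.2)
  invFun a := if a.1.1 then ((false, a.1.2), rot a.2) else ((true, a.1.2), rot.symm a.2)
  left_inv := by
    rintro ⟨⟨b, q⟩, t⟩
    cases b <;> simp
  right_inv := by
    rintro ⟨⟨b, q⟩, t⟩
    cases b <;> simp

theorem epsA_exA (k : ℕ) {T : Type*} (rot : Equiv.Perm T) (eps : T → Bool)
    (a : (Bool × Fin k) × T) : epsA k rot eps (exA k rot a) = ! epsA k rot eps a := by
  obtain ⟨⟨b, q⟩, t⟩ := a
  cases b <;> simp [exA, epsA]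

/-- the `+` and the `-` arcs -/
def eA (k : ℕ) {T : Type*} (rot : Equiv.Perm T) (eps : T → Bool) :
    {a // epsA k rot eps a = true} ≃ {a // epsA k rot eps a = false} :=
  (exA k rot).subtypeEquiv (fun a => by rw [epsA_exA]; simp)

theorem card_plus (k : ℕ) {T : Type*} [Fintype T] [DecidableEq T] (rot : Equiv.Perm T)
    (eps : T → Bool) :
    Fintype.card {a // epsA k rot eps a = true} = k * Fintype.card T := by
  have h1 := Fintype.card_congr (eA k rot eps)
  have h2 := Fintype.card_congr (Equiv.sumCompl (fun a => epsA k rot eps a = true))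
  have h3 : Fintype.card {a // ¬ epsA k rot eps a = true} =
      Fintype.card {a // epsA k rot eps a = false} :=
    Fintype.card_congr (Equiv.subtypeEquivRight (fun a => by simp))
  rw [Fintype.card_sum, h3, ← h1, Fintype.card_prod, Fintype.card_prod, Fintype.card_bool,
    Fintype.card_fin] at h2
  have h4 : 2 * Fintype.card {a // epsA k rot eps a = true} = 2 * (k * Fintype.card T) := by
    rw [two_mul, h2]
    ring
  omega

theorem resA_of_mean (l k : ℕ) (hl : 1 ≤ l) (hk : 1 ≤ k) (c : Fin l → ℤ) (ε : Fin l → Bool) (K : ℂ)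
    (hK : ∃ᶠ n in atTop, MeanIs (nxA k (finRotate l)) (epsA k (finRotate l) ε) (cA k c)
      (fun _ => false) K n) :
    ∑ θ : Equiv.Perm (Arc k l), (if ∀ a, tl ε (θ a) = hd ε a then
      ds (1 - ((k * l : ℕ) : ℚ)) (csum θ (lab c)) else 0) = 0 := by
  have hcard := card_plus k (finRotate l) ε
  rw [Fintype.card_fin] at hcard
  have hpos : 0 < k * l := Nat.mul_pos hk hl
  have h1 := res_one (nxA k (finRotate l)) (epsA k (finRotate l) ε) (cA k c)
    (eA k (finRotate l) ε) K (k * l - 1) (by rw [hcard]; omega) hK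
  have hN : (-((k * l - 1 : ℕ) : ℚ)) = 1 - ((k * l : ℕ) : ℚ) := by
    rw [Nat.cast_sub hpos]
    push_cast
    ring
  rw [hN] at h1
  refine Eq.trans ?_ h1
  symm
  apply sum_if_ds_congr (Equiv.prodAssoc Bool (Fin k) (Fin l))
  · rintro ⟨⟨b, q⟩, t⟩
    rfl
  · intro θ
    have htl : ∀ a : (Bool × Fin k) × Fin l, tl ε (Equiv.prodAssoc Bool (Fin k) (Fin l) a) =
        epsA k (finRotate l) ε ((nxA k (finRotate l)).symm a) := by
      rintro ⟨⟨b, q⟩, t⟩
      cases b
      · have h2 : (nxA k (finRotate l)).symm ((false, q), t) = ((false, q), finRotate l t) := by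
          rw [Equiv.symm_apply_eq, nxA_false, Equiv.symm_apply_apply]
        rw [h2]
        change (! ε t) = ! ε ((finRotate l).symm (finRotate l t))
        rw [Equiv.symm_apply_apply]
      · have h2 : (nxA k (finRotate l)).symm ((true, q), t) = ((true, q), (finRotate l).symm t) := by
          rw [Equiv.symm_apply_eq, nxA_true, Equiv.apply_symm_apply]
        rw [h2]
        rfl
    have hhd : ∀ a : (Bool × Fin k) × Fin l, hd ε (Equiv.prodAssoc Bool (Fin k) (Fin l) a) =
        ! epsA k (finRotate l) ε a := by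
      rintro ⟨⟨b, q⟩, t⟩
      cases b
      · change ε ((finRotate l).symm t) = ! ! ε ((finRotate l).symm t)
        rw [Bool.not_not]
      · rfl
    constructor
    · intro h2 a
      have h3 := h2 (Equiv.prodAssoc Bool (Fin k) (Fin l) a)
      rw [Equiv.permCongr_apply, Equiv.symm_apply_apply, htl, hhd] at h3
      exact h3
    · intro h2 a
      obtain ⟨a, rfl⟩ := (Equiv.prodAssoc Bool (Fin k) (Fin l)).surjective a
      rw [Equiv.permCongr_apply, Equiv.symm_apply_apply, htl, hhd]
      exact h2 a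

/-! ### Case (S) -/

section
variable {A : Type*} [Fintype A] [DecidableEq A]

/-- The residue if `nx` exchanges the `+` and the `-` arcs, and the colour is the sign. -/
theorem res_two (nx : Equiv.Perm A) (eps : A → Bool) (c : A → ℤ)
    (hnx : ∀ a, eps (nx a) = ! eps a) (K : ℂ) (N : ℕ)
    (hN : N + 1 = Fintype.card {a // eps a = true})
    (hK : ∃ᶠ n in atTop, MeanIs nx eps c (fun a => ! eps a) K n) :
    (∑ θ : Equiv.Perm {a // eps a = true}, ds (-(N : ℚ)) (csum θ (fun a => c a.1))) *
      (∑ θ : Equiv.Perm {a // eps a = false}, ds (-(N : ℚ)) (csum θ (fun a => c a.1))) = 0 := by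
  have hnx' : ∀ a, eps (nx.symm a) = ! eps a := by
    intro a
    have := hnx (nx.symm a)
    rw [Equiv.apply_symm_apply] at this
    rw [this, Bool.not_not]
  let e : {a // eps a = true} ≃ {a // eps a = false} :=
    nx.symm.subtypeEquiv (fun a => by rw [hnx']; simp)
  have he : ∀ a, (e a).1 = nx.symm a.1 := fun a => rfl
  have hcol : ∀ σ τ a, (fun a => ! eps a) ((nx * kap e σ τ : Equiv.Perm A) a) = (fun a => ! eps a) a := by
    intro σ τ a
    simp only [Equiv.Perm.mul_apply, hnx, eps_kap, Bool.not_not]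
  have h1 := res_gen nx eps c (fun a => ! eps a) e hcol K N hN hK
  -- the two permutations
  let ρ : Equiv.Perm {a // eps a = true} := (nx.trans nx).subtypeEquiv (fun a => by
    simp only [Equiv.trans_apply, hnx, Bool.not_not])
  let e1 : {a // (fun a => ! eps a) a = false} ≃ {a // eps a = true} :=
    Equiv.subtypeEquivRight (fun a => by simp)
  let e2 : {a // (fun a => ! eps a) a = true} ≃ {a // eps a = true} :=
    (Equiv.subtypeEquivRight (fun a => by simp) : _ ≃ {a // eps a = false}).trans e.symm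
  have h2 : ∀ σ τ : Equiv.Perm {a // eps a = true},
      ∏ b, ds (-(N : ℚ)) (csum (cper (nx * kap e σ τ) (fun a => ! eps a) (hcol σ τ) b)
        (fun a => c a.1)) =
      ds (-(N : ℚ)) (csum σ⁻¹ (fun a => c a.1)) *
        ds (-(N : ℚ)) (csum (ρ * τ) (fun a => c (e a).1)) := by
    intro σ τ
    rw [Fintype.prod_bool, mul_comm]
    congr 1
    · rw [ds_csum_congr e1 (-(N : ℚ)) (cper (nx * kap e σ τ) (fun a => ! eps a) (hcol σ τ) false)
        (fun a => c a.1) (fun a => c a.1) (fun a => rfl)]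
      have hθ : e1.permCongr (cper (nx * kap e σ τ) (fun a => ! eps a) (hcol σ τ) false) = σ⁻¹ := by
        ext a
        rw [Equiv.permCongr_apply]
        change nx (kap e σ τ a.1) = (σ⁻¹ a).1
        rw [kap_true, he, Equiv.apply_symm_apply]
        rfl
      rw [hθ]
    · rw [ds_csum_congr e2 (-(N : ℚ)) (cper (nx * kap e σ τ) (fun a => ! eps a) (hcol σ τ) true)
        (fun a => c a.1) (fun a => c (e a).1) (fun a => by
          change c (e (e.symm _)).1 = _
          rw [Equiv.apply_symm_apply]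
          rfl)]
      have hθ : e2.permCongr (cper (nx * kap e σ τ) (fun a => ! eps a) (hcol σ τ) true) = ρ * τ := by
        ext a
        rw [Equiv.permCongr_apply]
        change nx (nx (kap e σ τ (e a).1)) = nx (nx (τ a).1)
        rw [kap_false]
      rw [hθ]
  simp only [h2] at h1
  refine Eq.trans ?_ h1
  rw [Finset.sum_mul_sum]
  rw [← Equiv.sum_comp (Equiv.inv (Equiv.Perm {a // eps a = true}))]
  apply sum_congr rfl
  intro σ _
  have h3 : ∑ θ : Equiv.Perm {a // eps a = false}, ds (-(N : ℚ)) (csum σ⁻¹ (fun a => c a.1)) *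
      ds (-(N : ℚ)) (csum θ (fun a => c a.1)) =
      ∑ θ : Equiv.Perm {a // eps a = true}, ds (-(N : ℚ)) (csum σ⁻¹ (fun a => c a.1)) *
        ds (-(N : ℚ)) (csum θ (fun a => c (e a).1)) := by
    rw [← Equiv.sum_comp e.permCongr]
    apply sum_congr rfl
    intro θ _
    rw [ds_csum_congr e (-(N : ℚ)) θ (fun a => c (e a).1) (fun a => c a.1) (fun a => rfl)]
  refine Eq.trans ?_ (h3.trans ?_)
  · rfl
  · rw [← Equiv.sum_comp (Equiv.mulLeft ρ)]
    rfl

end

/-- the arcs of one colour -/
def arcS (s : ℕ) (v : Bool) :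
    {a : (Bool × Fin 1) × (Fin s × Bool) // (! a.2.2) = v} ≃ Bool × Fin s where
  toFun a := (a.1.1.1, a.1.2.1)
  invFun a := ⟨((a.1, 0), (a.2, ! v)), by simp⟩
  left_inv := by
    rintro ⟨⟨⟨b, q⟩, ⟨t, u⟩⟩, h⟩
    have hq : q = 0 := Subsingleton.elim _ _
    subst hq
    simp only at h
    subst h
    simp
  right_inv := by
    rintro ⟨b, t⟩
    rfl

theorem resS_of_mean (s : ℕ) (hs : 1 ≤ s) (a b : Fin s → ℤ) (K : ℂ)
    (hK : ∃ᶠ n in atTop, MeanIs (nxA 1 (rotS s)) (epsA 1 (rotS s) (fun t => ! t.2))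
      (cA 1 (fun t => if t.2 then b t.1 else a t.1)) (colA 1 (fun t => t.2)) K n) :
    (∑ θ : Equiv.Perm (Bool × Fin s), ds (1 - ((2 * s : ℕ) : ℚ))
      (csum θ (fun a' => if a'.1 then a a'.2 else - a a'.2))) *
    (∑ θ : Equiv.Perm (Bool × Fin s), ds (1 - ((2 * s : ℕ) : ℚ))
      (csum θ (fun a' => if a'.1 then b a'.2 else - b a'.2))) = 0 := by
  have heps : epsA 1 (rotS s) (fun t => ! t.2) = fun a => ! a.2.2 := by
    funext a
    obtain ⟨⟨v, q⟩, ⟨t, u⟩⟩ := a
    cases v <;> cases u <;> rfl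
  have hcol : colA 1 (fun t : Fin s × Bool => t.2) = fun a => ! ! a.2.2 := by
    funext a
    simp [colA]
  have hcard := card_plus 1 (rotS s) (fun t => ! t.2)
  rw [Fintype.card_prod, Fintype.card_fin, Fintype.card_bool] at hcard
  rw [heps, hcol] at hK
  simp only [heps] at hcard
  have hnx : ∀ x : (Bool × Fin 1) × (Fin s × Bool), (fun a : (Bool × Fin 1) × (Fin s × Bool) => ! a.2.2)
      (nxA 1 (rotS s) x) = ! (fun a : (Bool × Fin 1) × (Fin s × Bool) => ! a.2.2) x := by
    rintro ⟨⟨v, q⟩, ⟨t, u⟩⟩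
    cases v <;> cases u <;> rfl
  have h1 := res_two (nxA 1 (rotS s)) (fun a => ! a.2.2)
    (cA 1 (fun t => if t.2 then b t.1 else a t.1)) hnx K (2 * s - 1) (by
      have : Fintype.card {x : (Bool × Fin 1) × (Fin s × Bool) // (! x.2.2) = true} = 2 * s := by
        rw [← Fintype.card_congr (arcS s true).symm, Fintype.card_prod, Fintype.card_bool,
          Fintype.card_fin]
      rw [this]
      omega) hK
  have hN : (-((2 * s - 1 : ℕ) : ℚ)) = 1 - ((2 * s : ℕ) : ℚ) := by
    rw [Nat.cast_sub (by omega)]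
    push_cast
    ring
  rw [hN] at h1
  refine Eq.trans ?_ h1
  congr 1
  · symm
    apply sum_ds_congr (arcS s true)
    rintro ⟨⟨⟨v, q⟩, ⟨t, u⟩⟩, h⟩
    simp only [Bool.not_eq_eq_eq_not, Bool.not_true] at h
    subst h
    cases v <;> rfl
  · symm
    apply sum_ds_congr (arcS s false)
    rintro ⟨⟨⟨v, q⟩, ⟨t, u⟩⟩, h⟩
    simp only [Bool.not_eq_eq_eq_not, Bool.not_false] at h
    subst h
    cases v <;> rfl

end Pool.Agent.EF
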