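import Pool.Agent.Lib.MP_ef6aaf_al.EF.Fft

set_option autoImplicit false

/-!
# Weingarten's formula
-/

namespace Pool.Agent.EF

open Finset MeasureTheory

/-- the number of cycles (fixed points included) -/
noncomputable def ncyc {α : Type*} (σ : Equiv.Perm α) : ℕ :=
  Nat.card (Quotient (Equiv.Perm.SameCycle.setoid σ))

/-- functions which are constant on the cycles -/
def fixEquiv {α β : Type*} (σ : Equiv.Perm α) :
    {i : α → β // i ∘ σ = i} ≃ (Quotient (Equiv.Perm.SameCycle.setoid σ) → β) where
  toFun i := Quotient.lift i.1 (by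
    intro a b hab
    obtain ⟨k, hk⟩ := hab
    have h0 : ∀ (x : α), i.1 (σ x) = i.1 x := fun x => congrFun i.2 x
    have h1 : ∀ (m : ℕ) (x : α), i.1 ((σ ^ m) x) = i.1 x := by
      intro m
      induction m with
      | zero => intro x; rfl
      | succ m ih =>
        intro x
        rw [pow_succ', Equiv.Perm.mul_apply, h0, ih]
    rw [← hk]
    rcases Int.eq_nat_or_neg k with ⟨m, rfl | rfl⟩
    · rw [zpow_natCast, h1]
    · rw [zpow_neg, zpow_natCast]
      have h2 := h1 m ((σ ^ m)⁻¹ a)
      rw [← Equiv.Perm.mul_apply, mul_inv_cancel, Equiv.Perm.one_apply] at h2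
      exact h2)
  invFun f := ⟨fun a => f (Quotient.mk _ a), by
    funext a
    change f _ = f _
    congr 1
    apply Quotient.sound
    exact ⟨-1, by simp⟩⟩
  left_inv i := by
    ext a
    rfl
  right_inv f := by
    funext q
    induction q using Quotient.inductionOn
    rfl

theorem card_fix {α : Type*} [Fintype α] [DecidableEq α] (σ : Equiv.Perm α) (n : ℕ) :
    (∑ i : α → Fin n, if i ∘ σ = i then (1 : ℂ) else 0) = (n : ℂ) ^ ncyc σ := by
  classical
  rw [Finset.sum_boole]
  have h1 : ((univ.filter (fun i : α → Fin n => i ∘ σ = i)).card) =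
      Nat.card {i : α → Fin n // i ∘ σ = i} := by
    rw [Nat.card_eq_fintype_card, Fintype.card_subtype]
  rw [h1, Nat.card_congr (fixEquiv σ), Nat.card_fun, Nat.card_eq_fintype_card (α := Fin n),
    Fintype.card_fin, Nat.cast_pow]
  rfl

/-- the Gram matrix -/
noncomputable def Gm {R : Type*} [CommRing R] (α : Type*) (z : R) :
    Matrix (Equiv.Perm α) (Equiv.Perm α) R :=
  fun τ σ => z ^ ncyc (σ * τ⁻¹)

section
variable {α : Type*} [Fintype α] [DecidableEq α] {n : ℕ}

instance instCompactUn (n : ℕ) : CompactSpace (Un n) := by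
  have hsub : IsCompact {A : Mn n | A ∈ Matrix.unitaryGroup (Fin n) ℂ} := by
    have hK : IsCompact {A : Mn n | ∀ i j, A i j ∈ Metric.closedBall (0 : ℂ) 1} := by
      have h1 := isCompact_univ_pi (fun _ : Fin n => isCompact_univ_pi (fun _ : Fin n =>
        isCompact_closedBall (0 : ℂ) 1))
      have h2 : {A : Mn n | ∀ i j, A i j ∈ Metric.closedBall (0 : ℂ) 1} =
          Set.univ.pi (fun _ : Fin n => Set.univ.pi (fun _ : Fin n =>
            Metric.closedBall (0 : ℂ) 1)) := by
        ext A
        constructor
        · intro h i _ j _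
          exact h i j
        · intro h i j
          exact h i (Set.mem_univ i) j (Set.mem_univ j)
      rw [h2]
      exact h1
    have hcl : IsClosed {A : Mn n | A ∈ Matrix.unitaryGroup (Fin n) ℂ} := by
      have : {A : Mn n | A ∈ Matrix.unitaryGroup (Fin n) ℂ} = {A : Mn n | A * A.conjTranspose = 1} := by
        ext A
        exact Matrix.mem_unitaryGroup_iff
      rw [this]
      exact isClosed_eq (continuous_id.matrix_mul continuous_id.matrix_conjTranspose) continuous_const
    apply hK.of_isClosed_subset hcl
    intro A hA i j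
    rw [mem_closedBall_zero_iff]
    exact entry_norm_bound_of_unitary hA i j
  exact isCompact_iff_compactSpace.mp hsub

variable [MeasurableSpace (Un n)] [BorelSpace (Un n)] (μ : Measure (Un n)) [IsProbabilityMeasure μ]
  [μ.IsMulLeftInvariant]

theorem integrable_of_cont {f : Un n → ℂ} (hf : Continuous f) : Integrable f μ :=
  hf.integrable_of_hasCompactSupport (HasCompactSupport.of_compactSpace f)

theorem cont_tp (i j : α → Fin n) : Continuous (fun y : Un n => tp α (y : Mn n) i j) := by
  have h : Continuous (fun y : Un n => (y : Mn n)) := continuous_subtype_val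
  simp only [tp]
  exact continuous_finsetProd _ fun a _ => h.matrix_elem _ _

/-- the matrix of the integrals -/
noncomputable def XX (j j' : α → Fin n) : Matrix (α → Fin n) (α → Fin n) ℂ :=
  fun i i' => ∫ y : Un n, tp α (y : Mn n) i j * star (tp α (y : Mn n) i' j') ∂μ

theorem XX_comm (j j' : α → Fin n) (g : Un n) :
    XX μ j j' * tp α (g : Mn n) = tp α (g : Mn n) * XX μ j j' := by
  ext i i'
  rw [Matrix.mul_apply, Matrix.mul_apply]
  have h1 : ∑ k, tp α (g : Mn n) i k * XX μ j j' k i' =
      ∫ y : Un n, tp α ((g * y : Un n) : Mn n) i j * star (tp α (y : Mn n) i' j') ∂μ := by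
    simp only [XX]
    simp_rw [← integral_const_mul]
    rw [← integral_finset_sum]
    · congr 1
      funext y
      change _ = tp α ((g : Mn n) * (y : Mn n)) i j * _
      rw [tp_mul, Matrix.mul_apply, Finset.sum_mul]
      apply sum_congr rfl
      intro k _
      ring
    · intro k _
      exact integrable_of_cont μ (continuous_const.mul ((cont_tp k j).mul (cont_tp i' j').star))
  have h2 : ∑ k, XX μ j j' i k * tp α (g : Mn n) k i' =
      ∫ y : Un n, tp α (y : Mn n) i j * star (tp α ((g⁻¹ * y : Un n) : Mn n) i' j') ∂μ := by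
    simp only [XX]
    simp_rw [← integral_mul_const]
    rw [← integral_finset_sum]
    · congr 1
      funext y
      change _ = _ * star (tp α (((g⁻¹ : Un n) : Mn n) * (y : Mn n)) i' j')
      rw [tp_mul, Matrix.mul_apply, star_sum, Finset.mul_sum]
      apply sum_congr rfl
      intro k _
      have h3 : star (tp α ((g⁻¹ : Un n) : Mn n) i' k) = tp α (g : Mn n) k i' := by
        simp only [tp]
        rw [star_prod]
        apply prod_congr rfl
        intro a _
        change star (star ((g : Mn n) (k a) (i' a))) = _
        rw [star_star]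
      rw [StarMul.star_mul, h3]
      ring
    · intro k _
      exact integrable_of_cont μ (((cont_tp i j).mul (cont_tp k j').star).mul continuous_const)
  rw [h1, h2]
  rw [← integral_mul_left_eq_self (μ := μ) _ g]
  congr 1
  funext y
  rw [inv_mul_cancel_left]

/-- Weingarten's formula (multiplied by the determinant of the Gram matrix). -/
theorem wg (hn : Fintype.card α ≤ n) (i i' j j' : α → Fin n) :
    (Gm α (n : ℂ)).det * ∫ y : Un n, tp α (y : Mn n) i j * star (tp α (y : Mn n) i' j') ∂μ =
      ∑ σ : Equiv.Perm α, ∑ τ : Equiv.Perm α,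
        if i ∘ σ = i' ∧ j ∘ τ = j' then (Gm α (n : ℂ)).adjugate σ τ else 0 := by
  obtain ⟨c, hc⟩ := fft hn (XX μ j j') (fun g => XX_comm μ j j' g)
  have h1 : ∀ τ : Equiv.Perm α, ∑ k : α → Fin n, XX μ j j' k (k ∘ τ) =
      if j ∘ τ = j' then 1 else 0 := by
    intro τ
    simp only [XX]
    rw [← integral_finset_sum]
    · have h2 : ∀ y : Un n, ∑ k : α → Fin n,
          tp α (y : Mn n) k j * star (tp α (y : Mn n) (k ∘ τ) j') = if j ∘ τ = j' then 1 else 0 := by
        intro y
        have h3 : ∀ k : α → Fin n, tp α (y : Mn n) k j * star (tp α (y : Mn n) (k ∘ τ) j') =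
            ∏ a, (y : Mn n) (k a) (j a) * star ((y : Mn n) (k a) (j' (τ.symm a))) := by
          intro k
          rw [Finset.prod_mul_distrib]
          congr 1
          simp only [tp]
          rw [star_prod]
          rw [← Equiv.prod_comp τ (fun a => star ((y : Mn n) (k a) (j' (τ.symm a))))]
          apply prod_congr rfl
          intro a _
          rw [Equiv.symm_apply_apply]
          rfl
        simp only [h3]
        rw [← Fintype.piFinset_univ, ← Finset.prod_univ_sum (fun _ : α => (univ : Finset (Fin n)))
          (fun a m => (y : Mn n) m (j a) * star ((y : Mn n) m (j' (τ.symm a))))]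
        have h4 : ∀ a, ∑ m, (y : Mn n) m (j a) * star ((y : Mn n) m (j' (τ.symm a))) =
            if j a = j' (τ.symm a) then 1 else 0 := by
          intro a
          have h5 : star (y : Mn n) * (y : Mn n) = 1 := Matrix.mem_unitaryGroup_iff'.mp y.2
          have h6 := congrFun (congrFun h5 (j' (τ.symm a))) (j a)
          rw [Matrix.mul_apply, Matrix.one_apply] at h6
          rw [← ite_congr (propext (eq_comm (a := j' (τ.symm a)) (b := j a)))
            (fun _ => rfl) (fun _ => rfl), ← h6]
          apply sum_congr rfl
          intro m _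
          rw [mul_comm]
          rfl
        simp only [h4]
        rw [Finset.prod_ite_zero]
        simp only [Finset.prod_const_one, mem_univ, forall_true_left]
        congr 1
        apply propext
        constructor
        · intro h
          funext a
          have := h (τ a)
          rw [Equiv.symm_apply_apply] at this
          exact this
        · intro h a
          rw [← h]
          simp
      simp only [h2]
      rw [integral_const]
      simp
    · intro k _
      exact integrable_of_cont μ ((cont_tp k j).mul (cont_tp (k ∘ τ) j').star)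
  have h2 : (Gm α (n : ℂ)).mulVec c =
      fun τ : Equiv.Perm α => if j ∘ τ = j' then (1 : ℂ) else 0 := by
    funext τ
    rw [← h1 τ]
    simp only [hc, Matrix.mulVec, dotProduct, Gm]
    rw [Finset.sum_comm]
    apply sum_congr rfl
    intro σ _
    rw [← card_fix, Finset.sum_mul]
    apply sum_congr rfl
    intro k _
    have h3 : (k ∘ (σ * τ⁻¹ : Equiv.Perm α) = k) ↔ (k ∘ σ = k ∘ τ) := by
      constructor
      · intro h
        funext a
        have := congrFun h (τ a)
        simpa using this
      · intro h
        funext a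
        have := congrFun h (τ⁻¹ a)
        simpa using this
    by_cases h4 : k ∘ σ = k ∘ τ
    · rw [if_pos h4, if_pos (h3.mpr h4), one_mul]
    · rw [if_neg h4, if_neg (fun h => h4 (h3.mp h)), zero_mul]
  have h3 : ∀ σ, (Gm α (n : ℂ)).det * c σ =
      ∑ τ : Equiv.Perm α, if j ∘ τ = j' then (Gm α (n : ℂ)).adjugate σ τ else 0 := by
    intro σ
    have h4 := congrFun (congrArg (Gm α (n : ℂ)).adjugate.mulVec h2) σ
    rw [Matrix.mulVec_mulVec, Matrix.adjugate_mul, Matrix.smul_mulVec, Matrix.one_mulVec] at h4
    rw [Pi.smul_apply, smul_eq_mul] at h4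
    rw [h4]
    simp only [Matrix.mulVec, dotProduct, mul_ite, mul_one, mul_zero]
  have h4 := hc i i'
  change ∫ y : Un n, tp α (y : Mn n) i j * star (tp α (y : Mn n) i' j') ∂μ = _ at h4
  rw [h4, Finset.mul_sum]
  apply sum_congr rfl
  intro σ _
  by_cases h5 : i ∘ σ = i'
  · rw [if_pos h5, h3]
    apply sum_congr rfl
    intro τ _
    simp only [h5, true_and]
  · rw [if_neg h5, mul_zero]
    symm
    apply Finset.sum_eq_zero
    intro τ _
    rw [if_neg (fun h => h5 h.1)]

end

end Pool.Agent.EF
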